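import Pool.Agent.Helper48.BK.Defs

/-!
# Project HX (MP_3923f3_nt): for almost all coefficient triples the least prime solution of
`a p + b q + c r = 0` has size `m ^ (1/2 + o(1))`

Definitions.  We use `th` (`log` on primes), `lz z` (the model), `Pz`, `Vz`, `win`, `AdN`,
`Admissible`, `Box`, `Cl`, `kp` of project BK (`Pool.Agent.Helper48.BK`).
-/

set_option autoImplicit false

namespace Pool.Agent.Helper30.HX

open Finset
open Pool.Agent.Helper48.BK (th lz Vz Pz win AdN)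

/-- a sign -/
def Sg (s : ℤ) : Prop := s = 1 ∨ s = -1

/-- number of divisors of an integer (`0` for the integer `0`) -/
noncomputable def tau (n : ℤ) : ℝ := (n.natAbs.divisors.card : ℝ)

/-- first coordinate of the cross product of `(x, y, w)` and `(x', y', w')` -/
def dlt (y w y' w' : ℕ) : ℤ := (y : ℤ) * w' - w * y'

/-- the windows: `4 H < a x ≤ 11 H` -/
def Wn (H : ℕ) (a : ℤ) (x : ℕ) : Prop := 4 * (H : ℤ) < a * x ∧ a * x ≤ 11 * H

/-- full ternary sum over `s₁ a x + s₂ b y + s₃ c w = d` with all three products in the window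
`(4 H, 11 H]` -/
noncomputable def TF (f g k : ℕ → ℝ) (H X : ℕ) (s₁ s₂ s₃ : ℤ) (a b c : ℕ) (d : ℤ) : ℝ :=
  ∑ x ∈ Ioc 0 X, ∑ y ∈ Ioc 0 X, ∑ w ∈ Ioc 0 X,
    if s₁ * (a * x) + s₂ * (b * y) + s₃ * (c * w) = d then
      win f 4 11 H a x * win g 4 11 H b y * win k 4 11 H c w else 0

/-- the part of `TF` (with `d = 0`) with `y`, `w` coprime -/
noncomputable def TC (f g k : ℕ → ℝ) (H X : ℕ) (s₁ s₂ s₃ : ℤ) (a b c : ℕ) : ℝ :=
  ∑ x ∈ Ioc 0 X, ∑ y ∈ Ioc 0 X, ∑ w ∈ Ioc 0 X,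
    if s₁ * (a * x) + s₂ * (b * y) + s₃ * (c * w) = 0 ∧ Nat.Coprime y w then
      win f 4 11 H a x * win g 4 11 H b y * win k 4 11 H c w else 0

/-- above `z` the function lives on integers without prime factor up to `z` -/
def Rgh (z : ℕ) (f : ℕ → ℝ) : Prop := ∀ x, z < x → f x ≠ 0 → ∀ p : ℕ, p.Prime → p ∣ x → z < p

/-- equidistribution of `f` in intervals and reduced classes to moduli up to `Q` -/
def APH (f : ℕ → ℝ) (X Q : ℕ) (R ρ : ℝ) : Prop := ∀ q u y₁ y₂ : ℕ, 1 ≤ q → q ≤ Q →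
  Nat.Coprime u q → y₁ ≤ y₂ → y₂ ≤ X →
  |∑ n ∈ (Ioc y₁ y₂).filter (fun n => n ≡ u [MOD q]), f n| ≤ R + ρ * (((y₂ : ℝ) - y₁) / q)

/-- range and windows for one (signed) coefficient `a`, with `s a > 0` -/
def CA (H lo m : ℕ) (s a : ℤ) (x x' : ℕ) : Prop :=
  (lo : ℤ) ≤ s * a ∧ s * a ≤ m ∧ Wn H (s * a) x ∧ Wn H (s * a) x'

/-- the (signed) coefficient vector is `((x,y,w) × (x',y',w')) / e`, it is an integral primitive
vector and satisfies the range and window conditions -/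
def Cnd (H lo m : ℕ) (s₁ s₂ s₃ : ℤ) (x y w x' y' w' : ℕ) (e : ℤ) : Prop :=
  e ∣ (w : ℤ) * x' - x * w' ∧ e ∣ (x : ℤ) * y' - y * x' ∧
  Int.gcd (dlt y w y' w' / e)
    (Int.gcd (((w : ℤ) * x' - x * w') / e) (((x : ℤ) * y' - y * x') / e)) = 1 ∧
  CA H lo m s₁ (dlt y w y' w' / e) x x' ∧
  CA H lo m s₂ (((w : ℤ) * x' - x * w') / e) y y' ∧
  CA H lo m s₃ (((x : ℤ) * y' - y * x') / e) w w'

/-- the primitive coefficient triple `v` (natural numbers, signs `s₁, s₂, s₃`) is orthogonal to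
`(x, y, w)` and `(x', y', w')`, all six products in the window -/
def Trp (H : ℕ) (s₁ s₂ s₃ : ℤ) (x y w x' y' w' : ℕ) (v : ℕ × ℕ × ℕ) : Prop :=
  Nat.gcd v.1 (Nat.gcd v.2.1 v.2.2) = 1 ∧
  s₁ * (v.1 * x) + s₂ * (v.2.1 * y) + s₃ * (v.2.2 * w) = 0 ∧
  s₁ * (v.1 * x') + s₂ * (v.2.1 * y') + s₃ * (v.2.2 * w') = 0 ∧
  (Wn H v.1 x ∧ Wn H v.1 x') ∧ (Wn H v.2.1 y ∧ Wn H v.2.1 y') ∧ (Wn H v.2.2 w ∧ Wn H v.2.2 w')

/-- signed divisors of a nonzero integer (empty for `0`) -/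
noncomputable def sdv (n : ℤ) : Finset ℤ := (Icc (-|n|) |n|).filter (fun e => e ≠ 0 ∧ e ∣ n)

open Classical in
/-- the bound for the part of the inner sum belonging to the Moebius divisor `t` -/
noncomputable def Bd (z F : ℕ) (M R ρ Λ : ℝ) (e : ℤ) (x' t : ℕ) : ℝ :=
  if t ≤ F then
    (if ∃ p : ℕ, p.Prime ∧ z < p ∧ p ∣ e.natAbs * t ∧ p ∣ x' then M * (Λ + 1)
      else R + ρ * (Λ + 1))
  else M * (Λ / F + 1)

/-- the density of the model in a reduced class modulo `q` -/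
noncomputable def gz (z q : ℕ) : ℝ :=
  1 / Vz z * (1 / (q : ℝ) * ∏ p ∈ (Pz z).filter (fun p => ¬ p ∣ q), (1 - 1 / (p : ℝ)))

end Pool.Agent.Helper30.HX
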