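import Mathlib

/-!
# Project HX: size conditions used in the final statement
-/

set_option autoImplicit false

namespace Pool.Agent.Helper30.HX

theorem ev_Fin (A C : ℕ) (ν μ : ℝ) (hν : ν < 1 / 2) (hμ : 1 / 2 < μ) :
    ∀ᶠ n : ℕ in Filter.atTop, (128 : ℝ) ≤ Real.log n ∧
    √n * Real.log n ^ C ≤ ((n : ℝ) / Real.log n ^ (A + 1)) ^ μ ∧
    (n : ℝ) ^ ν ≤ √n / Real.log n ^ (A + 2) ∧
    1 ≤ √n / Real.log n ^ (A + 2) ∧ Real.log n ^ (A + 1) ≤ n := by
  have hlog : Filter.Tendsto (fun n : ℕ => Real.log (n : ℝ)) Filter.atTop Filter.atTop :=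
    Real.tendsto_log_atTop.comp tendsto_natCast_atTop_atTop
  have ev1 : ∀ᶠ n : ℕ in Filter.atTop, (128 : ℝ) ≤ Real.log n := hlog.eventually_ge_atTop _
  have evr : ∀ r s : ℝ, 0 < s → ∀ᶠ n : ℕ in Filter.atTop, Real.log n ^ r ≤ (n : ℝ) ^ s := by
    intro r s hs
    have h1 : ∀ᶠ x : ℝ in Filter.atTop, Real.log x ^ r ≤ x ^ s := by
      have h2 := (isLittleO_log_rpow_rpow_atTop r hs).bound (show (0 : ℝ) < 1 by norm_num)
      filter_upwards [h2, Filter.eventually_ge_atTop (3 : ℝ)] with x hx h3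
      rw [one_mul, Real.norm_of_nonneg (Real.rpow_nonneg (Real.log_nonneg (by linarith)) _),
        Real.norm_of_nonneg (Real.rpow_nonneg (by linarith) _)] at hx
      exact hx
    exact tendsto_natCast_atTop_atTop (R := ℝ) |>.eventually h1
  filter_upwards [ev1, evr ((C : ℝ) + (A + 1) * μ) (μ - 1 / 2) (by linarith),
    evr ((A : ℝ) + 2) (1 / 2 - ν) (by linarith), evr ((A : ℝ) + 2) (1 / 2) (by norm_num),
    evr ((A : ℝ) + 1) 1 one_pos, Filter.eventually_ge_atTop 3] with n h1 h2 h3 h4 h5 h6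
  have hn0 : (0 : ℝ) < n := by exact_mod_cast (by omega : 0 < n)
  have hL0 : (0 : ℝ) < Real.log n := by linarith
  have hs : √(n : ℝ) = (n : ℝ) ^ (1 / 2 : ℝ) := Real.sqrt_eq_rpow _
  have eC : Real.log n ^ C = Real.log n ^ (C : ℝ) := (Real.rpow_natCast _ _).symm
  have eA1 : Real.log n ^ (A + 1) = Real.log n ^ ((A : ℝ) + 1) := by
    rw [← Real.rpow_natCast]; push_cast; rfl
  have eA2 : Real.log n ^ (A + 2) = Real.log n ^ ((A : ℝ) + 2) := by
    rw [← Real.rpow_natCast]; push_cast; rfl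
  refine ⟨h1, ?_, ?_, ?_, ?_⟩
  · rw [eA1, Real.div_rpow hn0.le (by positivity), le_div_iff₀ (by positivity),
      ← Real.rpow_mul hL0.le, eC, hs, mul_assoc, ← Real.rpow_add hL0]
    have e3 : (n : ℝ) ^ μ = (n : ℝ) ^ (1 / 2 : ℝ) * n ^ (μ - 1 / 2) := by
      rw [← Real.rpow_add hn0]; congr 1; ring
    rw [e3]
    gcongr
  · rw [eA2, hs, le_div_iff₀ (by positivity)]
    have e3 : (n : ℝ) ^ (1 / 2 : ℝ) = n ^ ν * n ^ (1 / 2 - ν) := by
      rw [← Real.rpow_add hn0]; congr 1; ring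
    rw [e3]
    gcongr
  · rw [eA2, hs, le_div_iff₀ (by positivity), one_mul]
    exact h4
  · rw [eA1]
    rw [Real.rpow_one] at h5
    exact h5

end Pool.Agent.Helper30.HX
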