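import Pool.Agent.Helper30.HX.StA

/-!
# Project HX, module APE: `th - lz z` in intervals and reduced classes
-/

set_option autoImplicit false

namespace Pool.Agent.Helper30.HX

open Finset
open Pool.Agent.Helper48.BK (th lz Vz Pz win AdN)

private lemma split_APE (f : ℕ → ℝ) (q u y₁ y₂ : ℕ) (h : y₁ ≤ y₂) :
    ∑ n ∈ (Ioc y₁ y₂).filter (fun n => n ≡ u [MOD q]), f n =
      ∑ n ∈ (Ioc 0 y₂).filter (fun n => n ≡ u [MOD q]), f n -
        ∑ n ∈ (Ioc 0 y₁).filter (fun n => n ≡ u [MOD q]), f n := by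
  simp only [sum_filter]
  have := sum_Ioc_consecutive (fun n => if n ≡ u [MOD q] then f n else 0) (Nat.zero_le y₁) h
  linarith

theorem hAPE (ha : StAPG) (hb : StPhi) (hc : Pool.Agent.Helper48.BK.StSW) : StAPE := by
  intro A B
  obtain ⟨x1, h1⟩ := ha A B
  obtain ⟨x2, h2⟩ := hc A B
  have hlog : ∀ᶠ x : ℝ in Filter.atTop, Real.log x ^ B ≤ x := by
    have h := (Real.isLittleO_pow_log_id_atTop (n := B)).bound (c := 1) one_pos
    filter_upwards [h, Filter.eventually_ge_atTop (1 : ℝ)] with x hx hx1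
    rw [one_mul, Real.norm_eq_abs, id_eq, Real.norm_eq_abs, abs_of_nonneg (a := x) (by linarith)] at hx
    exact (le_abs_self _).trans hx
  obtain ⟨x3, h3⟩ := Filter.eventually_atTop.1 hlog
  refine ⟨max (max x1 x2) (max ⌈x3⌉₊ 3), ?_⟩
  intro x z Q hx hz hzB hQB q u y₁ y₂ hq hqQ hu hy hyx
  have hx1 : x1 ≤ x := le_trans (le_trans (le_max_left _ _) (le_max_left _ _)) hx
  have hx2 : x2 ≤ x := le_trans (le_trans (le_max_right _ _) (le_max_left _ _)) hx
  have hx3 : ⌈x3⌉₊ ≤ x := le_trans (le_trans (le_max_left _ _) (le_max_right _ _)) hx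
  have hx4 : 3 ≤ x := le_trans (le_trans (le_max_right _ _) (le_max_right _ _)) hx
  have hx3' : x3 ≤ (x : ℝ) := (Nat.le_ceil x3).trans (by exact_mod_cast hx3)
  have hlx : Real.log x ^ B ≤ x := h3 x hx3'
  have hqB : (q : ℝ) ≤ Real.log x ^ B := le_trans (by exact_mod_cast hqQ) hQB
  have hqx : q ≤ x := by exact_mod_cast hqB.trans hlx
  have hphi := hb x z q hx4 (by omega) hq hqx
  set R : ℝ := (x : ℝ) / Real.log x ^ A with hR
  have hS : ∀ y : ℕ, y ≤ x →
      |∑ n ∈ (Ioc 0 y).filter (fun n => n ≡ u [MOD q]), (th n - lz z n) -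
        (y : ℝ) * (1 / (Nat.totient q : ℝ) - gz z q)| ≤ 2 * R := by
    intro y hyx
    have e1 := h1 x y z q u hx1 hyx hz hzB hq hu
    have e2 := h2 x y q u hx2 hyx hq hqB
    rw [if_pos hu] at e2
    rw [sum_sub_distrib]
    have e3 : ∑ n ∈ (Ioc 0 y).filter (fun n => n ≡ u [MOD q]), th n -
        ∑ n ∈ (Ioc 0 y).filter (fun n => n ≡ u [MOD q]), lz z n -
        (y : ℝ) * (1 / (Nat.totient q : ℝ) - gz z q) =
        (∑ n ∈ (Ioc 0 y).filter (fun n => n ≡ u [MOD q]), th n - (y : ℝ) / Nat.totient q) -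
        (∑ n ∈ (Ioc 0 y).filter (fun n => n ≡ u [MOD q]), lz z n - (y : ℝ) * gz z q) := by
      ring
    rw [e3]
    refine (abs_sub _ _).trans ?_
    rw [two_mul]
    exact add_le_add e2 e1
  have hS1 := hS y₁ (hy.trans hyx)
  have hS2 := hS y₂ hyx
  rw [split_APE _ q u y₁ y₂ hy]
  have hyR : (y₁ : ℝ) ≤ y₂ := by exact_mod_cast hy
  have hqp : (0 : ℝ) < q := by exact_mod_cast hq
  have hzp : (0 : ℝ) < z := by
    have : 0 < z := by omega
    exact_mod_cast this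
  have h4 : |((y₂ : ℝ) - y₁) * (1 / (Nat.totient q : ℝ) - gz z q)| ≤
      (1 + 2 * Real.log x) ^ 2 / z * (((y₂ : ℝ) - y₁) / q) := by
    rw [abs_mul, abs_of_nonneg (a := (y₂ : ℝ) - y₁) (by linarith)]
    calc _ ≤ ((y₂ : ℝ) - y₁) * ((1 + 2 * Real.log x) ^ 2 / (q * z)) :=
          mul_le_mul_of_nonneg_left hphi (by linarith)
      _ = _ := by
          field_simp
  have h5 : 4 * (x : ℝ) / Real.log x ^ A = 4 * R := by rw [hR]; ring
  rw [h5]
  rw [abs_le] at hS1 hS2 h4 ⊢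
  constructor
  · linarith [hS1.1, hS1.2, hS2.1, hS2.2, h4.1, h4.2]
  · linarith [hS1.1, hS1.2, hS2.1, hS2.2, h4.1, h4.2]

end Pool.Agent.Helper30.HX
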