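import Pool.Agent.Helper30.HX.StA
import Pool.Agent.Helper48.BK.M_APZ
import Pool.Agent.Helper48.BK.M_Brun
import Pool.Agent.Helper48.BK.M_Vz

/-!
# Project HX, module APG: the model in a reduced class modulo an arbitrary `q`
-/

set_option autoImplicit false

namespace Pool.Agent.Helper30.HX

open Finset
open Pool.Agent.Helper48.BK

theorem hAPG : StAPG := by
  have ha : StBrun := hBrun
  obtain ⟨c, hc0, hc⟩ := hVz
  intro A B
  obtain ⟨K, hK⟩ : ∃ K : ℕ, K = 3 * B + A + 2 := ⟨_, rfl⟩
  obtain ⟨D, hD⟩ : ∃ D : ℝ, D = (A + 1) + B * (K + 2) + Real.log (6 * (B + 1) / c + 1) := ⟨_, rfl⟩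
  obtain ⟨x₀, hx₀⟩ := Filter.eventually_atTop.1 (ev_APZ D (100 * (B + 1) / c))
  refine ⟨x₀, fun x y z q u hx hyx hz hzx hq hcop => ?_⟩
  obtain ⟨ht1, hDt, hE⟩ := hx₀ x hx
  set l := Real.log x with hl
  set t := Real.log l with ht
  have hB0 : (0 : ℝ) ≤ B := Nat.cast_nonneg B
  have hl0 : 0 < l := lt_of_lt_of_le (by positivity) hE
  have hx1 : 1 < x := by
    by_contra h
    have : (x : ℝ) ≤ 1 := by exact_mod_cast not_lt.1 h
    have := Real.log_nonpos (Nat.cast_nonneg x) this
    linarith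
  have hxpos : (0 : ℝ) < x := by
    have : (1 : ℝ) < x := by exact_mod_cast hx1
    linarith
  have hexp : Real.exp t = l := Real.exp_log hl0
  have hexl : Real.exp l = x := Real.exp_log hxpos
  have htl : t ≤ l := (Real.log_le_sub_one_of_pos hl0).trans (by linarith)
  have hz0 : (0 : ℝ) < z := by
    have : (2 : ℝ) ≤ z := by exact_mod_cast hz
    linarith
  have hlz : Real.log z ≤ B * t := by
    have := Real.log_le_log hz0 hzx
    rwa [Real.log_pow] at this
  have hlz0 : 0 ≤ Real.log z := Real.log_nonneg (by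
    have : (2 : ℝ) ≤ z := by exact_mod_cast hz
    linarith)
  have hX : (0 : ℝ) ≤ x / l ^ A := by positivity
  set P := (Pz z).filter (fun p => ¬ p ∣ q) with hPd
  have hP : ∀ p ∈ P, p.Prime ∧ Nat.Coprime p q := by
    intro p hp
    rw [hPd, Finset.mem_filter, mem_Pz_APZ] at hp
    exact ⟨hp.1.2, (Nat.Prime.coprime_iff_not_dvd hp.1.2).2 hp.2⟩
  obtain ⟨r, hr⟩ : ∃ r : ℕ, r = ⌈K * t⌉₊ := ⟨_, rfl⟩
  have hr1 : (K : ℝ) * t ≤ r := by rw [hr]; exact Nat.le_ceil _
  have hr2 : (r : ℝ) ≤ K * t + 1 := by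
    rw [hr]
    exact (Nat.ceil_lt_add_one (by positivity)).le
  have hsv := sieve_APZ ha P q hP hq y u r
  have hV := Vz_pos_APZ z
  -- the sum of the model
  have hsum : ∑ n ∈ (Ioc 0 y).filter (fun n => n ≡ u [MOD q]), lz z n =
      1 / Vz z * ∑ n ∈ (Ioc 0 y).filter (fun n => n ≡ u [MOD q]),
        (if ∀ p ∈ P, ¬ p ∣ n then (1 : ℝ) else 0) := by
    rw [Finset.mul_sum]
    refine Finset.sum_congr rfl fun n hn => ?_
    have hnu := (Finset.mem_filter.1 hn).2
    have hiff : (∀ p ∈ Pz z, ¬ p ∣ n) ↔ ∀ p ∈ P, ¬ p ∣ n := by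
      constructor
      · intro h p hp
        exact h p (Finset.mem_filter.1 hp).1
      · intro h p hp hpn
        by_cases hpq : p ∣ q
        · have hpu : p ∣ u := ((hnu.of_dvd hpq).dvd_iff dvd_rfl).1 hpn
          exact (Nat.Prime.not_coprime_iff_dvd.2 ⟨p, ((mem_Pz_APZ z p).1 hp).2, hpu, hpq⟩) hcop
        · exact h p (Finset.mem_filter.2 ⟨hp, hpq⟩) hpn
    rw [lz]
    by_cases h : ∀ p ∈ Pz z, ¬ p ∣ n
    · rw [if_pos h, if_pos (hiff.1 h), mul_one]
    · rw [if_neg h, if_neg (fun h' => h (hiff.2 h')), mul_zero]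
  have hmain : (y : ℝ) * gz z q = 1 / Vz z * ((y : ℝ) / q * ∏ p ∈ P, (1 - 1 / (p : ℝ))) := by
    unfold gz
    rw [← hPd]
    ring
  rw [hsum, hmain, ← mul_sub, abs_mul, abs_of_pos (by positivity : (0 : ℝ) < 1 / Vz z)]
  have hVinv : 1 / Vz z ≤ Real.log z / c := by
    have h1 := hc z hz
    have hlz1 : 0 < Real.log z := Real.log_pos (by
      have : (2 : ℝ) ≤ z := by exact_mod_cast hz
      linarith)
    rw [div_le_div_iff₀ hV hc0, one_mul]
    rw [div_le_iff₀ hlz1] at h1
    linarith
  have hnum := num_APZ P (r + 1) z (by omega)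
    ((Finset.card_le_card (Finset.filter_subset _ _)).trans (card_Pz_APZ z))
  have htail := tail_APZ P (r + 1) (1 + Real.log z)
    ((Finset.sum_le_sum_of_subset_of_nonneg (Finset.filter_subset _ _)
      fun p _ _ => by positivity).trans (sum_inv_APZ z))
  have hyq : (y : ℝ) / q ≤ x := by
    have h1 : (1 : ℝ) ≤ q := by exact_mod_cast hq
    have h2 : (y : ℝ) ≤ x := by exact_mod_cast hyx
    exact (div_le_self (Nat.cast_nonneg y) h1).trans h2
  -- first term
  have hT1 : Real.log z / c * (3 * (z : ℝ) ^ (r + 1)) ≤ x / (2 * l ^ A) := by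
    have h1 : (z : ℝ) ^ (r + 1) ≤ Real.exp (B * (K * t + 2) * t) := by
      calc (z : ℝ) ^ (r + 1) ≤ (l ^ B) ^ (r + 1) := pow_le_pow_left₀ hz0.le hzx _
        _ = Real.exp ((B * (r + 1) : ℕ) * t) := by
            rw [Real.exp_nat_mul, hexp, pow_mul]
        _ ≤ Real.exp (B * (K * t + 2) * t) := by
            refine Real.exp_le_exp.2 ?_
            push_cast
            refine mul_le_mul_of_nonneg_right ?_ (by linarith)
            exact mul_le_mul_of_nonneg_left (by linarith) hB0
    have h2 : Real.log z / c ≤ B / c * l := by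
      rw [div_mul_eq_mul_div]
      exact div_le_div_of_nonneg_right (hlz.trans (mul_le_mul_of_nonneg_left htl hB0)) hc0.le
    rw [le_div_iff₀ (by positivity)]
    calc Real.log z / c * (3 * (z : ℝ) ^ (r + 1)) * (2 * l ^ A)
        ≤ B / c * l * (3 * Real.exp (B * (K * t + 2) * t)) * (2 * l ^ A) := by
          gcongr
      _ = 6 * B / c * (Real.exp t ^ (A + 1) * Real.exp (B * (K * t + 2) * t)) := by
          rw [hexp]; ring
      _ = 6 * B / c * Real.exp ((A + 1) * t + B * (K * t + 2) * t) := by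
          rw [← Real.exp_nat_mul, ← Real.exp_add]
          push_cast
          rfl
      _ ≤ (6 * (B + 1) / c + 1) * Real.exp ((A + 1) * t + B * (K * t + 2) * t) := by
          refine mul_le_mul_of_nonneg_right ?_ (Real.exp_nonneg _)
          have : 6 * (B : ℝ) / c ≤ 6 * (B + 1) / c := by gcongr; linarith
          linarith
      _ = Real.exp (Real.log (6 * (B + 1) / c + 1) + ((A + 1) * t + B * (K * t + 2) * t)) := by
          rw [Real.exp_add (Real.log _), Real.exp_log (by positivity)]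
      _ ≤ Real.exp (D * t ^ 2) := by
          refine Real.exp_le_exp.2 ?_
          have hM : 0 ≤ Real.log (6 * (B + 1) / c + 1) := Real.log_nonneg (by
            have : 0 ≤ 6 * ((B : ℝ) + 1) / c := by positivity
            linarith)
          have ht2 : 1 ≤ t ^ 2 := one_le_pow₀ ht1
          have htt : t ≤ t ^ 2 := by nlinarith
          have hA0 : (0 : ℝ) ≤ A := Nat.cast_nonneg A
          rw [hD]
          have e1 : Real.log (6 * (B + 1) / c + 1) ≤ Real.log (6 * (B + 1) / c + 1) * t ^ 2 :=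
            le_mul_of_one_le_right hM ht2
          have e2 : ((A : ℝ) + 1) * t ≤ (A + 1) * t ^ 2 :=
            mul_le_mul_of_nonneg_left htt (by linarith)
          have e3 : (B : ℝ) * (K * t + 2) * t ≤ B * (K + 2) * t ^ 2 := by
            have : (B : ℝ) * (K + 2) * t ^ 2 - B * (K * t + 2) * t = 2 * B * (t ^ 2 - t) := by ring
            have h5 : 0 ≤ 2 * (B : ℝ) * (t ^ 2 - t) := mul_nonneg (by linarith) (by linarith)
            linarith
          nlinarith [e1, e2, e3]
      _ ≤ Real.exp l := Real.exp_le_exp.2 hDt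
      _ = x := hexl
  -- second term
  have hT2 : Real.log z / c * (2 * x * Real.exp (3 * (1 + Real.log z) - ((r + 1 : ℕ) : ℝ))) ≤
      x / (2 * l ^ A) := by
    have h1 : Real.exp (3 * (1 + Real.log z) - ((r + 1 : ℕ) : ℝ)) ≤
        21 / l ^ (A + 2) := by
      have h2 : 3 * (1 + Real.log z) - ((r + 1 : ℕ) : ℝ) ≤ 3 - (A + 2 : ℕ) * t := by
        push_cast
        have h3 : (K : ℝ) = 3 * B + A + 2 := by rw [hK]; push_cast; ring
        rw [h3] at hr1
        nlinarith [hr1, hlz]
      have h4 : Real.exp 3 ≤ 21 := by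
        have h5 := Real.exp_one_lt_d9
        have h6 : Real.exp 3 = Real.exp 1 ^ 3 := by
          rw [← Real.exp_nat_mul]; norm_num
        rw [h6]
        calc Real.exp 1 ^ 3 ≤ 2.7182818286 ^ 3 := pow_le_pow_left₀ (Real.exp_nonneg _) h5.le 3
          _ ≤ 21 := by norm_num
      refine (Real.exp_le_exp.2 h2).trans ?_
      rw [Real.exp_sub, Real.exp_nat_mul, hexp]
      exact div_le_div_of_nonneg_right h4 (by positivity)
    have h2 : Real.log z / c ≤ B / c * l := by
      rw [div_mul_eq_mul_div]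
      exact div_le_div_of_nonneg_right (hlz.trans (mul_le_mul_of_nonneg_left htl hB0)) hc0.le
    calc Real.log z / c * (2 * x * Real.exp (3 * (1 + Real.log z) - ((r + 1 : ℕ) : ℝ)))
        ≤ B / c * l * (2 * x * (21 / l ^ (A + 2))) := by gcongr
      _ = (42 * B / c / l) * (x / l ^ A) := by
          field_simp
          ring
      _ ≤ (1 / 2) * (x / l ^ A) := by
          refine mul_le_mul_of_nonneg_right ?_ hX
          rw [div_le_iff₀ hl0]
          have h3 : 42 * (B : ℝ) / c ≤ 1 / 2 * (100 * (B + 1) / c) := by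
            have h4 : 1 / 2 * (100 * ((B : ℝ) + 1) / c) = 50 * (B + 1) / c := by ring
            rw [h4]
            exact div_le_div_of_nonneg_right (by linarith) hc0.le
          linarith [h3, hE]
      _ = x / (2 * l ^ A) := by
          field_simp
  calc 1 / Vz z * |∑ n ∈ (Ioc 0 y).filter (fun n => n ≡ u [MOD q]),
        (if ∀ p ∈ P, ¬ p ∣ n then (1 : ℝ) else 0) - (y : ℝ) / q * ∏ p ∈ P, (1 - 1 / (p : ℝ))|
      ≤ Real.log z / c * (3 * (z : ℝ) ^ (r + 1) +
          2 * x * Real.exp (3 * (1 + Real.log z) - ((r + 1 : ℕ) : ℝ))) := by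
        refine mul_le_mul hVinv (hsv.trans ?_) (abs_nonneg _) (by positivity)
        refine add_le_add hnum ?_
        refine mul_le_mul ?_ htail (Finset.sum_nonneg fun T _ => by positivity) (by positivity)
        linarith
    _ = Real.log z / c * (3 * (z : ℝ) ^ (r + 1)) + Real.log z / c *
          (2 * x * Real.exp (3 * (1 + Real.log z) - ((r + 1 : ℕ) : ℝ))) := by ring
    _ ≤ x / (2 * l ^ A) + x / (2 * l ^ A) := add_le_add hT1 hT2
    _ = x / l ^ A := by
        field_simp
        ring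

end Pool.Agent.Helper30.HX
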