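import Pool.Agent.Helper30.HX.StM

/-!
# Project HX: BAS, a reduced basis
-/

set_option autoImplicit false

namespace Pool.Agent.Helper30.HX

open Finset

/-- pigeonhole: a short nonzero vector -/
lemma pig_BAS (a b c : ℕ) (hc : 1 ≤ c) : ∃ x y : ℤ, ¬ (x = 0 ∧ y = 0) ∧
    (c : ℤ) ∣ a * x + b * y ∧ |x| ≤ Nat.sqrt c ∧ |y| ≤ Nat.sqrt c := by
  set s := Nat.sqrt c with hs
  have hcard : (range c).card < ((range (s + 1)) ×ˢ (range (s + 1))).card := by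
    rw [card_product, card_range, card_range]
    have := Nat.lt_succ_sqrt c
    simpa using this
  have hmaps : ∀ t ∈ (range (s + 1)) ×ˢ (range (s + 1)), (a * t.1 + b * t.2) % c ∈ range c := by
    intro t _
    rw [mem_range]
    exact Nat.mod_lt _ hc
  obtain ⟨t, ht, t', ht', hne, heq⟩ :=
    exists_ne_map_eq_of_card_lt_of_maps_to hcard
      (f := fun t : ℕ × ℕ => (a * t.1 + b * t.2) % c) (by
        intro t ht
        exact hmaps t ht)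
  rw [mem_product, mem_range, mem_range] at ht ht'
  refine ⟨(t.1 : ℤ) - t'.1, (t.2 : ℤ) - t'.2, ?_, ?_, ?_, ?_⟩
  · rintro ⟨h1, h2⟩
    apply hne
    ext
    · have : (t.1 : ℤ) = t'.1 := by linarith
      exact_mod_cast this
    · have : (t.2 : ℤ) = t'.2 := by linarith
      exact_mod_cast this
  · have h : (a * t'.1 + b * t'.2) ≡ (a * t.1 + b * t.2) [MOD c] := heq.symm
    have h2 := (Nat.modEq_iff_dvd.mp h)
    have h3 : (a : ℤ) * ((t.1 : ℤ) - t'.1) + b * ((t.2 : ℤ) - t'.2) =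
        ((a * t.1 + b * t.2 : ℕ) : ℤ) - ((a * t'.1 + b * t'.2 : ℕ) : ℤ) := by
      push_cast
      ring
    rw [h3]
    exact h2
  · rw [abs_le]
    constructor <;> omega
  · rw [abs_le]
    constructor <;> omega

lemma bez_BAS (x y z : ℤ) (h : Int.gcd x (Int.gcd y z) = 1) :
    ∃ r₁ r₂ r₃ : ℤ, r₁ * x + r₂ * y + r₃ * z = 1 := by
  have h1 := Int.gcd_eq_gcd_ab x (Int.gcd y z)
  have h2 := Int.gcd_eq_gcd_ab y z
  rw [h] at h1
  refine ⟨Int.gcdA x (Int.gcd y z), Int.gcdB x (Int.gcd y z) * Int.gcdA y z,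
    Int.gcdB x (Int.gcd y z) * Int.gcdB y z, ?_⟩
  have h3 : (1 : ℤ) = x * Int.gcdA x (Int.gcd y z) +
      (Int.gcd y z : ℤ) * Int.gcdB x (Int.gcd y z) := by exact_mod_cast h1
  linear_combination -h3 - Int.gcdB x (Int.gcd y z) * h2

/-- minimal nonzero vector -/
lemma min_BAS (a b c : ℕ) (hc : 1 ≤ c) : ∃ u₁ u₂ u₃ : ℤ, ¬ (u₁ = 0 ∧ u₂ = 0) ∧
    (a : ℤ) * u₁ + b * u₂ = c * u₃ ∧ (max |u₁| |u₂|) ^ 2 ≤ c ∧ 1 ≤ max |u₁| |u₂| ∧
    Int.gcd u₁ (Int.gcd u₂ u₃) = 1 := by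
  classical
  let P : ℕ → Prop := fun n => ∃ x y : ℤ, ¬ (x = 0 ∧ y = 0) ∧ (c : ℤ) ∣ a * x + b * y ∧
    max |x| |y| = (n : ℤ)
  obtain ⟨x, y, hxy, hd, hx, hy⟩ := pig_BAS a b c hc
  have hex : ∃ n, P n := by
    refine ⟨(max |x| |y|).toNat, x, y, hxy, hd, ?_⟩
    rw [Int.toNat_of_nonneg]
    exact le_trans (abs_nonneg x) (le_max_left _ _)
  have hmin : ∀ x y : ℤ, ¬ (x = 0 ∧ y = 0) → (c : ℤ) ∣ a * x + b * y →
      ((Nat.find hex : ℕ) : ℤ) ≤ max |x| |y| := by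
    intro x y hxy hd
    have h0 : 0 ≤ max |x| |y| := le_trans (abs_nonneg x) (le_max_left _ _)
    have : Nat.find hex ≤ (max |x| |y|).toNat := by
      apply Nat.find_min' hex
      refine ⟨x, y, hxy, hd, ?_⟩
      rw [Int.toNat_of_nonneg h0]
    omega
  obtain ⟨u₁, u₂, hu, hdu, hN⟩ := Nat.find_spec hex
  obtain ⟨u₃, hu₃⟩ := hdu
  have hN1 : 1 ≤ max |u₁| |u₂| := by
    by_contra hcon
    push Not at hcon
    apply hu
    have h1 : |u₁| ≤ 0 := by have := le_max_left |u₁| |u₂|; omega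
    have h2 : |u₂| ≤ 0 := by have := le_max_right |u₁| |u₂|; omega
    exact ⟨abs_nonpos_iff.mp h1, abs_nonpos_iff.mp h2⟩
  refine ⟨u₁, u₂, u₃, hu, hu₃, ?_, hN1, ?_⟩
  · have h1 : max |u₁| |u₂| ≤ Nat.sqrt c := by
      rw [hN]
      exact le_trans (hmin x y hxy hd) (max_le hx hy)
    have h2 : (Nat.sqrt c) ^ 2 ≤ c := Nat.sqrt_le' c
    have h3 : ((Nat.sqrt c : ℕ) : ℤ) ^ 2 ≤ c := by exact_mod_cast h2
    nlinarith
  · set g := Int.gcd u₁ (Int.gcd u₂ u₃) with hg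
    have hg1 : (g : ℤ) ∣ u₁ := Int.gcd_dvd_left ..
    have hg23 : (g : ℤ) ∣ (Int.gcd u₂ u₃ : ℤ) := Int.gcd_dvd_right ..
    have hg2 : (g : ℤ) ∣ u₂ := hg23.trans (Int.gcd_dvd_left ..)
    have hg3 : (g : ℤ) ∣ u₃ := hg23.trans (Int.gcd_dvd_right ..)
    obtain ⟨w₁, hw₁⟩ := hg1
    obtain ⟨w₂, hw₂⟩ := hg2
    obtain ⟨w₃, hw₃⟩ := hg3
    have hg0 : (g : ℤ) ≠ 0 := by
      intro h0
      apply hu
      rw [hw₁, hw₂, h0]
      simp
    have hgpos : (0 : ℤ) < g := by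
      rcases Nat.eq_zero_or_pos g with h | h
      · exfalso; apply hg0; rw [h]; rfl
      · exact_mod_cast h
    have hw : ¬ (w₁ = 0 ∧ w₂ = 0) := by
      rintro ⟨h1, h2⟩
      apply hu
      rw [hw₁, hw₂, h1, h2]
      simp
    have hwd : (c : ℤ) ∣ a * w₁ + b * w₂ := by
      refine ⟨w₃, ?_⟩
      apply mul_left_cancel₀ hg0
      rw [hw₁, hw₂, hw₃] at hu₃
      linarith
    have hle := hmin w₁ w₂ hw hwd
    rw [← hN] at hle
    have hmul : max |u₁| |u₂| = (g : ℤ) * max |w₁| |w₂| := by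
      rw [hw₁, hw₂, abs_mul, abs_mul, abs_of_pos hgpos, mul_max_of_nonneg _ _ hgpos.le]
    have hw1 : 1 ≤ max |w₁| |w₂| := le_trans hN1 hle
    have : (g : ℤ) ≤ 1 := by nlinarith
    have hg' : (g : ℤ) = 1 := by omega
    exact_mod_cast hg'

/-- the basis identity -/
lemma bid_BAS (a b c u₁ u₂ u₃ r₁ r₂ r₃ q₁ q₂ q₃ : ℤ) (h1 : r₁ * u₁ + r₂ * u₂ + r₃ * u₃ = 1)
    (h2 : q₁ * a + q₂ * b + q₃ * c = 1) (h3 : a * u₁ + b * u₂ = c * u₃) (x y t : ℤ)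
    (h4 : a * x + b * y = c * t) : ∃ i j : ℤ,
    x = i * u₁ + j * (b * r₃ + c * r₂) ∧ y = i * u₂ + j * (-c * r₁ - a * r₃) ∧
    t = i * u₃ + j * (a * r₂ - b * r₁) := by
  set W₁ := u₂ * t - u₃ * y with hW₁
  set W₂ := u₃ * x - u₁ * t with hW₂
  set W₃ := u₁ * y - u₂ * x with hW₃
  set j := q₁ * W₁ + q₂ * W₂ - q₃ * W₃ with hj
  have e1 : W₁ = j * a := by
    rw [hj, hW₁, hW₂, hW₃]
    linear_combination (-(u₂ * t - u₃ * y)) * h2 + q₂ * (-(u₃ * h4 - t * h3)) -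
      q₃ * (u₂ * h4 - y * h3)
  have e2 : W₂ = j * b := by
    rw [hj, hW₁, hW₂, hW₃]
    linear_combination (-(u₃ * x - u₁ * t)) * h2 + q₁ * (u₃ * h4 - t * h3) +
      q₃ * (u₁ * h4 - x * h3)
  have e3 : W₃ = -(j * c) := by
    rw [hj, hW₁, hW₂, hW₃]
    linear_combination (-(u₁ * y - u₂ * x)) * h2 - q₁ * (u₂ * h4 - y * h3) +
      q₂ * (u₁ * h4 - x * h3)
  refine ⟨r₁ * x + r₂ * y + r₃ * t, j, ?_, ?_, ?_⟩
  · linear_combination (-x) * h1 + r₃ * e2 - r₂ * e3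
  · linear_combination (-y) * h1 + r₁ * e3 - r₃ * e1
  · linear_combination (-t) * h1 + r₂ * e1 - r₁ * e2

/-- reduction of the second vector -/
lemma red_BAS (u₁ u₂ v₁ v₂ c N : ℤ) (h1 : |u₁| = N) (h2 : |u₂| ≤ N) (hN : 1 ≤ N)
    (hNc : N ^ 2 ≤ c) (hd : |u₁ * v₂ - u₂ * v₁| = c) :
    ∃ k : ℤ, |v₁ + k * u₁| * N ≤ 2 * c ∧ |v₂ + k * u₂| * N ≤ 2 * c := by
  obtain ⟨k, hk⟩ : ∃ k : ℤ, 2 * |v₁ + k * u₁| ≤ N := by
    set k' := (2 * v₁ + N) / (2 * N) with hk'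
    have hpos : 0 < 2 * N := by omega
    have e1 : 2 * N * k' ≤ 2 * v₁ + N := Int.mul_ediv_self_le (by omega)
    have e2 : 2 * v₁ + N < 2 * N * k' + 2 * N := by
      have := Int.lt_mul_ediv_self_add (x := 2 * v₁ + N) hpos
      linarith
    rcases abs_choice u₁ with h | h
    · refine ⟨-k', ?_⟩
      have hu : u₁ = N := by rw [← h1, h]
      rw [hu]
      have : |v₁ + -k' * N| ≤ N / 2 := by
        rw [abs_le]
        constructor
        · have : -N ≤ 2 * (v₁ + -k' * N) := by nlinarith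
          omega
        · have : 2 * (v₁ + -k' * N) < N := by nlinarith
          omega
      omega
    · refine ⟨k', ?_⟩
      have hu : u₁ = -N := by rw [← h1, h]; ring
      rw [hu]
      have : |v₁ + k' * -N| ≤ N / 2 := by
        rw [abs_le]
        constructor
        · have : -N ≤ 2 * (v₁ + k' * -N) := by nlinarith
          omega
        · have : 2 * (v₁ + k' * -N) < N := by nlinarith
          omega
      omega
  refine ⟨k, ?_, ?_⟩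
  · nlinarith [abs_nonneg (v₁ + k * u₁)]
  · have e : u₁ * (v₂ + k * u₂) = (u₁ * v₂ - u₂ * v₁) + u₂ * (v₁ + k * u₁) := by ring
    have e2 : N * |v₂ + k * u₂| ≤ c + |u₂| * |v₁ + k * u₁| := by
      rw [← h1, ← abs_mul, e, ← hd, ← abs_mul]
      exact abs_add_le _ _
    have e3 : |u₂| * |v₁ + k * u₁| ≤ N * |v₁ + k * u₁| :=
      mul_le_mul_of_nonneg_right h2 (abs_nonneg _)
    nlinarith [abs_nonneg (v₁ + k * u₁)]

/-- `StBas` -/
theorem hBas : StBas := by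
  intro a b c lam _ _ hc hg hL
  obtain ⟨u₁, u₂, u₃, hu0, hu, hsq, h1, hgu⟩ := min_BAS a b c hc
  obtain ⟨r₁, r₂, r₃, hr⟩ := bez_BAS u₁ u₂ u₃ hgu
  obtain ⟨q₁, q₂, q₃, hq⟩ := bez_BAS a b c (by
    have : Int.gcd (a : ℤ) ((Int.gcd (b : ℤ) (c : ℤ) : ℕ) : ℤ) = Nat.gcd a (Nat.gcd b c) := by
      rw [Int.gcd_natCast_natCast, Int.gcd_natCast_natCast]
    rw [this, hg])
  have hbid := bid_BAS a b c u₁ u₂ u₃ r₁ r₂ r₃ q₁ q₂ q₃ hr hq hu
  set v₁ : ℤ := b * r₃ + c * r₂ with hv₁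
  set v₂ : ℤ := -c * r₁ - a * r₃ with hv₂
  set v₃ : ℤ := a * r₂ - b * r₁ with hv₃
  have hv : (a : ℤ) * v₁ + b * v₂ = c * v₃ := by
    rw [hv₁, hv₂, hv₃]; ring
  have hdet : u₁ * v₂ - u₂ * v₁ = -c := by
    rw [hv₁, hv₂]
    linear_combination (-(c : ℤ)) * hr - r₃ * hu
  have hdabs : |u₁ * v₂ - u₂ * v₁| = c := by
    rw [hdet, abs_neg, Nat.abs_cast]
  obtain ⟨k, hk1, hk2⟩ : ∃ k : ℤ, |v₁ + k * u₁| * max |u₁| |u₂| ≤ 2 * c ∧
      |v₂ + k * u₂| * max |u₁| |u₂| ≤ 2 * c := by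
    rcases le_total |u₂| |u₁| with h | h
    · rw [max_eq_left h] at h1 hsq ⊢
      exact red_BAS u₁ u₂ v₁ v₂ c |u₁| rfl h h1 hsq hdabs
    · rw [max_eq_right h] at h1 hsq ⊢
      obtain ⟨k, e1, e2⟩ := red_BAS u₂ u₁ v₂ v₁ c |u₂| rfl h h1 hsq (by
        rw [← hdabs, ← abs_neg]; congr 1; ring)
      exact ⟨k, e2, e1⟩
  have hdet' : u₁ * (v₂ + k * u₂) - u₂ * (v₁ + k * u₁) = -c := by
    linear_combination hdet
  refine ⟨u₁, u₂, u₃, v₁ + k * u₁, v₂ + k * u₂, v₃ + k * u₃, ⟨hu, ?_, Or.inr hdet', ?_⟩, h1, ?_,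
    hsq, ?_, ?_⟩
  · linear_combination hv + k * hu
  · intro x y t hxyt
    obtain ⟨i, j, e1, e2, e3⟩ := hbid x y t hxyt
    refine ⟨i - j * k, j, ?_, ?_, ?_⟩
    · rw [e1]; ring
    · rw [e2]; ring
    · rw [e3]; ring
  · by_contra hcon
    push Not at hcon
    have hz1 : |v₁ + k * u₁| ≤ 0 := by
      have := le_max_left |v₁ + k * u₁| |v₂ + k * u₂|; omega
    have hz2 : |v₂ + k * u₂| ≤ 0 := by
      have := le_max_right |v₁ + k * u₁| |v₂ + k * u₂|; omega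
    rw [abs_nonpos_iff.mp hz1, abs_nonpos_iff.mp hz2] at hdet'
    have : (c : ℤ) = 0 := by linarith
    omega
  · have h0 : 0 ≤ max |u₁| |u₂| := by omega
    rw [mul_comm, max_mul_of_nonneg _ _ h0]
    exact max_le hk1 hk2
  · have h := hL u₁ u₂ hu0 ⟨u₃, hu⟩
    push_cast
    exact h

end Pool.Agent.Helper30.HX
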