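import Pool.Agent.Helper30.HX.StT

/-!
# Project HX: module CHB
-/

set_option autoImplicit false

namespace Pool.Agent.Helper30.HX

open Finset
open Pool.Agent.Helper48.BK (th lz Vz Pz win AdN Admissible Solv Box)

/-- the weight of one arrangement -/
noncomputable def G_CHB (H X z : ℕ) (η : ℝ) (g k : ℕ → ℝ) (s₁ s₂ s₃ : ℤ) (a b c : ℕ) : ℝ :=
  36 / η ^ 2 * (if Nat.gcd a (Nat.gcd b c) = 1 then
      TC (fun n => th n - lz z n) g k H X s₁ s₂ s₃ a b c ^ 2 else 0) +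
    6 / η * |TF (fun n => th n - lz z n) g k H X s₁ s₂ s₃ a b c 0 -
        TC (fun n => th n - lz z n) g k H X s₁ s₂ s₃ a b c|

theorem G_nonneg_CHB (H X z : ℕ) (η : ℝ) (hη : 0 < η) (g k : ℕ → ℝ) (s₁ s₂ s₃ : ℤ) (a b c : ℕ) :
    0 ≤ G_CHB H X z η g k s₁ s₂ s₃ a b c := by
  unfold G_CHB
  have h1 : 0 ≤ (if Nat.gcd a (Nat.gcd b c) = 1 then
      TC (fun n => th n - lz z n) g k H X s₁ s₂ s₃ a b c ^ 2 else 0) := by
    split_ifs
    · positivity
    · exact le_rfl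
  positivity

theorem G_one_CHB (H X z : ℕ) (η : ℝ) (hη : 0 < η) (g k : ℕ → ℝ) (s₁ s₂ s₃ : ℤ) (a b c : ℕ)
    (hg : Nat.gcd a (Nat.gcd b c) = 1)
    (h : η / 3 ≤ |TF (fun n => th n - lz z n) g k H X s₁ s₂ s₃ a b c 0|) :
    1 ≤ G_CHB H X z η g k s₁ s₂ s₃ a b c := by
  unfold G_CHB
  rw [if_pos hg]
  set T := TF (fun n => th n - lz z n) g k H X s₁ s₂ s₃ a b c 0
  set C := TC (fun n => th n - lz z n) g k H X s₁ s₂ s₃ a b c
  rcases le_total (η / 6) |C| with h1 | h1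
  · have h2 : (η / 6) ^ 2 ≤ C ^ 2 := by
      rw [← sq_abs C]
      exact pow_le_pow_left₀ (by positivity) h1 2
    have h3 : 36 / η ^ 2 * (η / 6) ^ 2 ≤ 36 / η ^ 2 * C ^ 2 :=
      mul_le_mul_of_nonneg_left h2 (by positivity)
    have h4 : 36 / η ^ 2 * (η / 6) ^ 2 = 1 := by field_simp; norm_num
    have h5 : 0 ≤ 6 / η * |T - C| := by positivity
    linarith
  · have h2 : η / 6 ≤ |T - C| := by
      have := abs_sub_abs_le_abs_sub T C
      linarith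
    have h3 : 6 / η * (η / 6) ≤ 6 / η * |T - C| :=
      mul_le_mul_of_nonneg_left h2 (by positivity)
    have h4 : 6 / η * (η / 6) = 1 := by field_simp
    have h5 : 0 ≤ 36 / η ^ 2 * C ^ 2 := by positivity
    linarith

theorem th_zero_CHB (H X a b c : ℕ) (h : BadT H a b c) :
    TF th th th H X 1 1 (-1) a b c 0 = 0 := by
  unfold TF
  refine Finset.sum_eq_zero fun x _ => Finset.sum_eq_zero fun y _ =>
    Finset.sum_eq_zero fun w _ => ?_
  split_ifs with heq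
  · by_contra hne
    apply h.2
    have hx : win th 4 11 H a x ≠ 0 := fun h0 => hne (by rw [h0]; ring)
    have hy : win th 4 11 H b y ≠ 0 := fun h0 => hne (by rw [h0]; ring)
    have hw : win th 4 11 H c w ≠ 0 := fun h0 => hne (by rw [h0]; ring)
    have key : ∀ u v : ℕ, win th 4 11 H u v ≠ 0 → v.Prime ∧ u * v ≤ 11 * H := by
      intro u v huv
      unfold win at huv
      split_ifs at huv with h1
      · unfold th at huv
        split_ifs at huv with h2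
        · exact ⟨h2, h1.2⟩
        · exact absurd rfl huv
      · exact absurd rfl huv
    obtain ⟨px, lx⟩ := key a x hx
    obtain ⟨py, ly⟩ := key b y hy
    obtain ⟨pw, lw⟩ := key c w hw
    refine ⟨x, y, w, px, py, pw, ?_, lx, ly, lw⟩
    have h3 : ((a * x + b * y : ℕ) : ℤ) = ((c * w : ℕ) : ℤ) := by
      push_cast
      linarith
    exact_mod_cast h3
  · rfl

theorem hChb (ha : StTel) : StChb := by
  intro H X lo m z lam η V D hlo hη hMT hVD
  classical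
  have hSum : ∀ g ∈ ({th, lz z} : Set (ℕ → ℝ)), ∀ k ∈ ({th, lz z} : Set (ℕ → ℝ)),
      ∀ s₁ s₂ s₃ : ℤ, Sg s₁ → Sg s₂ → Sg s₃ →
      ∑ a ∈ Icc lo m, ∑ b ∈ Icc lo m, ∑ c ∈ Icc lo m, G_CHB H X z η g k s₁ s₂ s₃ a b c ≤
        36 / η ^ 2 * V + 6 / η * D := by
    intro g hg k hk s₁ s₂ s₃ h₁ h₂ h₃
    obtain ⟨hV, hD⟩ := hVD g hg k hk s₁ s₂ s₃ h₁ h₂ h₃
    unfold G_CHB
    simp only [Finset.sum_add_distrib, ← Finset.mul_sum]
    exact add_le_add (mul_le_mul_of_nonneg_left hV (by positivity))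
      (mul_le_mul_of_nonneg_left hD (by positivity))
  have mth : (th : ℕ → ℝ) ∈ ({th, lz z} : Set (ℕ → ℝ)) := Or.inl rfl
  have mlz : (lz z : ℕ → ℝ) ∈ ({th, lz z} : Set (ℕ → ℝ)) := Or.inr rfl
  have sp : Sg 1 := Or.inl rfl
  have sm : Sg (-1) := Or.inr rfl
  -- the pointwise bound
  have hpt : ∀ a ∈ Icc lo m, ∀ b ∈ Icc lo m, ∀ c ∈ Icc lo m, BadT H a b c → Lng a b c lam →
      1 ≤ G_CHB H X z η th th 1 1 (-1) a b c + G_CHB H X z η (lz z) th 1 1 (-1) b a c +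
        G_CHB H X z η (lz z) (lz z) (-1) 1 1 c a b := by
    intro a ha' b hb' c hc' hbad hl
    have h0 := th_zero_CHB H X a b c hbad
    have h1 := hMT a ha' b hb' c hc' hbad.1 hl
    have h2 := ha (lz z) th H X a b c
    rw [h0] at h2
    have g1 : Nat.gcd a (Nat.gcd b c) = 1 := hbad.1.2.1
    have g2 : Nat.gcd b (Nat.gcd a c) = 1 := by
      rw [← Nat.gcd_assoc, Nat.gcd_comm b a, Nat.gcd_assoc]; exact g1
    have g3 : Nat.gcd c (Nat.gcd a b) = 1 := by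
      rw [Nat.gcd_comm c, Nat.gcd_assoc]; exact g1
    have n1 := G_nonneg_CHB H X z η hη th th 1 1 (-1) a b c
    have n2 := G_nonneg_CHB H X z η hη (lz z) th 1 1 (-1) b a c
    have n3 := G_nonneg_CHB H X z η hη (lz z) (lz z) (-1) 1 1 c a b
    by_cases k1 : η / 3 ≤ |TF (fun n => th n - lz z n) th th H X 1 1 (-1) a b c 0|
    · have := G_one_CHB H X z η hη th th 1 1 (-1) a b c g1 k1
      linarith
    by_cases k2 : η / 3 ≤ |TF (fun n => th n - lz z n) (lz z) th H X 1 1 (-1) b a c 0|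
    · have := G_one_CHB H X z η hη (lz z) th 1 1 (-1) b a c g2 k2
      linarith
    by_cases k3 : η / 3 ≤ |TF (fun n => th n - lz z n) (lz z) (lz z) H X (-1) 1 1 c a b 0|
    · have := G_one_CHB H X z η hη (lz z) (lz z) (-1) 1 1 c a b g3 k3
      linarith
    exfalso
    push Not at k1 k2 k3
    have j1 := neg_abs_le (TF (fun n => th n - lz z n) th th H X 1 1 (-1) a b c 0)
    have j2 := neg_abs_le (TF (fun n => th n - lz z n) (lz z) th H X 1 1 (-1) b a c 0)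
    have j3 := neg_abs_le (TF (fun n => th n - lz z n) (lz z) (lz z) H X (-1) 1 1 c a b 0)
    linarith
  -- counting
  set S : Finset (ℕ × ℕ × ℕ) := ((Icc lo m) ×ˢ (Icc lo m) ×ˢ (Icc lo m)).filter
    (fun v => BadT H v.1 v.2.1 v.2.2 ∧ Lng v.1 v.2.1 v.2.2 lam) with hS
  have hset : {v ∈ (Icc lo m) ×ˢ (Icc lo m) ×ˢ (Icc lo m) | BadT H v.1 v.2.1 v.2.2 ∧
      Lng v.1 v.2.1 v.2.2 lam} = S := by
    rw [hS]
  have hcard : (S.card : ℝ) ≤ ∑ v ∈ (Icc lo m) ×ˢ (Icc lo m) ×ˢ (Icc lo m),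
      (G_CHB H X z η th th 1 1 (-1) v.1 v.2.1 v.2.2 +
        G_CHB H X z η (lz z) th 1 1 (-1) v.2.1 v.1 v.2.2 +
        G_CHB H X z η (lz z) (lz z) (-1) 1 1 v.2.2 v.1 v.2.1) := by
    calc (S.card : ℝ) = ∑ v ∈ S, (1 : ℝ) := by simp
      _ ≤ ∑ v ∈ S, (G_CHB H X z η th th 1 1 (-1) v.1 v.2.1 v.2.2 +
        G_CHB H X z η (lz z) th 1 1 (-1) v.2.1 v.1 v.2.2 +
        G_CHB H X z η (lz z) (lz z) (-1) 1 1 v.2.2 v.1 v.2.1) := by
          refine Finset.sum_le_sum fun v hv => ?_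
          rw [hS, Finset.mem_filter, Finset.mem_product, Finset.mem_product] at hv
          exact hpt v.1 hv.1.1 v.2.1 hv.1.2.1 v.2.2 hv.1.2.2 hv.2.1 hv.2.2
      _ ≤ _ := by
          refine Finset.sum_le_sum_of_subset_of_nonneg (Finset.filter_subset _ _) ?_
          intro v _ _
          have n1 := G_nonneg_CHB H X z η hη th th 1 1 (-1) v.1 v.2.1 v.2.2
          have n2 := G_nonneg_CHB H X z η hη (lz z) th 1 1 (-1) v.2.1 v.1 v.2.2
          have n3 := G_nonneg_CHB H X z η hη (lz z) (lz z) (-1) 1 1 v.2.2 v.1 v.2.1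
          linarith
  have e1 := hSum th mth th mth 1 1 (-1) sp sp sm
  have e2 := hSum (lz z) mlz th mth 1 1 (-1) sp sp sm
  have e3 := hSum (lz z) mlz (lz z) mlz (-1) 1 1 sm sp sp
  have hsplit : ∑ v ∈ (Icc lo m) ×ˢ (Icc lo m) ×ˢ (Icc lo m),
      (G_CHB H X z η th th 1 1 (-1) v.1 v.2.1 v.2.2 +
        G_CHB H X z η (lz z) th 1 1 (-1) v.2.1 v.1 v.2.2 +
        G_CHB H X z η (lz z) (lz z) (-1) 1 1 v.2.2 v.1 v.2.1) =
      (∑ a ∈ Icc lo m, ∑ b ∈ Icc lo m, ∑ c ∈ Icc lo m,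
        G_CHB H X z η th th 1 1 (-1) a b c) +
      (∑ a ∈ Icc lo m, ∑ b ∈ Icc lo m, ∑ c ∈ Icc lo m,
        G_CHB H X z η (lz z) th 1 1 (-1) a b c) +
      (∑ a ∈ Icc lo m, ∑ b ∈ Icc lo m, ∑ c ∈ Icc lo m,
        G_CHB H X z η (lz z) (lz z) (-1) 1 1 a b c) := by
    rw [Finset.sum_add_distrib, Finset.sum_add_distrib]
    simp only [Finset.sum_product]
    congr 1
    · congr 1
      rw [Finset.sum_comm]
    · have : ∀ a ∈ Icc lo m, (∑ b ∈ Icc lo m, ∑ c ∈ Icc lo m,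
          G_CHB H X z η (lz z) (lz z) (-1) 1 1 c a b) =
          ∑ c ∈ Icc lo m, ∑ b ∈ Icc lo m,
          G_CHB H X z η (lz z) (lz z) (-1) 1 1 c a b := by
        intro a _
        rw [Finset.sum_comm]
      rw [Finset.sum_congr rfl this, Finset.sum_comm]
  rw [hsplit] at hcard
  have hfin : (S.card : ℝ) ≤ 108 * V / η ^ 2 + 18 * D / η := by
    have : 3 * (36 / η ^ 2 * V + 6 / η * D) = 108 * V / η ^ 2 + 18 * D / η := by ring
    linarith
  have hnc : ({v ∈ (Icc lo m) ×ˢ (Icc lo m) ×ˢ (Icc lo m) | BadT H v.1 v.2.1 v.2.2 ∧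
      Lng v.1 v.2.1 v.2.2 lam} : Set (ℕ × ℕ × ℕ)).ncard = S.card := by
    rw [← Set.ncard_coe_finset S]
    congr 1
    ext v
    simp [hS]
  rw [hnc]
  exact hfin

end Pool.Agent.Helper30.HX
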