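import Pool.Agent.Helper30.HX.StA
set_option autoImplicit false
namespace Pool.Agent.Helper30.HX
open Finset

theorem hCls : StCls := by
  intro y w x' y' w' q hc hq hd
  have hq0 : (q : ℤ) ≠ 0 := by exact_mod_cast (by omega : q ≠ 0)
  obtain ⟨u, v, huv⟩ := Nat.isCoprime_iff_coprime.2 hc
  refine ⟨((((u * y + v * w) * x') % (q : ℤ))).toNat, fun x => ?_⟩
  have hr : ((((u * y + v * w) * x' % (q : ℤ)).toNat : ℕ) : ℤ) = (u * y + v * w) * x' % q :=
    Int.toNat_of_nonneg (Int.emod_nonneg _ hq0)
  rw [← Int.natCast_modEq_iff, hr]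
  have h1 : (x : ℤ) ≡ (u * y + v * w) * x' % q [ZMOD q] ↔ (q : ℤ) ∣ (u * y + v * w) * x' - x := by
    rw [Int.modEq_iff_dvd]
    constructor
    · intro h
      have h2 := Int.dvd_sub_self_of_emod_eq (a := (u * y + v * w) * x') (b := q) rfl
      have h3 := dvd_sub h h2
      have e : (u * (y : ℤ) + v * w) * x' % q - x - ((u * y + v * w) * x' % q -
        (u * y + v * w) * x') = (u * y + v * w) * x' - x := by ring
      rwa [e] at h3
    · intro h
      have h2 := Int.dvd_sub_self_of_emod_eq (a := (u * y + v * w) * x') (b := q) rfl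
      have h3 := dvd_add h h2
      have e : (u * (y : ℤ) + v * w) * x' - x + ((u * y + v * w) * x' % q -
        (u * y + v * w) * x') = (u * y + v * w) * x' % q - x := by ring
      rwa [e] at h3
  rw [h1]
  unfold dlt at hd
  constructor
  · rintro ⟨ha, hb⟩
    have e : (u * (y : ℤ) + v * w) * x' - x =
        v * ((w : ℤ) * x' - x * w') - u * ((x : ℤ) * y' - y * x') := by
      linear_combination (x : ℤ) * huv
    rw [e]
    exact dvd_sub (ha.mul_left _) (hb.mul_left _)
  · intro h
    constructor
    · have e : (w : ℤ) * x' - x * w' = w' * ((u * (y : ℤ) + v * w) * x' - x) -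
          u * x' * ((y : ℤ) * w' - w * y') := by
        linear_combination (-(w : ℤ) * x') * huv
      rw [e]
      exact dvd_sub (h.mul_left _) (hd.mul_left _)
    · have e : (x : ℤ) * y' - y * x' = -(y' * ((u * (y : ℤ) + v * w) * x' - x)) +
          -(v * x') * ((y : ℤ) * w' - w * y') := by
        linear_combination ((y : ℤ) * x') * huv
      rw [e]
      exact dvd_add ((h.mul_left _).neg_right) (hd.mul_left _)

end Pool.Agent.Helper30.HX
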