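import Pool.Agent.Helper30.HX.StM
import Pool.Agent.Helper48.BK.M_Cls
import Pool.Agent.Helper48.BK.M_Cnt7

/-!
# Project HX: module CN7
-/

set_option autoImplicit false

namespace Pool.Agent.Helper30.HX

open Finset
open Pool.Agent.Helper48.BK (th lz Vz Pz win AdN Cl kp crt_Cnt7 comb_Cnt7 cop_Cnt7 kp_le_Cnt7)

theorem hCn7 (ha : StRes) : StCn7 := by
  intro a b c S₁ S₂ d u₁ u₂ u₃ v₁ v₂ v₃ n₀ k₀ l₀ w₁ w₂ w₃ T h1c hAd hBas h0 h30 hT
  set P : ℕ := ∏ p ∈ T, p with hP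
  have hPpos : 1 ≤ P := Finset.prod_pos (fun p hp => (hT p hp).1.pos)
  have hcop : Nat.Coprime 30 P := cop_Cnt7 T hT
  have hg : Nat.gcd a (Nat.gcd b c) = 1 := hAd.2.1
  obtain ⟨hBu, hBv, -⟩ := id hBas
  let nn : ℕ × ℕ → ℤ := fun t => n₀ + t.1 * u₁ + t.2 * v₁
  let kk : ℕ × ℕ → ℤ := fun t => k₀ + t.1 * u₂ + t.2 * v₂
  let ll : ℕ × ℕ → ℤ := fun t => l₀ + t.1 * u₃ + t.2 * v₃
  set F := ((range S₁) ×ˢ (range S₂)).filter (fun t : ℕ × ℕ =>
      ((30 : ℤ) ∣ n₀ + t.1 * u₁ + t.2 * v₁ - w₁ ∧ (30 : ℤ) ∣ k₀ + t.1 * u₂ + t.2 * v₂ - w₂ ∧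
        (30 : ℤ) ∣ l₀ + t.1 * u₃ + t.2 * v₃ - w₃) ∧
      ∀ p ∈ T, (p : ℤ) ∣ (n₀ + t.1 * u₁ + t.2 * v₁) * (k₀ + t.1 * u₂ + t.2 * v₂) *
        (l₀ + t.1 * u₃ + t.2 * v₃)) with hF
  set C := (Cl a b c d P).filter (fun u => ∀ p ∈ T, p ∣ u.1 * u.2.1 * u.2.2) with hC
  have hCcard : C.card = ∏ p ∈ T, kp a b c d p :=
    Pool.Agent.Helper48.BK.hCls a b c d T (fun p hp => (hT p hp).1)
  have hCle : C.card ≤ P ^ 2 := by
    rw [hCcard, hP, ← Finset.prod_pow]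
    exact Finset.prod_le_prod' (fun p hp => kp_le_Cnt7 a b c d p (hT p hp).1 hg)
  have hPz : (0 : ℤ) < P := by exact_mod_cast hPpos
  -- the exact equation
  have heq : ∀ t : ℕ × ℕ, (a : ℤ) * nn t + b * kk t - c * ll t - d = 0 := by
    intro t
    simp only [nn, kk, ll]
    linear_combination h0 + (t.1 : ℤ) * hBu + (t.2 : ℤ) * hBv
  have hpd : ∀ p ∈ T, (p : ℤ) ∣ (P : ℤ) := fun p hp =>
    Int.natCast_dvd_natCast.mpr (Finset.dvd_prod_of_mem _ hp)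
  let f : ℕ × ℕ → ℕ × ℕ × ℕ := fun t =>
    ((nn t % (P : ℤ)).toNat, (kk t % (P : ℤ)).toNat, (ll t % (P : ℤ)).toNat)
  have hmod : ∀ x : ℤ, (((x % (P : ℤ)).toNat : ℕ) : ℤ) = x % P := fun x =>
    Int.toNat_of_nonneg (Int.emod_nonneg _ hPz.ne')
  have hdm : ∀ x : ℤ, (P : ℤ) ∣ (((x % (P : ℤ)).toNat : ℕ) : ℤ) - x := by
    intro x
    rw [hmod]
    exact (Int.mod_modEq x P).symm.dvd
  have hlt : ∀ x : ℤ, (x % (P : ℤ)).toNat < P := by
    intro x
    have := Int.emod_lt_of_pos x hPz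
    have h2 := hmod x
    omega
  have hmaps : ∀ t ∈ F, f t ∈ C := by
    intro t ht
    rw [hF, mem_filter] at ht
    obtain ⟨-, -, htT⟩ := ht
    rw [hC, mem_filter]
    have hd1 := hdm (nn t)
    have hd2 := hdm (kk t)
    have hd3 := hdm (ll t)
    constructor
    · simp only [Cl, mem_filter, mem_product, mem_range, f]
      refine ⟨⟨hlt _, hlt _, hlt _⟩, ?_⟩
      have h1 := heq t
      have : (a : ℤ) * (((nn t % (P : ℤ)).toNat : ℕ) : ℤ) +
          b * (((kk t % (P : ℤ)).toNat : ℕ) : ℤ) - c * (((ll t % (P : ℤ)).toNat : ℕ) : ℤ) - d =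
          a * ((((nn t % (P : ℤ)).toNat : ℕ) : ℤ) - nn t) +
            b * ((((kk t % (P : ℤ)).toNat : ℕ) : ℤ) - kk t) -
            c * ((((ll t % (P : ℤ)).toNat : ℕ) : ℤ) - ll t) := by
        linear_combination h1
      rw [this]
      exact dvd_sub (dvd_add (hd1.mul_left _) (hd2.mul_left _)) (hd3.mul_left _)
    · intro p hp
      have h1 := htT p hp
      rw [← Int.natCast_dvd_natCast]
      simp only [f]
      have e1 := (hpd p hp).trans hd1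
      have e2 := (hpd p hp).trans hd2
      have e3 := (hpd p hp).trans hd3
      have m1 := (Int.modEq_iff_dvd.mpr e1)
      have m2 := (Int.modEq_iff_dvd.mpr e2)
      have m3 := (Int.modEq_iff_dvd.mpr e3)
      have m := (m1.mul m2).mul m3
      have := (Int.ModEq.dvd m)
      have h4 := dvd_add this h1
      rw [sub_add_cancel] at h4
      push_cast at h4 ⊢
      exact h4
  have hfib := Finset.card_eq_sum_card_fiberwise hmaps
  -- each fibre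
  set E : ℝ := (S₁ : ℝ) + S₂ + 1 with hE
  set N : ℝ := (S₁ : ℝ) * S₂ / 900 / (P : ℝ) ^ 2 with hN
  have hfibre : ∀ u ∈ C, |((F.filter (fun v => f v = u)).card : ℝ) - N| ≤ E := by
    intro u hu
    rw [hC, mem_filter] at hu
    obtain ⟨hu, huT⟩ := hu
    simp only [Cl, mem_filter, mem_product, mem_range] at hu
    obtain ⟨⟨hu1, hu2, hu3⟩, hud⟩ := hu
    obtain ⟨W₁, hw1, hw1'⟩ := crt_Cnt7 P hcop w₁ u.1
    obtain ⟨W₂, hw2, hw2'⟩ := crt_Cnt7 P hcop w₂ u.2.1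
    obtain ⟨W₃, hw3, hw3'⟩ := crt_Cnt7 P hcop w₃ u.2.2
    have hM : 1 ≤ 30 * P := by omega
    have hdv : ((30 * P : ℕ) : ℤ) ∣ a * W₁ + b * W₂ - c * W₃ - d := by
      push_cast
      have h1 : IsCoprime ((30 : ℕ) : ℤ) (P : ℤ) := Nat.isCoprime_iff_coprime.mpr hcop
      apply IsCoprime.mul_dvd (by exact_mod_cast h1)
      · have : (a : ℤ) * W₁ + b * W₂ - c * W₃ - d = (a * (W₁ - w₁) + b * (W₂ - w₂) -
            c * (W₃ - w₃)) + (a * w₁ + b * w₂ - c * w₃ - d) := by ring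
        rw [this]
        exact dvd_add (dvd_sub (dvd_add (hw1.mul_left _) (hw2.mul_left _)) (hw3.mul_left _)) h30
      · have : (a : ℤ) * W₁ + b * W₂ - c * W₃ - d = (a * (W₁ - u.1) + b * (W₂ - u.2.1) -
            c * (W₃ - u.2.2)) + (a * u.1 + b * u.2.1 - c * u.2.2 - d) := by ring
        rw [this]
        exact dvd_add (dvd_sub (dvd_add (hw1'.mul_left _) (hw2'.mul_left _)) (hw3'.mul_left _)) hud
    have hset : F.filter (fun v => f v = u) = ((range S₁) ×ˢ (range S₂)).filter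
        (fun t : ℕ × ℕ =>
        ((30 * P : ℕ) : ℤ) ∣ n₀ + t.1 * u₁ + t.2 * v₁ - W₁ ∧
        ((30 * P : ℕ) : ℤ) ∣ k₀ + t.1 * u₂ + t.2 * v₂ - W₂ ∧
        ((30 * P : ℕ) : ℤ) ∣ l₀ + t.1 * u₃ + t.2 * v₃ - W₃) := by
      ext t
      rw [mem_filter, hF, mem_filter, mem_filter, comb_Cnt7 P hcop _ _ _ _ hw1 hw1',
        comb_Cnt7 P hcop _ _ _ _ hw2 hw2', comb_Cnt7 P hcop _ _ _ _ hw3 hw3']
      have hint : ∀ (x : ℤ) (y : ℕ), y < P → ((x % (P : ℤ)).toNat = y ↔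
          (P : ℤ) ∣ x - y) := by
        intro x y hy
        constructor
        · intro h
          have h5 : ((y : ℕ) : ℤ) = x % P := by
            rw [← h]; exact hmod x
          rw [h5]
          exact (Int.mod_modEq x P).dvd
        · intro h
          have h2 : ((y : ℕ) : ℤ) ≡ x [ZMOD P] := Int.modEq_iff_dvd.mpr h
          have h4 : ((y : ℕ) : ℤ) % P = x % P := h2
          rw [← h4, Int.emod_eq_of_lt (by positivity) (by exact_mod_cast hy)]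
          simp
      have hfv : f t = u ↔ ((P : ℤ) ∣ nn t - u.1 ∧ (P : ℤ) ∣ kk t - u.2.1 ∧
          (P : ℤ) ∣ ll t - u.2.2) := by
        rw [← hint _ _ hu1, ← hint _ _ hu2, ← hint _ _ hu3]
        constructor
        · intro h
          rw [← h]
          exact ⟨rfl, rfl, rfl⟩
        · rintro ⟨g1, g2, g3⟩
          simp only [f, g1, g2, g3]
      rw [hfv]
      constructor
      · rintro ⟨⟨hv, ⟨k1, k2, k3⟩, _⟩, g1, g2, g3⟩
        exact ⟨hv, ⟨k1, g1⟩, ⟨k2, g2⟩, ⟨k3, g3⟩⟩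
      · rintro ⟨hv, ⟨k1, g1⟩, ⟨k2, g2⟩, ⟨k3, g3⟩⟩
        refine ⟨⟨hv, ⟨k1, k2, k3⟩, ?_⟩, g1, g2, g3⟩
        intro p hp
        have h1 : (p : ℤ) ∣ (u.1 : ℤ) * u.2.1 * u.2.2 := by
          have := Int.natCast_dvd_natCast.mpr (huT p hp)
          push_cast at this
          exact this
        have m1 := Int.modEq_iff_dvd.mpr ((hpd p hp).trans g1)
        have m2 := Int.modEq_iff_dvd.mpr ((hpd p hp).trans g2)
        have m3 := Int.modEq_iff_dvd.mpr ((hpd p hp).trans g3)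
        have h4 := dvd_add ((m1.mul m2).mul m3).dvd h1
        rw [sub_add_cancel] at h4
        exact h4
    rw [hset]
    have hR := ha a b c (30 * P) S₁ S₂ d u₁ u₂ u₃ v₁ v₂ v₃ n₀ k₀ l₀ W₁ W₂ W₃ h1c hM hg hBas h0 hdv
    have hNe : (S₁ : ℝ) * S₂ / ((30 * P : ℕ) : ℝ) ^ 2 = N := by
      rw [hN]
      push_cast
      rw [mul_pow, div_div]
      norm_num
    rw [hNe] at hR
    refine hR.trans ?_
    rw [hE]
    have hM1 : (1 : ℝ) ≤ ((30 * P : ℕ) : ℝ) := by exact_mod_cast hM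
    have g1 : (S₁ : ℝ) / ((30 * P : ℕ) : ℝ) ≤ S₁ := div_le_self (Nat.cast_nonneg _) hM1
    have g2 : (S₂ : ℝ) / ((30 * P : ℕ) : ℝ) ≤ S₂ := div_le_self (Nat.cast_nonneg _) hM1
    linarith
  have hsum : (F.card : ℝ) - C.card * N = ∑ u ∈ C, (((F.filter (fun v => f v = u)).card : ℝ) - N) := by
    rw [Finset.sum_sub_distrib, Finset.sum_const, nsmul_eq_mul, hfib]
    push_cast
    rfl
  have hmain : (S₁ : ℝ) * S₂ / 900 * ∏ p ∈ T, ((kp a b c d p : ℝ) / (p : ℝ) ^ 2) =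
      C.card * N := by
    rw [hCcard, hN, Finset.prod_div_distrib, Finset.prod_pow]
    push_cast
    rw [hP]
    push_cast
    ring
  rw [hmain, hsum]
  refine (Finset.abs_sum_le_sum_abs _ _).trans ?_
  refine (Finset.sum_le_sum hfibre).trans ?_
  rw [Finset.sum_const, nsmul_eq_mul]
  have hE0 : 0 ≤ E := by rw [hE]; positivity
  have hCr : (C.card : ℝ) ≤ (P : ℝ) ^ 2 := by exact_mod_cast hCle
  exact mul_le_mul_of_nonneg_right hCr hE0

end Pool.Agent.Helper30.HX
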