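import Pool.Agent.Helper30.HX.StA

/-!
# HX, module CNA: coefficient triples orthogonal to a given vector
-/

set_option autoImplicit false

namespace Pool.Agent.Helper30.HX

open Finset

private lemma card_AP_CNA (S : Finset ℕ) (m d : ℕ) (hS : ∀ b ∈ S, b ≤ m)
    (h : ∀ b ∈ S, ∀ b' ∈ S, (d : ℤ) ∣ (b : ℤ) - b') : S.card ≤ m / d + 1 := by
  have h1 : S.card ≤ (range (m / d + 1)).card := by
    refine card_le_card_of_injOn (fun b => b / d) ?_ ?_
    · intro b hb
      rw [mem_coe, mem_range]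
      exact Nat.lt_succ_of_le (Nat.div_le_div_right (hS b hb))
    · intro b hb b' hb' hbb
      have h2 : b / d = b' / d := hbb
      have h3 : b % d = b' % d := by
        have h4 := h b' hb' b hb
        exact (Nat.modEq_iff_dvd.2 h4)
      rw [← Nat.div_add_mod b d, ← Nat.div_add_mod b' d, h2, h3]
  rwa [card_range] at h1

private lemma card_mult_CNA (S : Finset ℕ) (m d : ℕ) (hS : ∀ b ∈ S, 1 ≤ b ∧ b ≤ m)
    (h : ∀ b ∈ S, d ∣ b) : S.card ≤ m / d := by
  have h1 : S.card ≤ (Icc 1 (m / d)).card := by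
    refine card_le_card_of_injOn (fun b => b / d) ?_ ?_
    · intro b hb
      have hb1 := (hS b hb).1
      obtain ⟨k, rfl⟩ := h b hb
      have hd : 0 < d := Nat.pos_of_ne_zero (by rintro rfl; simp at hb1)
      have hk : 0 < k := Nat.pos_of_ne_zero (by rintro rfl; simp at hb1)
      rw [mem_coe, mem_Icc]
      refine ⟨?_, Nat.div_le_div_right (hS _ hb).2⟩
      change 1 ≤ d * k / d
      rw [Nat.mul_div_cancel_left _ hd]
      exact hk
    · intro b hb b' hb' hbb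
      have h2 : b / d = b' / d := hbb
      rw [← Nat.mul_div_cancel' (h b hb), ← Nat.mul_div_cancel' (h b' hb'), h2]
  rwa [Nat.card_Icc, Nat.add_sub_cancel] at h1

private lemma sg_mul_CNA {s : ℤ} (hs : Sg s) : s * s = 1 := by
  rcases hs with rfl | rfl <;> norm_num

theorem hCnA : StCnA := by
  intro m x y w s₁ s₂ s₃ h1 h2 h3 hx hy hw
  set S := ((Icc 1 m) ×ˢ (Icc 1 m) ×ˢ (Icc 1 m)).filter (fun v : ℕ × ℕ × ℕ =>
    s₁ * (v.1 * x) + s₂ * (v.2.1 * y) + s₃ * (v.2.2 * w) = 0) with hS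
  have hmem : ∀ v ∈ S, (1 ≤ v.1 ∧ v.1 ≤ m) ∧ (1 ≤ v.2.1 ∧ v.2.1 ≤ m) ∧ (1 ≤ v.2.2 ∧ v.2.2 ≤ m) ∧
      s₁ * (v.1 * x) + s₂ * (v.2.1 * y) + s₃ * (v.2.2 * w) = 0 := by
    intro v hv
    rw [hS, mem_filter, mem_product, mem_product, mem_Icc, mem_Icc, mem_Icc] at hv
    exact ⟨hv.1.1, hv.1.2.1, hv.1.2.2, hv.2⟩
  set h := Nat.gcd y w with hh
  have hhpos : 0 < h := Nat.gcd_pos_of_pos_left _ hy
  set g := Nat.gcd h x with hg
  have hgpos : 0 < g := Nat.gcd_pos_of_pos_left _ hhpos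
  obtain ⟨y₁, hy₁⟩ : h ∣ y := Nat.gcd_dvd_left _ _
  obtain ⟨w₁, hw₁⟩ : h ∣ w := Nat.gcd_dvd_right _ _
  obtain ⟨h', hh'⟩ : g ∣ h := Nat.gcd_dvd_left _ _
  obtain ⟨x₁, hx₁⟩ : g ∣ x := Nat.gcd_dvd_right _ _
  have hcop : Nat.Coprime y₁ w₁ := by
    have e : Nat.gcd (h * y₁) (h * w₁) = h := by rw [← hy₁, ← hw₁]
    rw [Nat.gcd_mul_left] at e
    exact Nat.eq_of_mul_eq_mul_left hhpos (by rw [e, mul_one])
  have hcop' : Nat.Coprime h' x₁ := by
    have e : Nat.gcd (g * h') (g * x₁) = g := by rw [← hh', ← hx₁]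
    rw [Nat.gcd_mul_left] at e
    exact Nat.eq_of_mul_eq_mul_left hgpos (by rw [e, mul_one])
  have hw₁pos : 0 < w₁ := Nat.pos_of_ne_zero (by rintro rfl; rw [mul_zero] at hw₁; omega)
  have hh'pos : 0 < h' := Nat.pos_of_ne_zero (by rintro rfl; rw [mul_zero] at hh'; omega)
  -- the first coordinates
  have hA : (S.image (fun v => v.1)).card ≤ m / h' := by
    refine card_mult_CNA _ m h' ?_ ?_
    · intro b hb
      obtain ⟨v, hv, rfl⟩ := mem_image.1 hb
      exact (hmem v hv).1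
    · intro b hb
      obtain ⟨v, hv, rfl⟩ := mem_image.1 hb
      have e := (hmem v hv).2.2.2
      have e1 : (h : ℤ) ∣ v.1 * x := by
        have e2 : (v.1 : ℤ) * x = (h : ℤ) * (-(s₁ * s₂) * (v.2.1 * y₁) - (s₁ * s₃) * (v.2.2 * w₁)) := by
          have e3 : (y : ℤ) = h * y₁ := by exact_mod_cast hy₁
          have e4 : (w : ℤ) = h * w₁ := by exact_mod_cast hw₁
          have e5 : (v.1 : ℤ) * x = s₁ * s₁ * (v.1 * x) := by rw [sg_mul_CNA h1, one_mul]
          rw [e5]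
          rw [e3, e4] at e
          linear_combination s₁ * e
        rw [e2]
        exact dvd_mul_right _ _
      have e2 : h ∣ v.1 * x := by exact_mod_cast e1
      have e3 : g * h' ∣ g * (v.1 * x₁) := by
        have e4 : g * (v.1 * x₁) = v.1 * x := by rw [hx₁]; ring
        rw [e4, ← hh']; exact e2
      have e4 := Nat.dvd_of_mul_dvd_mul_left hgpos e3
      exact hcop'.dvd_of_dvd_mul_right e4
  -- the fibres
  have hF : ∀ a ∈ S.image (fun v => v.1), (S.filter (fun v => v.1 = a)).card ≤ m / w₁ + 1 := by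
    intro a _
    have e1 : (S.filter (fun v => v.1 = a)).card =
        ((S.filter (fun v => v.1 = a)).image (fun v => v.2.1)).card := by
      symm
      refine card_image_of_injOn ?_
      intro v hv v' hv' hvv
      rw [mem_coe, mem_filter] at hv hv'
      have a1 := (hmem v hv.1).2.2.2
      have a2 := (hmem v' hv'.1).2.2.2
      have b1 : v.1 = v'.1 := hv.2.trans hv'.2.symm
      have b2 : v.2.1 = v'.2.1 := hvv
      have b3 : v.2.2 = v'.2.2 := by
        rw [b1, b2] at a1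
        have c1 : s₃ * (v.2.2 * w) = s₃ * (v'.2.2 * w) := by linarith
        have c2 : s₃ ≠ 0 := by rcases h3 with rfl | rfl <;> norm_num
        have c3 := mul_left_cancel₀ c2 c1
        have c4 : (w : ℤ) ≠ 0 := by exact_mod_cast (by omega : w ≠ 0)
        exact_mod_cast mul_right_cancel₀ c4 c3
      exact Prod.ext b1 (Prod.ext b2 b3)
    rw [e1]
    refine card_AP_CNA _ m w₁ ?_ ?_
    · intro b hb
      obtain ⟨v, hv, rfl⟩ := mem_image.1 hb
      exact (hmem v (mem_filter.1 hv).1).2.1.2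
    · intro b hb b' hb'
      obtain ⟨v, hv, rfl⟩ := mem_image.1 hb
      obtain ⟨v', hv', rfl⟩ := mem_image.1 hb'
      rw [mem_filter] at hv hv'
      have a1 := (hmem v hv.1).2.2.2
      have a2 := (hmem v' hv'.1).2.2.2
      have b1 : v.1 = v'.1 := hv.2.trans hv'.2.symm
      rw [b1] at a1
      have e3 : (y : ℤ) = h * y₁ := by exact_mod_cast hy₁
      have e4 : (w : ℤ) = h * w₁ := by exact_mod_cast hw₁
      rw [e3, e4] at a1 a2
      have c1 : (h : ℤ) * (((v.2.1 : ℤ) - v'.2.1) * y₁) =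
          h * (w₁ * (s₂ * s₃ * ((v'.2.2 : ℤ) - v.2.2))) := by
        have c2 := sg_mul_CNA h2
        linear_combination s₂ * a1 - s₂ * a2 - (h : ℤ) * (((v.2.1 : ℤ) - v'.2.1) * y₁) * c2
      have c3 : (h : ℤ) ≠ 0 := by exact_mod_cast (by omega : h ≠ 0)
      have c4 := mul_left_cancel₀ c3 c1
      have c5 : (w₁ : ℤ) ∣ ((v.2.1 : ℤ) - v'.2.1) * y₁ := by rw [c4]; exact dvd_mul_right _ _
      have c6 : IsCoprime (w₁ : ℤ) (y₁ : ℤ) := Nat.isCoprime_iff_coprime.2 hcop.symm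
      exact c6.dvd_of_dvd_mul_right c5
  have hcard : S.card ≤ (m / w₁ + 1) * (m / h') :=
    (card_le_mul_card_image S (m / w₁ + 1) hF).trans (Nat.mul_le_mul_left _ hA)
  -- real estimates
  have r1 : ((m / w₁ + 1 : ℕ) : ℝ) ≤ (m : ℝ) * h / w + 1 := by
    push_cast
    have e4 : (w : ℝ) = h * w₁ := by exact_mod_cast hw₁
    have e5 : ((m / w₁ : ℕ) : ℝ) ≤ (m : ℝ) / w₁ := Nat.cast_div_le
    have e6 : (m : ℝ) * h / w = (m : ℝ) / w₁ := by
      have : (h : ℝ) ≠ 0 := by exact_mod_cast (by omega : h ≠ 0)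
      have : (w₁ : ℝ) ≠ 0 := by exact_mod_cast (by omega : w₁ ≠ 0)
      rw [e4]; field_simp
    rw [e6]; linarith
  have r2 : ((m / h' : ℕ) : ℝ) ≤ (m : ℝ) * g / h := by
    have e4 : (h : ℝ) = g * h' := by exact_mod_cast hh'
    have e5 : ((m / h' : ℕ) : ℝ) ≤ (m : ℝ) / h' := Nat.cast_div_le
    have e6 : (m : ℝ) * g / h = (m : ℝ) / h' := by
      have : (g : ℝ) ≠ 0 := by exact_mod_cast (by omega : g ≠ 0)
      have : (h' : ℝ) ≠ 0 := by exact_mod_cast (by omega : h' ≠ 0)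
      rw [e4]; field_simp
    rw [e6]; exact e5
  have hw0 : (0 : ℝ) < w := by exact_mod_cast (by omega : 0 < w)
  have hh0 : (1 : ℝ) ≤ h := by exact_mod_cast hhpos
  calc ((S.card : ℕ) : ℝ) ≤ (((m / w₁ + 1) * (m / h') : ℕ) : ℝ) := by exact_mod_cast hcard
    _ = ((m / w₁ + 1 : ℕ) : ℝ) * ((m / h' : ℕ) : ℝ) := by rw [Nat.cast_mul]
    _ ≤ ((m : ℝ) * h / w + 1) * ((m : ℝ) * g / h) :=
        mul_le_mul r1 r2 (Nat.cast_nonneg _) (by positivity)
    _ = (g : ℝ) * (m * ((m : ℝ) / w + 1 / h)) := by field_simp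
    _ ≤ (g : ℝ) * (m * ((m : ℝ) / w + 1)) := by
        have : 1 / (h : ℝ) ≤ 1 := by rw [div_le_one (by linarith)]; exact hh0
        gcongr

end Pool.Agent.Helper30.HX
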