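import Pool.Agent.Helper30.HX.StA

set_option autoImplicit false

namespace Pool.Agent.Helper30.HX

open Finset

theorem one_CVX (X : ℕ) (P : ℕ → Prop)
    (hP : ∀ x₁ x₂ x₃ : ℕ, x₁ ≤ x₂ → x₂ ≤ x₃ → P x₁ → P x₃ → P x₂) :
    ∃ y₁ y₂ : ℕ, y₁ ≤ y₂ ∧ y₂ ≤ X ∧ ∀ x : ℕ, (x ∈ Ioc 0 X ∧ P x) ↔ x ∈ Ioc y₁ y₂ := by
  classical
  set S := (Ioc 0 X).filter P with hS
  by_cases hne : S.Nonempty
  · set a := S.min' hne with ha
    set b := S.max' hne with hb
    have haS : a ∈ S := S.min'_mem hne
    have hbS : b ∈ S := S.max'_mem hne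
    have haS' := haS
    have hbS' := hbS
    rw [hS, mem_filter, mem_Ioc] at haS' hbS'
    have hab : a ≤ b := S.min'_le b hbS
    refine ⟨a - 1, b, by omega, hbS'.1.2, fun x => ?_⟩
    constructor
    · rintro ⟨h1, h2⟩
      have hx : x ∈ S := by rw [hS, mem_filter]; exact ⟨h1, h2⟩
      have h3 := S.min'_le x hx
      have h4 := S.le_max' x hx
      rw [mem_Ioc]
      constructor
      · have : a ≤ x := h3
        have := haS'.1.1
        omega
      · exact h4
    · intro hx
      rw [mem_Ioc] at hx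
      have h1 : a ≤ x := by omega
      refine ⟨?_, hP a x b h1 hx.2 haS'.2 hbS'.2⟩
      rw [mem_Ioc]
      have := haS'.1.1
      have := hbS'.1.2
      omega
  · refine ⟨0, 0, le_rfl, Nat.zero_le _, fun x => ?_⟩
    rw [not_nonempty_iff_eq_empty] at hne
    constructor
    · rintro ⟨h1, h2⟩
      exfalso
      have hx : x ∈ S := by rw [hS, mem_filter]; exact ⟨h1, h2⟩
      rw [hne] at hx
      simp at hx
    · intro hx
      simp at hx

theorem two_CVX (y₁ y₂ q r : ℕ) (D : ℝ) (hq : 1 ≤ q) (hD : 0 ≤ D) (hy : y₁ ≤ y₂)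
    (h : ∀ x₁ ∈ Ioc y₁ y₂, ∀ x₂ ∈ Ioc y₁ y₂, x₁ ≤ x₂ → (x₂ : ℝ) - x₁ ≤ D) :
    ((((Ioc y₁ y₂).filter (fun x => x ≡ r [MOD q])).card : ℕ) : ℝ) ≤ D / q + 1 ∧
    (y₂ : ℝ) - y₁ ≤ D + 1 := by
  classical
  have hq0 : (0 : ℝ) < q := by exact_mod_cast hq
  constructor
  · set S := (Ioc y₁ y₂).filter (fun x => x ≡ r [MOD q]) with hS
    by_cases hne : S.Nonempty
    · set a := S.min' hne with ha
      set b := S.max' hne with hb
      have haS : a ∈ S := S.min'_mem hne
      have hbS : b ∈ S := S.max'_mem hne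
      have haS' := haS
      have hbS' := hbS
      rw [hS, mem_filter] at haS' hbS'
      have hab : a ≤ b := S.min'_le b hbS
      have h1 : (b : ℝ) - a ≤ D := h a haS'.1 b hbS'.1 hab
      have hcard : S.card ≤ (range ((b - a) / q + 1)).card := by
        refine card_le_card_of_injOn (fun x => (x - a) / q) ?_ ?_
        · intro x hx
          have hx' : x ∈ S := hx
          have h3 := S.min'_le x hx'
          have h4 : x ≤ b := S.le_max' x hx'
          simp only [coe_range, Set.mem_Iio]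
          have : (x - a) / q ≤ (b - a) / q := Nat.div_le_div_right (by omega)
          omega
        · intro x hx x' hx' hxx
          have hxS : x ∈ S := hx
          have hxS' : x' ∈ S := hx'
          have h3 : a ≤ x := S.min'_le x hxS
          have h3' : a ≤ x' := S.min'_le x' hxS'
          rw [hS, mem_filter] at hxS hxS'
          have m1 : q ∣ x - a := (Nat.modEq_iff_dvd' h3).1 (haS'.2.trans hxS.2.symm)
          have m2 : q ∣ x' - a := (Nat.modEq_iff_dvd' h3').1 (haS'.2.trans hxS'.2.symm)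
          obtain ⟨u, hu⟩ := m1
          obtain ⟨u', hu'⟩ := m2
          simp only at hxx
          rw [hu, hu', Nat.mul_div_cancel_left _ (by omega), Nat.mul_div_cancel_left _ (by omega)]
            at hxx
          subst hxx
          omega
      rw [card_range] at hcard
      have h5 : (S.card : ℝ) ≤ (((b - a) / q : ℕ) : ℝ) + 1 := by exact_mod_cast hcard
      have h6 : (((b - a) / q : ℕ) : ℝ) ≤ ((b - a : ℕ) : ℝ) / q := Nat.cast_div_le
      rw [Nat.cast_sub hab] at h6
      have h7 : ((b : ℝ) - a) / q ≤ D / q := div_le_div_of_nonneg_right h1 hq0.le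
      linarith
    · rw [not_nonempty_iff_eq_empty] at hne
      rw [hne]
      simp only [card_empty, Nat.cast_zero]
      positivity
  · rcases eq_or_lt_of_le hy with h0 | h0
    · rw [h0]
      linarith
    · have h1 := h (y₁ + 1) (by rw [mem_Ioc]; omega) y₂ (by rw [mem_Ioc]; omega) h0
      push_cast at h1
      linarith

theorem hCvx : StCvx := ⟨one_CVX, two_CVX⟩

end Pool.Agent.Helper30.HX
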