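import Pool.Agent.Helper30.HX.StT

/-!
# Project HX, module DB: the defects with the parameters
-/

set_option autoImplicit false

namespace Pool.Agent.Helper30.HX

open Finset
open Pool.Agent.Helper48.BK (th lz Vz Pz win AdN Admissible Solv Box)

lemma rgh_th_DB (z : ℕ) : Rgh z th := by
  intro x hx hne p hp hpx
  unfold th at hne
  by_cases hxp : x.Prime
  · rcases (Nat.dvd_prime hxp).1 hpx with h | h
    · exact absurd h hp.one_lt.ne'
    · omega
  · rw [if_neg hxp] at hne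
    exact absurd rfl hne

lemma rgh_lz_DB (z : ℕ) : Rgh z (lz z) := by
  intro x _ hne p hp hpx
  by_contra hcon
  apply hne
  unfold lz
  rw [if_neg]
  intro hall
  refine hall p ?_ hpx
  unfold Pz
  rw [Finset.mem_filter, Finset.mem_range]
  exact ⟨by omega, hp⟩

/-- the size computation -/
lemma size_DB (A : ℕ) (ε l H m X z lo L : ℝ) (hε : 0 < ε) (hl : 1 ≤ l)
    (hlε : 110592 / ε ≤ l) (hH : 1 ≤ H) (hm : 1 ≤ m) (hlo : 1 ≤ lo)
    (hmlo : m ≤ lo * l ^ (A + 2)) (hX0 : 0 ≤ X) (hX : X ≤ 12 * H / lo)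
    (hHm : H ≤ m ^ 2) (hz : l ^ (6 * A + 60) ≤ z) (hL0 : 0 ≤ L) (hL : L ≤ l) :
    (2 * l) ^ 3 * ((m * (m ^ 2 / H + 1)) * (X ^ 3 * (1 + L) ^ 2 / z)) ≤
      ε * (H ^ 2 / l ^ A) := by
  have hl0 : 0 < l := by linarith
  have hm0 : 0 < m := by linarith
  have hH0 : 0 < H := by linarith
  have hlo0 : 0 < lo := by linarith
  have hz0 : 0 < z := lt_of_lt_of_le (by positivity) hz
  -- the three factors
  have h1 : m * (m ^ 2 / H + 1) ≤ 2 * m ^ 3 / H := by
    have : (1 : ℝ) ≤ m ^ 2 / H := by rw [le_div_iff₀ hH0]; linarith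
    calc m * (m ^ 2 / H + 1) ≤ m * (m ^ 2 / H + m ^ 2 / H) := by
          apply mul_le_mul_of_nonneg_left _ hm0.le; linarith
      _ = 2 * m ^ 3 / H := by ring
  have hXb : X ≤ 12 * H * l ^ (A + 2) / m := by
    refine hX.trans ?_
    rw [div_le_div_iff₀ hlo0 hm0]
    calc 12 * H * m ≤ 12 * H * (lo * l ^ (A + 2)) :=
          mul_le_mul_of_nonneg_left hmlo (by positivity)
      _ = 12 * H * l ^ (A + 2) * lo := by ring
  have h2 : X ^ 3 ≤ (12 * H * l ^ (A + 2) / m) ^ 3 := pow_le_pow_left₀ hX0 hXb 3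
  have h3 : (1 + L) ^ 2 ≤ (2 * l) ^ 2 := pow_le_pow_left₀ (by linarith) (by linarith) 2
  have h4 : X ^ 3 * (1 + L) ^ 2 / z ≤
      (12 * H * l ^ (A + 2) / m) ^ 3 * (2 * l) ^ 2 / l ^ (6 * A + 60) := by
    apply div_le_div₀ (by positivity) _ (by positivity) hz
    exact mul_le_mul h2 h3 (by positivity) (by positivity)
  have h5 : (m * (m ^ 2 / H + 1)) * (X ^ 3 * (1 + L) ^ 2 / z) ≤
      (2 * m ^ 3 / H) * ((12 * H * l ^ (A + 2) / m) ^ 3 * (2 * l) ^ 2 / l ^ (6 * A + 60)) :=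
    mul_le_mul h1 h4 (by positivity) (by positivity)
  have h6 : (2 * l) ^ 3 * ((m * (m ^ 2 / H + 1)) * (X ^ 3 * (1 + L) ^ 2 / z)) ≤
      (2 * l) ^ 3 * ((2 * m ^ 3 / H) *
        ((12 * H * l ^ (A + 2) / m) ^ 3 * (2 * l) ^ 2 / l ^ (6 * A + 60))) :=
    mul_le_mul_of_nonneg_left h5 (by positivity)
  refine h6.trans ?_
  have hsplit : l ^ (6 * A + 60) = l ^ (3 * A + 11) * (l ^ A * l ^ (2 * A + 49)) := by
    rw [← pow_add, ← pow_add]; congr 1; ring
  have h3A : (l ^ (A + 2)) ^ 3 * l ^ 5 = l ^ (3 * A + 11) := by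
    rw [← pow_mul, ← pow_add]; congr 1; ring
  have h7 : (2 * l) ^ 3 * ((2 * m ^ 3 / H) *
        ((12 * H * l ^ (A + 2) / m) ^ 3 * (2 * l) ^ 2 / l ^ (6 * A + 60))) =
      110592 / l ^ (2 * A + 49) * (H ^ 2 / l ^ A) := by
    have e1 : (2 * l) ^ 3 * ((2 * m ^ 3 / H) *
        ((12 * H * l ^ (A + 2) / m) ^ 3 * (2 * l) ^ 2 / l ^ (6 * A + 60))) =
        110592 * H ^ 2 * ((l ^ (A + 2)) ^ 3 * l ^ 5) / l ^ (6 * A + 60) := by
      have : l ^ (6 * A + 60) ≠ 0 := by positivity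
      field_simp
      ring
    rw [e1, h3A, hsplit]
    have a1 : l ^ (3 * A + 11) ≠ 0 := by positivity
    have a2 : l ^ A ≠ 0 := by positivity
    have a3 : l ^ (2 * A + 49) ≠ 0 := by positivity
    field_simp
  rw [h7]
  apply mul_le_mul_of_nonneg_right _ (by positivity)
  rw [div_le_iff₀ (by positivity)]
  have h8 : l ≤ l ^ (2 * A + 49) := by
    calc l = l ^ 1 := (pow_one l).symm
      _ ≤ l ^ (2 * A + 49) := pow_le_pow_right₀ hl (by omega)
  have h9 : 110592 ≤ ε * l := by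
    rw [div_le_iff₀ hε] at hlε; linarith
  exact h9.trans (mul_le_mul_of_nonneg_left h8 hε.le)

theorem hDB (ha : StDef) (hb : StSiz) : StDB := by
  intro A C ε hε
  obtain ⟨m₁, h₁⟩ := hb A (6 * A + 60) C
  obtain ⟨m₂, h₂⟩ : ∃ m₂ : ℕ, ∀ m : ℕ, m₂ ≤ m → 110592 / ε ≤ Real.log m := by
    have := (Real.tendsto_log_atTop.comp tendsto_natCast_atTop_atTop).eventually_ge_atTop
      (110592 / ε)
    obtain ⟨m₂, h⟩ := Filter.eventually_atTop.1 this
    exact ⟨m₂, fun m hm => h m hm⟩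
  refine ⟨max m₁ (max m₂ 2), ?_⟩
  intro m lo H hm hpar g hg k hk s₁ s₂ s₃ hs₁ hs₂ hs₃
  have hm1 : m₁ ≤ m := le_trans (le_max_left _ _) hm
  have hm2 : m₂ ≤ m := le_trans (le_trans (le_max_left _ _) (le_max_right _ _)) hm
  obtain ⟨a1, a2, a3, a4, a5, a6, a7, a8, a9, a10, a11, a12, a13, a14, a15, a16⟩ :=
    h₁ m lo H hm1 hpar
  obtain ⟨b1, b2, b3, b4, b5⟩ := hpar
  have hl1 := h₂ m hm2
  generalize hz : zz (6 * A + 60) m = z at *
  generalize hX : XX lo H = X at *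
  generalize hl : Real.log (m : ℝ) = l at *
  have hH1 : (1 : ℝ) ≤ H := by exact_mod_cast a12
  have hmR : (1 : ℝ) ≤ m := by exact_mod_cast b1.trans b2
  have hloR : (1 : ℝ) ≤ lo := by exact_mod_cast b1
  have hHm : (H : ℝ) ≤ (m : ℝ) ^ 2 := by exact_mod_cast a13
  have hfM : ∀ f ∈ ({th, lz z} : Set (ℕ → ℝ)), ∀ x ≤ X, |f x| ≤ l := by
    intro f hf x hx
    rcases hf with rfl | hf
    · exact a15 x hx
    · rw [Set.mem_singleton_iff] at hf
      subst hf
      exact a16 x hx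
  have hfR : ∀ f ∈ ({th, lz z} : Set (ℕ → ℝ)), Rgh z f := by
    intro f hf
    rcases hf with rfl | hf
    · exact rgh_th_DB z
    · rw [Set.mem_singleton_iff] at hf
      subst hf
      exact rgh_lz_DB z
  have hth : th ∈ ({th, lz z} : Set (ℕ → ℝ)) := Set.mem_insert _ _
  have hlz : lz z ∈ ({th, lz z} : Set (ℕ → ℝ)) := Set.mem_insert_of_mem _ (Set.mem_singleton _)
  have hE : ∀ x ≤ X, |(fun n => th n - lz z n) x| ≤ 2 * l := by
    intro x hx
    have := abs_sub (th x) (lz z x)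
    have h1 := hfM th hth x hx
    have h2 := hfM (lz z) hlz x hx
    simp only
    linarith
  have hmain := ha (fun n => th n - lz z n) g k X H lo m z (2 * l) ((m : ℝ) ^ 2 / H) s₁ s₂ s₃
    hs₁ hs₂ hs₃ (by omega) (by omega) b1 b2 a12 a11
    (by rw [div_mul_cancel₀]; exact ne_of_gt (by linarith)) (by linarith) hE
    (fun x hx => (hfM g hg x hx).trans (by linarith))
    (fun x hx => (hfM k hk x hx).trans (by linarith)) (hfR g hg) (hfR k hk)
  refine hmain.trans ?_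
  have hLX : 0 ≤ Real.log X := Real.log_natCast_nonneg X
  exact size_DB A ε l H m X z lo (Real.log X) hε a14 hl1 hH1 hmR hloR b3 (by positivity) a4
    hHm a8 hLX a6

end Pool.Agent.Helper30.HX
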