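import Pool.Agent.Helper30.HX.StA

/-!
# Project HX, module DEF: the terms with a common factor
-/

set_option autoImplicit false

namespace Pool.Agent.Helper30.HX

open Finset
open Pool.Agent.Helper48.BK (th lz Vz Pz win AdN)

private lemma winb_DEF (f : ℕ → ℝ) (X H a x : ℕ) (M : ℝ) (hM : 0 ≤ M) (hf : ∀ x ≤ X, |f x| ≤ M)
    (hx : x ≤ X) : |win f 4 11 H a x| ≤ M := by
  unfold win
  split_ifs
  · exact hf x hx
  · simpa using hM

private lemma wing_DEF (f : ℕ → ℝ) (H a x : ℕ) (h : win f 4 11 H a x ≠ 0) :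
    4 * H < a * x ∧ f x ≠ 0 := by
  unfold win at h
  split_ifs at h with h1
  · exact ⟨h1.1, h⟩
  · exact absurd rfl h

private lemma key_DEF (f g k : ℕ → ℝ) (X H m z : ℕ) (M Λ : ℝ) (s₁ s₂ s₃ : ℤ)
    (hm : 1 ≤ m) (hzm : z * m ≤ 4 * H) (hΛ : (m : ℝ) ^ 2 ≤ Λ * H) (hH : 1 ≤ H)
    (hM : 0 ≤ M) (hf : ∀ x ≤ X, |f x| ≤ M) (hg : ∀ x ≤ X, |g x| ≤ M) (hk : ∀ x ≤ X, |k x| ≤ M)
    (rg : Rgh z g) (a b c : ℕ) (hb : b ≤ m) (hc : c ≤ m) :
    |TF f g k H X s₁ s₂ s₃ a b c 0 - TC f g k H X s₁ s₂ s₃ a b c| ≤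
      ∑ x ∈ Ioc 0 X, ∑ y ∈ Ioc 0 X, ∑ w ∈ Ioc 0 X,
        if s₁ * (a * x) + s₂ * (b * y) + s₃ * (c * w) = 0 ∧ (z < Nat.gcd y w ∧ (m : ℝ) ≤ Λ * w)
        then M ^ 3 else 0 := by
  unfold TF TC
  rw [← sum_sub_distrib]
  refine (abs_sum_le_sum_abs _ _).trans (sum_le_sum fun x hx => ?_)
  rw [← sum_sub_distrib]
  refine (abs_sum_le_sum_abs _ _).trans (sum_le_sum fun y hy => ?_)
  rw [← sum_sub_distrib]
  refine (abs_sum_le_sum_abs _ _).trans (sum_le_sum fun w hw => ?_)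
  rw [mem_Ioc] at hx hy hw
  have hM3 : 0 ≤ M ^ 3 := by positivity
  by_cases he : s₁ * (a * x) + s₂ * (b * y) + s₃ * (c * w) = 0
  swap
  · rw [if_neg he, if_neg (fun h => he h.1), if_neg (fun h => he h.1)]
    simp
  by_cases hco : Nat.Coprime y w
  · rw [if_pos he, if_pos ⟨he, hco⟩, sub_self, abs_zero]
    split_ifs
    · exact hM3
    · exact le_rfl
  rw [if_pos he, if_neg (fun h => hco h.2), sub_zero]
  by_cases h0 : win f 4 11 H a x * win g 4 11 H b y * win k 4 11 H c w = 0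
  · rw [h0, abs_zero]
    split_ifs
    · exact hM3
    · exact le_rfl
  · have h1 : win g 4 11 H b y ≠ 0 := fun h => h0 (by rw [h]; ring)
    have h2 : win k 4 11 H c w ≠ 0 := fun h => h0 (by rw [h]; ring)
    obtain ⟨h3, h4⟩ := wing_DEF g H b y h1
    obtain ⟨h5, h6⟩ := wing_DEF k H c w h2
    have hzy : z < y := by
      have h7 : z * m < y * m := by
        calc z * m ≤ 4 * H := hzm
          _ < b * y := h3
          _ ≤ m * y := Nat.mul_le_mul_right _ hb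
          _ = y * m := mul_comm _ _
      exact lt_of_mul_lt_mul_right h7 (Nat.zero_le _)
    have hgcd : z < Nat.gcd y w := by
      obtain ⟨p, hp, hpd⟩ := Nat.exists_prime_and_dvd hco
      have hpy : p ∣ y := hpd.trans (Nat.gcd_dvd_left _ _)
      have hzp := rg y hzy h4 p hp hpy
      exact lt_of_lt_of_le hzp (Nat.le_of_dvd (Nat.gcd_pos_of_pos_left _ hy.1) hpd)
    have hmR : (1 : ℝ) ≤ m := by exact_mod_cast hm
    have hHR : (1 : ℝ) ≤ H := by exact_mod_cast hH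
    have hΛ0 : 0 ≤ Λ := by
      by_contra hcon
      push Not at hcon
      nlinarith
    have hmw : (m : ℝ) ≤ Λ * w := by
      have h7 : 4 * H < m * w := lt_of_lt_of_le h5 (Nat.mul_le_mul_right _ hc)
      have h8 : (H : ℝ) ≤ m * w := by
        have : H ≤ m * w := by omega
        exact_mod_cast this
      have h9 : (m : ℝ) * m ≤ m * (Λ * w) := by
        calc (m : ℝ) * m = (m : ℝ) ^ 2 := by ring
          _ ≤ Λ * H := hΛ
          _ ≤ Λ * (m * w) := mul_le_mul_of_nonneg_left h8 hΛ0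
          _ = _ := by ring
      exact le_of_mul_le_mul_left h9 (by linarith)
    rw [if_pos ⟨he, hgcd, hmw⟩, abs_mul, abs_mul]
    have e1 := winb_DEF f X H a x M hM hf hx.2
    have e2 := winb_DEF g X H b y M hM hg hy.2
    have e3 := winb_DEF k X H c w M hM hk hw.2
    calc _ ≤ M * M * M := by
          refine mul_le_mul (mul_le_mul e1 e2 (abs_nonneg _) hM) e3 (abs_nonneg _) (by positivity)
      _ = M ^ 3 := by ring

private lemma mult_DEF (X h : ℕ) :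
    ((((Ioc 0 X) ×ˢ (Ioc 0 X)).filter (fun p : ℕ × ℕ => Nat.gcd p.1 p.2 = h)).card : ℝ) ≤
      ((X : ℝ) / h) ^ 2 := by
  have h1 : (((Ioc 0 X) ×ˢ (Ioc 0 X)).filter (fun p : ℕ × ℕ => Nat.gcd p.1 p.2 = h)).card ≤
      (((Ioc 0 X).filter (fun n => h ∣ n)) ×ˢ ((Ioc 0 X).filter (fun n => h ∣ n))).card := by
    refine card_le_card fun p hp => ?_
    rw [mem_filter, mem_product] at hp
    rw [mem_product, mem_filter, mem_filter]
    exact ⟨⟨hp.1.1, hp.2 ▸ Nat.gcd_dvd_left _ _⟩, ⟨hp.1.2, hp.2 ▸ Nat.gcd_dvd_right _ _⟩⟩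
  rw [card_product, Nat.Ioc_filter_dvd_card_eq_div] at h1
  have h2 : ((X / h : ℕ) : ℝ) ≤ (X : ℝ) / h := Nat.cast_div_le
  calc _ ≤ (((X / h) * (X / h) : ℕ) : ℝ) := by exact_mod_cast h1
    _ = ((X / h : ℕ) : ℝ) * ((X / h : ℕ) : ℝ) := by push_cast; ring
    _ ≤ ((X : ℝ) / h) * ((X : ℝ) / h) := mul_le_mul h2 h2 (Nat.cast_nonneg _) (by positivity)
    _ = _ := by ring

private lemma gcdsum_DEF (X z : ℕ) (G : ℕ → ℝ) (hG : ∀ h, 0 ≤ G h) :
    ∑ p ∈ ((Ioc 0 X) ×ˢ (Ioc 0 X)).filter (fun p : ℕ × ℕ => z < Nat.gcd p.1 p.2),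
      G (Nat.gcd p.1 p.2) ≤ ∑ h ∈ Ioc z X, G h * ((X : ℝ) / h) ^ 2 := by
  rw [← sum_fiberwise_of_maps_to (t := Ioc z X) (g := fun p : ℕ × ℕ => Nat.gcd p.1 p.2)
    (fun p hp => by
      rw [mem_filter, mem_product, mem_Ioc, mem_Ioc] at hp
      rw [mem_Ioc]
      exact ⟨hp.2, (Nat.le_of_dvd hp.1.1.1 (Nat.gcd_dvd_left _ _)).trans hp.1.1.2⟩)]
  refine sum_le_sum fun h hh => ?_
  calc _ = ∑ p ∈ (((Ioc 0 X) ×ˢ (Ioc 0 X)).filter
        (fun p : ℕ × ℕ => z < Nat.gcd p.1 p.2)).filter (fun p => Nat.gcd p.1 p.2 = h), G h := by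
        refine sum_congr rfl fun p hp => ?_
        rw [(mem_filter.1 hp).2]
    _ = ((((Ioc 0 X) ×ˢ (Ioc 0 X)).filter
        (fun p : ℕ × ℕ => z < Nat.gcd p.1 p.2)).filter (fun p => Nat.gcd p.1 p.2 = h)).card *
          G h := by rw [sum_const, nsmul_eq_mul]
    _ ≤ ((X : ℝ) / h) ^ 2 * G h := by
        refine mul_le_mul_of_nonneg_right ?_ (hG h)
        refine le_trans ?_ (mult_DEF X h)
        have : ((((Ioc 0 X) ×ˢ (Ioc 0 X)).filter
            (fun p : ℕ × ℕ => z < Nat.gcd p.1 p.2)).filter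
              (fun p => Nat.gcd p.1 p.2 = h)).card ≤
            (((Ioc 0 X) ×ˢ (Ioc 0 X)).filter (fun p : ℕ × ℕ => Nat.gcd p.1 p.2 = h)).card := by
          refine card_le_card fun p hp => ?_
          rw [mem_filter, mem_filter] at hp
          exact mem_filter.2 ⟨hp.1.1, hp.2⟩
        exact_mod_cast this
    _ = _ := mul_comm _ _

theorem hDef (ha : StCnA) (hb : StGS) : StDef := by
  intro f g k X H lo m z M Λ s₁ s₂ s₃ hs1 hs2 hs3 hX hz hlo hlm hH hzm hΛ hM hf hg hk rg rk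
  have hm : 1 ≤ m := hlo.trans hlm
  have hmR : (1 : ℝ) ≤ m := by exact_mod_cast hm
  have hHR : (1 : ℝ) ≤ H := by exact_mod_cast hH
  have hΛ0 : 0 ≤ Λ := by
    by_contra hcon
    push Not at hcon
    nlinarith
  have hM3 : 0 ≤ M ^ 3 := by positivity
  set V : Finset (ℕ × ℕ × ℕ) := Icc lo m ×ˢ Icc lo m ×ˢ Icc lo m with hV
  set U : Finset (ℕ × ℕ × ℕ) := Ioc 0 X ×ˢ Ioc 0 X ×ˢ Ioc 0 X with hU
  -- the indicator
  set I : ℕ × ℕ × ℕ → ℕ × ℕ × ℕ → Prop := fun v u =>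
    s₁ * (v.1 * u.1) + s₂ * (v.2.1 * u.2.1) + s₃ * (v.2.2 * u.2.2) = 0 with hI
  set J : ℕ × ℕ × ℕ → Prop := fun u => z < Nat.gcd u.2.1 u.2.2 ∧ (m : ℝ) ≤ Λ * u.2.2 with hJ
  classical
  have step1 : ∑ a ∈ Icc lo m, ∑ b ∈ Icc lo m, ∑ c ∈ Icc lo m,
      |TF f g k H X s₁ s₂ s₃ a b c 0 - TC f g k H X s₁ s₂ s₃ a b c| ≤
      ∑ v ∈ V, ∑ u ∈ U, if I v u ∧ J u then M ^ 3 else 0 := by
    rw [hV, sum_product]
    refine sum_le_sum fun a hA => ?_
    rw [sum_product]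
    refine sum_le_sum fun b hB => sum_le_sum fun c hC => ?_
    rw [mem_Icc] at hA hB hC
    refine (key_DEF f g k X H m z M Λ s₁ s₂ s₃ hm hzm hΛ hH hM hf hg hk rg a b c hB.2
      hC.2).trans (le_of_eq ?_)
    rw [hU, sum_product]
    refine sum_congr rfl fun x _ => ?_
    rw [sum_product]
  refine step1.trans ?_
  rw [sum_comm]
  have step2 : ∀ u ∈ U, (∑ v ∈ V, if I v u ∧ J u then M ^ 3 else 0) ≤
      M ^ 3 * (m * (Λ + 1)) *
        (if z < Nat.gcd u.2.1 u.2.2 then (Nat.gcd (Nat.gcd u.2.1 u.2.2) u.1 : ℝ) else 0) := by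
    intro u hu
    rw [hU, mem_product, mem_product, mem_Ioc, mem_Ioc, mem_Ioc] at hu
    by_cases hJu : J u
    · have e1 : (∑ v ∈ V, if I v u ∧ J u then M ^ 3 else 0) =
          ((V.filter (fun v => I v u)).card : ℝ) * M ^ 3 := by
        rw [← nsmul_eq_mul, ← sum_const, sum_filter]
        refine sum_congr rfl fun v _ => ?_
        simp [hJu]
      rw [e1, if_pos hJu.1]
      have e2 := ha m u.1 u.2.1 u.2.2 s₁ s₂ s₃ hs1 hs2 hs3 hu.1.1 hu.2.1.1 hu.2.2.1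
      have e3 : ((V.filter (fun v => I v u)).card : ℝ) ≤
          (((((Icc 1 m) ×ˢ (Icc 1 m) ×ˢ (Icc 1 m)).filter (fun v : ℕ × ℕ × ℕ =>
            s₁ * (v.1 * u.1) + s₂ * (v.2.1 * u.2.1) + s₃ * (v.2.2 * u.2.2) = 0)).card : ℕ) :
              ℝ) := by
        have : (V.filter (fun v => I v u)).card ≤
            (((Icc 1 m) ×ˢ (Icc 1 m) ×ˢ (Icc 1 m)).filter (fun v : ℕ × ℕ × ℕ =>
              s₁ * (v.1 * u.1) + s₂ * (v.2.1 * u.2.1) + s₃ * (v.2.2 * u.2.2) = 0)).card := by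
          refine card_le_card fun v hv => ?_
          rw [mem_filter, hV, mem_product, mem_product, mem_Icc, mem_Icc, mem_Icc] at hv
          rw [mem_filter, mem_product, mem_product, mem_Icc, mem_Icc, mem_Icc]
          exact ⟨⟨⟨hlo.trans hv.1.1.1, hv.1.1.2⟩, ⟨hlo.trans hv.1.2.1.1, hv.1.2.1.2⟩,
            ⟨hlo.trans hv.1.2.2.1, hv.1.2.2.2⟩⟩, hv.2⟩
        exact_mod_cast this
      have hw0 : (0 : ℝ) < u.2.2 := by exact_mod_cast hu.2.2.1
      have e4 : (m : ℝ) / u.2.2 ≤ Λ := by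
        rw [div_le_iff₀ hw0]
        exact hJu.2
      calc _ ≤ ((Nat.gcd (Nat.gcd u.2.1 u.2.2) u.1 : ℝ) * (m * ((m : ℝ) / u.2.2 + 1))) * M ^ 3 :=
            mul_le_mul_of_nonneg_right (e3.trans e2) hM3
        _ ≤ ((Nat.gcd (Nat.gcd u.2.1 u.2.2) u.1 : ℝ) * (m * (Λ + 1))) * M ^ 3 := by
            gcongr
        _ = _ := by ring
    · have e1 : (∑ v ∈ V, if I v u ∧ J u then M ^ 3 else 0) = 0 := by
        refine sum_eq_zero fun v _ => ?_
        rw [if_neg (fun h => hJu h.2)]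
      rw [e1]
      have : 0 ≤ (if z < Nat.gcd u.2.1 u.2.2 then
          (Nat.gcd (Nat.gcd u.2.1 u.2.2) u.1 : ℝ) else 0) := by
        split_ifs
        · positivity
        · exact le_rfl
      positivity
  refine (sum_le_sum step2).trans ?_
  rw [← mul_sum]
  have step3 : (∑ u ∈ U, if z < Nat.gcd u.2.1 u.2.2 then
      (Nat.gcd (Nat.gcd u.2.1 u.2.2) u.1 : ℝ) else 0) ≤
      (X : ℝ) ^ 3 * (1 + Real.log X) ^ 2 / z := by
    rw [hU, sum_product, sum_comm]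
    refine le_trans (le_of_eq ?_) ((gcdsum_DEF X z (fun h => ∑ x ∈ Ioc 0 X, (Nat.gcd h x : ℝ))
      (fun h => sum_nonneg fun _ _ => by positivity)).trans (hb X z hX hz))
    rw [sum_filter]
    refine sum_congr rfl fun p _ => ?_
    split_ifs with h
    · simp
    · simp
  calc _ ≤ M ^ 3 * (m * (Λ + 1)) * ((X : ℝ) ^ 3 * (1 + Real.log X) ^ 2 / z) :=
        mul_le_mul_of_nonneg_left step3 (by positivity)
    _ = _ := by ring

end Pool.Agent.Helper30.HX
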