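import Pool.Agent.Helper30.HX.StA

/-!
# Project HX, module DET: divisors of two by two determinants
-/

set_option autoImplicit false

namespace Pool.Agent.Helper30.HX

open Finset

private lemma fib_DET (X : ℕ) (f : ℕ → ℝ) (hf : ∀ u, 0 ≤ f u) :
    ∑ y ∈ Ioc 0 X, ∑ w ∈ Ioc 0 X, f (y * w) ≤
      ∑ u ∈ Icc 1 (X ^ 2), (u.divisors.card : ℝ) * f u := by
  rw [← Finset.sum_product', ← Finset.sum_fiberwise_of_maps_to (s := Ioc 0 X ×ˢ Ioc 0 X)
    (t := Icc 1 (X ^ 2)) (g := fun p : ℕ × ℕ => p.1 * p.2)]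
  · refine Finset.sum_le_sum fun u hu => ?_
    rw [Finset.mem_Icc] at hu
    have h1 : ∀ p ∈ (Ioc 0 X ×ˢ Ioc 0 X).filter (fun p : ℕ × ℕ => p.1 * p.2 = u),
        f (p.1 * p.2) = f u := by
      intro p hp
      rw [(Finset.mem_filter.1 hp).2]
    rw [Finset.sum_congr rfl h1, Finset.sum_const, nsmul_eq_mul]
    apply mul_le_mul_of_nonneg_right _ (hf u)
    have h2 : ((Ioc 0 X ×ˢ Ioc 0 X).filter (fun p : ℕ × ℕ => p.1 * p.2 = u)).card ≤
        u.divisors.card := by
      apply Finset.card_le_card_of_injOn Prod.fst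
      · intro p hp
        rw [Finset.mem_coe, Finset.mem_filter] at hp
        rw [Finset.mem_coe, Nat.mem_divisors]
        exact ⟨⟨p.2, hp.2.symm⟩, by omega⟩
      · intro p hp p' hp' heq
        rw [Finset.mem_coe, Finset.mem_filter, Finset.mem_product, Finset.mem_Ioc] at hp hp'
        have h3 : p.1 * p.2 = p.1 * p'.2 := by rw [hp.2, heq, hp'.2]
        exact Prod.ext heq (Nat.eq_of_mul_eq_mul_left hp.1.1.1 h3)
    exact_mod_cast h2
  · intro p hp
    rw [Finset.mem_product, Finset.mem_Ioc, Finset.mem_Ioc] at hp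
    rw [Finset.mem_Icc]
    constructor
    · exact Nat.mul_pos hp.1.1 hp.2.1
    · rw [sq]
      exact Nat.mul_le_mul hp.1.2 hp.2.2

private lemma diff_DET (N u : ℕ) (g : ℕ → ℝ) (hg : ∀ n, 0 ≤ g n) (h0 : g 0 = 0)
    (hu : u ≤ N) :
    ∑ v ∈ Icc 1 N, g ((u : ℤ) - v).natAbs ≤ 2 * ∑ h ∈ Icc 1 N, g h := by
  rw [← Finset.sum_filter_add_sum_filter_not (Icc 1 N) (fun v => v < u)]
  have h1 : ∑ v ∈ (Icc 1 N).filter (fun v => v < u), g ((u : ℤ) - v).natAbs ≤
      ∑ h ∈ Icc 1 N, g h := by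
    have h2 : ∑ v ∈ (Icc 1 N).filter (fun v => v < u), g ((u : ℤ) - v).natAbs =
        ∑ h ∈ ((Icc 1 N).filter (fun v => v < u)).image (fun v => u - v), g h := by
      rw [Finset.sum_image]
      · refine Finset.sum_congr rfl fun v hv => ?_
        rw [Finset.mem_filter] at hv
        congr 1
        omega
      · intro v hv v' hv' heq
        rw [Finset.mem_coe, Finset.mem_filter] at hv hv'
        simp only at heq
        omega
    rw [h2]
    apply Finset.sum_le_sum_of_subset_of_nonneg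
    · intro h hh
      rw [Finset.mem_image] at hh
      obtain ⟨v, hv, rfl⟩ := hh
      rw [Finset.mem_filter, Finset.mem_Icc] at hv
      rw [Finset.mem_Icc]
      omega
    · intro _ _ _
      exact hg _
  have h3 : ∑ v ∈ (Icc 1 N).filter (fun v => ¬ v < u), g ((u : ℤ) - v).natAbs ≤
      ∑ h ∈ Icc 1 N, g h := by
    have h2 : ∑ v ∈ (Icc 1 N).filter (fun v => ¬ v < u), g ((u : ℤ) - v).natAbs =
        ∑ h ∈ ((Icc 1 N).filter (fun v => ¬ v < u)).image (fun v => v - u), g h := by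
      rw [Finset.sum_image]
      · refine Finset.sum_congr rfl fun v hv => ?_
        rw [Finset.mem_filter] at hv
        congr 1
        omega
      · intro v hv v' hv' heq
        rw [Finset.mem_coe, Finset.mem_filter] at hv hv'
        simp only at heq
        omega
    rw [h2, ← Finset.sum_filter_add_sum_filter_not
      (((Icc 1 N).filter (fun v => ¬ v < u)).image (fun v => v - u)) (fun h => h = 0)]
    have h4 : ∑ h ∈ (((Icc 1 N).filter (fun v => ¬ v < u)).image (fun v => v - u)).filter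
        (fun h => h = 0), g h = 0 := by
      apply Finset.sum_eq_zero
      intro h hh
      rw [(Finset.mem_filter.1 hh).2, h0]
    rw [h4, zero_add]
    apply Finset.sum_le_sum_of_subset_of_nonneg
    · intro h hh
      rw [Finset.mem_filter, Finset.mem_image] at hh
      obtain ⟨⟨v, hv, rfl⟩, hne⟩ := hh
      rw [Finset.mem_filter, Finset.mem_Icc] at hv
      rw [Finset.mem_Icc]
      omega
    · intro _ _ _
      exact hg _
  linarith

theorem hDet (ha : StTau) : StDet := by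
  intro X hX
  set N := X ^ 2 with hN
  have hN1 : 1 ≤ N := Nat.one_le_pow _ _ hX
  set S : ℝ := ∑ h ∈ Icc 1 N, (h.divisors.card : ℝ) ^ 4 with hS
  have hS4 : S ≤ N * (1 + Real.log N) ^ 15 := by
    have := ha 4 N hN1
    norm_num at this
    exact this
  set F : ℕ → ℕ → ℝ := fun u v => tau ((u : ℤ) - v) ^ 2 with hF
  have e1 : ∑ y ∈ Ioc 0 X, ∑ w ∈ Ioc 0 X, ∑ y' ∈ Ioc 0 X, ∑ w' ∈ Ioc 0 X,
      tau (dlt y w y' w') ^ 2 =
      ∑ y ∈ Ioc 0 X, ∑ w' ∈ Ioc 0 X, ∑ w ∈ Ioc 0 X, ∑ y' ∈ Ioc 0 X, F (y * w') (w * y') := by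
    refine Finset.sum_congr rfl fun y _ => ?_
    rw [Finset.sum_comm' (s' := fun _ => Ioc 0 X) (t' := Ioc 0 X) (by simp [and_comm])]
    rw [Finset.sum_congr rfl fun y' _ => Finset.sum_comm]
    rw [Finset.sum_comm]
    refine Finset.sum_congr rfl fun w' _ => ?_
    rw [Finset.sum_comm]
    refine Finset.sum_congr rfl fun w _ => Finset.sum_congr rfl fun y' _ => ?_
    rw [hF]
    unfold dlt
    push_cast
    rfl
  have hFnn : ∀ u v, 0 ≤ F u v := fun u v => by rw [hF]; positivity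
  rw [e1]
  have e2 : ∑ y ∈ Ioc 0 X, ∑ w' ∈ Ioc 0 X, ∑ w ∈ Ioc 0 X, ∑ y' ∈ Ioc 0 X,
      F (y * w') (w * y') ≤ ∑ u ∈ Icc 1 N, (u.divisors.card : ℝ) *
        ∑ v ∈ Icc 1 N, (v.divisors.card : ℝ) * F u v := by
    calc ∑ y ∈ Ioc 0 X, ∑ w' ∈ Ioc 0 X, ∑ w ∈ Ioc 0 X, ∑ y' ∈ Ioc 0 X, F (y * w') (w * y')
        ≤ ∑ y ∈ Ioc 0 X, ∑ w' ∈ Ioc 0 X,
            ∑ v ∈ Icc 1 N, (v.divisors.card : ℝ) * F (y * w') v :=
          Finset.sum_le_sum fun y _ => Finset.sum_le_sum fun w' _ =>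
            fib_DET X (fun v => F (y * w') v) (fun v => hFnn _ _)
      _ ≤ _ := fib_DET X (fun u => ∑ v ∈ Icc 1 N, (v.divisors.card : ℝ) * F u v)
          (fun u => Finset.sum_nonneg fun v _ => mul_nonneg (by positivity) (hFnn _ _))
  refine e2.trans ?_
  have e3 : ∀ u ∈ Icc 1 N, (u.divisors.card : ℝ) *
      ∑ v ∈ Icc 1 N, (v.divisors.card : ℝ) * F u v ≤
      (N * (u.divisors.card : ℝ) ^ 4 + S + 4 * S) / 4 := by
    intro u hu
    rw [Finset.mem_Icc] at hu
    rw [Finset.mul_sum]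
    have h1 : ∀ v ∈ Icc 1 N, (u.divisors.card : ℝ) * ((v.divisors.card : ℝ) * F u v) ≤
        ((u.divisors.card : ℝ) ^ 4 + (v.divisors.card : ℝ) ^ 4 +
          2 * (((((u : ℤ) - v).natAbs).divisors.card : ℝ) ^ 4)) / 4 := by
      intro v _
      have h2 : F u v = ((((u : ℤ) - v).natAbs).divisors.card : ℝ) ^ 2 := rfl
      rw [h2]
      set a := (u.divisors.card : ℝ)
      set b := (v.divisors.card : ℝ)
      set c := ((((u : ℤ) - v).natAbs).divisors.card : ℝ)
      nlinarith [sq_nonneg (a * b - c ^ 2), sq_nonneg (a ^ 2 - b ^ 2)]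
    refine (Finset.sum_le_sum h1).trans ?_
    rw [← Finset.sum_div, Finset.sum_add_distrib, Finset.sum_add_distrib, Finset.sum_const,
      Nat.card_Icc, Nat.add_sub_cancel, nsmul_eq_mul, ← Finset.mul_sum, ← hS]
    have h3 := diff_DET N u (fun n => (n.divisors.card : ℝ) ^ 4) (fun n => by positivity)
      (by simp) hu.2
    rw [← hS] at h3
    linarith
  refine (Finset.sum_le_sum e3).trans ?_
  rw [← Finset.sum_div, Finset.sum_add_distrib, Finset.sum_add_distrib, ← Finset.mul_sum, ← hS,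
    Finset.sum_const, Finset.sum_const, Nat.card_Icc, Nat.add_sub_cancel, nsmul_eq_mul,
    nsmul_eq_mul]
  have hlog : Real.log N = 2 * Real.log X := by
    rw [hN]
    push_cast
    rw [Real.log_pow]
    norm_num
  rw [hlog] at hS4
  have hNX : (N : ℝ) = (X : ℝ) ^ 2 := by rw [hN]; push_cast; rfl
  have hN0 : (0 : ℝ) ≤ N := Nat.cast_nonneg N
  have hL : 0 ≤ (1 + 2 * Real.log X) ^ 15 := by
    have : 0 ≤ Real.log X := Real.log_natCast_nonneg X
    positivity
  calc ((N : ℝ) * S + N * S + N * (4 * S)) / 4 = 3 / 2 * N * S := by ring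
    _ ≤ 3 / 2 * N * (N * (1 + 2 * Real.log X) ^ 15) :=
        mul_le_mul_of_nonneg_left hS4 (by positivity)
    _ = 3 / 2 * ((X : ℝ) ^ 4 * (1 + 2 * Real.log X) ^ 15) := by rw [hNX]; ring
    _ ≤ 4 * ((X : ℝ) ^ 4 * (1 + 2 * Real.log X) ^ 15) := by
        apply mul_le_mul_of_nonneg_right (by norm_num)
        positivity
    _ = 4 * (X : ℝ) ^ 4 * (1 + 2 * Real.log X) ^ 15 := by ring

end Pool.Agent.Helper30.HX
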