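import Pool.Agent.Helper30.HX.StM

set_option autoImplicit false

/-!
# Project HX: proof of EXC (few lattices with short vectors)
-/

namespace Pool.Agent.Helper30.HX

open Finset

/-- the weight of a pair -/
noncomputable def g_EXC (m : ℕ) (v : ℤ × ℤ) : ℝ :=
  if v.1 = 0 ∧ v.2 = 0 then 0 else (m : ℝ) ^ 2 / max |(v.1 : ℝ)| |(v.2 : ℝ)| + m

/-- the square of half side `K` -/
noncomputable def box_EXC (K : ℕ) : Finset (ℤ × ℤ) := (Icc (-(K : ℤ)) K) ×ˢ (Icc (-(K : ℤ)) K)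

theorem box_card_EXC (K : ℕ) : (box_EXC K).card = (2 * K + 1) ^ 2 := by
  unfold box_EXC
  rw [card_product, Int.card_Icc]
  have : ((K : ℤ) + 1 - -(K : ℤ)).toNat = 2 * K + 1 := by omega
  rw [this]
  ring

theorem mem_box_EXC (K : ℕ) (v : ℤ × ℤ) : v ∈ box_EXC K ↔ |v.1| ≤ K ∧ |v.2| ≤ K := by
  unfold box_EXC
  rw [mem_product, mem_Icc, mem_Icc, abs_le, abs_le]

theorem box_sub_EXC (K : ℕ) : box_EXC K ⊆ box_EXC (K + 1) := by
  intro v hv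
  rw [mem_box_EXC] at hv ⊢
  push_cast
  constructor <;> omega

theorem g_nonneg_EXC (m : ℕ) (v : ℤ × ℤ) : 0 ≤ g_EXC m v := by
  unfold g_EXC
  split_ifs
  · exact le_refl 0
  · positivity

/-- the weight on the boundary of the box -/
theorem g_bd_EXC (m K : ℕ) (v : ℤ × ℤ) (hv : v ∈ box_EXC (K + 1) \ box_EXC K) :
    g_EXC m v ≤ (m : ℝ) ^ 2 / ((K : ℝ) + 1) + m := by
  rw [mem_sdiff, mem_box_EXC, mem_box_EXC] at hv
  obtain ⟨⟨h1, h2⟩, h3⟩ := hv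
  push_cast at h1 h2
  unfold g_EXC
  split_ifs with h0
  · positivity
  · have h4 : ((K : ℝ) + 1) ≤ max |(v.1 : ℝ)| |(v.2 : ℝ)| := by
      by_contra h5
      rw [not_le, max_lt_iff] at h5
      apply h3
      have h6 : |v.1| < (K : ℤ) + 1 := by
        have := h5.1
        rw [← Int.cast_abs] at this
        exact_mod_cast this
      have h7 : |v.2| < (K : ℤ) + 1 := by
        have := h5.2
        rw [← Int.cast_abs] at this
        exact_mod_cast this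
      constructor <;> omega
    have h5 : (0 : ℝ) < (K : ℝ) + 1 := by positivity
    have h6 := div_le_div_of_nonneg_left (by positivity : (0 : ℝ) ≤ (m : ℝ) ^ 2) h5 h4
    linarith

theorem g_sum_EXC (m K : ℕ) : ∑ v ∈ box_EXC K, g_EXC m v ≤
    8 * K * (m : ℝ) ^ 2 + 4 * m * K * (K + 1) := by
  induction K with
  | zero =>
    have h1 : box_EXC 0 = {(0, 0)} := by
      ext v
      rw [mem_box_EXC, mem_singleton]
      constructor
      · rintro ⟨h1, h2⟩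
        have h3 : v.1 = 0 := by simpa using h1
        have h4 : v.2 = 0 := by simpa using h2
        exact Prod.ext h3 h4
      · rintro rfl
        simp
    rw [h1, sum_singleton]
    simp [g_EXC]
  | succ K ih =>
    have h1 : ∑ v ∈ box_EXC (K + 1), g_EXC m v =
        ∑ v ∈ box_EXC (K + 1) \ box_EXC K, g_EXC m v + ∑ v ∈ box_EXC K, g_EXC m v :=
      (sum_sdiff (box_sub_EXC K)).symm
    have h2 : ∑ v ∈ box_EXC (K + 1) \ box_EXC K, g_EXC m v ≤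
        ((box_EXC (K + 1) \ box_EXC K).card : ℝ) * ((m : ℝ) ^ 2 / ((K : ℝ) + 1) + m) := by
      rw [← nsmul_eq_mul]
      exact sum_le_card_nsmul _ _ _ (fun v hv => g_bd_EXC m K v hv)
    have h3 : ((box_EXC (K + 1) \ box_EXC K).card : ℝ) = 8 * ((K : ℝ) + 1) := by
      have h4 : (box_EXC (K + 1) \ box_EXC K).card = 8 * (K + 1) := by
        rw [card_sdiff_of_subset (box_sub_EXC K), box_card_EXC, box_card_EXC]
        have : (2 * (K + 1) + 1) ^ 2 = (2 * K + 1) ^ 2 + 8 * (K + 1) := by ring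
        omega
      rw [h4]
      push_cast
      ring
    rw [h3] at h2
    have h5 : 8 * ((K : ℝ) + 1) * ((m : ℝ) ^ 2 / ((K : ℝ) + 1) + m) =
        8 * (m : ℝ) ^ 2 + 8 * ((K : ℝ) + 1) * m := by
      have h6 : (K : ℝ) + 1 ≠ 0 := by positivity
      field_simp
    rw [h5] at h2
    rw [h1]
    push_cast
    nlinarith [h2, ih]

/-- dividing out the greatest common divisor -/
theorem prim_EXC (a b c : ℕ) (x y t : ℤ) (h0 : ¬ (x = 0 ∧ y = 0))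
    (h : (a : ℤ) * x + b * y = c * t) : ∃ x' y' t' : ℤ, ¬ (x' = 0 ∧ y' = 0) ∧
      (a : ℤ) * x' + b * y' = c * t' ∧ Int.gcd x' (Int.gcd y' t') = 1 ∧
      |x'| ≤ |x| ∧ |y'| ≤ |y| ∧ |t'| ≤ |t| := by
  obtain ⟨d, hd⟩ : ∃ d : ℕ, d = Int.gcd x (Int.gcd y t) := ⟨_, rfl⟩
  have hdx : (d : ℤ) ∣ x := by
    rw [hd]; exact Int.gcd_dvd_left ..
  have hdyt : (d : ℤ) ∣ (Int.gcd y t : ℕ) := by
    rw [hd]; exact Int.gcd_dvd_right ..
  have hdy : (d : ℤ) ∣ y := dvd_trans hdyt (Int.gcd_dvd_left ..)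
  have hdt : (d : ℤ) ∣ t := dvd_trans hdyt (Int.gcd_dvd_right ..)
  obtain ⟨x', rfl⟩ := hdx
  obtain ⟨y', rfl⟩ := hdy
  obtain ⟨t', rfl⟩ := hdt
  have hdpos : 0 < d := by
    rcases Nat.eq_zero_or_pos d with h1 | h1
    · exfalso
      apply h0
      rw [h1]
      simp
    · exact h1
  have hdpos' : (1 : ℤ) ≤ d := by exact_mod_cast hdpos
  have habs : ∀ z : ℤ, |z| ≤ |(d : ℤ) * z| := by
    intro z
    rw [abs_mul, abs_of_nonneg (by omega : (0 : ℤ) ≤ d)]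
    nlinarith [abs_nonneg z]
  refine ⟨x', y', t', ?_, ?_, ?_, habs x', habs y', habs t'⟩
  · rintro ⟨h1, h2⟩
    apply h0
    rw [h1, h2]
    simp
  · have h1 : (d : ℤ) * ((a : ℤ) * x' + b * y') = d * (c * t') := by
      linear_combination h
    exact mul_left_cancel₀ (by omega) h1
  · rw [Int.gcd_mul_left, Int.natAbs_natCast] at hd
    have h1 : Int.gcd ((d : ℤ) * x') ((d * Int.gcd y' t' : ℕ) : ℤ) =
        d * Int.gcd x' (Int.gcd y' t') := by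
      push_cast
      rw [Int.gcd_mul_left, Int.natAbs_natCast]
    rw [h1] at hd
    have h2 : d * Int.gcd x' (Int.gcd y' t') = d * 1 := by
      rw [← hd]; ring
    exact Nat.eq_of_mul_eq_mul_left hdpos h2

/-- a short vector gives a primitive relation in the box -/
theorem rel_EXC (m lo : ℕ) (S : ℝ) (hlo : 1 ≤ lo) (hS : 1 ≤ S) (a b c : ℕ) (ha : a ≤ m)
    (hb : b ≤ m) (hc : lo ≤ c) (h : ¬ Lng a b c S) :
    ∃ x y t : ℤ, ¬ (x = 0 ∧ y = 0) ∧ (a : ℤ) * x + b * y = c * t ∧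
      Int.gcd x (Int.gcd y t) = 1 ∧ |x| ≤ (⌈S⌉₊ - 1 : ℕ) ∧ |y| ≤ (⌈S⌉₊ - 1 : ℕ) ∧
      |t| ≤ (⌊2 * m * S / lo⌋₊ : ℕ) := by
  unfold Lng at h
  push Not at h
  obtain ⟨x, y, h0, ⟨t, ht⟩, hm⟩ := h
  rw [max_lt_iff] at hm
  obtain ⟨hx, hy⟩ := hm
  have h0' : ¬ (x = 0 ∧ y = 0) := by
    rintro ⟨h1, h2⟩
    exact h0 h1 h2
  obtain ⟨x', y', t', h1, h2, h3, h4, h5, h6⟩ := prim_EXC a b c x y t h0' ht
  have hbd : ∀ z : ℤ, |(z : ℝ)| < S → |z| ≤ (⌈S⌉₊ - 1 : ℕ) := by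
    intro z hz
    have e1 : ((z.natAbs : ℕ) : ℝ) < S := by
      rw [Nat.cast_natAbs, Int.cast_abs]
      exact hz
    have e2 := Nat.lt_ceil.2 e1
    have e5 : ((z.natAbs : ℕ) : ℤ) = |z| := Int.natCast_natAbs z
    rw [← e5]
    omega
  refine ⟨x', y', t', h1, h2, h3, le_trans h4 (hbd x hx), le_trans h5 (hbd y hy), ?_⟩
  refine le_trans h6 ?_
  have hlo' : (0 : ℝ) < lo := by exact_mod_cast hlo
  have hc' : (lo : ℝ) ≤ c := by exact_mod_cast hc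
  have ha' : (a : ℝ) ≤ m := by exact_mod_cast ha
  have hb' : (b : ℝ) ≤ m := by exact_mod_cast hb
  have hm0 : (0 : ℝ) ≤ m := by positivity
  have e1 : (c : ℝ) * |(t : ℝ)| ≤ 2 * m * S := by
    have e2 : ((c : ℝ)) * (t : ℝ) = (a : ℝ) * x + b * y := by
      exact_mod_cast ht.symm
    have e3 : (c : ℝ) * |(t : ℝ)| = |(a : ℝ) * x + b * y| := by
      rw [← e2, abs_mul, abs_of_nonneg (by positivity : (0 : ℝ) ≤ c)]
    rw [e3]
    have e4 : |(a : ℝ) * x + b * y| ≤ (a : ℝ) * |(x : ℝ)| + b * |(y : ℝ)| := by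
      refine le_trans (abs_add_le _ _) ?_
      rw [abs_mul, abs_mul, abs_of_nonneg (by positivity : (0 : ℝ) ≤ a),
        abs_of_nonneg (by positivity : (0 : ℝ) ≤ b)]
    have e5 : (a : ℝ) * |(x : ℝ)| ≤ m * S :=
      mul_le_mul ha' hx.le (abs_nonneg _) hm0
    have e6 : (b : ℝ) * |(y : ℝ)| ≤ m * S :=
      mul_le_mul hb' hy.le (abs_nonneg _) hm0
    linarith
  have e2 : |(t : ℝ)| ≤ 2 * m * S / lo := by
    rw [le_div_iff₀ hlo']
    have := mul_le_mul_of_nonneg_right hc' (abs_nonneg (t : ℝ))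
    linarith
  have e3 : ((t.natAbs : ℕ) : ℝ) ≤ 2 * m * S / lo := by
    rw [Nat.cast_natAbs, Int.cast_abs]
    exact e2
  have e4 := Nat.le_floor e3
  have e5 : ((t.natAbs : ℕ) : ℤ) = |t| := Int.natCast_natAbs t
  rw [← e5]
  exact_mod_cast e4

open Classical in
theorem hExc (ha : StPer) : StExc := by
  intro m lo S hlo hlm hS hSm
  obtain ⟨K, hK⟩ : ∃ K : ℕ, K = ⌈S⌉₊ - 1 := ⟨_, rfl⟩
  obtain ⟨T, hT⟩ : ∃ T : ℕ, T = ⌊2 * m * S / lo⌋₊ := ⟨_, rfl⟩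
  have hm : 1 ≤ m := le_trans hlo hlm
  have hmR : (1 : ℝ) ≤ m := by exact_mod_cast hm
  have hloR : (1 : ℝ) ≤ lo := by exact_mod_cast hlo
  have hlmR : (lo : ℝ) ≤ m := by exact_mod_cast hlm
  have hKS : (K : ℝ) ≤ S := by
    have h1 := Nat.ceil_lt_add_one (by linarith : (0 : ℝ) ≤ S)
    have h2 : 1 ≤ ⌈S⌉₊ := Nat.one_le_iff_ne_zero.2 (by
      intro h3
      rw [Nat.ceil_eq_zero] at h3
      linarith)
    have h3 : (K : ℝ) = (⌈S⌉₊ : ℝ) - 1 := by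
      rw [hK, Nat.cast_sub h2]
      simp
    rw [h3]
    linarith
  have hTS : (T : ℝ) ≤ 2 * m * S / lo := by
    rw [hT]
    exact Nat.floor_le (by positivity)
  -- covering
  have hcov : ((Icc lo m) ×ˢ (Icc lo m) ×ˢ (Icc lo m)).filter (fun v : ℕ × ℕ × ℕ =>
      ¬ Lng v.1 v.2.1 v.2.2 S) ⊆
      ((box_EXC K ×ˢ Icc (-(T : ℤ)) T).filter (fun q : (ℤ × ℤ) × ℤ =>
        ¬ (q.1.1 = 0 ∧ q.1.2 = 0) ∧ Int.gcd q.1.1 (Int.gcd q.1.2 q.2) = 1)).biUnion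
      (fun q : (ℤ × ℤ) × ℤ => ((Icc 1 m) ×ˢ (Icc 1 m) ×ˢ (Icc 1 m)).filter
        (fun v : ℕ × ℕ × ℕ => (v.1 : ℤ) * q.1.1 + v.2.1 * q.1.2 = v.2.2 * q.2)) := by
    intro v hv
    rw [mem_filter, mem_product, mem_product, mem_Icc, mem_Icc, mem_Icc] at hv
    obtain ⟨⟨h1, h2, h3⟩, h4⟩ := hv
    obtain ⟨x, y, t, k1, k2, k3, k4, k5, k6⟩ :=
      rel_EXC m lo S hlo hS v.1 v.2.1 v.2.2 h1.2 h2.2 h3.1 h4
    rw [← hK] at k4 k5
    rw [← hT] at k6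
    rw [mem_biUnion]
    refine ⟨((x, y), t), ?_, ?_⟩
    · rw [mem_filter, mem_product, mem_box_EXC, mem_Icc]
      exact ⟨⟨⟨k4, k5⟩, abs_le.1 k6⟩, k1, k3⟩
    · rw [mem_filter, mem_product, mem_product, mem_Icc, mem_Icc, mem_Icc]
      refine ⟨⟨⟨?_, h1.2⟩, ⟨?_, h2.2⟩, ⟨?_, h3.2⟩⟩, k2⟩
      · exact le_trans hlo h1.1
      · exact le_trans hlo h2.1
      · exact le_trans hlo h3.1
  have hcard := le_trans (card_le_card hcov) card_biUnion_le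
  have hcardR : ((((Icc lo m) ×ˢ (Icc lo m) ×ˢ (Icc lo m)).filter (fun v : ℕ × ℕ × ℕ =>
      ¬ Lng v.1 v.2.1 v.2.2 S)).card : ℝ) ≤
      ∑ q ∈ (box_EXC K ×ˢ Icc (-(T : ℤ)) T).filter (fun q : (ℤ × ℤ) × ℤ =>
        ¬ (q.1.1 = 0 ∧ q.1.2 = 0) ∧ Int.gcd q.1.1 (Int.gcd q.1.2 q.2) = 1),
      ((((Icc 1 m) ×ˢ (Icc 1 m) ×ˢ (Icc 1 m)).filter
        (fun v : ℕ × ℕ × ℕ => (v.1 : ℤ) * q.1.1 + v.2.1 * q.1.2 = v.2.2 * q.2)).card : ℝ) := by
    exact_mod_cast hcard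
  have hterm : ∑ q ∈ (box_EXC K ×ˢ Icc (-(T : ℤ)) T).filter (fun q : (ℤ × ℤ) × ℤ =>
        ¬ (q.1.1 = 0 ∧ q.1.2 = 0) ∧ Int.gcd q.1.1 (Int.gcd q.1.2 q.2) = 1),
      ((((Icc 1 m) ×ˢ (Icc 1 m) ×ˢ (Icc 1 m)).filter
        (fun v : ℕ × ℕ × ℕ => (v.1 : ℤ) * q.1.1 + v.2.1 * q.1.2 = v.2.2 * q.2)).card : ℝ) ≤
      ∑ q ∈ box_EXC K ×ˢ Icc (-(T : ℤ)) T, g_EXC m q.1 := by
    refine le_trans (sum_le_sum (g := fun q : (ℤ × ℤ) × ℤ => g_EXC m q.1) ?_) ?_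
    · intro q hq
      rw [mem_filter] at hq
      obtain ⟨_, h1, h2⟩ := hq
      have h3 := ha m q.1.1 q.1.2 q.2 hm h1 h2
      unfold g_EXC
      rw [if_neg h1]
      exact h3
    · exact sum_le_sum_of_subset_of_nonneg (filter_subset _ _)
        (fun q _ _ => g_nonneg_EXC m q.1)
  have hprod : ∑ q ∈ box_EXC K ×ˢ Icc (-(T : ℤ)) T, g_EXC m q.1 =
      (2 * (T : ℝ) + 1) * ∑ v ∈ box_EXC K, g_EXC m v := by
    rw [sum_product, mul_sum]
    apply sum_congr rfl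
    intro v _
    change ∑ _y ∈ Icc (-(T : ℤ)) T, g_EXC m v = (2 * (T : ℝ) + 1) * g_EXC m v
    rw [sum_const, Int.card_Icc, nsmul_eq_mul]
    have : ((T : ℤ) + 1 - -(T : ℤ)).toNat = 2 * T + 1 := by omega
    rw [this]
    push_cast
    ring
  have hg := g_sum_EXC m K
  have hK0 : (0 : ℝ) ≤ K := by positivity
  -- the final estimate
  have hg2 : ∑ v ∈ box_EXC K, g_EXC m v ≤ 16 * S * (m : ℝ) ^ 2 := by
    refine le_trans hg ?_
    have h1 : 4 * (m : ℝ) * K * (K + 1) ≤ 8 * m * S ^ 2 := by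
      rcases Nat.eq_zero_or_pos K with h0 | h0
      · rw [h0]
        simp only [Nat.cast_zero, mul_zero, zero_mul]
        positivity
      · have h1 : (1 : ℝ) ≤ K := by exact_mod_cast h0
        have h2 : (K : ℝ) * (K + 1) ≤ 2 * S ^ 2 := by nlinarith
        have h3 := mul_le_mul_of_nonneg_left h2 (by positivity : (0 : ℝ) ≤ 4 * m)
        nlinarith
    have h2 : 8 * (K : ℝ) * (m : ℝ) ^ 2 ≤ 8 * S * (m : ℝ) ^ 2 := by
      have h3 := mul_le_mul_of_nonneg_right hKS (by positivity : (0 : ℝ) ≤ 8 * (m : ℝ) ^ 2)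
      nlinarith
    have h3 : 8 * (m : ℝ) * S ^ 2 ≤ 8 * S * (m : ℝ) ^ 2 := by
      have h4 := mul_le_mul_of_nonneg_left hSm (by positivity : (0 : ℝ) ≤ 8 * (m : ℝ) * S)
      nlinarith
    linarith
  have hT2 : 2 * (T : ℝ) + 1 ≤ 5 * (m * S / lo) := by
    have h1 : 1 ≤ m * S / lo := by
      rw [le_div_iff₀ (by linarith)]
      nlinarith
    have h2 : 2 * m * S / lo = 2 * (m * S / lo) := by ring
    rw [h2] at hTS
    linarith
  have hfin : (2 * (T : ℝ) + 1) * ∑ v ∈ box_EXC K, g_EXC m v ≤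
      5 * (m * S / lo) * (16 * S * (m : ℝ) ^ 2) := by
    apply mul_le_mul hT2 hg2
    · exact sum_nonneg (fun v _ => g_nonneg_EXC m v)
    · positivity
  calc _ ≤ _ := hcardR
    _ ≤ _ := hterm
    _ = _ := hprod
    _ ≤ _ := hfin
    _ = 80 * (m : ℝ) ^ 3 * S ^ 2 / lo := by ring

end Pool.Agent.Helper30.HX
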