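import Pool.Agent.Helper30.HX.StA

/-!
# Project HX, module GS
-/

set_option autoImplicit false

namespace Pool.Agent.Helper30.HX

open Finset

lemma harm_GS (X : ℕ) : ∑ d ∈ Icc 1 X, (1 : ℝ) / d ≤ 1 + Real.log X := by
  have h2 := harmonic_le_one_add_log X
  have h3 : ((harmonic X : ℚ) : ℝ) = ∑ p ∈ Icc 1 X, (1 : ℝ) / p := by
    rw [harmonic_eq_sum_Icc]
    push_cast
    refine Finset.sum_congr rfl fun p _ => ?_
    rw [one_div]
  rwa [h3] at h2

lemma mult_GS (X g : ℕ) : ∑ x ∈ Ioc 0 X, (if g ∣ x then (g : ℝ) else 0) ≤ X := by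
  rw [← Finset.sum_filter, Finset.sum_const, Nat.Ioc_filter_dvd_card_eq_div, nsmul_eq_mul]
  have := Nat.div_mul_le_self X g
  exact_mod_cast this

lemma gcd_GS (X h : ℕ) (hh : 1 ≤ h) : ∑ x ∈ Ioc 0 X, (Nat.gcd h x : ℝ) ≤
    X * (h.divisors.card : ℝ) := by
  have h1 : ∀ x ∈ Ioc 0 X, (Nat.gcd h x : ℝ) ≤ ∑ g ∈ h.divisors, if g ∣ x then (g : ℝ) else 0 := by
    intro x _
    have hm : Nat.gcd h x ∈ h.divisors := Nat.mem_divisors.2 ⟨Nat.gcd_dvd_left h x, by omega⟩
    have := Finset.single_le_sum (f := fun g : ℕ => if g ∣ x then (g : ℝ) else 0)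
      (fun g _ => by positivity) hm
    simp only [Nat.gcd_dvd_right, if_true] at this
    exact this
  refine (Finset.sum_le_sum h1).trans ?_
  rw [Finset.sum_comm]
  refine (Finset.sum_le_sum fun g _ => mult_GS X g).trans ?_
  rw [Finset.sum_const, nsmul_eq_mul, mul_comm]

lemma tau_GS (X : ℕ) : ∑ h ∈ Icc 1 X, (h.divisors.card : ℝ) / h ≤ (1 + Real.log X) ^ 2 := by
  have h1 : ∀ h ∈ Icc 1 X, (h.divisors.card : ℝ) / h =
      ∑ d ∈ Icc 1 X, if d ∣ h then (1 : ℝ) / h else 0 := by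
    intro h hh
    rw [Finset.mem_Icc] at hh
    rw [← Finset.sum_filter, Finset.sum_const, nsmul_eq_mul, mul_one_div]
    have h0 : h.divisors = (Icc 1 X).filter (fun d => d ∣ h) := ?_
    · rw [h0]
    ext d
    rw [Nat.mem_divisors, Finset.mem_filter, Finset.mem_Icc]
    constructor
    · rintro ⟨h2, _⟩
      exact ⟨⟨Nat.pos_of_dvd_of_pos h2 hh.1, (Nat.le_of_dvd hh.1 h2).trans hh.2⟩, h2⟩
    · rintro ⟨_, h2⟩
      exact ⟨h2, by omega⟩
  rw [Finset.sum_congr rfl h1, Finset.sum_comm]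
  have h2 : ∀ d ∈ Icc 1 X, ∑ h ∈ Icc 1 X, (if d ∣ h then (1 : ℝ) / h else 0) ≤
      1 / d * ∑ k ∈ Icc 1 X, (1 : ℝ) / k := by
    intro d hd
    rw [Finset.mem_Icc] at hd
    rw [← Finset.sum_filter, Finset.mul_sum]
    have h3 : ∑ h ∈ (Icc 1 X).filter (fun h => d ∣ h), (1 : ℝ) / h =
        ∑ k ∈ ((Icc 1 X).filter (fun h => d ∣ h)).image (fun h => h / d),
          1 / (d : ℝ) * (1 / k) := by
      rw [Finset.sum_image]
      · refine Finset.sum_congr rfl fun h hh => ?_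
        rw [Finset.mem_filter] at hh
        obtain ⟨k, rfl⟩ := hh.2
        rw [Nat.mul_div_cancel_left k hd.1]
        push_cast
        rw [div_mul_div_comm, one_mul]
      · intro h hh h' hh' heq
        rw [Finset.mem_coe, Finset.mem_filter] at hh hh'
        have h4 := Nat.div_mul_cancel hh.2
        have h5 := Nat.div_mul_cancel hh'.2
        simp only at heq
        rw [← h4, ← h5, heq]
    rw [h3]
    apply Finset.sum_le_sum_of_subset_of_nonneg
    · intro k hk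
      rw [Finset.mem_image] at hk
      obtain ⟨h, hh, rfl⟩ := hk
      rw [Finset.mem_filter, Finset.mem_Icc] at hh
      rw [Finset.mem_Icc]
      exact ⟨Nat.div_pos (Nat.le_of_dvd hh.1.1 hh.2) hd.1, (Nat.div_le_self _ _).trans hh.1.2⟩
    · intro k _ _
      positivity
  refine (Finset.sum_le_sum h2).trans ?_
  rw [← Finset.sum_mul, ← sq]
  exact pow_le_pow_left₀ (Finset.sum_nonneg fun _ _ => by positivity) (harm_GS X) 2

theorem hGS : StGS := by
  intro X z hX hz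
  have hz0 : (0 : ℝ) < z := by exact_mod_cast hz
  have h1 : ∀ h ∈ Ioc z X, (∑ x ∈ Ioc 0 X, (Nat.gcd h x : ℝ)) * ((X : ℝ) / h) ^ 2 ≤
      (X : ℝ) ^ 3 / z * ((h.divisors.card : ℝ) / h) := by
    intro h hh
    rw [Finset.mem_Ioc] at hh
    have hh0 : (0 : ℝ) < h := by
      have : 0 < h := by omega
      exact_mod_cast this
    have hzh : (z : ℝ) ≤ h := by exact_mod_cast hh.1.le
    calc (∑ x ∈ Ioc 0 X, (Nat.gcd h x : ℝ)) * ((X : ℝ) / h) ^ 2
        ≤ (X * (h.divisors.card : ℝ)) * ((X : ℝ) / h) ^ 2 :=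
          mul_le_mul_of_nonneg_right (gcd_GS X h (by omega)) (by positivity)
      _ = (X : ℝ) ^ 3 / h * ((h.divisors.card : ℝ) / h) := by
          field_simp
      _ ≤ (X : ℝ) ^ 3 / z * ((h.divisors.card : ℝ) / h) := by
          apply mul_le_mul_of_nonneg_right _ (by positivity)
          exact div_le_div_of_nonneg_left (by positivity) hz0 hzh
  refine (Finset.sum_le_sum h1).trans ?_
  rw [← Finset.mul_sum]
  have h2 : ∑ h ∈ Ioc z X, (h.divisors.card : ℝ) / h ≤ (1 + Real.log X) ^ 2 := by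
    refine le_trans ?_ (tau_GS X)
    apply Finset.sum_le_sum_of_subset_of_nonneg
    · intro h hh
      rw [Finset.mem_Ioc] at hh
      rw [Finset.mem_Icc]
      omega
    · intro _ _ _
      positivity
  calc (X : ℝ) ^ 3 / z * ∑ h ∈ Ioc z X, (h.divisors.card : ℝ) / h
      ≤ (X : ℝ) ^ 3 / z * (1 + Real.log X) ^ 2 := mul_le_mul_of_nonneg_left h2 (by positivity)
    _ = (X : ℝ) ^ 3 * (1 + Real.log X) ^ 2 / z := by ring

end Pool.Agent.Helper30.HX
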