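import Pool.Agent.Helper30.HX.StA

/-!
# Project HX, module INN: the inner sum
-/

set_option autoImplicit false

namespace Pool.Agent.Helper30.HX

open Finset
open Pool.Agent.Helper48.BK (th lz Vz Pz win AdN)

/-- the Moebius function detects coprimality -/
lemma moeb_INN (G N : ℕ) (hG : G ∣ N) (hN : N ≠ 0) :
    (if G = 1 then (1 : ℝ) else 0) =
      ∑ t ∈ N.divisors, (ArithmeticFunction.moebius t : ℝ) * (if t ∣ G then 1 else 0) := by
  classical
  have hG0 : G ≠ 0 := fun h => hN (Nat.eq_zero_of_zero_dvd (h ▸ hG))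
  have h1 : ∑ t ∈ N.divisors, (ArithmeticFunction.moebius t : ℝ) * (if t ∣ G then 1 else 0) =
      ∑ t ∈ G.divisors, (ArithmeticFunction.moebius t : ℝ) := by
    rw [← Finset.sum_filter_add_sum_filter_not N.divisors (fun t => t ∣ G)]
    have h2 : ∑ t ∈ N.divisors.filter (fun t => ¬ t ∣ G),
        (ArithmeticFunction.moebius t : ℝ) * (if t ∣ G then 1 else 0) = 0 := by
      refine Finset.sum_eq_zero fun t ht => ?_
      rw [if_neg (Finset.mem_filter.1 ht).2, mul_zero]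
    rw [h2, add_zero]
    have h3 : N.divisors.filter (fun t => t ∣ G) = G.divisors := by
      ext t
      rw [Finset.mem_filter, Nat.mem_divisors, Nat.mem_divisors]
      exact ⟨fun h => ⟨h.2, hG0⟩, fun h => ⟨⟨h.1.trans hG, hN⟩, h.1⟩⟩
    rw [h3]
    refine Finset.sum_congr rfl fun t ht => ?_
    rw [if_pos (Nat.dvd_of_mem_divisors ht), mul_one]
  rw [h1]
  have h4 : (∑ t ∈ G.divisors, ArithmeticFunction.moebius t) = if G = 1 then 1 else 0 := by
    have h5 := congrFun (congrArg DFunLike.coe ArithmeticFunction.moebius_mul_coe_zeta) G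
    rw [ArithmeticFunction.coe_mul_zeta_apply, ArithmeticFunction.one_apply] at h5
    exact h5
  have h6 : ((∑ t ∈ G.divisors, ArithmeticFunction.moebius t : ℤ) : ℝ) =
      ∑ t ∈ G.divisors, (ArithmeticFunction.moebius t : ℝ) := by push_cast; rfl
  rw [← h6, h4]
  split_ifs <;> simp

/-- the integral form of `CA` -/
def CB_INN (H lo m : ℕ) (s n : ℤ) (ae : ℤ) (x x' : ℕ) : Prop :=
  (lo : ℤ) * ae ≤ s * n ∧ s * n ≤ m * ae ∧
    (4 * (H : ℤ) * ae < s * n * x ∧ s * n * x ≤ 11 * H * ae) ∧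
      (4 * (H : ℤ) * ae < s * n * x' ∧ s * n * x' ≤ 11 * H * ae)

lemma CA_iff_INN (H lo m : ℕ) (s a ae : ℤ) (hae : 0 < ae) (x x' : ℕ) :
    CA H lo m s a x x' ↔ CB_INN H lo m s (a * ae) ae x x' := by
  unfold CA CB_INN Wn
  have e1 : s * (a * ae) = s * a * ae := by ring
  have e2 : ∀ x : ℤ, s * (a * ae) * x = s * a * x * ae := fun x => by ring
  rw [e2, e2, e1]
  have h1 : (lo : ℤ) * ae ≤ s * a * ae ↔ (lo : ℤ) ≤ s * a := mul_le_mul_iff_left₀ hae
  have h2 : s * a * ae ≤ m * ae ↔ s * a ≤ m := mul_le_mul_iff_left₀ hae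
  have h3 : ∀ x : ℤ, 4 * (H : ℤ) * ae < s * a * x * ae ↔ 4 * (H : ℤ) < s * a * x := fun x =>
    mul_lt_mul_iff_left₀ hae
  have h4 : ∀ x : ℤ, s * a * x * ae ≤ 11 * H * ae ↔ s * a * x ≤ 11 * H := fun x =>
    mul_le_mul_iff_left₀ hae
  rw [h1, h2, h3, h4, h3, h4]

lemma natAbs_dvd_INN (e : ℤ) (t : ℕ) (n : ℤ) (he : e ≠ 0) :
    (e ∣ n ∧ (t : ℤ) ∣ n / e) ↔ ((e.natAbs * t : ℕ) : ℤ) ∣ n := by
  have h1 : ((e.natAbs * t : ℕ) : ℤ) ∣ n ↔ e * t ∣ n := by
    rw [Nat.cast_mul]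
    rcases Int.natAbs_eq e with h | h
    · conv_rhs => rw [h]
    · conv_rhs => rw [h, neg_mul, neg_dvd]
  rw [h1]
  constructor
  · rintro ⟨⟨c, rfl⟩, h⟩
    rw [Int.mul_ediv_cancel_left _ he] at h
    exact mul_dvd_mul_left e h
  · rintro ⟨c, rfl⟩
    refine ⟨⟨t * c, by ring⟩, ?_⟩
    rw [mul_assoc, Int.mul_ediv_cancel_left _ he]
    exact Dvd.intro _ rfl

lemma lin_INN (x₁ x₂ x₃ : ℤ) (h12 : x₁ ≤ x₂) (h23 : x₂ ≤ x₃) (a b c : ℤ)
    (h4 : c ≤ a + b * x₁) (h5 : c ≤ a + b * x₃) : c ≤ a + b * x₂ := by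
  rcases le_total 0 b with h6 | h6
  · nlinarith
  · nlinarith

lemma conv2_INN (H lo m : ℕ) (s A B ae : ℤ) (u v : ℕ) {x₁ x₂ x₃ : ℕ}
    (h12 : x₁ ≤ x₂) (h23 : x₂ ≤ x₃) (h1 : CB_INN H lo m s (A + B * x₁) ae u v)
    (h3 : CB_INN H lo m s (A + B * x₃) ae u v) : CB_INN H lo m s (A + B * x₂) ae u v := by
  have k1 : (x₁ : ℤ) ≤ x₂ := by exact_mod_cast h12
  have k2 : (x₂ : ℤ) ≤ x₃ := by exact_mod_cast h23
  obtain ⟨a1, a2, ⟨a3, a4⟩, ⟨a5, a6⟩⟩ := h1
  obtain ⟨b1, b2, ⟨b3, b4⟩, ⟨b5, b6⟩⟩ := h3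
  have lin := lin_INN x₁ x₂ x₃ k1 k2
  have e1 : ∀ x : ℤ, s * (A + B * x) = s * A + (s * B) * x := fun x => by ring
  have e2 : ∀ x u : ℤ, s * (A + B * x) * u = s * A * u + (s * B * u) * x := fun x u => by ring
  rw [e1] at a1 a2 b1 b2
  rw [e2] at a3 a4 a5 a6 b3 b4 b5 b6
  refine ⟨?_, ?_, ⟨?_, ?_⟩, ⟨?_, ?_⟩⟩
  · rw [e1]
    exact lin _ _ _ a1 b1
  · rw [e1]
    have := lin (-(s * A)) (-(s * B)) (-(m * ae)) (by linarith) (by linarith)
    linarith
  · rw [e2]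
    have := lin (s * A * u) (s * B * u) (4 * H * ae + 1) (by linarith) (by linarith)
    linarith
  · rw [e2]
    have := lin (-(s * A * u)) (-(s * B * u)) (-(11 * H * ae)) (by linarith) (by linarith)
    linarith
  · rw [e2]
    have := lin (s * A * v) (s * B * v) (4 * H * ae + 1) (by linarith) (by linarith)
    linarith
  · rw [e2]
    have := lin (-(s * A * v)) (-(s * B * v)) (-(11 * H * ae)) (by linarith) (by linarith)
    linarith

lemma conv1_INN (H lo m : ℕ) (s n ae : ℤ) (v : ℕ) {x₁ x₂ x₃ : ℕ} (h12 : x₁ ≤ x₂) (h23 : x₂ ≤ x₃)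
    (h1 : CB_INN H lo m s n ae x₁ v) (h3 : CB_INN H lo m s n ae x₃ v) :
    CB_INN H lo m s n ae x₂ v := by
  have k1 : (x₁ : ℤ) ≤ x₂ := by exact_mod_cast h12
  have k2 : (x₂ : ℤ) ≤ x₃ := by exact_mod_cast h23
  obtain ⟨a1, a2, ⟨a3, a4⟩, a5⟩ := h1
  obtain ⟨-, -, ⟨b3, b4⟩, -⟩ := h3
  have lin := lin_INN x₁ x₂ x₃ k1 k2
  refine ⟨a1, a2, ⟨?_, ?_⟩, a5⟩
  · have := lin 0 (s * n) (4 * H * ae + 1) (by linarith) (by linarith)
    linarith
  · have := lin 0 (-(s * n)) (-(11 * H * ae)) (by linarith) (by linarith)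
    linarith

/-- one Moebius divisor -/
lemma one_INN (ha : StCls) (hb : StCvx) (f : ℕ → ℝ) (X H lo m z F Q : ℕ) (M R ρ Λ : ℝ)
    (s₁ s₂ s₃ : ℤ) (y w x' y' w' : ℕ) (e : ℤ) (hs₂ : Sg s₂)
    (hlo : 1 ≤ lo) (hlm : lo ≤ m) (hH : 1 ≤ H) (hzm : z * m ≤ 4 * H)
    (hM : 0 ≤ M) (hR : 0 ≤ R) (hρ : 0 ≤ ρ) (hΛ : 0 ≤ Λ) (hF : 1 ≤ F)
    (hyw : Nat.Coprime y w) (hyw' : Nat.Coprime y' w') (he : e ≠ 0)
    (hf : ∀ x ≤ X, |f x| ≤ M) (hrg : Rgh z f) (hap : APH f X Q R ρ)
    (heF : e.natAbs * F ≤ Q) (hw' : 1 ≤ w') (hΛw : (m : ℝ) ≤ Λ * w') (t : ℕ) (ht : 1 ≤ t)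
    (htδ : ((e.natAbs * t : ℕ) : ℤ) ∣ dlt y w y' w') (P : ℕ → Prop) [DecidablePred P]
    (hP : ∀ x, P x ↔ (((e.natAbs * t : ℕ) : ℤ) ∣ (w : ℤ) * x' - x * w' ∧
      ((e.natAbs * t : ℕ) : ℤ) ∣ (x : ℤ) * y' - y * x') ∧
      CB_INN H lo m s₁ (dlt y w y' w' * e.sign) (e.natAbs : ℤ) x x' ∧
      CB_INN H lo m s₂ (((w : ℤ) * x' - x * w') * e.sign) (e.natAbs : ℤ) y y' ∧
      CB_INN H lo m s₃ (((x : ℤ) * y' - y * x') * e.sign) (e.natAbs : ℤ) w w') :
    |∑ x ∈ (Ioc 0 X).filter P, f x| ≤ Bd z F M R ρ Λ e x' t := by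
  classical
  have hm1 : 1 ≤ m := hlo.trans hlm
  set ae : ℤ := (e.natAbs : ℤ) with hae
  have hae0 : 0 < ae := by
    rw [hae]
    exact_mod_cast Int.natAbs_pos.2 he
  set q : ℕ := e.natAbs * t with hq
  have hq1 : 1 ≤ q := Nat.mul_pos (Int.natAbs_pos.2 he) ht
  obtain ⟨r, hr⟩ := ha y w x' y' w' q hyw' hq1 htδ
  -- the convex part
  set C : ℕ → Prop := fun x =>
      CB_INN H lo m s₁ (dlt y w y' w' * e.sign) ae x x' ∧
      CB_INN H lo m s₂ (((w : ℤ) * x' - x * w') * e.sign) ae y y' ∧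
      CB_INN H lo m s₃ (((x : ℤ) * y' - y * x') * e.sign) ae w w' with hC
  have hconv : ∀ x₁ x₂ x₃ : ℕ, x₁ ≤ x₂ → x₂ ≤ x₃ → C x₁ → C x₃ → C x₂ := by
    rintro x₁ x₂ x₃ h12 h23 ⟨a1, b1, c1⟩ ⟨a3, b3, c3⟩
    refine ⟨conv1_INN _ _ _ _ _ _ _ h12 h23 a1 a3, ?_, ?_⟩
    · have e1 : ∀ x : ℕ, ((w : ℤ) * x' - x * w') * e.sign =
          (w * x' * e.sign) + (-(w' * e.sign)) * x := fun x => by ring
      rw [e1] at b1 b3 ⊢
      exact conv2_INN _ _ _ _ _ _ _ _ _ h12 h23 b1 b3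
    · have e1 : ∀ x : ℕ, ((x : ℤ) * y' - y * x') * e.sign =
          (-(y * x' * e.sign)) + (y' * e.sign) * x := fun x => by ring
      rw [e1] at c1 c3 ⊢
      exact conv2_INN _ _ _ _ _ _ _ _ _ h12 h23 c1 c3
  obtain ⟨y₁, y₂, hy12, hy2X, hint⟩ := hb.1 X C hconv
  -- the set
  have hset : (Ioc 0 X).filter P = (Ioc y₁ y₂).filter (fun x => x ≡ r [MOD q]) := by
    ext x
    rw [Finset.mem_filter, Finset.mem_filter, hP, hr x, ← hint x]
    tauto
  rw [hset]
  -- properties of the interval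
  have hz : ∀ x ∈ Ioc y₁ y₂, z < x := by
    intro x hx
    have h1 := ((hint x).2 hx).2.1
    simp only [CB_INN] at h1
    obtain ⟨-, h2, ⟨h3, -⟩, -⟩ := h1
    have h4 : s₁ * (dlt y w y' w' * e.sign) * x ≤ m * ae * x :=
      mul_le_mul_of_nonneg_right h2 (Int.natCast_nonneg x)
    have h5 : (4 * (H : ℤ)) * ae < m * x * ae := by linarith
    have h6 : 4 * (H : ℤ) < m * x := lt_of_mul_lt_mul_right h5 hae0.le
    have h7 : 4 * H < m * x := by exact_mod_cast h6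
    have h8 : m * z < m * x := by
      rw [mul_comm m z]
      exact hzm.trans_lt h7
    exact lt_of_mul_lt_mul_left h8 (Nat.zero_le m)
  have hD : ∀ x₁ ∈ Ioc y₁ y₂, ∀ x₂ ∈ Ioc y₁ y₂, x₁ ≤ x₂ →
      (x₂ : ℝ) - x₁ ≤ (m : ℝ) * e.natAbs / w' := by
    intro x₁ h1 x₂ h2 _
    have b1 := ((hint x₁).2 h1).2.2.1
    have b2 := ((hint x₂).2 h2).2.2.1
    simp only [CB_INN] at b1 b2
    obtain ⟨b1, b1', -⟩ := b1
    obtain ⟨b2, b2', -⟩ := b2
    have hpos : 0 ≤ (lo : ℤ) * ae := by positivity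
    have hw0 : (0 : ℝ) < w' := by exact_mod_cast hw'
    rw [le_div_iff₀ hw0]
    have key : ((x₂ : ℤ) - x₁) * w' ≤ m * ae := by
      -- `|s₂ e.sign| = 1`
      have hσ : s₂ * e.sign = 1 ∨ s₂ * e.sign = -1 := by
        rcases hs₂ with h | h <;> rcases lt_trichotomy e 0 with h' | h' | h'
        · rw [h, Int.sign_eq_neg_one_of_neg h']; right; norm_num
        · exact absurd h' he
        · rw [h, Int.sign_eq_one_of_pos h']; left; norm_num
        · rw [h, Int.sign_eq_neg_one_of_neg h']; left; norm_num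
        · exact absurd h' he
        · rw [h, Int.sign_eq_one_of_pos h']; right; norm_num
      have e1 : s₂ * (((w : ℤ) * x' - x₁ * w') * e.sign) =
          (s₂ * e.sign) * ((w : ℤ) * x' - x₁ * w') := by ring
      have e2 : s₂ * (((w : ℤ) * x' - x₂ * w') * e.sign) =
          (s₂ * e.sign) * ((w : ℤ) * x' - x₂ * w') := by ring
      rw [e1] at b1 b1'
      rw [e2] at b2 b2'
      rcases hσ with h | h
      · rw [h] at b1 b1' b2 b2'
        linarith
      · rw [h] at b1 b1' b2 b2'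
        linarith
    have key' : ((((x₂ : ℤ) - x₁) * w' : ℤ) : ℝ) ≤ ((m * ae : ℤ) : ℝ) := Int.cast_le.2 key
    rw [hae, Int.cast_mul, Int.cast_mul, Int.cast_sub, Int.cast_natCast, Int.cast_natCast,
      Int.cast_natCast, Int.cast_natCast, Int.cast_natCast] at key'
    exact key'
  have hD0 : (0 : ℝ) ≤ (m : ℝ) * e.natAbs / w' := by positivity
  obtain ⟨hcnt, hlen⟩ := hb.2 y₁ y₂ q r ((m : ℝ) * e.natAbs / w') hq1 hD0 hy12 hD
  have hDq : (m : ℝ) * e.natAbs / w' / q ≤ Λ / t := by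
    have he0 : (0 : ℝ) < e.natAbs := by exact_mod_cast Int.natAbs_pos.2 he
    have ht0 : (0 : ℝ) < t := by exact_mod_cast ht
    have hw0 : (0 : ℝ) < w' := by exact_mod_cast hw'
    have h1 : (m : ℝ) * e.natAbs / w' / q = m / w' / t := by
      rw [hq]
      push_cast
      field_simp
    rw [h1]
    refine div_le_div_of_nonneg_right ?_ ht0.le
    rw [div_le_iff₀ hw0]
    exact hΛw
  have ht1 : (1 : ℝ) ≤ t := by exact_mod_cast ht
  have hΛt : Λ / t ≤ Λ := div_le_self hΛ ht1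
  -- the trivial bound
  have htriv : |∑ x ∈ (Ioc y₁ y₂).filter (fun x => x ≡ r [MOD q]), f x| ≤ M * (Λ / t + 1) := by
    refine (Finset.abs_sum_le_sum_abs _ _).trans ?_
    have h1 : ∑ x ∈ (Ioc y₁ y₂).filter (fun x => x ≡ r [MOD q]), |f x| ≤
        ∑ _x ∈ (Ioc y₁ y₂).filter (fun x => x ≡ r [MOD q]), M := by
      refine Finset.sum_le_sum fun x hx => hf x ?_
      exact ((Finset.mem_Ioc.1 (Finset.mem_filter.1 hx).1).2).trans hy2X
    refine h1.trans ?_
    rw [Finset.sum_const, nsmul_eq_mul, mul_comm]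
    refine mul_le_mul_of_nonneg_left (hcnt.trans ?_) hM
    linarith
  unfold Bd
  by_cases htF : t ≤ F
  · rw [if_pos htF]
    by_cases hp : ∃ p : ℕ, p.Prime ∧ z < p ∧ p ∣ e.natAbs * t ∧ p ∣ x'
    · rw [if_pos hp]
      refine htriv.trans (mul_le_mul_of_nonneg_left ?_ hM)
      linarith
    · rw [if_neg hp]
      have hqQ : q ≤ Q := (Nat.mul_le_mul_left _ htF).trans heF
      have hbig : 0 ≤ R + ρ * (Λ + 1) := by positivity
      by_cases hcop : Nat.Coprime r q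
      · refine (hap q r y₁ y₂ hq1 hqQ hcop hy12 hy2X).trans ?_
        have hq1' : (1 : ℝ) ≤ q := by exact_mod_cast hq1
        have h1 : ((y₂ : ℝ) - y₁) / q ≤ Λ + 1 := by
          have h2 : ((y₂ : ℝ) - y₁) / q ≤ ((m : ℝ) * e.natAbs / w' + 1) / q :=
            div_le_div_of_nonneg_right hlen (by positivity)
          rw [add_div] at h2
          have h3 : 1 / (q : ℝ) ≤ 1 := by
            rw [div_le_one (by positivity)]
            exact hq1'
          linarith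
        have := mul_le_mul_of_nonneg_left h1 hρ
        linarith
      · -- a common prime factor
        obtain ⟨p, hpp, hpr, hpq⟩ := Nat.Prime.not_coprime_iff_dvd.1 hcop
        have hzero : ∑ x ∈ (Ioc y₁ y₂).filter (fun x => x ≡ r [MOD q]), f x = 0 := by
          refine Finset.sum_eq_zero fun x hx => ?_
          obtain ⟨hx1, hx2⟩ := Finset.mem_filter.1 hx
          have hpx : p ∣ x := by
            have h1 : x ≡ r [MOD p] := hx2.of_dvd hpq
            exact (h1.dvd_iff dvd_rfl).2 hpr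
          by_contra hne
          have hzp := hrg x (hz x hx1) hne p hpp hpx
          apply hp
          refine ⟨p, hpp, hzp, hpq, ?_⟩
          obtain ⟨h1, h2⟩ := (hr x).2 hx2
          have hpq' : (p : ℤ) ∣ (q : ℤ) := by exact_mod_cast hpq
          have hpx' : (p : ℤ) ∣ (x : ℤ) := by exact_mod_cast hpx
          have h3 : (p : ℤ) ∣ (w : ℤ) * x' := by
            have h4 := dvd_add (hpq'.trans h1) (hpx'.mul_right (w' : ℤ))
            simpa using h4
          have h3' : (p : ℤ) ∣ (y : ℤ) * x' := by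
            have h4 := dvd_sub (hpx'.mul_right (y' : ℤ)) (hpq'.trans h2)
            simpa using h4
          have h4 : p ∣ w * x' := by exact_mod_cast h3
          have h5 : p ∣ y * x' := by exact_mod_cast h3'
          rcases (Nat.Prime.dvd_mul hpp).1 h4 with h6 | h6
          · rcases (Nat.Prime.dvd_mul hpp).1 h5 with h7 | h7
            · exact absurd (Nat.dvd_gcd h7 h6) (by
                rw [hyw]
                exact fun h => hpp.one_lt.ne' (Nat.dvd_one.1 h))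
            · exact h7
          · exact h6
        rw [hzero, abs_zero]
        exact hbig
  · rw [if_neg htF]
    refine htriv.trans (mul_le_mul_of_nonneg_left ?_ hM)
    have hF' : (F : ℝ) ≤ t := by exact_mod_cast (not_le.1 htF).le
    have hF0 : (0 : ℝ) < F := by exact_mod_cast hF
    have := div_le_div_of_nonneg_left hΛ hF0 hF'
    linarith

theorem hInn (ha : StCls) (hb : StCvx) : StInn := by
  classical
  intro f X H lo m z F Q M R ρ Λ s₁ s₂ s₃ y w x' y' w' e hs₁ hs₂ hs₃ hlo hlm hH hzm hmΛ hM hR hρ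
    hF hXQ hyX hwX hy'X hw'X hyw hyw' he hf hrg hap
  have hm1 : 1 ≤ m := hlo.trans hlm
  have hΛ : 0 ≤ Λ := by
    have h1 : (0 : ℝ) < H := by exact_mod_cast hH
    by_contra h
    have h2 : Λ * H < 0 := mul_neg_of_neg_of_pos (not_le.1 h) h1
    have h3 : (0 : ℝ) ≤ (m : ℝ) ^ 2 := by positivity
    linarith
  have hBd : ∀ t, 0 ≤ Bd z F M R ρ Λ e x' t := by
    intro t
    unfold Bd
    split_ifs <;> positivity
  obtain ⟨he0, heδ⟩ : e ≠ 0 ∧ e ∣ dlt y w y' w' := by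
    have := (Finset.mem_filter.1 he).2
    exact this
  have hδ0 : dlt y w y' w' ≠ 0 := by
    intro h0
    have h1 := (Finset.mem_filter.1 he).1
    rw [h0, abs_zero, neg_zero, Finset.mem_Icc] at h1
    exact he0 (le_antisymm h1.2 h1.1)
  set A := (Ioc 0 X).filter (fun x => Cnd H lo m s₁ s₂ s₃ x y w x' y' w' e) with hA
  rcases A.eq_empty_or_nonempty with hAe | ⟨x₀, hx₀⟩
  · have h1 : ∑ x ∈ A, f x = 0 := by rw [hAe, Finset.sum_empty]
    rw [h1, abs_zero]
    exact Finset.sum_nonneg fun t _ => hBd t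
  -- consequences of the existence of `x₀`
  obtain ⟨-, hx0⟩ := Finset.mem_filter.1 hx₀
  obtain ⟨-, -, -, hc1, hc2, hc3⟩ := hx0
  have heF : e.natAbs * F ≤ Q := by
    obtain ⟨h1, -⟩ := hc1
    -- `lo |e| ≤ |δ| ≤ X ^ 2`
    obtain ⟨d, hd⟩ := heδ
    rw [hd, Int.mul_ediv_cancel_left _ he0] at h1
    have h2 : lo ≤ d.natAbs := by
      rcases hs₁ with h | h
      · rw [h, one_mul] at h1
        omega
      · rw [h] at h1
        omega
    have h3 : (dlt y w y' w').natAbs ≤ X ^ 2 := by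
      have h4 : y * w' ≤ X ^ 2 := by
        rw [pow_two]
        exact Nat.mul_le_mul hyX hw'X
      have h5 : w * y' ≤ X ^ 2 := by
        rw [pow_two]
        exact Nat.mul_le_mul hwX hy'X
      unfold dlt
      have h6 : ((y : ℤ) * w') = ((y * w' : ℕ) : ℤ) := by push_cast; rfl
      have h7 : ((w : ℤ) * y') = ((w * y' : ℕ) : ℤ) := by push_cast; rfl
      rw [h6, h7]
      omega
    rw [hd, Int.natAbs_mul] at h3
    have h4 : lo * (e.natAbs * F) ≤ lo * Q := by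
      calc lo * (e.natAbs * F) = e.natAbs * lo * F := by ring
        _ ≤ e.natAbs * d.natAbs * F := Nat.mul_le_mul_right _ (Nat.mul_le_mul_left _ h2)
        _ ≤ X ^ 2 * F := Nat.mul_le_mul_right _ h3
        _ ≤ lo * Q := hXQ
    exact Nat.le_of_mul_le_mul_left h4 hlo
  have hw4 : 4 * H < m * w' := by
    obtain ⟨-, h2, -, ⟨h3, -⟩⟩ := hc3
    have h4 := mul_le_mul_of_nonneg_right h2 (Int.natCast_nonneg w')
    have h5 : (4 * (H : ℤ)) < m * w' := lt_of_lt_of_le h3 h4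
    exact_mod_cast h5
  have hw' : 1 ≤ w' := by
    rcases Nat.eq_zero_or_pos w' with h | h
    · rw [h, mul_zero] at hw4
      omega
    · exact h
  have hΛw : (m : ℝ) ≤ Λ * w' := by
    have h1 : (4 * H : ℝ) < m * w' := by exact_mod_cast hw4
    have h2 : (0 : ℝ) < m := by exact_mod_cast hm1
    have h3 : (m : ℝ) * m ≤ m * (Λ * w') := by
      have h4 : Λ * (4 * H) ≤ Λ * (m * w') := mul_le_mul_of_nonneg_left h1.le hΛ
      have h5 : 0 ≤ Λ * (H : ℝ) := by positivity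
      nlinarith
    exact le_of_mul_le_mul_left h3 h2
  -- Moebius
  set N := (dlt y w y' w' / e).natAbs with hN
  have hN0 : N ≠ 0 := by
    rw [hN, Int.natAbs_ne_zero]
    obtain ⟨d, hd⟩ := heδ
    rw [hd, Int.mul_ediv_cancel_left _ he0]
    intro h
    exact hδ0 (by rw [hd, h, mul_zero])
  -- the conditions apart from primitivity
  set B : ℕ → Prop := fun x => (e ∣ (w : ℤ) * x' - x * w' ∧ e ∣ (x : ℤ) * y' - y * x') ∧
    CA H lo m s₁ (dlt y w y' w' / e) x x' ∧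
    CA H lo m s₂ (((w : ℤ) * x' - x * w') / e) y y' ∧
    CA H lo m s₃ (((x : ℤ) * y' - y * x') / e) w w' with hB
  set G : ℕ → ℕ := fun x => Int.gcd (dlt y w y' w' / e)
    (Int.gcd (((w : ℤ) * x' - x * w') / e) (((x : ℤ) * y' - y * x') / e)) with hG
  have hCnd : ∀ x, Cnd H lo m s₁ s₂ s₃ x y w x' y' w' e ↔ (B x ∧ G x = 1) := by
    intro x
    simp only [Cnd, hB, hG]
    tauto
  have hGN : ∀ x, G x ∣ N := by
    intro x
    rw [hN, ← Int.natCast_dvd]
    exact Int.gcd_dvd_left _ _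
  have hsum : ∑ x ∈ A, f x = ∑ t ∈ N.divisors, (ArithmeticFunction.moebius t : ℝ) *
      ∑ x ∈ (Ioc 0 X).filter (fun x => B x ∧ t ∣ G x), f x := by
    have h1 : ∑ x ∈ A, f x = ∑ x ∈ Ioc 0 X, if B x then f x * (if G x = 1 then 1 else 0) else 0 := by
      rw [hA, Finset.sum_filter]
      refine Finset.sum_congr rfl fun x _ => ?_
      by_cases h2 : B x
      · by_cases h3 : G x = 1
        · rw [if_pos ((hCnd x).2 ⟨h2, h3⟩), if_pos h2, if_pos h3, mul_one]
        · rw [if_neg (fun h => h3 ((hCnd x).1 h).2), if_pos h2, if_neg h3, mul_zero]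
      · rw [if_neg (fun h => h2 ((hCnd x).1 h).1), if_neg h2]
    rw [h1]
    have h2 : ∀ x ∈ Ioc 0 X, (if B x then f x * (if G x = 1 then (1 : ℝ) else 0) else 0) =
        ∑ t ∈ N.divisors, (ArithmeticFunction.moebius t : ℝ) *
          (if B x ∧ t ∣ G x then f x else 0) := by
      intro x _
      by_cases h3 : B x
      · rw [if_pos h3, moeb_INN (G x) N (hGN x) hN0, Finset.mul_sum]
        refine Finset.sum_congr rfl fun t _ => ?_
        by_cases h4 : t ∣ G x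
        · rw [if_pos h4, if_pos ⟨h3, h4⟩]
          ring
        · rw [if_neg h4, if_neg (fun h => h4 h.2)]
          ring
      · rw [if_neg h3]
        symm
        refine Finset.sum_eq_zero fun t _ => ?_
        rw [if_neg (fun h => h3 h.1), mul_zero]
    rw [Finset.sum_congr rfl h2, Finset.sum_comm]
    refine Finset.sum_congr rfl fun t _ => ?_
    rw [Finset.sum_filter, Finset.mul_sum]
  have hgoal : |∑ x ∈ A, f x| ≤ ∑ t ∈ N.divisors, Bd z F M R ρ Λ e x' t := by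
    rw [hsum]
    refine (Finset.abs_sum_le_sum_abs _ _).trans (Finset.sum_le_sum fun t ht => ?_)
    rw [abs_mul]
    have hμ : |(ArithmeticFunction.moebius t : ℝ)| ≤ 1 := by
      have := ArithmeticFunction.abs_moebius_le_one (n := t)
      exact_mod_cast this
    have ht1 : 1 ≤ t := Nat.pos_of_mem_divisors ht
    have htN : t ∣ N := Nat.dvd_of_mem_divisors ht
    have htδe : (t : ℤ) ∣ dlt y w y' w' / e := by
      rw [hN, ← Int.natCast_dvd] at htN
      exact htN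
    have htδ : ((e.natAbs * t : ℕ) : ℤ) ∣ dlt y w y' w' :=
      (natAbs_dvd_INN e t _ he0).1 ⟨heδ, htδe⟩
    have hmul : ∀ n : ℤ, e ∣ n → n / e * (e.natAbs : ℤ) = n * e.sign := by
      rintro n ⟨c, rfl⟩
      rw [Int.mul_ediv_cancel_left _ he0, Int.natCast_natAbs, ← Int.sign_mul_self_eq_abs]
      ring
    have hae0 : (0 : ℤ) < (e.natAbs : ℤ) := by exact_mod_cast Int.natAbs_pos.2 he0
    have hone := one_INN ha hb f X H lo m z F Q M R ρ Λ s₁ s₂ s₃ y w x' y' w' e hs₂ hlo hlm hH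
      hzm hM hR hρ hΛ hF hyw hyw' he0 hf hrg hap heF hw' hΛw t ht1 htδ
      (fun x => B x ∧ t ∣ G x) (by
        intro x
        simp only [hB, hG]
        rw [← natAbs_dvd_INN e t _ he0, ← natAbs_dvd_INN e t _ he0]
        have hg : t ∣ Int.gcd (dlt y w y' w' / e)
            (Int.gcd (((w : ℤ) * x' - x * w') / e) (((x : ℤ) * y' - y * x') / e)) ↔
            ((t : ℤ) ∣ ((w : ℤ) * x' - x * w') / e ∧ (t : ℤ) ∣ ((x : ℤ) * y' - y * x') / e) := by
          constructor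
          · intro h
            have h1 : t ∣ Int.gcd (((w : ℤ) * x' - x * w') / e) (((x : ℤ) * y' - y * x') / e) := by
              have h2 : ((Int.gcd (dlt y w y' w' / e) (Int.gcd (((w : ℤ) * x' - x * w') / e)
                (((x : ℤ) * y' - y * x') / e)) : ℕ) : ℤ) ∣
                (Int.gcd (((w : ℤ) * x' - x * w') / e) (((x : ℤ) * y' - y * x') / e) : ℤ) :=
                Int.gcd_dvd_right _ _
              exact h.trans (Int.natCast_dvd_natCast.1 h2)
            have h3 := Int.natCast_dvd_natCast.2 h1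
            exact ⟨h3.trans (Int.gcd_dvd_left _ _), h3.trans (Int.gcd_dvd_right _ _)⟩
          · rintro ⟨h1, h2⟩
            have h3 : t ∣ Int.gcd (((w : ℤ) * x' - x * w') / e) (((x : ℤ) * y' - y * x') / e) :=
              Int.natCast_dvd_natCast.1 (Int.dvd_coe_gcd h1 h2)
            exact Int.natCast_dvd_natCast.1 (Int.dvd_coe_gcd htδe (Int.natCast_dvd_natCast.2 h3))
        rw [hg]
        constructor
        · rintro ⟨⟨⟨h1, h2⟩, h3, h4, h5⟩, h6, h7⟩
          rw [CA_iff_INN H lo m s₁ _ _ hae0, hmul _ heδ] at h3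
          rw [CA_iff_INN H lo m s₂ _ _ hae0, hmul _ h1] at h4
          rw [CA_iff_INN H lo m s₃ _ _ hae0, hmul _ h2] at h5
          exact ⟨⟨⟨h1, h6⟩, ⟨h2, h7⟩⟩, h3, h4, h5⟩
        · rintro ⟨⟨⟨h1, h6⟩, ⟨h2, h7⟩⟩, h3, h4, h5⟩
          rw [← hmul _ heδ, ← CA_iff_INN H lo m s₁ _ _ hae0] at h3
          rw [← hmul _ h1, ← CA_iff_INN H lo m s₂ _ _ hae0] at h4
          rw [← hmul _ h2, ← CA_iff_INN H lo m s₃ _ _ hae0] at h5
          exact ⟨⟨⟨h1, h2⟩, h3, h4, h5⟩, h6, h7⟩)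
    calc |(ArithmeticFunction.moebius t : ℝ)| *
          |∑ x ∈ (Ioc 0 X).filter (fun x => B x ∧ t ∣ G x), f x| ≤
          1 * |∑ x ∈ (Ioc 0 X).filter (fun x => B x ∧ t ∣ G x), f x| :=
          mul_le_mul_of_nonneg_right hμ (abs_nonneg _)
      _ ≤ Bd z F M R ρ Λ e x' t := by rw [one_mul]; exact hone
  convert hgoal

end Pool.Agent.Helper30.HX
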