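import Pool.Agent.Helper30.HX.StT

/-! Project HX (MP_3923f3_nt), module LOW -/

set_option autoImplicit false

namespace Pool.Agent.Helper30.HX

open Finset Filter
open Pool.Agent.Helper48.BK (th lz Vz Pz win AdN Admissible Solv Box)

/-- the interval `[-m, m]` -/
noncomputable def I_LOW (m : ℕ) : Finset ℤ := Icc (-(m : ℤ)) m

theorem card_I_LOW (m : ℕ) : ((I_LOW m).card : ℝ) = 2 * m + 1 := by
  have h : (I_LOW m).card = 2 * m + 1 := by
    rw [I_LOW, Int.card_Icc]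
    omega
  rw [h]
  push_cast
  ring

theorem class_LOW (m r : ℕ) (hr : 0 < r) (v : ℤ) :
    ((((I_LOW m).filter (fun x => x ≡ v [ZMOD r])).card : ℕ) : ℝ) ≤ (2 * m + 1) / r + 1 := by
  have hr' : (0 : ℤ) < r := by exact_mod_cast hr
  have hI : I_LOW m = Ioc (-(m : ℤ) - 1) m := by
    ext x
    rw [I_LOW, Finset.mem_Icc, Finset.mem_Ioc]
    omega
  have h := Int.Ioc_filter_modEq_card (-(m : ℤ) - 1) (m : ℤ) hr' v
  rw [← hI] at h
  have hrQ : (0 : ℚ) < (r : ℤ) := by exact_mod_cast hr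
  have h2 : ((⌊((m : ℤ) - v) / ((r : ℤ) : ℚ)⌋ - ⌊((-(m : ℤ) - 1 : ℤ) - v) / ((r : ℤ) : ℚ)⌋ : ℤ) : ℚ)
      ≤ (2 * m + 1) / (r : ℤ) + 1 := by
    have h3 := Int.floor_le ((((m : ℤ) : ℚ) - v) / ((r : ℤ) : ℚ))
    have h4 := Int.lt_floor_add_one ((((-(m : ℤ) - 1 : ℤ) : ℚ) - v) / ((r : ℤ) : ℚ))
    have h5 : (((m : ℤ) : ℚ) - v) / ((r : ℤ) : ℚ) - (((-(m : ℤ) - 1 : ℤ) : ℚ) - v) / ((r : ℤ) : ℚ)
        = (2 * m + 1) / (r : ℤ) := by
      rw [← sub_div]
      congr 1
      push_cast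
      ring
    rw [Int.cast_sub]
    linarith
  have h6 : ((((I_LOW m).filter (fun x => x ≡ v [ZMOD r])).card : ℤ) : ℚ) ≤
      (2 * m + 1) / (r : ℤ) + 1 := by
    rw [h, Int.cast_max]
    apply max_le
    · exact h2
    · push_cast
      positivity
  have h7 : (((((I_LOW m).filter (fun x => x ≡ v [ZMOD r])).card : ℕ) : ℚ) : ℝ) ≤
      (((2 * m + 1) / (r : ℤ) + 1 : ℚ) : ℝ) := by
    exact_mod_cast h6
  push_cast at h7
  exact h7

theorem inj_LOW (m p q r : ℕ) (hr : 0 < r) (T : Finset (ℤ × ℤ))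
    (hT : ∀ a b c : ℤ, a ∈ I_LOW m → b ∈ I_LOW m → a * p + b * q + c * r = 0 → (a, b) ∈ T) :
    ((Box m).filter (fun v : ℤ × ℤ × ℤ => v.1 * p + v.2.1 * q + v.2.2 * r = 0)).card ≤ T.card := by
  apply Finset.card_le_card_of_injOn (fun v : ℤ × ℤ × ℤ => (v.1, v.2.1))
  · intro v hv
    rw [Finset.mem_coe, Finset.mem_filter, Box, Finset.mem_product, Finset.mem_product] at hv
    exact Finset.mem_coe.2 (hT v.1 v.2.1 v.2.2 hv.1.1 hv.1.2.1 hv.2)
  · intro v hv w hw hvw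
    rw [Finset.mem_coe, Finset.mem_filter] at hv hw
    obtain ⟨a, b, c⟩ := v
    obtain ⟨a', b', c'⟩ := w
    simp only [Prod.mk.injEq] at hvw hv hw ⊢
    obtain ⟨h1, h2⟩ := hvw
    subst h1 h2
    refine ⟨rfl, rfl, ?_⟩
    have h3 : (c - c') * (r : ℤ) = 0 := by
      have h4 := hv.2
      have h5 := hw.2
      linarith
    rcases mul_eq_zero.1 h3 with h4 | h4
    · linarith
    · exfalso
      have : r = 0 := by exact_mod_cast h4
      omega

theorem cnt_LOW (m p q r : ℕ) (hp : p.Prime) (hq : q.Prime) (hr : r.Prime) :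
    ((((Box m).filter (fun v : ℤ × ℤ × ℤ => v.1 * p + v.2.1 * q + v.2.2 * r = 0)).card : ℕ) : ℝ) ≤
      (2 * m + 1) * ((2 * m + 1) / r + 1) + (if p = q ∧ q = r then (2 * (m : ℝ) + 1) ^ 2 else 0) := by
  have hr0 := hr.pos
  have hif : (0 : ℝ) ≤ (if p = q ∧ q = r then (2 * (m : ℝ) + 1) ^ 2 else 0) := by
    split_ifs <;> positivity
  by_cases hqr : q = r
  · by_cases hpq : p = q
    · rw [if_pos ⟨hpq, hqr⟩]
      have h1 := inj_LOW m p q r hr0 (I_LOW m ×ˢ I_LOW m)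
        (fun a b c ha hb _ => Finset.mem_product.2 ⟨ha, hb⟩)
      have h2 : ((((Box m).filter (fun v : ℤ × ℤ × ℤ =>
          v.1 * p + v.2.1 * q + v.2.2 * r = 0)).card : ℕ) : ℝ) ≤
          (((I_LOW m ×ˢ I_LOW m).card : ℕ) : ℝ) := by exact_mod_cast h1
      rw [Finset.card_product, Nat.cast_mul, card_I_LOW] at h2
      have h3 : (0 : ℝ) ≤ (2 * m + 1) * ((2 * m + 1) / r + 1) := by positivity
      have h4 : (2 * (m : ℝ) + 1) ^ 2 = (2 * m + 1) * (2 * m + 1) := sq _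
      linarith
    · have h1 := inj_LOW m p q r hr0
        (((I_LOW m).filter (fun x => x ≡ 0 [ZMOD r])) ×ˢ I_LOW m)
        (fun a b c ha hb habc => by
          refine Finset.mem_product.2 ⟨Finset.mem_filter.2 ⟨ha, ?_⟩, hb⟩
          rw [Int.modEq_zero_iff_dvd]
          have h3 : (r : ℤ) ∣ a * p := by
            refine ⟨-(b + c), ?_⟩
            rw [hqr] at habc
            linarith
          have h4 : IsCoprime (r : ℤ) (p : ℤ) := by
            rw [Nat.isCoprime_iff_coprime]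
            exact (Nat.coprime_primes hr hp).2 (fun h => hpq (by rw [hqr, h]))
          exact h4.dvd_of_dvd_mul_right h3)
      have h2 : ((((Box m).filter (fun v : ℤ × ℤ × ℤ =>
          v.1 * p + v.2.1 * q + v.2.2 * r = 0)).card : ℕ) : ℝ) ≤
          (((((I_LOW m).filter (fun x => x ≡ 0 [ZMOD r])) ×ˢ I_LOW m).card : ℕ) : ℝ) := by
        exact_mod_cast h1
      rw [Finset.card_product, Nat.cast_mul, card_I_LOW] at h2
      have h3 := mul_le_mul_of_nonneg_right (class_LOW m r hr0 0)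
        (show (0 : ℝ) ≤ 2 * m + 1 by positivity)
      linarith [mul_comm ((2 * (m : ℝ) + 1) / r + 1) (2 * (m : ℝ) + 1)]
  · have hcop : IsCoprime (q : ℤ) (r : ℤ) := by
      rw [Nat.isCoprime_iff_coprime]
      exact (Nat.coprime_primes hq hr).2 hqr
    obtain ⟨u, w, huw⟩ := hcop
    have h1 := inj_LOW m p q r hr0
      ((I_LOW m ×ˢ I_LOW m).filter (fun x => x.2 ≡ -(x.1 * p) * u [ZMOD r]))
      (fun a b c ha hb habc => by
        refine Finset.mem_filter.2 ⟨Finset.mem_product.2 ⟨ha, hb⟩, ?_⟩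
        simp only
        rw [Int.modEq_iff_dvd]
        refine ⟨c * u - b * w, ?_⟩
        have h3 : a * p = -(b * q + c * r) := by linarith
        rw [h3]
        have h4 : b = b * (u * q + w * r) := by rw [huw, mul_one]
        linear_combination (-1 : ℤ) * h4)
    have h2 : ((((Box m).filter (fun v : ℤ × ℤ × ℤ =>
        v.1 * p + v.2.1 * q + v.2.2 * r = 0)).card : ℕ) : ℝ) ≤
        ((((I_LOW m ×ˢ I_LOW m).filter (fun x => x.2 ≡ -(x.1 * p) * u [ZMOD r])).card : ℕ) : ℝ) := by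
      exact_mod_cast h1
    have h3 : ((((I_LOW m ×ˢ I_LOW m).filter
        (fun x => x.2 ≡ -(x.1 * p) * u [ZMOD r])).card : ℕ) : ℝ) =
        ∑ a ∈ I_LOW m, ((((I_LOW m).filter (fun b => b ≡ -(a * p) * u [ZMOD r])).card : ℕ) : ℝ) := by
      rw [Finset.card_filter, Finset.sum_product, Nat.cast_sum]
      apply Finset.sum_congr rfl
      intro a _
      rw [Finset.card_filter]
    have h4 : ∑ a ∈ I_LOW m, ((((I_LOW m).filter
        (fun b => b ≡ -(a * p) * u [ZMOD r])).card : ℕ) : ℝ) ≤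
        ∑ a ∈ I_LOW m, ((2 * (m : ℝ) + 1) / r + 1) :=
      Finset.sum_le_sum (fun a _ => class_LOW m r hr0 _)
    rw [Finset.sum_const, nsmul_eq_mul, card_I_LOW] at h4
    linarith

theorem sum_LOW (m Y : ℕ) :
    ∑ p ∈ Icc 1 Y, ∑ q ∈ Icc 1 Y, ∑ r ∈ Icc 1 Y, ((2 * (m : ℝ) + 1) * ((2 * m + 1) / r + 1) +
      (if p = q ∧ q = r then (2 * (m : ℝ) + 1) ^ 2 else 0)) ≤
    (Y : ℝ) ^ 2 * ((2 * m + 1) ^ 2 * (1 + Real.log Y)) + (Y : ℝ) ^ 3 * (2 * m + 1) +
      Y * (2 * m + 1) ^ 2 := by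
  have hc : ((Icc 1 Y).card : ℝ) = Y := by
    rw [Nat.card_Icc]
    push_cast
    simp
  have hS : ∑ r ∈ Icc 1 Y, (2 * (m : ℝ) + 1) * ((2 * m + 1) / r + 1) ≤
      (2 * m + 1) ^ 2 * (1 + Real.log Y) + Y * (2 * m + 1) := by
    have h5 := harmonic_le_one_add_log Y
    rw [harmonic_eq_sum_Icc] at h5
    push_cast at h5
    have h6 : ∑ r ∈ Icc 1 Y, (2 * (m : ℝ) + 1) * ((2 * m + 1) / r + 1) =
        (2 * m + 1) ^ 2 * (∑ r ∈ Icc 1 Y, ((r : ℝ))⁻¹) + Y * (2 * m + 1) := by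
      rw [Finset.mul_sum, ← hc, ← nsmul_eq_mul, ← Finset.sum_const, ← Finset.sum_add_distrib]
      apply Finset.sum_congr rfl
      intro r _
      ring
    rw [h6]
    have h7 := mul_le_mul_of_nonneg_left h5 (sq_nonneg (2 * (m : ℝ) + 1))
    linarith
  have h1 : ∀ p ∈ Icc 1 Y, ∀ q ∈ Icc 1 Y, ∑ r ∈ Icc 1 Y,
      ((2 * (m : ℝ) + 1) * ((2 * m + 1) / r + 1) +
      (if p = q ∧ q = r then (2 * (m : ℝ) + 1) ^ 2 else 0)) ≤
      ((2 * m + 1) ^ 2 * (1 + Real.log Y) + Y * (2 * m + 1)) +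
        (if p = q then (2 * (m : ℝ) + 1) ^ 2 else 0) := by
    intro p _ q hq
    rw [Finset.sum_add_distrib]
    apply add_le_add hS
    by_cases hpq : p = q
    · rw [if_pos hpq]
      have h2 : ∑ r ∈ Icc 1 Y, (if p = q ∧ q = r then (2 * (m : ℝ) + 1) ^ 2 else 0) =
          ∑ r ∈ Icc 1 Y, (if q = r then (2 * (m : ℝ) + 1) ^ 2 else 0) := by
        apply Finset.sum_congr rfl
        intro r _
        simp only [hpq, true_and]
      rw [h2, Finset.sum_ite_eq]
      split_ifs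
      exact le_refl _
    · rw [if_neg hpq]
      apply le_of_eq
      apply Finset.sum_eq_zero
      intro r _
      rw [if_neg (fun h => hpq h.1)]
  refine (Finset.sum_le_sum (fun p hp => Finset.sum_le_sum (h1 p hp))).trans ?_
  have h2 : ∀ p ∈ Icc 1 Y, ∑ q ∈ Icc 1 Y,
      (((2 * (m : ℝ) + 1) ^ 2 * (1 + Real.log Y) + Y * (2 * m + 1)) +
        (if p = q then (2 * (m : ℝ) + 1) ^ 2 else 0)) =
      Y * ((2 * (m : ℝ) + 1) ^ 2 * (1 + Real.log Y) + Y * (2 * m + 1)) + (2 * (m : ℝ) + 1) ^ 2 := by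
    intro p hp
    rw [Finset.sum_add_distrib, Finset.sum_const, nsmul_eq_mul, hc, Finset.sum_ite_eq, if_pos hp]
  rw [Finset.sum_congr rfl h2, Finset.sum_const, nsmul_eq_mul, hc]
  apply le_of_eq
  ring

theorem hLow : StLow := by
  intro A
  have hev : ∀ᶠ m : ℕ in atTop, (54 : ℝ) ≤ Real.log m :=
    (Real.tendsto_log_atTop.comp tendsto_natCast_atTop_atTop).eventually_ge_atTop 54
  obtain ⟨m₀, hm₀⟩ := eventually_atTop.1 (hev.and (eventually_ge_atTop 1))
  refine ⟨m₀, fun m hm => ?_⟩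
  obtain ⟨hl, hm1⟩ := hm₀ m hm
  set l := Real.log (m : ℝ) with hldef
  have hm1R : (1 : ℝ) ≤ m := by exact_mod_cast hm1
  have hlA : 0 < l ^ A := pow_pos (by linarith) A
  have hlA1 : 1 ≤ l ^ A := one_le_pow₀ (by linarith)
  have hlB : 0 < l ^ (A + 1) := pow_pos (by linarith) _
  have hs1 : 1 ≤ √(m : ℝ) := Real.one_le_sqrt.2 hm1R
  have hss : √(m : ℝ) ^ 2 = m := Real.sq_sqrt (by linarith)
  set Y := ⌊√(m : ℝ) / l ^ (A + 1)⌋₊ with hY
  have hmm : (0 : ℝ) < (m : ℝ) ^ 3 / l ^ A := by positivity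
  -- the set is covered
  have hsub : {v : ℤ × ℤ × ℤ | v ∈ Box m ∧ Solv v.1 v.2.1 v.2.2 0 (√(m : ℝ) / l ^ (A + 1))} ⊆
      ((((Icc 1 Y).filter Nat.Prime ×ˢ (Icc 1 Y).filter Nat.Prime ×ˢ
        (Icc 1 Y).filter Nat.Prime).biUnion (fun t : ℕ × ℕ × ℕ =>
          (Box m).filter (fun v : ℤ × ℤ × ℤ => v.1 * t.1 + v.2.1 * t.2.1 + v.2.2 * t.2.2 = 0)) :
          Finset (ℤ × ℤ × ℤ)) : Set (ℤ × ℤ × ℤ)) := by
    intro v hv
    obtain ⟨hvB, p, q, r, hp, hq, hr, he, hmax⟩ := hv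
    rw [Finset.mem_coe, Finset.mem_biUnion]
    have hle : max p (max q r) ≤ Y := Nat.le_floor hmax
    refine ⟨(p, q, r), ?_, Finset.mem_filter.2 ⟨hvB, he⟩⟩
    rw [Finset.mem_product, Finset.mem_product]
    refine ⟨Finset.mem_filter.2 ⟨Finset.mem_Icc.2 ⟨hp.one_lt.le, ?_⟩, hp⟩,
      Finset.mem_filter.2 ⟨Finset.mem_Icc.2 ⟨hq.one_lt.le, ?_⟩, hq⟩,
      Finset.mem_filter.2 ⟨Finset.mem_Icc.2 ⟨hr.one_lt.le, ?_⟩, hr⟩⟩
    · exact (le_max_left _ _).trans hle
    · exact ((le_max_left _ _).trans (le_max_right _ _)).trans hle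
    · exact ((le_max_right _ _).trans (le_max_right _ _)).trans hle
  by_cases hY1 : 1 ≤ Y
  · have hcard := Set.ncard_le_ncard hsub (Finset.finite_toSet _)
    rw [Set.ncard_coe_finset] at hcard
    have h1 : ((({v : ℤ × ℤ × ℤ | v ∈ Box m ∧ Solv v.1 v.2.1 v.2.2 0
        (√(m : ℝ) / l ^ (A + 1))} : Set (ℤ × ℤ × ℤ)).ncard : ℕ) : ℝ) ≤
        ∑ p ∈ Icc 1 Y, ∑ q ∈ Icc 1 Y, ∑ r ∈ Icc 1 Y,
          ((2 * (m : ℝ) + 1) * ((2 * m + 1) / r + 1) +
          (if p = q ∧ q = r then (2 * (m : ℝ) + 1) ^ 2 else 0)) := by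
      refine (Nat.cast_le.2 (hcard.trans Finset.card_biUnion_le)).trans ?_
      rw [Nat.cast_sum, Finset.sum_product]
      have hpos : ∀ p q r : ℕ, (0 : ℝ) ≤ ((2 * (m : ℝ) + 1) * ((2 * m + 1) / r + 1) +
          (if p = q ∧ q = r then (2 * (m : ℝ) + 1) ^ 2 else 0)) := by
        intro p q r
        split_ifs <;> positivity
      calc ∑ p ∈ (Icc 1 Y).filter Nat.Prime, ∑ t ∈ (Icc 1 Y).filter Nat.Prime ×ˢ
            (Icc 1 Y).filter Nat.Prime, ((((Box m).filter (fun v : ℤ × ℤ × ℤ =>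
              v.1 * ((p, t) : ℕ × ℕ × ℕ).1 + v.2.1 * ((p, t) : ℕ × ℕ × ℕ).2.1 +
              v.2.2 * ((p, t) : ℕ × ℕ × ℕ).2.2 = 0)).card : ℕ) : ℝ)
          ≤ ∑ p ∈ (Icc 1 Y).filter Nat.Prime, ∑ t ∈ (Icc 1 Y).filter Nat.Prime ×ˢ
            (Icc 1 Y).filter Nat.Prime, ((2 * (m : ℝ) + 1) * ((2 * m + 1) / t.2 + 1) +
          (if p = t.1 ∧ t.1 = t.2 then (2 * (m : ℝ) + 1) ^ 2 else 0)) := by
            apply Finset.sum_le_sum
            intro p hp
            apply Finset.sum_le_sum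
            intro t ht
            rw [Finset.mem_product] at ht
            exact cnt_LOW m p t.1 t.2 (Finset.mem_filter.1 hp).2 (Finset.mem_filter.1 ht.1).2
              (Finset.mem_filter.1 ht.2).2
        _ ≤ ∑ p ∈ Icc 1 Y, ∑ t ∈ Icc 1 Y ×ˢ Icc 1 Y,
              ((2 * (m : ℝ) + 1) * ((2 * m + 1) / t.2 + 1) +
              (if p = t.1 ∧ t.1 = t.2 then (2 * (m : ℝ) + 1) ^ 2 else 0)) := by
            refine (Finset.sum_le_sum (fun p _ => Finset.sum_le_sum_of_subset_of_nonneg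
              (Finset.product_subset_product (Finset.filter_subset _ _)
                (Finset.filter_subset _ _)) (fun t _ _ => hpos p t.1 t.2))).trans ?_
            exact Finset.sum_le_sum_of_subset_of_nonneg (Finset.filter_subset _ _)
              (fun p _ _ => Finset.sum_nonneg (fun t _ => hpos p t.1 t.2))
        _ = _ := by
            apply Finset.sum_congr rfl
            intro p _
            rw [Finset.sum_product]
    refine h1.trans ((sum_LOW m Y).trans ?_)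
    have hYle : (Y : ℝ) ≤ √(m : ℝ) / l ^ (A + 1) := Nat.floor_le (by positivity)
    have hY0 : (0 : ℝ) ≤ Y := Nat.cast_nonneg Y
    have hY1R : (1 : ℝ) ≤ Y := by exact_mod_cast hY1
    have hYs : (Y : ℝ) ≤ √(m : ℝ) := by
      refine hYle.trans (div_le_self (by positivity) (one_le_pow₀ (by linarith)))
    have hsm : √(m : ℝ) ≤ m := by
      rw [Real.sqrt_le_left (by linarith)]
      nlinarith
    have hlogY : Real.log Y ≤ l := Real.log_le_log (by linarith) (hYs.trans hsm)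
    have hY2 : (Y : ℝ) ^ 2 ≤ m / (l ^ (A + 1)) ^ 2 := by
      have := pow_le_pow_left₀ hY0 hYle 2
      rwa [div_pow, hss] at this
    have h3m : 2 * (m : ℝ) + 1 ≤ 3 * m := by linarith
    have h3m2 : (2 * (m : ℝ) + 1) ^ 2 ≤ 9 * (m : ℝ) ^ 2 := by nlinarith
    have hlAl : l ^ (A + 1) = l ^ A * l := pow_succ _ _
    have hd : (m : ℝ) / (l ^ (A + 1)) ^ 2 ≤ m / (l ^ A * l ^ 2) := by
      apply div_le_div_of_nonneg_left (by linarith) (by positivity)
      rw [hlAl]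
      have : (l ^ A * l) ^ 2 = l ^ A * (l ^ A * l ^ 2) := by ring
      rw [this]
      have h5 : 0 ≤ l ^ A * l ^ 2 := by positivity
      nlinarith
    have hY2' : (Y : ℝ) ^ 2 ≤ m / (l ^ A * l ^ 2) := hY2.trans hd
    set G := (m : ℝ) ^ 3 / l ^ A with hG
    -- first term
    have t1 : (Y : ℝ) ^ 2 * ((2 * m + 1) ^ 2 * (1 + Real.log Y)) ≤ G / 3 := by
      calc (Y : ℝ) ^ 2 * ((2 * m + 1) ^ 2 * (1 + Real.log Y))
          ≤ m / (l ^ A * l ^ 2) * (9 * (m : ℝ) ^ 2 * (2 * l)) := by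
            apply mul_le_mul hY2' _ _ (by positivity)
            · apply mul_le_mul h3m2 (by linarith) _ (by positivity)
              linarith [Real.log_nonneg hY1R]
            · have := Real.log_nonneg hY1R
              positivity
        _ = 18 / l * G := by
            rw [hG]
            field_simp
            ring
        _ ≤ 1 / 3 * G := by
            apply mul_le_mul_of_nonneg_right _ hmm.le
            rw [div_le_iff₀ (by linarith)]
            linarith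
        _ = G / 3 := by ring
    have t2 : (Y : ℝ) ^ 3 * (2 * m + 1) ≤ G / 3 := by
      calc (Y : ℝ) ^ 3 * (2 * m + 1) = (Y : ℝ) ^ 2 * (Y * (2 * m + 1)) := by ring
        _ ≤ m / (l ^ A * l ^ 2) * (m * (3 * m)) := by
            apply mul_le_mul hY2' _ (by positivity) (by positivity)
            exact mul_le_mul (hYs.trans hsm) h3m (by positivity) (by linarith)
        _ = 3 / l ^ 2 * G := by
            rw [hG]
            field_simp
        _ ≤ 1 / 3 * G := by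
            apply mul_le_mul_of_nonneg_right _ hmm.le
            rw [div_le_iff₀ (by positivity)]
            nlinarith
        _ = G / 3 := by ring
    have t3 : (Y : ℝ) * (2 * m + 1) ^ 2 ≤ G / 3 := by
      calc (Y : ℝ) * (2 * m + 1) ^ 2 ≤ (√(m : ℝ) / l ^ (A + 1)) * (9 * (m : ℝ) ^ 2) := by
            exact mul_le_mul hYle h3m2 (by positivity) (by positivity)
        _ ≤ (m / l ^ (A + 1)) * (9 * (m : ℝ) ^ 2) := by
            apply mul_le_mul_of_nonneg_right _ (by positivity)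
            exact div_le_div_of_nonneg_right hsm hlB.le
        _ = 9 / l * G := by
            rw [hG, hlAl]
            field_simp
        _ ≤ 1 / 3 * G := by
            apply mul_le_mul_of_nonneg_right _ hmm.le
            rw [div_le_iff₀ (by linarith)]
            linarith
        _ = G / 3 := by ring
    linarith
  · -- no solutions at all
    have hempty : {v : ℤ × ℤ × ℤ | v ∈ Box m ∧ Solv v.1 v.2.1 v.2.2 0 (√(m : ℝ) / l ^ (A + 1))} =
        ∅ := by
      rw [Set.eq_empty_iff_forall_notMem]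
      intro v hv
      have h2 := hsub hv
      rw [Finset.mem_coe, Finset.mem_biUnion] at h2
      obtain ⟨t, ht, _⟩ := h2
      rw [Finset.mem_product] at ht
      have h3 := Finset.mem_Icc.1 (Finset.mem_filter.1 ht.1).1
      omega
    have h5 : ((({v : ℤ × ℤ × ℤ | v ∈ Box m ∧ Solv v.1 v.2.1 v.2.2 0
        (√(m : ℝ) / l ^ (A + 1))} : Set (ℤ × ℤ × ℤ)).ncard : ℕ) : ℝ) ≤ (m : ℝ) ^ 3 / l ^ A := by
      rw [hempty, Set.ncard_empty, Nat.cast_zero]
      exact hmm.le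
    exact h5

end Pool.Agent.Helper30.HX
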