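import Pool.Agent.Helper30.HX.StM
import Pool.Agent.Helper48.BK.M_MainT

/-!
# Project HX: MT, lower bound for the model
-/

set_option autoImplicit false

namespace Pool.Agent.Helper30.HX

open Finset
open Pool.Agent.Helper48.BK (th lz Vz Pz win AdN Cl kp)

/-- the weight of a point in the class modulo `30` without prime factor in `[7, z]` -/
theorem wt_MT {z : ℕ} {w₁ w₂ w₃ : ℕ} (hw1 : Nat.Coprime w₁ 30) (hw2 : Nat.Coprime w₂ 30)
    (hw3 : Nat.Coprime w₃ 30) {n k l : ℤ} (hn : 0 < n) (hk : 0 < k) (hl : 0 < l)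
    (h30 : (30 : ℤ) ∣ n - w₁ ∧ (30 : ℤ) ∣ k - w₂ ∧ (30 : ℤ) ∣ l - w₃)
    (hq : ∀ p ∈ (Pz z).filter (fun p => 7 ≤ p), ¬ (p : ℤ) ∣ n * k * l) :
    lz z n.toNat * lz z k.toNat * lz z l.toNat = (1 / Vz z) ^ 3 := by
  have key : ∀ p ∈ Pz z, ¬ (p : ℤ) ∣ n ∧ ¬ (p : ℤ) ∣ k ∧ ¬ (p : ℤ) ∣ l := by
    intro p hp
    have hpp := (Pool.Agent.Helper48.BK.mem_Pz_MainT.1 hp).2
    rcases Nat.lt_or_ge p 7 with h7 | h7
    · exact ⟨Pool.Agent.Helper48.BK.cls_MainT hpp h7 hw1 h30.1,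
        Pool.Agent.Helper48.BK.cls_MainT hpp h7 hw2 h30.2.1,
        Pool.Agent.Helper48.BK.cls_MainT hpp h7 hw3 h30.2.2⟩
    · have h := hq p (Finset.mem_filter.2 ⟨hp, h7⟩)
      exact ⟨fun h1 => h ((h1.mul_right _).mul_right _), fun h1 => h ((h1.mul_left _).mul_right _),
        fun h1 => h (h1.mul_left _)⟩
  have aux : ∀ x : ℤ, 0 < x → (∀ p ∈ Pz z, ¬ (p : ℤ) ∣ x) → lz z x.toNat = 1 / Vz z := by
    intro x hx hp
    rw [lz, if_pos]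
    intro p hpz h
    apply hp p hpz
    have h1 : ((x.toNat : ℕ) : ℤ) = x := Int.toNat_of_nonneg hx.le
    rw [← h1]
    exact Int.natCast_dvd_natCast.2 h
  rw [aux n hn fun p hp => (key p hp).1, aux k hk fun p hp => (key p hp).2.1,
    aux l hl fun p hp => (key p hp).2.2]
  ring

/-- the ternary sum is at least the sum over a family of different solutions -/
theorem TF_ge_MT {H X a b c z : ℕ} {d : ℤ} (S : Finset (ℕ × ℕ)) (f g h : ℕ × ℕ → ℕ)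
    (hinj : ∀ t ∈ S, ∀ t' ∈ S, f t = f t' → g t = g t' → t = t')
    (hX : ∀ t ∈ S, f t ∈ Ioc 0 X ∧ g t ∈ Ioc 0 X ∧ h t ∈ Ioc 0 X)
    (heq : ∀ t ∈ S, (1 : ℤ) * (a * f t) + 1 * (b * g t) + (-1) * (c * h t) = d)
    (hwin : ∀ t ∈ S, (4 * H < a * f t ∧ a * f t ≤ 11 * H) ∧
      (4 * H < b * g t ∧ b * g t ≤ 11 * H) ∧ (4 * H < c * h t ∧ c * h t ≤ 11 * H)) :
    ∑ t ∈ S, lz z (f t) * lz z (g t) * lz z (h t) ≤
      TF (lz z) (lz z) (lz z) H X 1 1 (-1) a b c d := by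
  set F : ℕ × ℕ × ℕ → ℝ := fun v =>
    if (1 : ℤ) * (a * v.1) + 1 * (b * v.2.1) + (-1) * (c * v.2.2) = d then
      win (lz z) 4 11 H a v.1 * win (lz z) 4 11 H b v.2.1 * win (lz z) 4 11 H c v.2.2 else 0
    with hF
  have h1 : TF (lz z) (lz z) (lz z) H X 1 1 (-1) a b c d =
      ∑ v ∈ (Ioc 0 X) ×ˢ (Ioc 0 X) ×ˢ (Ioc 0 X), F v := by
    rw [TF, Finset.sum_product]
    apply Finset.sum_congr rfl
    intro x _
    rw [Finset.sum_product]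
  have hw0 : ∀ x y : ℕ, 0 ≤ win (lz z) 4 11 H x y := by
    intro x y
    rw [win]
    split_ifs
    · exact Pool.Agent.Helper48.BK.lz_nonneg_MainT _ _
    · exact le_rfl
  have hF0 : ∀ v, 0 ≤ F v := by
    intro v
    simp only [hF]
    split_ifs
    · exact mul_nonneg (mul_nonneg (hw0 _ _) (hw0 _ _)) (hw0 _ _)
    · exact le_rfl
  rw [h1]
  have h2 : ∑ t ∈ S, lz z (f t) * lz z (g t) * lz z (h t) =
      ∑ v ∈ S.image (fun t => (f t, g t, h t)), F v := by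
    rw [Finset.sum_image]
    · apply Finset.sum_congr rfl
      intro t ht
      obtain ⟨⟨p1, p2⟩, ⟨p3, p4⟩, p5, p6⟩ := hwin t ht
      simp only [hF]
      rw [if_pos (heq t ht), win, win, win, if_pos ⟨p1, p2⟩, if_pos ⟨p3, p4⟩, if_pos ⟨p5, p6⟩]
    · intro t ht t' ht' he
      simp only [Prod.mk.injEq] at he
      exact hinj t ht t' ht' he.1 he.2.1
  rw [h2]
  apply Finset.sum_le_sum_of_subset_of_nonneg
  · intro v hv
    obtain ⟨t, ht, rfl⟩ := Finset.mem_image.1 hv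
    obtain ⟨q1, q2, q3⟩ := hX t ht
    exact Finset.mem_product.2 ⟨q1, Finset.mem_product.2 ⟨q2, q3⟩⟩
  · intro v _ _
    exact hF0 v

/-- a point of the box is near the centre -/
theorem near_MT {a : ℕ} {H m S₁ S₂ N N' P x u v : ℝ} {i j : ℕ} (ha : 1 ≤ a) (ham : (a : ℝ) ≤ m)
    (hm : 0 < m) (hN : 0 ≤ N) (hN' : 0 ≤ N')
    (hP : (a : ℝ) * P = 9 * H / 2) (hx : |x - P| ≤ |u| + |v|) (hu : |u| ≤ N) (hv : |v| ≤ N')
    (h1 : 1 ≤ S₁) (h2 : 1 ≤ S₂) (hi : (i : ℝ) ≤ S₁) (hj : (j : ℝ) ≤ S₂)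
    (hs1 : S₁ * N * (16 * m) ≤ H) (hs2 : S₂ * N' * (16 * m) ≤ H) :
    17 * H / 4 ≤ a * (x + i * u + j * v) ∧ a * (x + i * u + j * v) ≤ 19 * H / 4 := by
  have e1 : |x + i * u + j * v - P| ≤ N + N' + S₁ * N + S₂ * N' := by
    have h3 : x + i * u + j * v - P = (x - P) + i * u + j * v := by ring
    rw [h3]
    have h4 : |(x - P) + i * u + j * v| ≤ |x - P| + |(i : ℝ) * u| + |(j : ℝ) * v| :=
      (abs_add_le _ _).trans (add_le_add_left (abs_add_le _ _) _)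
    have h5 : |(i : ℝ) * u| ≤ S₁ * N := by
      rw [abs_mul, Nat.abs_cast]
      exact mul_le_mul hi hu (abs_nonneg _) (by linarith)
    have h6 : |(j : ℝ) * v| ≤ S₂ * N' := by
      rw [abs_mul, Nat.abs_cast]
      exact mul_le_mul hj hv (abs_nonneg _) (by linarith)
    linarith
  have e2 : N ≤ S₁ * N := by nlinarith
  have e3 : N' ≤ S₂ * N' := by nlinarith
  have e4 : |x + i * u + j * v - P| * (16 * m) ≤ 4 * H := by
    have : |x + i * u + j * v - P| ≤ 2 * (S₁ * N) + 2 * (S₂ * N') := by linarith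
    calc |x + i * u + j * v - P| * (16 * m) ≤ (2 * (S₁ * N) + 2 * (S₂ * N')) * (16 * m) :=
          mul_le_mul_of_nonneg_right this (by linarith)
      _ = 2 * (S₁ * N * (16 * m)) + 2 * (S₂ * N' * (16 * m)) := by ring
      _ ≤ 4 * H := by linarith
  have ha0 : (0 : ℝ) < a := by exact_mod_cast ha
  have e5 : |x + i * u + j * v - P| * a ≤ H / 4 := by
    have : |x + i * u + j * v - P| * a ≤ |x + i * u + j * v - P| * m :=
      mul_le_mul_of_nonneg_left ham (abs_nonneg _)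
    linarith
  have e6 : |(a : ℝ) * (x + i * u + j * v) - 9 * H / 2| ≤ H / 4 := by
    have : (a : ℝ) * (x + i * u + j * v) - 9 * H / 2 = (x + i * u + j * v - P) * a := by
      rw [← hP]
      ring
    rw [this, abs_mul, abs_of_pos ha0]
    exact e5
  have e7 := abs_le.1 e6
  constructor <;> linarith [e7.1, e7.2]

/-- the sizes of the box -/
theorem size_MT {H m N N' L Z : ℝ} (hm : 1 ≤ m) (hL : 1 ≤ L) (hN : L ≤ N)
    (hN' : 1 ≤ N') (hZ : 0 ≤ Z) (hH : 0 < H) (h1 : N ^ 2 ≤ m) (h2 : N * N' ≤ 2 * m)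
    (h3 : m ^ 2 * Z ≤ H * L) (h4 : m ^ 3 * Z ^ 2 ≤ H ^ 2) :
    Z / 16 ≤ H / (16 * m * N) ∧ Z / 32 ≤ H / (16 * m * N') := by
  have hN0 : 0 < N := by linarith
  have hm0 : 0 < m := by linarith
  constructor
  · rw [div_le_div_iff₀ (by norm_num) (by positivity)]
    have h5 : (m * N * Z) ^ 2 ≤ H ^ 2 := by
      calc (m * N * Z) ^ 2 = m ^ 2 * Z ^ 2 * N ^ 2 := by ring
        _ ≤ m ^ 2 * Z ^ 2 * m := mul_le_mul_of_nonneg_left h1 (by positivity)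
        _ = m ^ 3 * Z ^ 2 := by ring
        _ ≤ H ^ 2 := h4
    have h6 : m * N * Z ≤ H := (pow_le_pow_iff_left₀ (by positivity) hH.le (by norm_num)).1 h5
    nlinarith
  · rw [div_le_div_iff₀ (by norm_num) (by positivity)]
    have h5 : L * N' ≤ 2 * m := by
      have : L * N' ≤ N * N' := mul_le_mul_of_nonneg_right hN (by linarith)
      linarith
    have h6 : m * N' * Z * L ≤ 2 * H * L := by
      calc m * N' * Z * L = m * Z * (L * N') := by ring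
        _ ≤ m * Z * (2 * m) := mul_le_mul_of_nonneg_left h5 (by positivity)
        _ = 2 * (m ^ 2 * Z) := by ring
        _ ≤ 2 * H * L := by linarith
    have h7 : m * N' * Z ≤ 2 * H := le_of_mul_le_mul_right h6 (by linarith)
    nlinarith

/-- floors of large numbers -/
theorem floor_MT {x : ℝ} (hx : 1 ≤ x) : x / 2 ≤ (⌊x⌋₊ : ℝ) ∧ (⌊x⌋₊ : ℝ) ≤ x ∧ 1 ≤ ⌊x⌋₊ := by
  have h1 : 1 ≤ ⌊x⌋₊ := Nat.le_floor (by exact_mod_cast hx)
  have h1' : (1 : ℝ) ≤ (⌊x⌋₊ : ℝ) := by exact_mod_cast h1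
  have h2 := Nat.lt_floor_add_one x
  exact ⟨by linarith, Nat.floor_le (by linarith), h1⟩

/-- integral form of the window estimates -/
theorem int_MT {a : ℕ} {H X : ℕ} {n : ℤ} (hH : 0 < H) (h1 : (17 : ℝ) * H / 4 ≤ a * (n : ℝ))
    (h2 : (a : ℝ) * (n : ℝ) ≤ 19 * H / 4) (hX : 11 * H ≤ a * X) :
    0 < n ∧ n.toNat ∈ Ioc 0 X ∧ 4 * H < a * n.toNat ∧ a * n.toNat ≤ 11 * H := by
  have hHR : (0 : ℝ) < H := by exact_mod_cast hH
  have ha0 : (0 : ℝ) ≤ a := Nat.cast_nonneg a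
  have hn : 0 < n := by
    by_contra hcon
    have h3 : (n : ℝ) ≤ 0 := by exact_mod_cast not_lt.1 hcon
    have h4 : (a : ℝ) * n ≤ 0 := mul_nonpos_of_nonneg_of_nonpos ha0 h3
    linarith
  have hto : ((n.toNat : ℕ) : ℤ) = n := Int.toNat_of_nonneg hn.le
  have hto' : ((n.toNat : ℕ) : ℝ) = (n : ℝ) := by
    have := congrArg (Int.cast : ℤ → ℝ) hto
    rwa [Int.cast_natCast] at this
  have h5 : (4 : ℝ) * H < a * (n.toNat : ℕ) := by
    rw [hto']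
    linarith
  have h6 : (a : ℝ) * (n.toNat : ℕ) < 11 * H := by
    rw [hto']
    linarith
  have h5' : 4 * H < a * n.toNat := by exact_mod_cast h5
  have h6' : a * n.toNat < 11 * H := by exact_mod_cast h6
  refine ⟨hn, ?_, h5', h6'.le⟩
  rw [Finset.mem_Ioc]
  constructor
  · omega
  · exact (Nat.lt_of_mul_lt_mul_left (lt_of_lt_of_le h6' hX)).le

/-- the third coordinate -/
theorem third_MT {a b c : ℕ} {H X : ℕ} {n k l d : ℤ} (hH : 0 < H)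
    (h1 : (17 : ℝ) * H / 4 ≤ a * (n : ℝ)) (h2 : (a : ℝ) * (n : ℝ) ≤ 19 * H / 4)
    (h3 : (17 : ℝ) * H / 4 ≤ b * (k : ℝ)) (h4 : (b : ℝ) * (k : ℝ) ≤ 19 * H / 4)
    (hd : |d| ≤ H) (he : (a : ℤ) * n + b * k = c * l + d) (hX : 11 * H ≤ c * X) :
    0 < l ∧ l.toNat ∈ Ioc 0 X ∧ 4 * H < c * l.toNat ∧ c * l.toNat ≤ 11 * H := by
  have hHR : (0 : ℝ) < H := by exact_mod_cast hH
  have hc0 : (0 : ℝ) ≤ c := Nat.cast_nonneg c
  have heR : (a : ℝ) * n + b * k = c * l + d := by exact_mod_cast he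
  have hd1 : (-(H : ℝ)) ≤ d := by
    have := (abs_le.1 hd).1
    exact_mod_cast this
  have hd2 : (d : ℝ) ≤ H := by
    have := (abs_le.1 hd).2
    exact_mod_cast this
  have h5 : (15 : ℝ) * H / 2 ≤ c * l := by linarith
  have h6 : (c : ℝ) * l ≤ 21 * H / 2 := by linarith
  have hn : 0 < l := by
    by_contra hcon
    have h3 : (l : ℝ) ≤ 0 := by exact_mod_cast not_lt.1 hcon
    have h4 : (c : ℝ) * l ≤ 0 := mul_nonpos_of_nonneg_of_nonpos hc0 h3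
    linarith
  have hto : ((l.toNat : ℕ) : ℤ) = l := Int.toNat_of_nonneg hn.le
  have hto' : ((l.toNat : ℕ) : ℝ) = (l : ℝ) := by
    have := congrArg (Int.cast : ℤ → ℝ) hto
    rwa [Int.cast_natCast] at this
  have h7 : (4 : ℝ) * H < c * (l.toNat : ℕ) := by
    rw [hto']
    linarith
  have h8 : (c : ℝ) * (l.toNat : ℕ) < 11 * H := by
    rw [hto']
    linarith
  have h7' : 4 * H < c * l.toNat := by exact_mod_cast h7
  have h8' : c * l.toNat < 11 * H := by exact_mod_cast h8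
  refine ⟨hn, ?_, h7', h8'.le⟩
  rw [Finset.mem_Ioc]
  constructor
  · omega
  · exact (Nat.lt_of_mul_lt_mul_left (lt_of_lt_of_le h8' hX)).le

/-- the numerical estimate -/
theorem num_MT {z B' : ℕ} {S₁ S₂ : ℝ} (hz : 2 ≤ z) (h1 : (z : ℝ) ^ (3 * B' + 24) ≤ S₁)
    (h2 : (z : ℝ) ^ (3 * B' + 24) ≤ S₂) :
    (z : ℝ) ^ 3 * ((z : ℝ) ^ B' * (((z : ℝ) ^ B') ^ 2 * (S₁ + S₂ + 1))) ≤ S₁ * S₂ / 900 / 8 := by
  have hzR : (2 : ℝ) ≤ z := by exact_mod_cast hz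
  have hz1 : (1 : ℝ) ≤ z := by linarith
  set Y : ℝ := (z : ℝ) ^ (3 * B' + 3) with hY
  have hY1 : 1 ≤ Y := one_le_pow₀ hz1
  have h21 : (21600 : ℝ) ≤ (z : ℝ) ^ 21 := by
    calc (21600 : ℝ) ≤ 2 ^ 21 := by norm_num
      _ ≤ (z : ℝ) ^ 21 := pow_le_pow_left₀ (by norm_num) hzR 21
  have hsplit : (z : ℝ) ^ (3 * B' + 24) = Y * (z : ℝ) ^ 21 := by
    rw [hY, ← pow_add]
  have hT : 21600 * Y ≤ (z : ℝ) ^ (3 * B' + 24) := by
    rw [hsplit]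
    nlinarith
  have e1 : (z : ℝ) ^ 3 * ((z : ℝ) ^ B' * (((z : ℝ) ^ B') ^ 2 * (S₁ + S₂ + 1))) =
      Y * (S₁ + S₂ + 1) := by
    have : Y = (z : ℝ) ^ 3 * (z : ℝ) ^ B' * ((z : ℝ) ^ B') ^ 2 := by
      rw [hY, ← pow_mul, ← pow_add, ← pow_add]
      congr 1
      ring
    rw [this]
    ring
  rw [e1]
  have g1 : 21600 * Y ≤ S₁ := hT.trans h1
  have g2 : 21600 * Y ≤ S₂ := hT.trans h2
  have k1 : 1 ≤ S₁ := by linarith
  have k2 : 1 ≤ S₂ := by linarith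
  have f1 : 21600 * Y * S₁ ≤ S₂ * S₁ := mul_le_mul_of_nonneg_right g2 (by linarith)
  have f2 : 21600 * Y * S₂ ≤ S₁ * S₂ := mul_le_mul_of_nonneg_right g1 (by linarith)
  have f3 : 21600 * Y * 1 ≤ S₁ * S₂ := by
    have : S₁ * 1 ≤ S₁ * S₂ := mul_le_mul_of_nonneg_left k2 (by linarith)
    linarith
  nlinarith

theorem hMT (ha : StBas) (hb : StPt) (hc : StCn7) (hd : Pool.Agent.Helper48.BK.StLoc)
    (he : Pool.Agent.Helper48.BK.StC30) (hf : Pool.Agent.Helper48.BK.StEP) : StMT := by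
  obtain ⟨B', hB'⟩ := Pool.Agent.Helper18.TR.fl 3 (1 / 2) (by norm_num) (by norm_num)
  refine ⟨1 / (2048 * 7200), by norm_num, 3 * B' + 30, ?_⟩
  intro H X m z a b c d lam h1a h1b h1c ham hbm hcm hAd hdH hz hlam hLng hs1 hs2 hXa hXb hXc
  obtain ⟨w₁, w₂, w₃, hw1, hw2, hw3, hw⟩ := he a b c d hAd
  have hgcd : Nat.gcd a (Nat.gcd b c) = 1 := hAd.2.1
  obtain ⟨u₁, u₂, u₃, v₁, v₂, v₃, hBas, hu, hv, huc, huv, hlu⟩ :=
    ha a b c lam h1a h1b h1c hgcd hLng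
  have hm1 : 1 ≤ m := h1a.trans ham
  have hmR : (1 : ℝ) ≤ m := by exact_mod_cast hm1
  have hzR : (2 : ℝ) ≤ z := by exact_mod_cast hz
  have haR : (1 : ℝ) ≤ a := by exact_mod_cast h1a
  have hbR : (1 : ℝ) ≤ b := by exact_mod_cast h1b
  have hamR : (a : ℝ) ≤ m := by exact_mod_cast ham
  have hbmR : (b : ℝ) ≤ m := by exact_mod_cast hbm
  have hcmR : (c : ℝ) ≤ m := by exact_mod_cast hcm
  have hH0 : 0 < H := by
    rcases Nat.eq_zero_or_pos H with h | h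
    · exfalso
      rw [h] at hs1
      have : 0 < (m : ℝ) ^ 2 * (z : ℝ) ^ (3 * B' + 30) := by positivity
      simp only [Nat.cast_zero, zero_mul] at hs1
      linarith
    · exact h
  have hHR : (0 : ℝ) < H := by exact_mod_cast hH0
  set N : ℝ := ((max |u₁| |u₂| : ℤ) : ℝ) with hN
  set N' : ℝ := ((max |v₁| |v₂| : ℤ) : ℝ) with hN'
  have hN1 : 1 ≤ N := by
    rw [hN]
    exact_mod_cast hu
  have hN'1 : 1 ≤ N' := by
    rw [hN']
    exact_mod_cast hv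
  have hNc : N ^ 2 ≤ m := by
    have : N ^ 2 ≤ c := by
      rw [hN]
      exact_mod_cast huc
    linarith
  have hNN : N * N' ≤ 2 * m := by
    have : N * N' ≤ 2 * c := by
      rw [hN, hN']
      exact_mod_cast huv
    linarith
  have absle : ∀ x y : ℤ, |(x : ℝ)| ≤ ((max |x| |y| : ℤ) : ℝ) ∧
      |(y : ℝ)| ≤ ((max |x| |y| : ℤ) : ℝ) := by
    intro x y
    constructor
    · rw [← Int.cast_abs]
      exact Int.cast_le.2 (le_max_left _ _)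
    · rw [← Int.cast_abs]
      exact Int.cast_le.2 (le_max_right _ _)
  obtain ⟨hu1N, hu2N⟩ := absle u₁ u₂
  obtain ⟨hv1N, hv2N⟩ := absle v₁ v₂
  rw [← hN] at hu1N hu2N
  rw [← hN'] at hv1N hv2N
  obtain ⟨n₀, k₀, l₀, hsol, hP1, hP2⟩ := hb a b c d u₁ u₂ u₃ v₁ v₂ v₃ (9 * H / (2 * a))
    (9 * H / (2 * b)) h1c hgcd hBas
  -- sizes
  set Z : ℝ := (z : ℝ) ^ (3 * B' + 30) with hZ
  have hZ0 : 0 ≤ Z := by positivity
  obtain ⟨hx1, hx2⟩ := size_MT hmR hlam hlu hN'1 hZ0 hHR hNc hNN hs1 hs2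
  set x₁ : ℝ := H / (16 * m * N) with hx₁
  set x₂ : ℝ := H / (16 * m * N') with hx₂
  have hZT : 64 * (z : ℝ) ^ (3 * B' + 24) ≤ Z := by
    have h64 : (64 : ℝ) ≤ (z : ℝ) ^ 6 := by
      calc (64 : ℝ) = 2 ^ 6 := by norm_num
        _ ≤ (z : ℝ) ^ 6 := pow_le_pow_left₀ (by norm_num) hzR 6
    have : Z = (z : ℝ) ^ 6 * (z : ℝ) ^ (3 * B' + 24) := by
      rw [hZ, ← pow_add]
      congr 1
      ring
    rw [this]
    exact mul_le_mul_of_nonneg_right h64 (by positivity)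
  have hT1 : 1 ≤ (z : ℝ) ^ (3 * B' + 24) := one_le_pow₀ (by linarith)
  obtain ⟨f1, f2, f3⟩ := floor_MT (x := x₁) (by linarith)
  obtain ⟨g1, g2, g3⟩ := floor_MT (x := x₂) (by linarith)
  set S₁ : ℕ := ⌊x₁⌋₊ with hS₁
  set S₂ : ℕ := ⌊x₂⌋₊ with hS₂
  have hS1T : (z : ℝ) ^ (3 * B' + 24) ≤ S₁ := by linarith
  have hS2T : (z : ℝ) ^ (3 * B' + 24) ≤ S₂ := by linarith
  have hS1R : (1 : ℝ) ≤ S₁ := by exact_mod_cast f3
  have hS2R : (1 : ℝ) ≤ S₂ := by exact_mod_cast g3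
  have hb1 : (S₁ : ℝ) * N * (16 * m) ≤ H := by
    have h1 : (S₁ : ℝ) * (16 * m * N) ≤ x₁ * (16 * m * N) :=
      mul_le_mul_of_nonneg_right f2 (by positivity)
    have h2 : x₁ * (16 * m * N) = H := by
      rw [hx₁]
      field_simp
    linarith
  have hb2 : (S₂ : ℝ) * N' * (16 * m) ≤ H := by
    have h1 : (S₂ : ℝ) * (16 * m * N') ≤ x₂ * (16 * m * N') :=
      mul_le_mul_of_nonneg_right g2 (by positivity)
    have h2 : x₂ * (16 * m * N') = H := by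
      rw [hx₂]
      field_simp
    linarith
  have hSS : (H : ℝ) ^ 2 / (2048 * (m : ℝ) ^ 3) ≤ S₁ * S₂ := by
    have h1 : x₁ / 2 * (x₂ / 2) ≤ S₁ * S₂ :=
      mul_le_mul f1 g1 (by positivity) (by linarith)
    refine le_trans ?_ h1
    have h2 : x₁ / 2 * (x₂ / 2) = (H : ℝ) ^ 2 / (1024 * (m : ℝ) ^ 2 * (N * N')) := by
      rw [hx₁, hx₂]
      field_simp
      norm_num
    rw [h2]
    apply div_le_div_of_nonneg_left (by positivity) (by positivity)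
    calc 1024 * (m : ℝ) ^ 2 * (N * N') ≤ 1024 * (m : ℝ) ^ 2 * (2 * m) :=
          mul_le_mul_of_nonneg_left hNN (by positivity)
      _ = 2048 * (m : ℝ) ^ 3 := by ring
  -- the points
  have hpt : ∀ t ∈ (range S₁) ×ˢ (range S₂),
      ((17 : ℝ) * H / 4 ≤ a * ((n₀ + t.1 * u₁ + t.2 * v₁ : ℤ) : ℝ) ∧
        (a : ℝ) * ((n₀ + t.1 * u₁ + t.2 * v₁ : ℤ) : ℝ) ≤ 19 * H / 4) ∧
      ((17 : ℝ) * H / 4 ≤ b * ((k₀ + t.1 * u₂ + t.2 * v₂ : ℤ) : ℝ) ∧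
        (b : ℝ) * ((k₀ + t.1 * u₂ + t.2 * v₂ : ℤ) : ℝ) ≤ 19 * H / 4) := by
    intro t ht
    obtain ⟨ht1, ht2⟩ := Finset.mem_product.1 ht
    have ht1' : (t.1 : ℝ) ≤ S₁ := by
      have := (Finset.mem_range.1 ht1).le
      exact_mod_cast this
    have ht2' : (t.2 : ℝ) ≤ S₂ := by
      have := (Finset.mem_range.1 ht2).le
      exact_mod_cast this
    have ha0 : (a : ℝ) ≠ 0 := by linarith
    have hb0 : (b : ℝ) ≠ 0 := by linarith
    constructor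
    · have := near_MT (i := t.1) (j := t.2) h1a hamR (by linarith) (by linarith) (by linarith)
        (by field_simp) hP1 hu1N hv1N hS1R hS2R ht1' ht2' hb1 hb2
      push_cast
      exact this
    · have := near_MT (i := t.1) (j := t.2) h1b hbmR (by linarith) (by linarith) (by linarith)
        (by field_simp) hP2 hu2N hv2N hS1R hS2R ht1' ht2' hb1 hb2
      push_cast
      exact this
  have heqn : ∀ t : ℕ × ℕ, (a : ℤ) * (n₀ + t.1 * u₁ + t.2 * v₁) + b * (k₀ + t.1 * u₂ + t.2 * v₂) =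
      c * (l₀ + t.1 * u₃ + t.2 * v₃) + d := by
    intro t
    linear_combination hsol + (t.1 : ℤ) * hBas.1 + (t.2 : ℤ) * hBas.2.1
  -- the sieve
  set Q : Finset ℕ := (Pz z).filter (fun p => 7 ≤ p) with hQ
  have hQp : ∀ p ∈ Q, p.Prime ∧ p ≤ z := fun p hp =>
    ⟨(Pool.Agent.Helper48.BK.mem_Pz_MainT.1 (Finset.mem_filter.1 hp).1).2,
      (Pool.Agent.Helper48.BK.mem_Pz_MainT.1 (Finset.mem_filter.1 hp).1).1⟩
  have hQ7 : ∀ p ∈ Q, 7 ≤ p := fun p hp => (Finset.mem_filter.1 hp).2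
  set g : ℕ → ℝ := fun p => (kp a b c d p : ℝ) / (p : ℝ) ^ 2 with hg
  have hg1 : ∀ p ∈ Q, 0 ≤ g p ∧ g p ≤ 3 / p ∧ g p ≤ 1 / 2 := by
    intro p hp
    have h7 : (7 : ℝ) ≤ p := by exact_mod_cast hQ7 p hp
    have h3 := (hd a b c d p hAd (hQp p hp).1 (by have := hQ7 p hp; omega)).2.1
    have h3' : (kp a b c d p : ℝ) ≤ 3 * p := by exact_mod_cast h3
    have h0 : 0 ≤ g p := by positivity
    have hle : g p ≤ 3 / p := by
      change (kp a b c d p : ℝ) / (p : ℝ) ^ 2 ≤ 3 / p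
      rw [div_le_div_iff₀ (by positivity) (by positivity)]
      nlinarith
    refine ⟨h0, hle, hle.trans ?_⟩
    rw [div_le_div_iff₀ (by positivity) (by norm_num)]
    linarith
  set N₁ : ℝ := (S₁ : ℝ) * S₂ / 900 with hN₁
  have hN₁0 : 0 ≤ N₁ := by positivity
  set R : ℝ := ((z : ℝ) ^ B') ^ 2 * ((S₁ : ℝ) + S₂ + 1) with hR
  have hR0 : 0 ≤ R := by positivity
  set A : Finset (ℕ × ℕ) := ((range S₁) ×ˢ (range S₂)).filter (fun t : ℕ × ℕ =>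
    (30 : ℤ) ∣ n₀ + t.1 * u₁ + t.2 * v₁ - w₁ ∧ (30 : ℤ) ∣ k₀ + t.1 * u₂ + t.2 * v₂ - w₂ ∧
      (30 : ℤ) ∣ l₀ + t.1 * u₃ + t.2 * v₃ - w₃) with hA
  have hcount : ∀ T ⊆ Q, ∏ p ∈ T, p ≤ z ^ B' →
      |((A.filter (fun t : ℕ × ℕ => ∀ p ∈ T, (p : ℤ) ∣ (n₀ + t.1 * u₁ + t.2 * v₁) *
        (k₀ + t.1 * u₂ + t.2 * v₂) * (l₀ + t.1 * u₃ + t.2 * v₃))).card : ℝ) -
        N₁ * ∏ p ∈ T, g p| ≤ R := by
    intro T hT hprod
    have h1 := hc a b c S₁ S₂ d u₁ u₂ u₃ v₁ v₂ v₃ n₀ k₀ l₀ w₁ w₂ w₃ T h1c hAd hBas hsol hw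
      (fun p hp => ⟨(hQp p (hT hp)).1, hQ7 p (hT hp)⟩)
    rw [hA, Finset.filter_filter]
    refine h1.trans ?_
    rw [hR]
    have h2 : ((∏ p ∈ T, p : ℕ) : ℝ) ≤ (z : ℝ) ^ B' := by exact_mod_cast hprod
    have h3 : ((∏ p ∈ T, p : ℕ) : ℝ) ^ 2 ≤ ((z : ℝ) ^ B') ^ 2 :=
      pow_le_pow_left₀ (Nat.cast_nonneg _) h2 2
    exact mul_le_mul_of_nonneg_right h3 (by positivity)
  have hfl := hB' z hz Q hQp g hg1 (ℕ × ℕ) A
    (fun p t => (p : ℤ) ∣ (n₀ + t.1 * u₁ + t.2 * v₁) * (k₀ + t.1 * u₂ + t.2 * v₂) *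
      (l₀ + t.1 * u₃ + t.2 * v₃)) N₁ R hN₁0 hR0 hcount
  set S : Finset (ℕ × ℕ) := A.filter (fun t : ℕ × ℕ => ∀ p ∈ Q,
    ¬ (p : ℤ) ∣ (n₀ + t.1 * u₁ + t.2 * v₁) * (k₀ + t.1 * u₂ + t.2 * v₂) *
      (l₀ + t.1 * u₃ + t.2 * v₃)) with hS
  have hSsub : ∀ t ∈ S, t ∈ (range S₁) ×ˢ (range S₂) := fun t ht =>
    (Finset.mem_filter.1 (Finset.mem_filter.1 ht).1).1
  -- facts about the points of `S`
  have hfac : ∀ t ∈ S,
      (0 < n₀ + t.1 * u₁ + t.2 * v₁ ∧ (n₀ + t.1 * u₁ + t.2 * v₁).toNat ∈ Ioc 0 X ∧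
        4 * H < a * (n₀ + t.1 * u₁ + t.2 * v₁).toNat ∧
        a * (n₀ + t.1 * u₁ + t.2 * v₁).toNat ≤ 11 * H) ∧
      (0 < k₀ + t.1 * u₂ + t.2 * v₂ ∧ (k₀ + t.1 * u₂ + t.2 * v₂).toNat ∈ Ioc 0 X ∧
        4 * H < b * (k₀ + t.1 * u₂ + t.2 * v₂).toNat ∧
        b * (k₀ + t.1 * u₂ + t.2 * v₂).toNat ≤ 11 * H) ∧
      (0 < l₀ + t.1 * u₃ + t.2 * v₃ ∧ (l₀ + t.1 * u₃ + t.2 * v₃).toNat ∈ Ioc 0 X ∧
        4 * H < c * (l₀ + t.1 * u₃ + t.2 * v₃).toNat ∧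
        c * (l₀ + t.1 * u₃ + t.2 * v₃).toNat ≤ 11 * H) := by
    intro t ht
    obtain ⟨⟨p1, p2⟩, p3, p4⟩ := hpt t (hSsub t ht)
    exact ⟨int_MT hH0 p1 p2 hXa, int_MT hH0 p3 p4 hXb,
      third_MT hH0 p1 p2 p3 p4 hdH (heqn t) hXc⟩
  have hsum : (S.card : ℝ) * (1 / Vz z) ^ 3 ≤
      TF (lz z) (lz z) (lz z) H X 1 1 (-1) a b c d := by
    refine le_trans (le_of_eq ?_) (TF_ge_MT S
      (fun t : ℕ × ℕ => (n₀ + t.1 * u₁ + t.2 * v₁).toNat)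
      (fun t : ℕ × ℕ => (k₀ + t.1 * u₂ + t.2 * v₂).toNat)
      (fun t : ℕ × ℕ => (l₀ + t.1 * u₃ + t.2 * v₃).toNat) ?_ ?_ ?_ ?_)
    · rw [← nsmul_eq_mul, ← Finset.sum_const]
      apply Finset.sum_congr rfl
      intro t ht
      obtain ⟨h1, h2⟩ := Finset.mem_filter.1 ht
      obtain ⟨h3, h4⟩ := Finset.mem_filter.1 h1
      obtain ⟨q1, q2, q3⟩ := hfac t ht
      exact (wt_MT hw1 hw2 hw3 q1.1 q2.1 q3.1 h4 h2).symm
    · intro t ht t' ht' he1 he2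
      obtain ⟨q1, q2, q3⟩ := hfac t ht
      obtain ⟨q1', q2', q3'⟩ := hfac t' ht'
      have e1 : n₀ + (t.1 : ℤ) * u₁ + t.2 * v₁ = n₀ + t'.1 * u₁ + t'.2 * v₁ := by
        have h1 : (((n₀ + (t.1 : ℤ) * u₁ + t.2 * v₁).toNat : ℕ) : ℤ) =
            (((n₀ + (t'.1 : ℤ) * u₁ + t'.2 * v₁).toNat : ℕ) : ℤ) := by
          exact_mod_cast he1
        rwa [Int.toNat_of_nonneg q1.1.le, Int.toNat_of_nonneg q1'.1.le] at h1
      have e2 : k₀ + (t.1 : ℤ) * u₂ + t.2 * v₂ = k₀ + t'.1 * u₂ + t'.2 * v₂ := by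
        have h1 : (((k₀ + (t.1 : ℤ) * u₂ + t.2 * v₂).toNat : ℕ) : ℤ) =
            (((k₀ + (t'.1 : ℤ) * u₂ + t'.2 * v₂).toNat : ℕ) : ℤ) := by
          exact_mod_cast he2
        rwa [Int.toNat_of_nonneg q2.1.le, Int.toNat_of_nonneg q2'.1.le] at h1
      have hdet : u₁ * v₂ - u₂ * v₁ ≠ 0 := by
        have hc0 : (0 : ℤ) < c := by exact_mod_cast h1c
        rcases hBas.2.2.1 with h | h
        · omega
        · omega
      have e3 : ((t.1 : ℤ) - t'.1) * (u₁ * v₂ - u₂ * v₁) = 0 := by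
        linear_combination v₂ * e1 - v₁ * e2
      have e4 : ((t.2 : ℤ) - t'.2) * (u₁ * v₂ - u₂ * v₁) = 0 := by
        linear_combination u₁ * e2 - u₂ * e1
      have e5 := (mul_eq_zero.1 e3).resolve_right hdet
      have e6 := (mul_eq_zero.1 e4).resolve_right hdet
      apply Prod.ext
      · omega
      · omega
    · intro t ht
      obtain ⟨q1, q2, q3⟩ := hfac t ht
      exact ⟨q1.2.1, q2.2.1, q3.2.1⟩
    · intro t ht
      obtain ⟨q1, q2, q3⟩ := hfac t ht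
      rw [Int.toNat_of_nonneg q1.1.le, Int.toNat_of_nonneg q2.1.le, Int.toNat_of_nonneg q3.1.le]
      have := heqn t
      linear_combination this
    · intro t ht
      obtain ⟨q1, q2, q3⟩ := hfac t ht
      exact ⟨q1.2.2, q2.2.2, q3.2.2⟩
  refine le_trans ?_ hsum
  have hV := Pool.Agent.Helper48.BK.Vz_pos_MainT z
  have hVz : 1 / Vz z ≤ z := by
    rw [div_le_iff₀ hV]
    have h1 := Pool.Agent.Helper48.BK.Vz_ge_MainT z (by omega)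
    rw [div_le_iff₀ (by linarith)] at h1
    linarith
  have hV3 : (1 / Vz z) ^ 3 ≤ (z : ℝ) ^ 3 := pow_le_pow_left₀ (one_div_pos.2 hV).le hVz 3
  have hV0 : 0 ≤ (1 / Vz z) ^ 3 := by positivity
  have hprod : ∏ p ∈ Q, ((1 - 1 / (p : ℝ)) * (1 - 2 / (p : ℝ))) ≤ ∏ p ∈ Q, (1 - g p) := by
    apply Finset.prod_le_prod
    · intro p hp
      have h7 : (7 : ℝ) ≤ p := by exact_mod_cast hQ7 p hp
      have h1 : 1 / (p : ℝ) ≤ 1 / 7 := one_div_le_one_div_of_le (by norm_num) h7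
      have h2 : 2 / (p : ℝ) = 2 * (1 / p) := by ring
      rw [h2]
      exact mul_nonneg (by linarith) (by linarith)
    · intro p hp
      have h7 : (7 : ℝ) ≤ p := by exact_mod_cast hQ7 p hp
      have h3 := (hd a b c d p hAd (hQp p hp).1 (by have := hQ7 p hp; omega)).1
      have hp1 : 1 ≤ p := by have := hQ7 p hp; omega
      have hp2 : 2 ≤ p := by have := hQ7 p hp; omega
      have h4 : (kp a b c d p : ℝ) + ((p : ℝ) - 1) * (p - 2) ≤ (p : ℝ) ^ 2 := by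
        have h5 : ((kp a b c d p + (p - 1) * (p - 2) : ℕ) : ℝ) ≤ ((p ^ 2 : ℕ) : ℝ) := by
          exact_mod_cast h3
        push_cast [Nat.cast_sub hp1, Nat.cast_sub hp2] at h5
        linarith
      have hp0 : (0 : ℝ) < (p : ℝ) ^ 2 := by positivity
      have h6 : (1 - 1 / (p : ℝ)) * (1 - 2 / (p : ℝ)) = (((p : ℝ) - 1) * (p - 2)) / p ^ 2 := by
        field_simp
      rw [h6]
      change _ ≤ 1 - (kp a b c d p : ℝ) / (p : ℝ) ^ 2
      have h7 : 1 - (kp a b c d p : ℝ) / (p : ℝ) ^ 2 =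
          ((p : ℝ) ^ 2 - kp a b c d p) / (p : ℝ) ^ 2 := by
        rw [sub_div, div_self hp0.ne']
      rw [h7]
      exact div_le_div_of_nonneg_right (by linarith) hp0.le
  have hEP := hf z
  have hmain : 1 / 2 ≤ (1 / Vz z) ^ 3 * ∏ p ∈ Q, (1 - g p) :=
    hEP.trans (mul_le_mul_of_nonneg_left hprod hV0)
  have hlow : N₁ * (∏ p ∈ Q, (1 - g p)) / 2 - (z : ℝ) ^ B' * R ≤ S.card := by
    have h1 := (abs_le.1 hfl).1
    linarith
  have hnum := num_MT (B' := B') hz hS1T hS2T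
  have h8 : (N₁ * (∏ p ∈ Q, (1 - g p)) / 2 - (z : ℝ) ^ B' * R) * (1 / Vz z) ^ 3 ≤
      (S.card : ℝ) * (1 / Vz z) ^ 3 := mul_le_mul_of_nonneg_right hlow hV0
  refine le_trans ?_ h8
  have h9 : (z : ℝ) ^ B' * R * (1 / Vz z) ^ 3 ≤ N₁ / 8 := by
    have h10 : (z : ℝ) ^ B' * R * (1 / Vz z) ^ 3 ≤ (z : ℝ) ^ B' * R * (z : ℝ) ^ 3 :=
      mul_le_mul_of_nonneg_left hV3 (by positivity)
    refine h10.trans (le_trans (le_of_eq ?_) hnum)
    rw [hR]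
    ring
  have h11 : N₁ / 4 ≤ N₁ * (∏ p ∈ Q, (1 - g p)) / 2 * (1 / Vz z) ^ 3 := by
    have h12 : N₁ * (1 / 2) ≤ N₁ * ((1 / Vz z) ^ 3 * ∏ p ∈ Q, (1 - g p)) :=
      mul_le_mul_of_nonneg_left hmain hN₁0
    have h13 : N₁ * (∏ p ∈ Q, (1 - g p)) / 2 * (1 / Vz z) ^ 3 =
        N₁ * ((1 / Vz z) ^ 3 * ∏ p ∈ Q, (1 - g p)) / 2 := by ring
    rw [h13]
    linarith
  have h14 : 1 / (2048 * 7200) * (H : ℝ) ^ 2 / (m : ℝ) ^ 3 ≤ N₁ / 8 := by
    rw [hN₁]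
    have h15 : 1 / (2048 * 7200) * (H : ℝ) ^ 2 / (m : ℝ) ^ 3 =
        (H : ℝ) ^ 2 / (2048 * (m : ℝ) ^ 3) / 7200 := by
      field_simp
    rw [h15]
    linarith
  rw [sub_mul]
  linarith

end Pool.Agent.Helper30.HX
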