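import Pool.Agent.Helper30.HX.StT

/-!
# Project HX: NAT, few exceptional triples of natural numbers
-/

set_option autoImplicit false

namespace Pool.Agent.Helper30.HX

open Finset

lemma ncf_NAT (F : Finset (ℕ × ℕ × ℕ)) (P : ℕ × ℕ × ℕ → Prop) [DecidablePred P] :
    ({v ∈ F | P v} : Set (ℕ × ℕ × ℕ)).ncard = (F.filter P).card := by
  rw [← Set.ncard_coe_finset]
  congr 1
  ext v
  simp

lemma evp_NAT (k : ℕ) : ∀ᶠ n : ℕ in Filter.atTop, Real.log n ^ k ≤ n := by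
  have h1 : ∀ᶠ x : ℝ in Filter.atTop, Real.log x ^ k ≤ x := by
    have := isLittleO_log_rpow_rpow_atTop ((k : ℕ) : ℝ) (show (0 : ℝ) < 1 by linarith)
    have h2 := this.bound (show (0 : ℝ) < 1 by norm_num)
    filter_upwards [h2, Filter.eventually_ge_atTop (3 : ℝ)] with x hx h3
    rw [one_mul, Real.norm_of_nonneg (Real.rpow_nonneg (Real.log_nonneg (by linarith)) _),
      Real.norm_of_nonneg (Real.rpow_nonneg (by linarith) _), Real.rpow_natCast,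
      Real.rpow_one] at hx
    exact hx
  exact tendsto_natCast_atTop_atTop (R := ℝ) |>.eventually h1

/-- `StNat` from `StOne` -/
theorem hNat (ha : StOne) : StNat := by
  classical
  intro A
  obtain ⟨C₁, H₀, hO⟩ := ha (A + 1)
  have hlog : Filter.Tendsto (fun n : ℕ => Real.log (n : ℝ)) Filter.atTop Filter.atTop :=
    Real.tendsto_log_atTop.comp tendsto_natCast_atTop_atTop
  have ev1 : ∀ᶠ n : ℕ in Filter.atTop, (22 : ℝ) ≤ Real.log n := hlog.eventually_ge_atTop _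
  obtain ⟨m₁, hm₁⟩ := Filter.eventually_atTop.1
    ((ev1.and (evp_NAT (A + 3))).and (Filter.eventually_ge_atTop (max H₀ 3)))
  refine ⟨C₁ + A + 4, m₁, fun m hm => ?_⟩
  obtain ⟨⟨h22, h3⟩, h5⟩ := hm₁ m hm
  set L : ℝ := Real.log m with hL
  have hL0 : (0 : ℝ) < L := by linarith
  have hL1 : (1 : ℝ) ≤ L := by linarith
  have hmH₀ : H₀ ≤ m := (le_max_left _ _).trans h5
  have hm3 : 3 ≤ m := (le_max_right _ _).trans h5
  have hm0 : (0 : ℝ) < m := by exact_mod_cast (by omega : 0 < m)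
  have hm1 : (1 : ℝ) ≤ m := by exact_mod_cast (by omega : 1 ≤ m)
  have hLA : (0 : ℝ) < L ^ A := by positivity
  have hLA3 : (0 : ℝ) < L ^ (A + 3) := by positivity
  have hLA31 : (1 : ℝ) ≤ L ^ (A + 3) := one_le_pow₀ hL1
  -- lo
  have hx1 : (1 : ℝ) ≤ m / L ^ (A + 3) := by
    rw [le_div_iff₀ hLA3, one_mul]; exact h3
  set lo : ℕ := ⌈(m : ℝ) / L ^ (A + 3)⌉₊ with hlo
  have hlo1 : (m : ℝ) / L ^ (A + 3) ≤ lo := Nat.le_ceil _
  have hlo2 : (lo : ℝ) < m / L ^ (A + 3) + 1 := Nat.ceil_lt_add_one (by positivity)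
  have hlo3' : (1 : ℝ) ≤ lo := hx1.trans hlo1
  have hlo3 : 1 ≤ lo := by exact_mod_cast hlo3'
  have hlo4 : (m : ℝ) ≤ lo * L ^ (A + 3) := by
    rwa [div_le_iff₀ hLA3] at hlo1
  have hlom : lo ≤ m := by
    rw [hlo, Nat.ceil_le]
    exact div_le_self hm0.le hLA31
  -- H
  have hsq : √(m : ℝ) ^ 2 = m := Real.sq_sqrt hm0.le
  have hs1 : (1 : ℝ) ≤ √(m : ℝ) := by
    exact Real.one_le_sqrt.2 hm1
  have hLC : (1 : ℝ) ≤ L ^ C₁ := one_le_pow₀ hL1
  set H : ℕ := ⌈(m : ℝ) * √(m : ℝ) * L ^ C₁⌉₊ with hH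
  have hH1 : (m : ℝ) * √(m : ℝ) * L ^ C₁ ≤ H := Nat.le_ceil _
  have h1x : (1 : ℝ) ≤ (m : ℝ) * √(m : ℝ) * L ^ C₁ := by
    have h6 : (1 : ℝ) ≤ (m : ℝ) * √(m : ℝ) := by nlinarith
    nlinarith
  have hH2 : (H : ℝ) ≤ 2 * ((m : ℝ) * √(m : ℝ) * L ^ C₁) := by
    have h1 : (H : ℝ) < (m : ℝ) * √(m : ℝ) * L ^ C₁ + 1 := Nat.ceil_lt_add_one (by linarith)
    linarith
  have hPar : Par (A + 1) C₁ m lo H := by
    refine ⟨hlo3, hlom, hlo4, ?_, ?_⟩
    · calc (m : ℝ) ^ 3 * (L ^ C₁) ^ 2 = ((m : ℝ) * √(m : ℝ) * L ^ C₁) ^ 2 := by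
            rw [mul_pow, mul_pow, hsq]; ring
        _ ≤ (H : ℝ) ^ 2 := by
            apply pow_le_pow_left₀ (by linarith) hH1
    · calc (H : ℝ) ^ 2 ≤ (2 * ((m : ℝ) * √(m : ℝ) * L ^ C₁)) ^ 2 :=
            pow_le_pow_left₀ (Nat.cast_nonneg _) hH2 2
        _ = 4 * (m : ℝ) ^ 3 * (L ^ C₁) ^ 2 := by
            rw [mul_pow, mul_pow, mul_pow, hsq]; ring
  have hbound := hO m lo H hmH₀ hPar
  rw [ncf_NAT] at hbound
  rw [ncf_NAT]
  set S := ((Icc 1 m) ×ˢ (Icc 1 m) ×ˢ (Icc 1 m)).filter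
    (fun v : ℕ × ℕ × ℕ => ExT (C₁ + A + 4) m v.1 v.2.1 v.2.2) with hS
  set S₁ := S.filter (fun v : ℕ × ℕ × ℕ => lo ≤ v.1 ∧ lo ≤ v.2.1 ∧ lo ≤ v.2.2) with hS₁
  have hS₁card : (S₁.card : ℝ) ≤ m ^ 3 / L ^ A * (1 / 2) := by
    have hsub : S₁ ⊆ ((Icc lo m) ×ˢ (Icc lo m) ×ˢ (Icc lo m)).filter
        (fun v : ℕ × ℕ × ℕ => BadT H v.1 v.2.1 v.2.2) := by
      intro v hv
      rw [hS₁, hS, Finset.mem_filter, Finset.mem_filter, Finset.mem_product,
        Finset.mem_product, Finset.mem_Icc, Finset.mem_Icc, Finset.mem_Icc] at hv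
      obtain ⟨⟨⟨⟨_, ha⟩, ⟨_, hb⟩, ⟨_, hc⟩⟩, had, hns⟩, hla, hlb, hlc⟩ := hv
      rw [Finset.mem_filter, Finset.mem_product, Finset.mem_product, Finset.mem_Icc,
        Finset.mem_Icc, Finset.mem_Icc]
      refine ⟨⟨⟨hla, ha⟩, ⟨hlb, hb⟩, ⟨hlc, hc⟩⟩, had, ?_⟩
      rintro ⟨p, q, r, hp, hq, hr, heq, h1, h6, h7⟩
      refine hns ⟨p, q, r, hp, hq, hr, heq, ?_⟩
      have hsize : ∀ x y : ℕ, lo ≤ y → y * x ≤ 11 * H →
          (x : ℝ) ≤ √(m : ℝ) * L ^ (C₁ + A + 4) := by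
        intro x y hy hxy
        have h8 : (lo : ℝ) * x ≤ 11 * (H : ℝ) := by
          have h9 : lo * x ≤ 11 * H := (Nat.mul_le_mul_right _ hy).trans hxy
          exact_mod_cast h9
        have h9 : (m : ℝ) * x ≤ m * (√(m : ℝ) * L ^ (C₁ + A + 4)) := by
          calc (m : ℝ) * x ≤ lo * L ^ (A + 3) * x := by gcongr
            _ = L ^ (A + 3) * (lo * x) := by ring
            _ ≤ L ^ (A + 3) * (11 * (2 * ((m : ℝ) * √(m : ℝ) * L ^ C₁))) :=
                mul_le_mul_of_nonneg_left (h8.trans (by linarith)) (by positivity)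
            _ = 22 * (L ^ (A + 3) * ((m : ℝ) * √(m : ℝ) * L ^ C₁)) := by ring
            _ ≤ L * (L ^ (A + 3) * ((m : ℝ) * √(m : ℝ) * L ^ C₁)) := by gcongr
            _ = m * (√(m : ℝ) * L ^ (C₁ + A + 4)) := by ring
        exact le_of_mul_le_mul_left h9 hm0
      have hmax : ((max p (max q r) : ℕ) : ℝ) = max (p : ℝ) (max (q : ℝ) (r : ℝ)) := by
        push_cast; rfl
      rw [hmax]
      exact max_le (hsize p v.1 hla h1) (max_le (hsize q v.2.1 hlb h6) (hsize r v.2.2 hlc h7))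
    have h1 : (S₁.card : ℝ) ≤ m ^ 3 / L ^ (A + 1) :=
      le_trans (by exact_mod_cast Finset.card_le_card hsub) hbound
    refine h1.trans ?_
    have h2 : (m : ℝ) ^ 3 / L ^ (A + 1) = m ^ 3 / L ^ A * (1 / L) := by
      rw [pow_succ L A]; field_simp
    rw [h2]
    have h6 : 1 / L ≤ 1 / 2 := one_div_le_one_div_of_le (by norm_num) (by linarith)
    gcongr
  have hS₂card : (((S \ S₁).card : ℕ) : ℝ) ≤ m ^ 3 / L ^ A * (1 / 2) := by
    have hsub : S \ S₁ ⊆ ((Icc 1 (lo - 1)) ×ˢ (Icc 1 m) ×ˢ (Icc 1 m)) ∪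
        (((Icc 1 m) ×ˢ (Icc 1 (lo - 1)) ×ˢ (Icc 1 m)) ∪
          ((Icc 1 m) ×ˢ (Icc 1 m) ×ˢ (Icc 1 (lo - 1)))) := by
      intro v hv
      obtain ⟨hv1, hv2⟩ := Finset.mem_sdiff.1 hv
      have hv3 : ¬ (lo ≤ v.1 ∧ lo ≤ v.2.1 ∧ lo ≤ v.2.2) :=
        fun h => hv2 (by rw [hS₁]; exact Finset.mem_filter.2 ⟨hv1, h⟩)
      rw [not_and_or, not_and_or] at hv3
      rw [hS, Finset.mem_filter, Finset.mem_product, Finset.mem_product, Finset.mem_Icc,
        Finset.mem_Icc, Finset.mem_Icc] at hv1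
      simp only [Finset.mem_union, Finset.mem_product, Finset.mem_Icc]
      rcases hv3 with h | h | h <;> omega
    have h1 : (S \ S₁).card ≤ 3 * ((lo - 1) * (m * m)) := by
      refine (Finset.card_le_card hsub).trans ((Finset.card_union_le _ _).trans ?_)
      refine (Nat.add_le_add_left (Finset.card_union_le _ _) _).trans ?_
      simp only [Finset.card_product, Nat.card_Icc, Nat.add_sub_cancel]
      apply le_of_eq; ring
    have h1' : (((S \ S₁).card : ℕ) : ℝ) ≤ 3 * (((lo : ℝ) - 1) * (m * m)) := by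
      have : (((S \ S₁).card : ℕ) : ℝ) ≤ ((3 * ((lo - 1) * (m * m)) : ℕ) : ℝ) := by
        exact_mod_cast h1
      rwa [Nat.cast_mul, Nat.cast_mul, Nat.cast_mul, Nat.cast_sub hlo3, Nat.cast_one,
        Nat.cast_ofNat] at this
    refine h1'.trans ?_
    calc 3 * (((lo : ℝ) - 1) * (m * m)) ≤ 3 * (m / L ^ (A + 3) * (m * m)) := by
          have : (lo : ℝ) - 1 ≤ m / L ^ (A + 3) := by linarith
          gcongr
      _ = m ^ 3 / L ^ A * (3 / L ^ 3) := by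
          rw [pow_add L A 3]; field_simp
      _ ≤ m ^ 3 / L ^ A * (1 / 2) := by
          have h6 : 3 / L ^ 3 ≤ 1 / 2 := by
            rw [div_le_div_iff₀ (by positivity) (by norm_num)]
            have h7 : L ^ 1 ≤ L ^ 3 := pow_le_pow_right₀ hL1 (by norm_num)
            linarith
          gcongr
  have hsplit : (S.card : ℝ) = (S₁.card : ℝ) + ((S \ S₁).card : ℝ) := by
    have : S₁.card + (S \ S₁).card = S.card := by
      rw [add_comm]
      exact Finset.card_sdiff_add_card_eq_card (Finset.filter_subset _ _)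
    exact_mod_cast this.symm
  rw [hsplit]
  calc (S₁.card : ℝ) + ((S \ S₁).card : ℝ) ≤ m ^ 3 / L ^ A * (1 / 2) + m ^ 3 / L ^ A * (1 / 2) :=
        add_le_add hS₁card hS₂card
    _ = m ^ 3 / L ^ A := by ring

end Pool.Agent.Helper30.HX
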