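import Pool.Agent.Helper30.HX.StN

/-!
# Project HX: module NV (a positive proportion of all triples is admissible with `d = 0`)
-/

set_option autoImplicit false

namespace Pool.Agent.Helper30.HX

open Finset
open Pool.Agent.Helper48.BK (Admissible Box)

/-- odd numbers up to `m` divisible by `k` -/
def OO_NV (m k : ℕ) : Finset ℕ := (Icc 1 m).filter (fun a => Odd a ∧ k ∣ a)

/-- even numbers up to `m` divisible by `k` -/
def EE_NV (m k : ℕ) : Finset ℕ := (Icc 1 m).filter (fun a => Even a ∧ k ∣ a)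

theorem OO_card_le_NV (m k : ℕ) (hk : 0 < k) :
    ((OO_NV m k).card : ℝ) ≤ ((m : ℝ) / k + 1) / 2 := by
  have h1 : OO_NV m k ⊆ (range ((m / k + 1) / 2)).image (fun j => k * (2 * j + 1)) := by
    intro a ha
    unfold OO_NV at ha
    rw [mem_filter, mem_Icc] at ha
    obtain ⟨⟨h1, h2⟩, h3, c, rfl⟩ := ha
    have hc : Odd c := (Nat.odd_mul.1 h3).2
    obtain ⟨j, rfl⟩ := hc
    rw [mem_image]
    refine ⟨j, ?_, rfl⟩
    rw [mem_range]
    have h4 : 2 * j + 1 ≤ m / k := by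
      rw [Nat.le_div_iff_mul_le hk, mul_comm]
      exact h2
    omega
  have h2 : (OO_NV m k).card ≤ (m / k + 1) / 2 := by
    refine (card_le_card h1).trans (card_image_le.trans ?_)
    rw [card_range]
  have h3 : ((((m / k + 1) / 2 : ℕ) : ℕ) : ℝ) ≤ ((m / k + 1 : ℕ) : ℝ) / 2 := Nat.cast_div_le
  have h4 : ((m / k : ℕ) : ℝ) ≤ (m : ℝ) / k := Nat.cast_div_le
  calc ((OO_NV m k).card : ℝ) ≤ (((m / k + 1) / 2 : ℕ) : ℝ) := by exact_mod_cast h2
    _ ≤ ((m / k + 1 : ℕ) : ℝ) / 2 := h3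
    _ ≤ ((m : ℝ) / k + 1) / 2 := by
        push_cast
        linarith

theorem EE_card_le_NV (m k : ℕ) (hk : Odd k) :
    ((EE_NV m k).card : ℝ) ≤ ((m : ℝ) / k) / 2 := by
  have hk0 : 0 < k := hk.pos
  have h1 : EE_NV m k ⊆ (range ((m / k) / 2)).image (fun j => k * (2 * (j + 1))) := by
    intro a ha
    unfold EE_NV at ha
    rw [mem_filter, mem_Icc] at ha
    obtain ⟨⟨h1, h2⟩, h3, c, rfl⟩ := ha
    have hc : Even c := by
      rcases Nat.even_mul.1 h3 with h | h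
      · exact absurd h (Nat.not_even_iff_odd.2 hk)
      · exact h
    obtain ⟨j, rfl⟩ := hc
    have hj : j ≠ 0 := by
      rintro rfl
      simp at h1
    rw [mem_image]
    refine ⟨j - 1, ?_, ?_⟩
    · rw [mem_range]
      have h4 : j + j ≤ m / k := by
        rw [Nat.le_div_iff_mul_le hk0, mul_comm]
        exact h2
      omega
    · have : j - 1 + 1 = j := by omega
      rw [this, two_mul]
  have h2 : (EE_NV m k).card ≤ (m / k) / 2 := by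
    refine (card_le_card h1).trans (card_image_le.trans ?_)
    rw [card_range]
  have h3 : ((((m / k) / 2 : ℕ) : ℕ) : ℝ) ≤ ((m / k : ℕ) : ℝ) / 2 := Nat.cast_div_le
  have h4 : ((m / k : ℕ) : ℝ) ≤ (m : ℝ) / k := Nat.cast_div_le
  calc ((EE_NV m k).card : ℝ) ≤ (((m / k) / 2 : ℕ) : ℝ) := by exact_mod_cast h2
    _ ≤ ((m / k : ℕ) : ℝ) / 2 := h3
    _ ≤ ((m : ℝ) / k) / 2 := by linarith

theorem OO_card_ge_NV (m : ℕ) : (m : ℝ) / 2 ≤ ((OO_NV m 1).card : ℝ) := by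
  have h1 : (range ((m + 1) / 2)).image (fun j => 2 * j + 1) ⊆ OO_NV m 1 := by
    intro a ha
    obtain ⟨j, hj, rfl⟩ := mem_image.1 ha
    rw [mem_range] at hj
    unfold OO_NV
    rw [mem_filter, mem_Icc]
    exact ⟨⟨by omega, by omega⟩, ⟨j, rfl⟩, one_dvd _⟩
  have h2 := card_le_card h1
  rw [card_image_of_injective _ (fun i j h => by omega), card_range] at h2
  have h3 : m ≤ 2 * (OO_NV m 1).card := by omega
  have h4 : (m : ℝ) ≤ 2 * ((OO_NV m 1).card : ℝ) := by exact_mod_cast h3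
  linarith

theorem EE_card_ge_NV (m : ℕ) : ((m : ℝ) - 1) / 2 ≤ ((EE_NV m 1).card : ℝ) := by
  have h1 : (range (m / 2)).image (fun j => 2 * (j + 1)) ⊆ EE_NV m 1 := by
    intro a ha
    obtain ⟨j, hj, rfl⟩ := mem_image.1 ha
    rw [mem_range] at hj
    unfold EE_NV
    rw [mem_filter, mem_Icc]
    exact ⟨⟨by omega, by omega⟩, ⟨j + 1, by ring⟩, one_dvd _⟩
  have h2 := card_le_card h1
  rw [card_image_of_injective _ (fun i j h => by omega), card_range] at h2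
  have h3 : m ≤ 2 * (EE_NV m 1).card + 1 := by omega
  have h4 : (m : ℝ) ≤ 2 * ((EE_NV m 1).card : ℝ) + 1 := by exact_mod_cast h3
  linarith

/-- all triples odd, odd, even -/
def TT_NV (m : ℕ) : Finset (ℕ × ℕ × ℕ) := OO_NV m 1 ×ˢ OO_NV m 1 ×ˢ EE_NV m 1

/-- the pairwise coprime ones -/
def GG_NV (m : ℕ) : Finset (ℕ × ℕ × ℕ) :=
  (TT_NV m).filter (fun v => Nat.Coprime v.1 v.2.1 ∧ Nat.Coprime v.1 v.2.2 ∧
    Nat.Coprime v.2.1 v.2.2)

/-- the triples in which two entries are divisible by `2 j + 1` -/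
def BB_NV (m j : ℕ) : Finset (ℕ × ℕ × ℕ) :=
  OO_NV m (2 * j + 1) ×ˢ OO_NV m (2 * j + 1) ×ˢ EE_NV m 1 ∪
  (OO_NV m (2 * j + 1) ×ˢ OO_NV m 1 ×ˢ EE_NV m (2 * j + 1) ∪
    OO_NV m 1 ×ˢ OO_NV m (2 * j + 1) ×ˢ EE_NV m (2 * j + 1))

theorem exists_div_NV {m a b : ℕ} (ha : Odd a) (ham : a ≤ m) (h : ¬ Nat.Coprime a b) :
    ∃ j ∈ Ico 1 ((m + 1) / 2), (2 * j + 1) ∣ a ∧ (2 * j + 1) ∣ b := by
  have h1 : Nat.gcd a b ∣ a := Nat.gcd_dvd_left a b
  have h2 : Odd (Nat.gcd a b) := ha.of_dvd_nat h1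
  have h3 : Nat.gcd a b ≤ a := Nat.le_of_dvd ha.pos h1
  obtain ⟨j, hj⟩ := h2
  have h4 : j ≠ 0 := by
    rintro rfl
    exact h hj
  refine ⟨j, ?_, ?_, ?_⟩
  · rw [mem_Ico]
    constructor
    · omega
    · omega
  · rw [← hj]; exact h1
  · rw [← hj]; exact Nat.gcd_dvd_right a b

theorem TT_sub_NV (m : ℕ) :
    TT_NV m ⊆ GG_NV m ∪ (Ico 1 ((m + 1) / 2)).biUnion (BB_NV m) := by
  intro v hv
  have hv' := hv
  unfold TT_NV at hv
  rw [mem_product, mem_product] at hv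
  obtain ⟨ha, hb, hc⟩ := hv
  by_cases hG : v ∈ GG_NV m
  · exact mem_union_left _ hG
  refine mem_union_right _ ?_
  rw [mem_biUnion]
  have hoo : ∀ x ∈ OO_NV m 1, ∀ k, k ∣ x → x ∈ OO_NV m k := fun x hx k hk => by
    unfold OO_NV at hx ⊢
    rw [mem_filter] at hx ⊢
    exact ⟨hx.1, hx.2.1, hk⟩
  have hee : ∀ x ∈ EE_NV m 1, ∀ k, k ∣ x → x ∈ EE_NV m k := fun x hx k hk => by
    unfold EE_NV at hx ⊢
    rw [mem_filter] at hx ⊢
    exact ⟨hx.1, hx.2.1, hk⟩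
  have ha' := ha
  have hb' := hb
  unfold OO_NV at ha' hb'
  rw [mem_filter, mem_Icc] at ha' hb'
  by_cases h1 : Nat.Coprime v.1 v.2.1
  · by_cases h2 : Nat.Coprime v.1 v.2.2
    · by_cases h3 : Nat.Coprime v.2.1 v.2.2
      · exact absurd (mem_filter.2 ⟨hv', h1, h2, h3⟩) hG
      · obtain ⟨j, hj, d1, d2⟩ := exists_div_NV hb'.2.1 hb'.1.2 h3
        refine ⟨j, hj, ?_⟩
        unfold BB_NV
        refine mem_union_right _ (mem_union_right _ ?_)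
        rw [mem_product, mem_product]
        exact ⟨ha, hoo _ hb _ d1, hee _ hc _ d2⟩
    · obtain ⟨j, hj, d1, d2⟩ := exists_div_NV ha'.2.1 ha'.1.2 h2
      refine ⟨j, hj, ?_⟩
      unfold BB_NV
      refine mem_union_right _ (mem_union_left _ ?_)
      rw [mem_product, mem_product]
      exact ⟨hoo _ ha _ d1, hb, hee _ hc _ d2⟩
  · obtain ⟨j, hj, d1, d2⟩ := exists_div_NV ha'.2.1 ha'.1.2 h1
    refine ⟨j, hj, ?_⟩
    unfold BB_NV
    refine mem_union_left _ ?_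
    rw [mem_product, mem_product]
    exact ⟨hoo _ ha _ d1, hoo _ hb _ d2, hc⟩

theorem BB_card_NV (m j : ℕ) : ((BB_NV m j).card : ℝ) ≤
    (((m : ℝ) / (2 * j + 1) + 1) / 2) ^ 2 * ((m : ℝ) / 2) +
    2 * ((((m : ℝ) / (2 * j + 1) + 1) / 2) * (((m : ℝ) + 1) / 2) *
      (((m : ℝ) / (2 * j + 1)) / 2)) := by
  have h1 : (BB_NV m j).card ≤
      (OO_NV m (2 * j + 1)).card * ((OO_NV m (2 * j + 1)).card * (EE_NV m 1).card) +
      ((OO_NV m (2 * j + 1)).card * ((OO_NV m 1).card * (EE_NV m (2 * j + 1)).card) +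
      (OO_NV m 1).card * ((OO_NV m (2 * j + 1)).card * (EE_NV m (2 * j + 1)).card)) := by
    unfold BB_NV
    refine (card_union_le _ _).trans (Nat.add_le_add ?_ ((card_union_le _ _).trans
      (Nat.add_le_add ?_ ?_)))
    · rw [card_product, card_product]
    · rw [card_product, card_product]
    · rw [card_product, card_product]
  have h2 := OO_card_le_NV m (2 * j + 1) (by omega)
  have h3 := OO_card_le_NV m 1 one_pos
  have h4 := EE_card_le_NV m (2 * j + 1) ⟨j, rfl⟩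
  have h5 := EE_card_le_NV m 1 odd_one
  have e1 : (((2 * j + 1 : ℕ) : ℕ) : ℝ) = 2 * (j : ℝ) + 1 := by push_cast; ring
  rw [e1] at h2 h4
  rw [Nat.cast_one, div_one] at h3 h5
  have n2 : (0 : ℝ) ≤ ((OO_NV m (2 * j + 1)).card : ℝ) := Nat.cast_nonneg _
  have n3 : (0 : ℝ) ≤ ((OO_NV m 1).card : ℝ) := Nat.cast_nonneg _
  have n4 : (0 : ℝ) ≤ ((EE_NV m (2 * j + 1)).card : ℝ) := Nat.cast_nonneg _
  have n5 : (0 : ℝ) ≤ ((EE_NV m 1).card : ℝ) := Nat.cast_nonneg _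
  have h6 : ((BB_NV m j).card : ℝ) ≤
      ((OO_NV m (2 * j + 1)).card : ℝ) * (((OO_NV m (2 * j + 1)).card : ℝ) *
        ((EE_NV m 1).card : ℝ)) +
      (((OO_NV m (2 * j + 1)).card : ℝ) * (((OO_NV m 1).card : ℝ) *
        ((EE_NV m (2 * j + 1)).card : ℝ)) +
      ((OO_NV m 1).card : ℝ) * (((OO_NV m (2 * j + 1)).card : ℝ) *
        ((EE_NV m (2 * j + 1)).card : ℝ))) := by exact_mod_cast h1
  have q1 : ((OO_NV m (2 * j + 1)).card : ℝ) * (((OO_NV m (2 * j + 1)).card : ℝ) *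
        ((EE_NV m 1).card : ℝ)) ≤
      (((m : ℝ) / (2 * j + 1) + 1) / 2) * ((((m : ℝ) / (2 * j + 1) + 1) / 2) * ((m : ℝ) / 2)) := by
    gcongr
  have q2 : ((OO_NV m (2 * j + 1)).card : ℝ) * (((OO_NV m 1).card : ℝ) *
        ((EE_NV m (2 * j + 1)).card : ℝ)) ≤
      (((m : ℝ) / (2 * j + 1) + 1) / 2) * ((((m : ℝ) + 1) / 2) *
      (((m : ℝ) / (2 * j + 1)) / 2)) := by
    gcongr
  have q3 : ((OO_NV m 1).card : ℝ) * (((OO_NV m (2 * j + 1)).card : ℝ) *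
        ((EE_NV m (2 * j + 1)).card : ℝ)) ≤
      (((m : ℝ) + 1) / 2) * ((((m : ℝ) / (2 * j + 1) + 1) / 2) *
      (((m : ℝ) / (2 * j + 1)) / 2)) := by
    gcongr
  nlinarith [h6, q1, q2, q3]

/-- small `j` -/
theorem BB_small_NV (m j : ℕ) (hm : 1 ≤ m) (hj : 1 ≤ j) : ((BB_NV m j).card : ℝ) ≤
    3 / 8 * (m : ℝ) ^ 3 * (1 / (2 * j + 1)) ^ 2 + (m : ℝ) ^ 2 / 2 := by
  refine (BB_card_NV m j).trans ?_
  have hM : (1 : ℝ) ≤ m := by exact_mod_cast hm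
  have hJ : (1 : ℝ) ≤ j := by exact_mod_cast hj
  have e : (m : ℝ) / (2 * j + 1) = m * (1 / (2 * j + 1)) := by ring
  rw [e]
  set u : ℝ := 1 / (2 * (j : ℝ) + 1) with hu
  have hu0 : 0 ≤ u := by positivity
  have hu1 : u ≤ 1 / 3 := by
    rw [hu]
    apply one_div_le_one_div_of_le (by norm_num)
    linarith
  have h1 : (m : ℝ) * u ≤ m * (1 / 3) := by gcongr
  have h2 : (m : ℝ) * u * u ≤ m * (1 / 3) * (1 / 3) := by gcongr
  have h3 : (m : ℝ) * (m * u) ≤ m * (m * (1 / 3)) := by gcongr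
  have h4 : (m : ℝ) * (m * u * u) ≤ m * (m * (1 / 3) * (1 / 3)) := by gcongr
  have h5 : (m : ℝ) ≤ m * m := by nlinarith
  nlinarith [h1, h2, h3, h4, h5]

/-- large `j` -/
theorem BB_large_NV (m j : ℕ) (hm : 1000 ≤ m) (hj : 2 * j + 1 ≤ m) : ((BB_NV m j).card : ℝ) ≤
    201 / 200 * (m : ℝ) ^ 3 * (1 / (2 * j + 1)) ^ 2 := by
  refine (BB_card_NV m j).trans ?_
  have hM : (1000 : ℝ) ≤ m := by exact_mod_cast hm
  have hJ : (2 : ℝ) * j + 1 ≤ m := by exact_mod_cast hj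
  have e : (m : ℝ) / (2 * j + 1) = m * (1 / (2 * j + 1)) := by ring
  have h1 : (1 : ℝ) ≤ (m : ℝ) / (2 * j + 1) := by
    rw [le_div_iff₀ (by positivity), one_mul]
    exact hJ
  rw [e] at h1 ⊢
  set u : ℝ := 1 / (2 * (j : ℝ) + 1) with hu
  have hu0 : 0 ≤ u := by positivity
  have h2 : (((m : ℝ) * u + 1) / 2) ≤ m * u := by linarith
  have h3 : (0 : ℝ) ≤ ((m : ℝ) * u + 1) / 2 := by positivity
  have h4 : (((m : ℝ) * u + 1) / 2) ^ 2 * ((m : ℝ) / 2) ≤ (m * u) ^ 2 * ((m : ℝ) / 2) := by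
    gcongr
  have h5 : (((m : ℝ) * u + 1) / 2) * (((m : ℝ) + 1) / 2) * ((m * u) / 2) ≤
      (m * u) * (((m : ℝ) + 1) / 2) * ((m * u) / 2) := by
    gcongr
  have h6 : (m : ℝ) + 1 ≤ 1001 / 1000 * m := by linarith
  have h7 : (m * u) * (((m : ℝ) + 1) / 2) * ((m * u) / 2) ≤
      (m * u) * ((1001 / 1000 * m) / 2) * ((m * u) / 2) := by
    gcongr
  have h8 : 0 ≤ (m : ℝ) ^ 3 * u ^ 2 := by positivity
  nlinarith [h4, h5, h7, h8]

theorem tail_NV (n : ℕ) (hn : 7 ≤ n) :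
    ∑ j ∈ Ico 7 n, (1 / (2 * (j : ℝ) + 1)) ^ 2 ≤ 1 / 28 - 1 / (4 * (n : ℝ)) := by
  induction n, hn using Nat.le_induction with
  | base => norm_num
  | succ n hn ih =>
    rw [sum_Ico_succ_top hn]
    have hN : (7 : ℝ) ≤ n := by exact_mod_cast hn
    have h1 : (1 / (2 * (n : ℝ) + 1)) ^ 2 ≤ 1 / (4 * (n : ℝ)) - 1 / (4 * ((n : ℝ) + 1)) := by
      have h2 : 1 / (4 * (n : ℝ)) - 1 / (4 * ((n : ℝ) + 1)) = 1 / (4 * (n : ℝ) * ((n : ℝ) + 1)) := by
        field_simp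
        ring
      rw [h2, div_pow, one_pow]
      apply one_div_le_one_div_of_le (by positivity)
      nlinarith
    push_cast
    linarith

theorem GG_card_NV (m : ℕ) (hm : 1000 ≤ m) : (m : ℝ) ^ 3 / 100 ≤ ((GG_NV m).card : ℝ) := by
  have hM : (1000 : ℝ) ≤ m := by exact_mod_cast hm
  have h1 : (TT_NV m).card ≤ (GG_NV m).card + ∑ j ∈ Ico 1 ((m + 1) / 2), (BB_NV m j).card :=
    (card_le_card (TT_sub_NV m)).trans ((card_union_le _ _).trans
      (Nat.add_le_add_left card_biUnion_le _))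
  have h2 : ((TT_NV m).card : ℝ) ≤
      ((GG_NV m).card : ℝ) + ∑ j ∈ Ico 1 ((m + 1) / 2), ((BB_NV m j).card : ℝ) := by
    exact_mod_cast h1
  have h3 : (m : ℝ) / 2 * ((m : ℝ) / 2 * (((m : ℝ) - 1) / 2)) ≤ ((TT_NV m).card : ℝ) := by
    unfold TT_NV
    rw [card_product, card_product]
    push_cast
    have a1 := OO_card_ge_NV m
    have a2 := EE_card_ge_NV m
    have a3 : (0 : ℝ) ≤ ((m : ℝ) - 1) / 2 := by linarith
    gcongr
  have h4 : ∑ j ∈ Ico 1 ((m + 1) / 2), ((BB_NV m j).card : ℝ) =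
      ∑ j ∈ Ico 1 7, ((BB_NV m j).card : ℝ) +
        ∑ j ∈ Ico 7 ((m + 1) / 2), ((BB_NV m j).card : ℝ) :=
    (sum_Ico_consecutive _ (by omega) (by omega)).symm
  have h5 : ∑ j ∈ Ico 1 7, ((BB_NV m j).card : ℝ) ≤
      ∑ j ∈ Ico (1 : ℕ) 7, (3 / 8 * (m : ℝ) ^ 3 * (1 / (2 * (j : ℝ) + 1)) ^ 2 + (m : ℝ) ^ 2 / 2) := by
    refine sum_le_sum fun j hj => ?_
    rw [mem_Ico] at hj
    exact BB_small_NV m j (by omega) hj.1
  have h6 : ∑ j ∈ Ico (1 : ℕ) 7, (3 / 8 * (m : ℝ) ^ 3 * (1 / (2 * (j : ℝ) + 1)) ^ 2 + (m : ℝ) ^ 2 / 2) =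
      3 / 8 * (m : ℝ) ^ 3 * (1 / 9 + 1 / 25 + 1 / 49 + 1 / 81 + 1 / 121 + 1 / 169) +
        3 * (m : ℝ) ^ 2 := by
    rw [sum_Ico_eq_sum_range]
    simp only [sum_range_succ, sum_range_zero]
    push_cast
    ring
  have h7 : ∑ j ∈ Ico 7 ((m + 1) / 2), ((BB_NV m j).card : ℝ) ≤
      201 / 200 * (m : ℝ) ^ 3 * (1 / 28) := by
    calc ∑ j ∈ Ico 7 ((m + 1) / 2), ((BB_NV m j).card : ℝ) ≤
        ∑ j ∈ Ico (7 : ℕ) ((m + 1) / 2), 201 / 200 * (m : ℝ) ^ 3 * (1 / (2 * (j : ℝ) + 1)) ^ 2 := by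
          refine sum_le_sum fun j hj => ?_
          rw [mem_Ico] at hj
          exact BB_large_NV m j hm (by omega)
      _ = 201 / 200 * (m : ℝ) ^ 3 * ∑ j ∈ Ico 7 ((m + 1) / 2), (1 / (2 * (j : ℝ) + 1)) ^ 2 := by
          rw [mul_sum]
      _ ≤ 201 / 200 * (m : ℝ) ^ 3 * (1 / 28) := by
          have h8 := tail_NV ((m + 1) / 2) (by omega)
          have h9 : (0 : ℝ) ≤ 1 / (4 * (((m + 1) / 2 : ℕ) : ℝ)) := by positivity
          gcongr
          linarith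
  have h8 : 1000 * (m : ℝ) ^ 2 ≤ (m : ℝ) ^ 3 := by
    have : (m : ℝ) ^ 3 = m * (m : ℝ) ^ 2 := by ring
    rw [this]
    gcongr
  nlinarith [h2, h3, h4, h5, h6, h7, h8]

theorem hNV : StNV := by
  refine ⟨1000, fun m hm => ?_⟩
  refine (GG_card_NV m hm).trans ?_
  set f : ℕ × ℕ × ℕ → ℤ × ℤ × ℤ := fun v => ((v.1 : ℤ), (v.2.1 : ℤ), -(v.2.2 : ℤ)) with hf
  have hinj : Function.Injective f := by
    rintro ⟨a, b, c⟩ ⟨a', b', c'⟩ h
    simp only [hf, Prod.mk.injEq] at h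
    obtain ⟨h1, h2, h3⟩ := h
    have h1' : a = a' := by exact_mod_cast h1
    have h2' : b = b' := by exact_mod_cast h2
    have h3' : c = c' := by
      have := neg_injective h3
      exact_mod_cast this
    rw [h1', h2', h3']
  have hsub : (((GG_NV m).image f : Finset (ℤ × ℤ × ℤ)) : Set (ℤ × ℤ × ℤ)) ⊆
      {v ∈ (Box m : Set (ℤ × ℤ × ℤ)) | Admissible v.1 v.2.1 v.2.2 0} := by
    intro w hw
    rw [mem_coe] at hw
    obtain ⟨⟨a, b, c⟩, hv, rfl⟩ := mem_image.1 hw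
    unfold GG_NV TT_NV at hv
    rw [mem_filter, mem_product, mem_product] at hv
    obtain ⟨⟨ha, hb, hc⟩, c1, c2, c3⟩ := hv
    unfold OO_NV at ha hb
    unfold EE_NV at hc
    rw [mem_filter, mem_Icc] at ha hb hc
    simp only at ha hb hc c1 c2 c3
    have g : ∀ x y : ℕ, Nat.Coprime x y → gcd (x : ℤ) (y : ℤ) = 1 := fun x y h => by
      rw [← Int.coe_gcd, Int.gcd_natCast_natCast]
      exact_mod_cast h
    have g1 := g _ _ c1
    have g2 : gcd (a : ℤ) (-(c : ℤ)) = 1 := by rw [gcd_neg]; exact g _ _ c2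
    have g3 : gcd (b : ℤ) (-(c : ℤ)) = 1 := by rw [gcd_neg]; exact g _ _ c3
    refine ⟨?_, ?_⟩
    · rw [mem_coe]
      unfold Box
      rw [mem_product, mem_product, mem_Icc, mem_Icc, mem_Icc]
      simp only [hf]
      refine ⟨⟨?_, ?_⟩, ⟨?_, ?_⟩, ?_, ?_⟩ <;> omega
    · simp only [hf]
      unfold Admissible
      refine ⟨by omega, by omega, by omega, by omega, by omega, ?_, ?_, ?_, ?_, ?_⟩
      · obtain ⟨x, hx⟩ := ha.2.1
        obtain ⟨y, hy⟩ := hb.2.1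
        obtain ⟨z, hz⟩ := hc.2.1
        refine ⟨(x : ℤ) + y + 1 - z, ?_⟩
        rw [hx, hy, hz]
        push_cast
        ring
      · rw [g3]; exact gcd_one_right _
      · rw [g1]; exact gcd_one_right _
      · rw [g2]; exact gcd_one_right _
      · rw [g3]; exact gcd_one_right _
  have hfin : ({v ∈ (Box m : Set (ℤ × ℤ × ℤ)) | Admissible v.1 v.2.1 v.2.2 0} :
      Set (ℤ × ℤ × ℤ)).Finite := (Box m).finite_toSet.subset fun v hv => hv.1
  have h1 := Set.ncard_le_ncard hsub hfin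
  rw [Set.ncard_coe_finset, card_image_of_injective _ hinj] at h1
  exact_mod_cast h1

end Pool.Agent.Helper30.HX
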