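import Pool.Agent.Helper30.HX.StA

set_option autoImplicit false

namespace Pool.Agent.Helper30.HX

open Finset

theorem dltb_OFF {X y w y' w' : ℕ} (hy : y ∈ Ioc 0 X) (hw : w ∈ Ioc 0 X) (hy' : y' ∈ Ioc 0 X)
    (hw' : w' ∈ Ioc 0 X) : (dlt y w y' w').natAbs ≤ X ^ 2 := by
  rw [mem_Ioc] at hy hw hy' hw'
  have h1 : y * w' ≤ X ^ 2 := by rw [sq]; exact Nat.mul_le_mul hy.2 hw'.2
  have h2 : w * y' ≤ X ^ 2 := by rw [sq]; exact Nat.mul_le_mul hw.2 hy'.2
  unfold dlt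
  have h3 : ((y : ℤ) * w' - w * y') = ((y * w' : ℕ) : ℤ) - ((w * y' : ℕ) : ℤ) := by push_cast; ring
  rw [h3]
  omega

theorem sdvc_OFF (n : ℤ) : ((sdv n).card : ℝ) ≤ 2 * tau n := by
  classical
  unfold tau
  have h : (sdv n).card ≤ (n.natAbs.divisors ×ˢ ({1, -1} : Finset ℤ)).card := by
    refine card_le_card_of_injOn (fun e => (e.natAbs, e.sign)) ?_ ?_
    · intro e he
      have he' : e ∈ sdv n := he
      unfold sdv at he'
      rw [mem_filter, mem_Icc] at he'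
      obtain ⟨⟨h1, h2⟩, h3, h4⟩ := he'
      have hn : n ≠ 0 := by
        rintro rfl
        simp only [abs_zero, neg_zero] at h1 h2
        exact h3 (le_antisymm h2 h1)
      simp only [coe_product, Set.mem_prod, mem_coe]
      refine ⟨?_, ?_⟩
      · rw [Nat.mem_divisors]
        exact ⟨Int.natAbs_dvd_natAbs.2 h4, by omega⟩
      · rcases lt_or_gt_of_ne h3 with h5 | h5
        · rw [Int.sign_eq_neg_one_of_neg h5]; simp
        · rw [Int.sign_eq_one_of_pos h5]; simp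
    · intro e _ e' _ h
      simp only [Prod.mk.injEq] at h
      rw [← Int.sign_mul_natAbs e, ← Int.sign_mul_natAbs e', h.1, h.2]
  rw [card_product] at h
  have h2 : ({1, -1} : Finset ℤ).card = 2 := by decide
  rw [h2] at h
  have : ((sdv n).card : ℝ) ≤ ((n.natAbs.divisors.card * 2 : ℕ) : ℝ) := by exact_mod_cast h
  push_cast at this
  linarith

open Classical in
theorem bdsum_OFF (ha : StOme) {X z F : ℕ} {M R ρ Λ : ℝ} (hX : 2 ≤ X) (hz : 1 ≤ z) (hF : 1 ≤ F)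
    (hM : 0 ≤ M) (hR : 0 ≤ R) (hρ : 0 ≤ ρ) (hΛ : 0 ≤ Λ) {e : ℤ} {t : ℕ}
    (h1 : 1 ≤ e.natAbs * t) (h2 : e.natAbs * t ≤ X ^ 2) :
    ∑ x' ∈ Ioc 0 X, Bd z F M R ρ Λ e x' t ≤
      X * (R + ρ * (Λ + 1) + M * (Λ / F + 1) + 3 * M * (Λ + 1) * Real.log X / z) := by
  have hX0 : (2 : ℝ) ≤ X := by exact_mod_cast hX
  have hz0 : (1 : ℝ) ≤ z := by exact_mod_cast hz
  have hF0 : (1 : ℝ) ≤ F := by exact_mod_cast hF
  have hc := ha X z (e.natAbs * t) hX hz h1 h2
  set S := (Ioc 0 X).filter (fun x => ∃ p : ℕ, p.Prime ∧ z < p ∧ p ∣ e.natAbs * t ∧ p ∣ x)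
    with hS
  have hle : ∀ x' ∈ Ioc 0 X, Bd z F M R ρ Λ e x' t ≤
      (R + ρ * (Λ + 1) + M * (Λ / F + 1)) +
        (if ∃ p : ℕ, p.Prime ∧ z < p ∧ p ∣ e.natAbs * t ∧ p ∣ x' then M * (Λ + 1) else 0) := by
    intro x' _
    have n1 : 0 ≤ ρ * (Λ + 1) := by positivity
    have n2 : 0 ≤ M * (Λ / F + 1) := by positivity
    have n3 : 0 ≤ M * (Λ + 1) := by positivity
    unfold Bd
    split_ifs <;> linarith
  calc ∑ x' ∈ Ioc 0 X, Bd z F M R ρ Λ e x' t
      ≤ ∑ x' ∈ Ioc 0 X, ((R + ρ * (Λ + 1) + M * (Λ / F + 1)) +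
        (if ∃ p : ℕ, p.Prime ∧ z < p ∧ p ∣ e.natAbs * t ∧ p ∣ x' then M * (Λ + 1) else 0)) :=
        sum_le_sum hle
    _ = X * (R + ρ * (Λ + 1) + M * (Λ / F + 1)) + S.card * (M * (Λ + 1)) := by
        rw [sum_add_distrib, sum_const, Nat.card_Ioc, nsmul_eq_mul, Nat.sub_zero, ← sum_filter,
          sum_const, nsmul_eq_mul]
    _ ≤ X * (R + ρ * (Λ + 1) + M * (Λ / F + 1)) +
        (3 * Real.log X * X / z) * (M * (Λ + 1)) := by
        have n3 : 0 ≤ M * (Λ + 1) := by positivity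
        have := mul_le_mul_of_nonneg_right hc n3
        linarith
    _ = X * (R + ρ * (Λ + 1) + M * (Λ / F + 1) + 3 * M * (Λ + 1) * Real.log X / z) := by
        ring

theorem hOff (ha : StOme) : StOff := by
  intro X z F M R ρ Λ hX hz hF hM hR hρ hΛ
  set B := R + ρ * (Λ + 1) + M * (Λ / F + 1) + 3 * M * (Λ + 1) * Real.log X / z with hB
  have hX0 : (2 : ℝ) ≤ X := by exact_mod_cast hX
  have hB0 : 0 ≤ B := by
    have := Real.log_nonneg (show (1 : ℝ) ≤ X by linarith)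
    positivity
  have key : ∀ y ∈ Ioc 0 X, ∀ w ∈ Ioc 0 X, ∀ y' ∈ Ioc 0 X, ∀ w' ∈ Ioc 0 X,
      ∑ x' ∈ Ioc 0 X, ∑ e ∈ sdv (dlt y w y' w'),
        ∑ t ∈ (dlt y w y' w' / e).natAbs.divisors, Bd z F M R ρ Λ e x' t ≤
      2 * X * B * tau (dlt y w y' w') ^ 2 := by
    intro y hy w hw y' hy' w' hw'
    set δ := dlt y w y' w' with hδ
    have hδX := dltb_OFF hy hw hy' hw'
    rw [← hδ] at hδX
    have ht0 : 0 ≤ tau δ := by unfold tau; positivity
    rw [sum_comm]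
    have h1 : ∀ e ∈ sdv δ, ∑ x' ∈ Ioc 0 X, ∑ t ∈ (δ / e).natAbs.divisors, Bd z F M R ρ Λ e x' t ≤
        tau δ * (X * B) := by
      intro e he
      unfold sdv at he
      rw [mem_filter, mem_Icc] at he
      obtain ⟨⟨h1, h2⟩, h3, h4⟩ := he
      have hn : δ ≠ 0 := by
        intro h0
        rw [h0] at h1 h2
        simp only [abs_zero, neg_zero] at h1 h2
        exact h3 (le_antisymm h2 h1)
      obtain ⟨k, hk⟩ := h4
      have hdk : δ / e = k := by rw [hk]; exact Int.mul_ediv_cancel_left k h3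
      have hk0 : k ≠ 0 := by
        rintro rfl
        rw [mul_zero] at hk
        exact hn hk
      rw [sum_comm]
      have h5 : ∀ t ∈ (δ / e).natAbs.divisors, ∑ x' ∈ Ioc 0 X, Bd z F M R ρ Λ e x' t ≤ X * B := by
        intro t ht
        rw [hdk, Nat.mem_divisors] at ht
        refine bdsum_OFF ha hX hz hF hM hR hρ hΛ ?_ ?_
        · have t0 : 0 < t := Nat.pos_of_dvd_of_pos ht.1 (Nat.pos_of_ne_zero ht.2)
          have e0 : 0 < e.natAbs := Int.natAbs_pos.2 h3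
          exact Nat.mul_pos e0 t0
        · have h6 : e.natAbs * t ∣ δ.natAbs := by
            rw [hk, Int.natAbs_mul]
            exact Nat.mul_dvd_mul_left _ ht.1
          exact (Nat.le_of_dvd (Int.natAbs_pos.2 hn) h6).trans hδX
      refine (sum_le_sum h5).trans ?_
      rw [sum_const, nsmul_eq_mul]
      refine mul_le_mul_of_nonneg_right ?_ (by positivity)
      unfold tau
      have h6 : (δ / e).natAbs.divisors ⊆ δ.natAbs.divisors := by
        refine Nat.divisors_subset_of_dvd (by omega) ?_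
        rw [hdk, hk, Int.natAbs_mul]
        exact Dvd.intro_left _ rfl
      exact_mod_cast card_le_card h6
    refine (sum_le_sum h1).trans ?_
    rw [sum_const, nsmul_eq_mul]
    have h2 := sdvc_OFF δ
    calc ((sdv δ).card : ℝ) * (tau δ * (X * B)) ≤ 2 * tau δ * (tau δ * (X * B)) :=
          mul_le_mul_of_nonneg_right h2 (by positivity)
      _ = 2 * X * B * tau δ ^ 2 := by ring
  calc _ = ∑ y ∈ Ioc 0 X, ∑ w ∈ Ioc 0 X, ∑ y' ∈ Ioc 0 X, ∑ w' ∈ Ioc 0 X, ∑ x' ∈ Ioc 0 X,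
        ∑ e ∈ sdv (dlt y w y' w'), ∑ t ∈ (dlt y w y' w' / e).natAbs.divisors,
          Bd z F M R ρ Λ e x' t := by
        refine sum_congr rfl fun y _ => sum_congr rfl fun w _ => ?_
        rw [sum_comm]
        refine sum_congr rfl fun y' _ => ?_
        rw [sum_comm]
    _ ≤ ∑ y ∈ Ioc 0 X, ∑ w ∈ Ioc 0 X, ∑ y' ∈ Ioc 0 X, ∑ w' ∈ Ioc 0 X,
        2 * X * B * tau (dlt y w y' w') ^ 2 :=
        sum_le_sum fun y hy => sum_le_sum fun w hw => sum_le_sum fun y' hy' =>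
          sum_le_sum fun w' hw' => key y hy w hw y' hy' w' hw'
    _ = _ := by simp_rw [← mul_sum]

end Pool.Agent.Helper30.HX
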