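import Pool.Agent.Helper30.HX.StA

set_option autoImplicit false

namespace Pool.Agent.Helper30.HX

open Finset

theorem om_OME {q : ℕ} (hq : 1 ≤ q) : (2 : ℝ) ^ q.primeFactors.card ≤ q := by
  have h1 : ∏ p ∈ q.primeFactors, p ≤ q :=
    Nat.le_of_dvd hq (Nat.prod_primeFactors_dvd q)
  have h2 : ∏ _p ∈ q.primeFactors, 2 ≤ ∏ p ∈ q.primeFactors, p :=
    prod_le_prod (fun _ _ => by norm_num) fun p hp => (Nat.prime_of_mem_primeFactors hp).two_le
  rw [prod_const] at h2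
  exact_mod_cast h2.trans h1

open Classical in
theorem hOme : StOme := by
  intro X z q hX hz hq hqX
  have hX0 : (2 : ℝ) ≤ X := by exact_mod_cast hX
  have hz0 : (1 : ℝ) ≤ z := by exact_mod_cast hz
  set W := q.primeFactors.filter (fun p => z < p) with hW
  have hsub : (Ioc 0 X).filter (fun x => ∃ p : ℕ, p.Prime ∧ z < p ∧ p ∣ q ∧ p ∣ x) ⊆
      W.biUnion (fun p => (Ioc 0 X).filter (fun x => p ∣ x)) := by
    intro x hx
    rw [mem_filter] at hx
    obtain ⟨hx1, p, hp, hzp, hpq, hpx⟩ := hx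
    rw [mem_biUnion]
    refine ⟨p, ?_, ?_⟩
    · rw [hW, mem_filter, Nat.mem_primeFactors]
      exact ⟨⟨hp, hpq, by omega⟩, hzp⟩
    · rw [mem_filter]
      exact ⟨hx1, hpx⟩
  have h1 : ((((Ioc 0 X).filter
      (fun x => ∃ p : ℕ, p.Prime ∧ z < p ∧ p ∣ q ∧ p ∣ x)).card : ℕ) : ℝ) ≤
      ∑ p ∈ W, ((((Ioc 0 X).filter (fun x => p ∣ x)).card : ℕ) : ℝ) := by
    have := (card_le_card hsub).trans card_biUnion_le
    exact_mod_cast this
  have h2 : ∀ p ∈ W, ((((Ioc 0 X).filter (fun x => p ∣ x)).card : ℕ) : ℝ) ≤ (X : ℝ) / z := by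
    intro p hp
    rw [hW, mem_filter] at hp
    rw [Nat.Ioc_filter_dvd_card_eq_div]
    have h3 : ((X / p : ℕ) : ℝ) ≤ (X : ℝ) / p := Nat.cast_div_le
    refine h3.trans ?_
    have hzp : (z : ℝ) ≤ p := by exact_mod_cast hp.2.le
    exact div_le_div_of_nonneg_left (by linarith) (by linarith) hzp
  have h3 : (W.card : ℝ) ≤ 3 * Real.log X := by
    have hc : W.card ≤ q.primeFactors.card := card_le_card (filter_subset _ _)
    have h4 := om_OME hq
    have h5 : (2 : ℝ) ^ W.card ≤ (X : ℝ) ^ 2 := by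
      calc (2 : ℝ) ^ W.card ≤ 2 ^ q.primeFactors.card := pow_le_pow_right₀ (by norm_num) hc
        _ ≤ q := h4
        _ ≤ (X : ℝ) ^ 2 := by exact_mod_cast hqX
    have h6 := Real.log_le_log (by positivity) h5
    rw [Real.log_pow, Real.log_pow] at h6
    have h7 := Real.log_two_gt_d9
    have h8 : (W.card : ℝ) * 0.6931 ≤ W.card * Real.log 2 :=
      mul_le_mul_of_nonneg_left (by linarith) (Nat.cast_nonneg _)
    have h9 : 0 ≤ Real.log X := Real.log_nonneg (by linarith)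
    push_cast at h6
    have h10 : (W.card : ℝ) * 0.6931 ≤ 2 * Real.log X := by linarith
    nlinarith
  calc _ ≤ _ := h1
    _ ≤ ∑ p ∈ W, (X : ℝ) / z := sum_le_sum h2
    _ = W.card * ((X : ℝ) / z) := by rw [sum_const, nsmul_eq_mul]
    _ ≤ 3 * Real.log X * ((X : ℝ) / z) := mul_le_mul_of_nonneg_right h3 (by positivity)
    _ = 3 * Real.log X * X / z := by ring

end Pool.Agent.Helper30.HX
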