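import Pool.Agent.Helper30.HX.StT

/-!
# Project HX: module ONE (few bad triples at one height)
-/

set_option autoImplicit false

namespace Pool.Agent.Helper30.HX

open Finset
open Pool.Agent.Helper48.BK (th lz Vz Pz win AdN Admissible Solv Box)

/-- powers of the logarithm are smaller than the square root -/
theorem logpow_ONE (k : ℕ) : ∀ᶠ n : ℕ in Filter.atTop, Real.log (n : ℝ) ^ k ≤ √(n : ℝ) := by
  have h1 := isLittleO_log_rpow_rpow_atTop (k : ℝ) (by norm_num : (0 : ℝ) < 1 / 2)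
  have h2 := (h1.comp_tendsto (tendsto_natCast_atTop_atTop (R := ℝ))).def (by norm_num : (0:ℝ) < 1)
  filter_upwards [h2, Filter.eventually_ge_atTop 1] with n hn h1n
  simp only [Function.comp_apply, Real.norm_eq_abs, one_mul] at hn
  rw [Real.rpow_natCast, ← Real.sqrt_eq_rpow, abs_of_nonneg (Real.sqrt_nonneg _)] at hn
  exact (le_abs_self _).trans hn

theorem hOne (ha : StMT) (hb : StChb) (hc : StExc) (hd : StSiz) (he : StVB) (hf : StDB) :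
    StOne := by
  classical
  intro A
  obtain ⟨c₀, hc₀, B, hMT⟩ := ha
  set b : ℕ := 6 * A + 60 with hbdef
  set C : ℕ := B * (b + 1) + 2 * A + 10 with hCdef
  set ε : ℝ := min (c₀ ^ 2 / 432) (c₀ / 72) with hε
  have hε0 : 0 < ε := lt_min (by positivity) (by positivity)
  have hε1 : 108 * ε / c₀ ^ 2 ≤ 1 / 4 := by
    rw [div_le_iff₀ (by positivity)]
    have := min_le_left (c₀ ^ 2 / 432) (c₀ / 72)
    rw [← hε] at this
    linarith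
  have hε2 : 18 * ε / c₀ ≤ 1 / 4 := by
    rw [div_le_iff₀ (by positivity)]
    have := min_le_right (c₀ ^ 2 / 432) (c₀ / 72)
    rw [← hε] at this
    linarith
  obtain ⟨m₁, hm₁⟩ := hd A b C
  obtain ⟨m₂, hm₂⟩ := he A C ε hε0 (by omega)
  obtain ⟨m₃, hm₃⟩ := hf A C ε hε0
  have hlog : Filter.Tendsto (fun n : ℕ => Real.log (n : ℝ)) Filter.atTop Filter.atTop :=
    Real.tendsto_log_atTop.comp tendsto_natCast_atTop_atTop
  obtain ⟨m₄, hm₄⟩ := Filter.eventually_atTop.1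
    ((logpow_ONE (A + 3)).and (hlog.eventually_ge_atTop 4))
  refine ⟨C, max (max m₁ m₂) (max m₃ (max m₄ 1)), ?_⟩
  intro m lo H hm hPar
  have g1 : m₁ ≤ m := le_trans (le_trans (le_max_left _ _) (le_max_left _ _)) hm
  have g2 : m₂ ≤ m := le_trans (le_trans (le_max_right _ _) (le_max_left _ _)) hm
  have g3 : m₃ ≤ m := le_trans (le_trans (le_max_left _ _) (le_max_right _ _)) hm
  have g4 : m₄ ≤ m := le_trans (le_trans (le_trans (le_max_left _ _) (le_max_right _ _))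
    (le_max_right _ _)) hm
  have g5 : 1 ≤ m := le_trans (le_trans (le_trans (le_max_right _ _) (le_max_right _ _))
    (le_max_right _ _)) hm
  obtain ⟨z1, z2, z3, z4, z5, z6, z7, z8, z9, z10, z11, z12, z13, z14, z15, z16⟩ :=
    hm₁ m lo H g1 hPar
  have hVB := hm₂ m lo H g2 hPar
  have hDB := hm₃ m lo H g3 hPar
  obtain ⟨l1, l2⟩ := hm₄ m g4
  obtain ⟨p1, p2, p3, p4, p5⟩ := hPar
  set l : ℝ := Real.log m with hl
  have hl0 : 0 < l := by linarith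
  have hl1 : 1 ≤ l := by linarith
  have hmR : (1 : ℝ) ≤ m := by exact_mod_cast g5
  have hHR : (1 : ℝ) ≤ H := by exact_mod_cast z12
  have hloR : (1 : ℝ) ≤ lo := by exact_mod_cast p1
  have hsq : √(m : ℝ) ^ 2 = m := Real.sq_sqrt (by linarith)
  have hsq0 : 0 < √(m : ℝ) := Real.sqrt_pos.mpr (by linarith)
  -- the length `lam`
  set lam : ℝ := √(m : ℝ) / l ^ (A + 3) with hlam
  have hlam1 : 1 ≤ lam := by
    rw [hlam, le_div_iff₀ (by positivity), one_mul]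
    exact l1
  have hlam2 : lam ≤ m := by
    have h1 : lam ≤ √(m : ℝ) := div_le_self hsq0.le (one_le_pow₀ hl1)
    have h2 : √(m : ℝ) ≤ m := by
      rw [Real.sqrt_le_left (by linarith)]
      nlinarith
    exact h1.trans h2
  -- height
  have hHlow : (m : ℝ) * √(m : ℝ) * l ^ C ≤ H := by
    have h1 : ((m : ℝ) * √(m : ℝ) * l ^ C) ^ 2 ≤ (H : ℝ) ^ 2 := by
      calc ((m : ℝ) * √(m : ℝ) * l ^ C) ^ 2 = (m : ℝ) ^ 2 * √(m : ℝ) ^ 2 * (l ^ C) ^ 2 := by ring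
        _ = (m : ℝ) ^ 3 * (l ^ C) ^ 2 := by rw [hsq]; ring
        _ ≤ _ := p4
    exact (pow_le_pow_iff_left₀ (by positivity) (by linarith) (by norm_num)).1 h1
  have hzB : (zz b m : ℝ) ^ B ≤ l ^ (B * (b + 1)) := by
    calc (zz b m : ℝ) ^ B ≤ (l ^ (b + 1)) ^ B := by
          exact pow_le_pow_left₀ (by positivity) z9 B
      _ = l ^ (B * (b + 1)) := by rw [← pow_mul, mul_comm]
  have q1 : (m : ℝ) ^ 2 * (zz b m : ℝ) ^ B ≤ H * lam := by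
    calc (m : ℝ) ^ 2 * (zz b m : ℝ) ^ B ≤ (m : ℝ) ^ 2 * l ^ (B * (b + 1)) := by gcongr
      _ ≤ (m : ℝ) ^ 2 * l ^ (B * (b + 1) + A + 7) := by
          gcongr
          omega
      _ = ((m : ℝ) * √(m : ℝ) * l ^ C) * lam := by
          rw [hlam]
          rw [show C = B * (b + 1) + A + 7 + (A + 3) by omega, pow_add l (B * (b + 1) + A + 7)]
          field_simp
          rw [hsq]
      _ ≤ H * lam := by gcongr
  have q2 : (m : ℝ) ^ 3 * ((zz b m : ℝ) ^ B) ^ 2 ≤ (H : ℝ) ^ 2 := by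
    refine le_trans ?_ p4
    gcongr
    refine hzB.trans ?_
    exact pow_le_pow_right₀ hl1 (by omega)
  -- CHB
  have key := hb H (XX lo H) lo m (zz b m) lam (c₀ * (H : ℝ) ^ 2 / (m : ℝ) ^ 3)
    (ε * ((H : ℝ) ^ 4 / ((m : ℝ) ^ 3 * l ^ A))) (ε * ((H : ℝ) ^ 2 / l ^ A)) p1 (by positivity)
    (by
      intro a ha' b' hb' c hc' hAd hL
      rw [Finset.mem_Icc] at ha' hb' hc'
      refine hMT H (XX lo H) m (zz b m) a b' c 0 lam (by omega) (by omega) (by omega) ha'.2 hb'.2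
        hc'.2 hAd (by simp) z7 hlam1 hL q1 q2 ?_ ?_ ?_
      · exact z3.trans (Nat.mul_le_mul_right _ ha'.1)
      · exact z3.trans (Nat.mul_le_mul_right _ hb'.1)
      · exact z3.trans (Nat.mul_le_mul_right _ hc'.1))
    (by
      intro g hg k hk s₁ s₂ s₃ h1 h2 h3
      exact ⟨hVB g hg k hk s₁ s₂ s₃ h1 h2 h3, hDB g hg k hk s₁ s₂ s₃ h1 h2 h3⟩)
  have hexc := hc m lo lam p1 p2 hlam1 hlam2
  -- first bound
  have b1 : 108 * (ε * ((H : ℝ) ^ 4 / ((m : ℝ) ^ 3 * l ^ A))) /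
      (c₀ * (H : ℝ) ^ 2 / (m : ℝ) ^ 3) ^ 2 +
      18 * (ε * ((H : ℝ) ^ 2 / l ^ A)) / (c₀ * (H : ℝ) ^ 2 / (m : ℝ) ^ 3) ≤
      1 / 2 * ((m : ℝ) ^ 3 / l ^ A) := by
    have e1 : 108 * (ε * ((H : ℝ) ^ 4 / ((m : ℝ) ^ 3 * l ^ A))) /
      (c₀ * (H : ℝ) ^ 2 / (m : ℝ) ^ 3) ^ 2 = 108 * ε / c₀ ^ 2 * ((m : ℝ) ^ 3 / l ^ A) := by
      field_simp
    have e2 : 18 * (ε * ((H : ℝ) ^ 2 / l ^ A)) / (c₀ * (H : ℝ) ^ 2 / (m : ℝ) ^ 3) =
        18 * ε / c₀ * ((m : ℝ) ^ 3 / l ^ A) := by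
      field_simp
    rw [e1, e2]
    have h3 : (0 : ℝ) ≤ (m : ℝ) ^ 3 / l ^ A := by positivity
    calc 108 * ε / c₀ ^ 2 * ((m : ℝ) ^ 3 / l ^ A) + 18 * ε / c₀ * ((m : ℝ) ^ 3 / l ^ A)
        ≤ 1 / 4 * ((m : ℝ) ^ 3 / l ^ A) + 1 / 4 * ((m : ℝ) ^ 3 / l ^ A) := by gcongr
      _ = 1 / 2 * ((m : ℝ) ^ 3 / l ^ A) := by ring
  have b2 : 80 * (m : ℝ) ^ 3 * lam ^ 2 / lo ≤ 1 / 2 * ((m : ℝ) ^ 3 / l ^ A) := by
    have h1 : lam ^ 2 = m / (l ^ (A + 2) * l ^ (A + 4)) := by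
      rw [hlam, div_pow, hsq, ← pow_mul, ← pow_add]
      congr 2
      ring
    have h2 : (m : ℝ) / lo ≤ l ^ (A + 2) := by
      rw [div_le_iff₀ (by linarith)]
      linarith
    have h3 : (160 : ℝ) ≤ l ^ 4 := by
      calc (160 : ℝ) ≤ 4 ^ 4 := by norm_num
        _ ≤ l ^ 4 := by gcongr
    calc 80 * (m : ℝ) ^ 3 * lam ^ 2 / lo
        = 80 * (m : ℝ) ^ 3 * (m / lo) / (l ^ (A + 2) * l ^ (A + 4)) := by
          rw [h1]; field_simp
      _ ≤ 80 * (m : ℝ) ^ 3 * l ^ (A + 2) / (l ^ (A + 2) * l ^ (A + 4)) := by gcongr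
      _ = 80 * (m : ℝ) ^ 3 / (l ^ A * l ^ 4) := by
          rw [pow_add l A 4]
          field_simp
      _ ≤ 80 * (m : ℝ) ^ 3 / (l ^ A * 160) := by gcongr
      _ = 1 / 2 * ((m : ℝ) ^ 3 / l ^ A) := by
          field_simp
          norm_num
  -- union
  set S₁ : Set (ℕ × ℕ × ℕ) := {v ∈ (Icc lo m) ×ˢ (Icc lo m) ×ˢ (Icc lo m) |
    BadT H v.1 v.2.1 v.2.2 ∧ Lng v.1 v.2.1 v.2.2 lam} with hS₁
  set S₂ : Finset (ℕ × ℕ × ℕ) := ((Icc lo m) ×ˢ (Icc lo m) ×ˢ (Icc lo m)).filter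
    (fun v : ℕ × ℕ × ℕ => ¬ Lng v.1 v.2.1 v.2.2 lam) with hS₂
  have hfin : S₁.Finite := by
    refine Set.Finite.subset (Finset.finite_toSet ((Icc lo m) ×ˢ (Icc lo m) ×ˢ (Icc lo m))) ?_
    intro v hv
    exact hv.1
  have hsub : ({v ∈ (Icc lo m) ×ˢ (Icc lo m) ×ˢ (Icc lo m) | BadT H v.1 v.2.1 v.2.2} :
      Set (ℕ × ℕ × ℕ)) ⊆ S₁ ∪ (S₂ : Set (ℕ × ℕ × ℕ)) := by
    intro v hv
    by_cases hL : Lng v.1 v.2.1 v.2.2 lam
    · exact Or.inl ⟨hv.1, hv.2, hL⟩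
    · refine Or.inr ?_
      rw [hS₂, Finset.mem_coe, Finset.mem_filter]
      exact ⟨hv.1, hL⟩
  have hn1 := Set.ncard_le_ncard hsub (hfin.union (Finset.finite_toSet S₂))
  have hn2 := Set.ncard_union_le S₁ (S₂ : Set (ℕ × ℕ × ℕ))
  rw [Set.ncard_coe_finset] at hn2
  have hn3 : (((({v ∈ (Icc lo m) ×ˢ (Icc lo m) ×ˢ (Icc lo m) | BadT H v.1 v.2.1 v.2.2} :
      Set (ℕ × ℕ × ℕ)).ncard : ℕ) : ℝ)) ≤ (S₁.ncard : ℝ) + (S₂.card : ℝ) := by
    exact_mod_cast hn1.trans hn2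
  refine hn3.trans ?_
  have e3 : (S₁.ncard : ℝ) ≤ 1 / 2 * ((m : ℝ) ^ 3 / l ^ A) := key.trans b1
  have e4 : (S₂.card : ℝ) ≤ 1 / 2 * ((m : ℝ) ^ 3 / l ^ A) := by
    refine le_trans (le_of_eq ?_) (hexc.trans b2)
    rw [hS₂]
  linarith

end Pool.Agent.Helper30.HX
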