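import Pool.Agent.Helper30.HX.StA

/-!
# HX, module PAR: parametrisation of the primitive triples orthogonal to two vectors
-/

set_option autoImplicit false

namespace Pool.Agent.Helper30.HX

open Finset
open Pool.Agent.Helper48.BK (th lz Vz Pz win AdN)

theorem sg_mul_PAR {s : ℤ} (hs : Sg s) : s * s = 1 := by
  rcases hs with h | h <;> rw [h] <;> norm_num

theorem gcd3_sg_PAR {s₁ s₂ s₃ : ℤ} (h1 : Sg s₁) (h2 : Sg s₂) (h3 : Sg s₃) (a b c : ℤ) :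
    Int.gcd (s₁ * a) (Int.gcd (s₂ * b) (s₃ * c)) = Int.gcd a (Int.gcd b c) := by
  rcases h1 with h1 | h1 <;> rcases h2 with h2 | h2 <;> rcases h3 with h3 | h3 <;>
    subst h1 <;> subst h2 <;> subst h3 <;> simp [Int.gcd_neg, Int.neg_gcd]

theorem gcd3_nat_PAR (a b c : ℕ) :
    Int.gcd (a : ℤ) (Int.gcd (b : ℤ) (c : ℤ)) = Nat.gcd a (Nat.gcd b c) := by
  rw [Int.gcd_natCast_natCast, Int.gcd_natCast_natCast]

theorem bezout_PAR {s₁ s₂ s₃ : ℤ} (h1 : Sg s₁) (h2 : Sg s₂) (h3 : Sg s₃) (a b c : ℕ)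
    (h : Nat.gcd a (Nat.gcd b c) = 1) :
    ∃ r₁ r₂ r₃ : ℤ, r₁ * (s₁ * a) + r₂ * (s₂ * b) + r₃ * (s₃ * c) = 1 := by
  have e1 : ((Nat.gcd a (Nat.gcd b c) : ℕ) : ℤ) =
      a * Nat.gcdA a (Nat.gcd b c) + (Nat.gcd b c : ℕ) * Nat.gcdB a (Nat.gcd b c) :=
    Nat.gcd_eq_gcd_ab _ _
  have e2 : ((Nat.gcd b c : ℕ) : ℤ) = b * Nat.gcdA b c + c * Nat.gcdB b c :=
    Nat.gcd_eq_gcd_ab _ _
  rw [h] at e1
  refine ⟨s₁ * Nat.gcdA a (Nat.gcd b c), s₂ * (Nat.gcdA b c * Nat.gcdB a (Nat.gcd b c)),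
    s₃ * (Nat.gcdB b c * Nat.gcdB a (Nat.gcd b c)), ?_⟩
  have q1 := sg_mul_PAR h1
  have q2 := sg_mul_PAR h2
  have q3 := sg_mul_PAR h3
  have e3 : (1 : ℤ) = a * Nat.gcdA a (Nat.gcd b c) +
      (b * Nat.gcdA b c + c * Nat.gcdB b c) * Nat.gcdB a (Nat.gcd b c) := by
    rw [← e2]
    exact_mod_cast e1
  calc s₁ * Nat.gcdA a (Nat.gcd b c) * (s₁ * a) +
        s₂ * (Nat.gcdA b c * Nat.gcdB a (Nat.gcd b c)) * (s₂ * b) +
        s₃ * (Nat.gcdB b c * Nat.gcdB a (Nat.gcd b c)) * (s₃ * c)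
      = (s₁ * s₁) * (a * Nat.gcdA a (Nat.gcd b c)) +
        (s₂ * s₂) * (b * Nat.gcdA b c * Nat.gcdB a (Nat.gcd b c)) +
        (s₃ * s₃) * (c * Nat.gcdB b c * Nat.gcdB a (Nat.gcd b c)) := by ring
    _ = 1 := by
      rw [q1, q2, q3]
      linarith [e3]

theorem div_eq_PAR {e P V : ℤ} (he : e ≠ 0) (h : e * P = V) : V / e = P := by
  rw [← h]
  exact Int.mul_ediv_cancel_left P he

theorem hPar : StPar := by
  intro H lo m s₁ s₂ s₃ x y w x' y' w' h1 h2 h3 hlo hV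
  classical
  have q1 := sg_mul_PAR h1
  have q2 := sg_mul_PAR h2
  have q3 := sg_mul_PAR h3
  symm
  set V1 : ℤ := dlt y w y' w' with hV1
  set V2 : ℤ := (w : ℤ) * x' - x * w' with hV2
  set V3 : ℤ := (x : ℤ) * y' - y * x' with hV3
  have hV1' : V1 = (y : ℤ) * w' - w * y' := rfl
  have memB : ∀ e : ℤ, e ∈ (sdv V1).filter
      (fun e => Cnd H lo m s₁ s₂ s₃ x y w x' y' w' e) ↔
      ((-|V1| ≤ e ∧ e ≤ |V1|) ∧ e ≠ 0 ∧ e ∣ V1) ∧
      (e ∣ V2 ∧ e ∣ V3 ∧ Int.gcd (V1 / e) (Int.gcd (V2 / e) (V3 / e)) = 1 ∧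
        CA H lo m s₁ (V1 / e) x x' ∧ CA H lo m s₂ (V2 / e) y y' ∧ CA H lo m s₃ (V3 / e) w w') := by
    intro e
    rw [mem_filter, sdv, mem_filter, mem_Icc]
    exact Iff.rfl
  have memA : ∀ v : ℕ × ℕ × ℕ, v ∈ ((Icc lo m) ×ˢ (Icc lo m) ×ˢ (Icc lo m)).filter
      (fun v : ℕ × ℕ × ℕ => Trp H s₁ s₂ s₃ x y w x' y' w' v) ↔
      ((lo ≤ v.1 ∧ v.1 ≤ m) ∧ (lo ≤ v.2.1 ∧ v.2.1 ≤ m) ∧ (lo ≤ v.2.2 ∧ v.2.2 ≤ m)) ∧
      Trp H s₁ s₂ s₃ x y w x' y' w' v := by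
    intro v
    rw [mem_filter, mem_product, mem_product, mem_Icc, mem_Icc, mem_Icc]
  refine Finset.card_bij (fun e _ => ((s₁ * (V1 / e)).toNat, (s₂ * (V2 / e)).toNat,
    (s₃ * (V3 / e)).toNat)) ?_ ?_ ?_
  · intro e he
    obtain ⟨⟨_, he0, hd1⟩, hd2, hd3, hg, ⟨a1, a2, a3, a4⟩, ⟨b1, b2, b3, b4⟩, ⟨c1, c2, c3, c4⟩⟩ :=
      (memB e).1 he
    have p1 : (((s₁ * (V1 / e)).toNat : ℕ) : ℤ) = s₁ * (V1 / e) := Int.toNat_of_nonneg (by omega)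
    have p2 : (((s₂ * (V2 / e)).toNat : ℕ) : ℤ) = s₂ * (V2 / e) := Int.toNat_of_nonneg (by omega)
    have p3 : (((s₃ * (V3 / e)).toNat : ℕ) : ℤ) = s₃ * (V3 / e) := Int.toNat_of_nonneg (by omega)
    have m1 : e * (V1 / e) = V1 := Int.mul_ediv_cancel' hd1
    have m2 : e * (V2 / e) = V2 := Int.mul_ediv_cancel' hd2
    have m3 : e * (V3 / e) = V3 := Int.mul_ediv_cancel' hd3
    rw [memA]
    refine ⟨⟨⟨?_, ?_⟩, ⟨?_, ?_⟩, ⟨?_, ?_⟩⟩, ?_, ?_, ?_, ⟨?_, ?_⟩, ⟨?_, ?_⟩, ⟨?_, ?_⟩⟩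
    · show lo ≤ (s₁ * (V1 / e)).toNat
      omega
    · show (s₁ * (V1 / e)).toNat ≤ m
      omega
    · show lo ≤ (s₂ * (V2 / e)).toNat
      omega
    · show (s₂ * (V2 / e)).toNat ≤ m
      omega
    · show lo ≤ (s₃ * (V3 / e)).toNat
      omega
    · show (s₃ * (V3 / e)).toNat ≤ m
      omega
    · show Nat.gcd (s₁ * (V1 / e)).toNat (Nat.gcd (s₂ * (V2 / e)).toNat (s₃ * (V3 / e)).toNat) = 1
      rw [← gcd3_nat_PAR, p1, p2, p3, gcd3_sg_PAR h1 h2 h3, hg]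
    · show s₁ * (((s₁ * (V1 / e)).toNat : ℕ) * (x : ℤ)) + s₂ * (((s₂ * (V2 / e)).toNat : ℕ) * (y : ℤ))
        + s₃ * (((s₃ * (V3 / e)).toNat : ℕ) * (w : ℤ)) = 0
      rw [p1, p2, p3]
      apply mul_left_cancel₀ he0
      calc e * (s₁ * (s₁ * (V1 / e) * x) + s₂ * (s₂ * (V2 / e) * y) + s₃ * (s₃ * (V3 / e) * w))
          = (s₁ * s₁) * (e * (V1 / e)) * x + (s₂ * s₂) * (e * (V2 / e)) * y +
            (s₃ * s₃) * (e * (V3 / e)) * w := by ring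
        _ = e * 0 := by
          rw [q1, q2, q3, m1, m2, m3, hV1', hV2, hV3]
          ring
    · show s₁ * (((s₁ * (V1 / e)).toNat : ℕ) * (x' : ℤ)) +
        s₂ * (((s₂ * (V2 / e)).toNat : ℕ) * (y' : ℤ))
        + s₃ * (((s₃ * (V3 / e)).toNat : ℕ) * (w' : ℤ)) = 0
      rw [p1, p2, p3]
      apply mul_left_cancel₀ he0
      calc e * (s₁ * (s₁ * (V1 / e) * x') + s₂ * (s₂ * (V2 / e) * y') + s₃ * (s₃ * (V3 / e) * w'))
          = (s₁ * s₁) * (e * (V1 / e)) * x' + (s₂ * s₂) * (e * (V2 / e)) * y' +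
            (s₃ * s₃) * (e * (V3 / e)) * w' := by ring
        _ = e * 0 := by
          rw [q1, q2, q3, m1, m2, m3, hV1', hV2, hV3]
          ring
    · show Wn H (((s₁ * (V1 / e)).toNat : ℕ) : ℤ) x
      rw [p1]; exact a3
    · show Wn H (((s₁ * (V1 / e)).toNat : ℕ) : ℤ) x'
      rw [p1]; exact a4
    · show Wn H (((s₂ * (V2 / e)).toNat : ℕ) : ℤ) y
      rw [p2]; exact b3
    · show Wn H (((s₂ * (V2 / e)).toNat : ℕ) : ℤ) y'
      rw [p2]; exact b4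
    · show Wn H (((s₃ * (V3 / e)).toNat : ℕ) : ℤ) w
      rw [p3]; exact c3
    · show Wn H (((s₃ * (V3 / e)).toNat : ℕ) : ℤ) w'
      rw [p3]; exact c4
  · intro e he f hf hef
    obtain ⟨⟨_, he0, hd1⟩, hd2, hd3, hg, ⟨a1, a2, a3, a4⟩, _, _⟩ := (memB e).1 he
    obtain ⟨⟨_, hf0, hk1⟩, hk2, hk3, hk, ⟨b1, b2, b3, b4⟩, _, _⟩ := (memB f).1 hf
    have hh : (s₁ * (V1 / e)).toNat = (s₁ * (V1 / f)).toNat := congrArg Prod.fst hef
    have p1 : (((s₁ * (V1 / e)).toNat : ℕ) : ℤ) = s₁ * (V1 / e) := Int.toNat_of_nonneg (by omega)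
    have p2 : (((s₁ * (V1 / f)).toNat : ℕ) : ℤ) = s₁ * (V1 / f) := Int.toNat_of_nonneg (by omega)
    have p3 : s₁ * (V1 / e) = s₁ * (V1 / f) := by rw [← p1, ← p2, hh]
    have hs0 : s₁ ≠ 0 := by
      intro h0
      rw [h0] at q1
      norm_num at q1
    have p4 : V1 / e = V1 / f := mul_left_cancel₀ hs0 p3
    have m1 : e * (V1 / e) = V1 := Int.mul_ediv_cancel' hd1
    have m2 : f * (V1 / f) = V1 := Int.mul_ediv_cancel' hk1
    rw [← p4] at m2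
    have hne : V1 / e ≠ 0 := by
      intro h0
      rw [h0, mul_zero] at m1
      exact hV m1.symm
    exact mul_right_cancel₀ hne (m1.trans m2.symm)
  · rintro ⟨a, b, c⟩ hv
    obtain ⟨⟨⟨l1, l2⟩, ⟨l3, l4⟩, ⟨l5, l6⟩⟩, hg, e1, e2, ⟨w1, w2⟩, ⟨w3, w4⟩, ⟨w5, w6⟩⟩ :=
      (memA (a, b, c)).1 hv
    dsimp only at l1 l2 l3 l4 l5 l6 hg e1 e2 w1 w2 w3 w4 w5 w6
    obtain ⟨r₁, r₂, r₃, hr⟩ := bezout_PAR h1 h2 h3 a b c hg
    set P1 : ℤ := s₁ * a with hP1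
    set P2 : ℤ := s₂ * b with hP2
    set P3 : ℤ := s₃ * c with hP3
    have f1 : P1 * x + P2 * y + P3 * w = 0 := by
      rw [hP1, hP2, hP3]
      linarith [e1]
    have f2 : P1 * x' + P2 * y' + P3 * w' = 0 := by
      rw [hP1, hP2, hP3]
      linarith [e2]
    have g12 : P1 * V2 = P2 * V1 := by
      rw [hV2, hV1']
      linear_combination (-(w' : ℤ)) * f1 + (w : ℤ) * f2
    have g13 : P1 * V3 = P3 * V1 := by
      rw [hV3, hV1']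
      linear_combination (y' : ℤ) * f1 - (y : ℤ) * f2
    have g23 : P2 * V3 = P3 * V2 := by
      rw [hV3, hV2]
      linear_combination (-(x' : ℤ)) * f1 + (x : ℤ) * f2
    set e : ℤ := r₁ * V1 + r₂ * V2 + r₃ * V3 with he
    have k1 : e * P1 = V1 := by
      rw [he]
      linear_combination V1 * hr + r₂ * g12 + r₃ * g13
    have k2 : e * P2 = V2 := by
      rw [he]
      linear_combination V2 * hr - r₁ * g12 + r₃ * g23
    have k3 : e * P3 = V3 := by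
      rw [he]
      linear_combination V3 * hr - r₁ * g13 - r₂ * g23
    have he0 : e ≠ 0 := by
      intro h0
      rw [h0, zero_mul] at k1
      exact hV k1.symm
    have d1 : V1 / e = P1 := div_eq_PAR he0 k1
    have d2 : V2 / e = P2 := div_eq_PAR he0 k2
    have d3 : V3 / e = P3 := div_eq_PAR he0 k3
    have t1 : s₁ * P1 = a := by rw [hP1, ← mul_assoc, q1, one_mul]
    have t2 : s₂ * P2 = b := by rw [hP2, ← mul_assoc, q2, one_mul]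
    have t3 : s₃ * P3 = c := by rw [hP3, ← mul_assoc, q3, one_mul]
    have hdvd : e ∣ V1 := ⟨P1, k1.symm⟩
    have habs : |e| ≤ |V1| := by
      have := Int.natAbs_le_of_dvd_ne_zero hdvd hV
      rw [Int.abs_eq_natAbs, Int.abs_eq_natAbs]
      exact_mod_cast this
    refine ⟨e, ?_, ?_⟩
    · rw [memB, d1, d2, d3]
      refine ⟨⟨abs_le.1 habs, he0, hdvd⟩, ⟨P2, k2.symm⟩, ⟨P3, k3.symm⟩, ?_, ?_, ?_, ?_⟩
      · rw [hP1, hP2, hP3, gcd3_sg_PAR h1 h2 h3, gcd3_nat_PAR, hg]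
      · unfold CA
        rw [t1]
        exact ⟨by exact_mod_cast l1, by exact_mod_cast l2, w1, w2⟩
      · unfold CA
        rw [t2]
        exact ⟨by exact_mod_cast l3, by exact_mod_cast l4, w3, w4⟩
      · unfold CA
        rw [t3]
        exact ⟨by exact_mod_cast l5, by exact_mod_cast l6, w5, w6⟩
    · show ((s₁ * (V1 / e)).toNat, (s₂ * (V2 / e)).toNat, (s₃ * (V3 / e)).toNat) = (a, b, c)
      rw [d1, d2, d3, t1, t2, t3, Int.toNat_natCast, Int.toNat_natCast, Int.toNat_natCast]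

end Pool.Agent.Helper30.HX
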