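import Pool.Agent.Helper30.HX.StM

set_option autoImplicit false

/-!
# Project HX: module PER, the number of coefficient triples with a given relation
-/

namespace Pool.Agent.Helper30.HX

open Finset

/-- a set of numbers in `[1, m]` which are all congruent modulo `q` -/
lemma cls_PER (m q : ℕ) (S : Finset ℕ) (hS : ∀ c ∈ S, c ≤ m)
    (h : ∀ c ∈ S, ∀ c' ∈ S, c % q = c' % q) : S.card ≤ m / q + 1 := by
  have h1 : S.card ≤ (range (m / q + 1)).card := by
    apply Finset.card_le_card_of_injOn (fun c => c / q)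
    · intro c hc
      simp only [coe_range, Set.mem_Iio]
      exact Nat.lt_succ_of_le (Nat.div_le_div_right (hS c hc))
    · intro c hc c' hc' he
      have he' : c / q = c' / q := he
      have h2 := h c hc c' hc'
      rw [← Nat.div_add_mod c q, ← Nat.div_add_mod c' q, he', h2]
  simpa using h1

lemma mult_PER (m h : ℕ) (hh : 1 ≤ h) :
    ((Icc 1 m).filter (fun b => h ∣ b)).card ≤ m / h := by
  have h1 : ((Icc 1 m).filter (fun b => h ∣ b)).card ≤ (Icc 1 (m / h)).card := by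
    apply Finset.card_le_card_of_injOn (fun c => c / h)
    · intro c hc
      obtain ⟨h23, h4⟩ := Finset.mem_filter.mp hc
      obtain ⟨h2, h3⟩ := Finset.mem_Icc.mp h23
      exact Finset.mem_coe.mpr (Finset.mem_Icc.mpr
        ⟨Nat.div_pos (Nat.le_of_dvd h2 h4) hh, Nat.div_le_div_right h3⟩)
    · intro c hc c' hc' he
      have h4 := (Finset.mem_filter.mp hc).2
      have h5 := (Finset.mem_filter.mp hc').2
      have he' : c / h = c' / h := he
      rw [← Nat.div_mul_cancel h4, ← Nat.div_mul_cancel h5, he']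
  simpa using h1

lemma one_PER (x y t : ℤ) (hg : Int.gcd x (Int.gcd y t) = 1) (d : ℕ) (h1 : (d : ℤ) ∣ x)
    (h2 : (d : ℤ) ∣ y) (h3 : (d : ℤ) ∣ t) : d = 1 := by
  have h4 : (d : ℤ) ∣ (Int.gcd y t : ℤ) := Int.dvd_coe_gcd h2 h3
  have h5 : (d : ℤ) ∣ (Int.gcd x (Int.gcd y t) : ℤ) := Int.dvd_coe_gcd h1 h4
  rw [hg] at h5
  have h6 : d ∣ 1 := by exact_mod_cast h5
  exact Nat.dvd_one.mp h6

lemma core_PER (m : ℕ) (x y t : ℤ) (hx : x ≠ 0) (hg : Int.gcd x (Int.gcd y t) = 1) :
    (((((Icc 1 m) ×ˢ (Icc 1 m) ×ˢ (Icc 1 m)).filter (fun v : ℕ × ℕ × ℕ =>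
      (v.1 : ℤ) * x + v.2.1 * y = v.2.2 * t)).card : ℕ) : ℝ) ≤
      (m : ℝ) ^ 2 / |(x : ℝ)| + m := by
  classical
  obtain ⟨h, hh⟩ : ∃ h : ℕ, h = Int.gcd x t := ⟨_, rfl⟩
  have hh0 : 0 < h := by rw [hh]; exact Int.gcd_pos_of_ne_zero_left _ hx
  have hhx : (h : ℤ) ∣ x := by rw [hh]; exact Int.gcd_dvd_left x t
  have hht : (h : ℤ) ∣ t := by rw [hh]; exact Int.gcd_dvd_right x t
  obtain ⟨x', hx'⟩ := hhx
  obtain ⟨t', ht'⟩ := hht
  have hx0' : x' ≠ 0 := by
    rintro rfl
    exact hx (by rw [hx', mul_zero])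
  have hcop : IsCoprime x' t' := by
    have hb := Int.gcd_eq_gcd_ab x t
    rw [← hh] at hb
    refine ⟨Int.gcdA x t, Int.gcdB x t, ?_⟩
    have hne : (h : ℤ) ≠ 0 := by exact_mod_cast hh0.ne'
    apply mul_left_cancel₀ hne
    calc (h : ℤ) * (Int.gcdA x t * x' + Int.gcdB x t * t')
        = (h * x') * Int.gcdA x t + (h * t') * Int.gcdB x t := by ring
      _ = x * Int.gcdA x t + t * Int.gcdB x t := by rw [← hx', ← ht']
      _ = h * 1 := by rw [mul_one]; exact hb.symm
  have hyc : Nat.Coprime h y.natAbs := by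
    have hd1 : ((Nat.gcd h y.natAbs : ℕ) : ℤ) ∣ h := by
      exact_mod_cast Nat.gcd_dvd_left h y.natAbs
    have hd2 : ((Nat.gcd h y.natAbs : ℕ) : ℤ) ∣ y :=
      Int.natCast_dvd.mpr (Nat.gcd_dvd_right h y.natAbs)
    exact one_PER x y t hg _ (hd1.trans ⟨x', hx'⟩) hd2 (hd1.trans ⟨t', ht'⟩)
  obtain ⟨q, hq⟩ : ∃ q : ℕ, q = x'.natAbs := ⟨_, rfl⟩
  have hq0 : 0 < q := by rw [hq]; exact Int.natAbs_pos.mpr hx0'
  have hX : |(x : ℝ)| = (h : ℝ) * q := by
    rw [hx']
    push_cast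
    rw [abs_mul, Nat.abs_cast, hq, Nat.cast_natAbs]
    push_cast
    ring
  set S := ((Icc 1 m) ×ˢ (Icc 1 m) ×ˢ (Icc 1 m)).filter (fun v : ℕ × ℕ × ℕ =>
      (v.1 : ℤ) * x + v.2.1 * y = v.2.2 * t) with hS
  -- project away `a`
  set T := ((Icc 1 m).filter (fun b => h ∣ b)).biUnion (fun b =>
    ((Icc 1 m).filter (fun c : ℕ => x ∣ (c : ℤ) * t - b * y)).image (fun c => (b, c))) with hT
  have hST : S.card ≤ T.card := by
    apply Finset.card_le_card_of_injOn (fun v => v.2)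
    · intro v hv
      obtain ⟨hv1, hv2⟩ := Finset.mem_filter.mp hv
      obtain ⟨ha, hbc⟩ := Finset.mem_product.mp hv1
      obtain ⟨hb, hc⟩ := Finset.mem_product.mp hbc
      apply Finset.mem_coe.mpr
      refine Finset.mem_biUnion.mpr ⟨v.2.1, Finset.mem_filter.mpr ⟨hb, ?_⟩,
        Finset.mem_image.mpr ⟨v.2.2, Finset.mem_filter.mpr ⟨hc, ?_⟩, rfl⟩⟩
      · have h1 : (h : ℤ) ∣ (v.2.1 : ℤ) * y := by
          have e : (v.2.1 : ℤ) * y = h * (v.2.2 * t' - v.1 * x') := by
            have e1 : (v.2.1 : ℤ) * y = v.2.2 * t - v.1 * x := by linarith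
            rw [e1, ht', hx']; ring
          exact ⟨_, e⟩
        have h2 : h ∣ v.2.1 * y.natAbs := by
          have := Int.natCast_dvd.mp h1
          rwa [Int.natAbs_mul, Int.natAbs_natCast] at this
        exact hyc.dvd_of_dvd_mul_right h2
      · exact ⟨v.1, by linarith⟩
    · intro v hv v' hv' he
      obtain ⟨_, hv2⟩ := Finset.mem_filter.mp hv
      obtain ⟨_, hv2'⟩ := Finset.mem_filter.mp hv'
      have he' : v.2 = v'.2 := he
      rw [← he'] at hv2'
      have h1 : (v.1 : ℤ) * x = v'.1 * x := by linarith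
      have h2 : (v.1 : ℤ) = v'.1 := mul_right_cancel₀ hx h1
      exact Prod.ext (by exact_mod_cast h2) he'
  have hTc : T.card ≤ (m / h) * (m / q + 1) := by
    refine (Finset.card_biUnion_le).trans ?_
    refine (Finset.sum_le_card_nsmul _ _ (m / q + 1) ?_).trans ?_
    · intro b _
      refine (Finset.card_image_le).trans ?_
      apply cls_PER m q
      · intro c hc
        exact (Finset.mem_Icc.mp (Finset.mem_filter.mp hc).1).2
      · intro c hc c' hc'
        have h1 := (Finset.mem_filter.mp hc).2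
        have h2 := (Finset.mem_filter.mp hc').2
        have h3 : x ∣ ((c : ℤ) - c') * t := by
          have := dvd_sub h1 h2
          have e : (c : ℤ) * t - b * y - (c' * t - b * y) = (c - c') * t := by ring
          rwa [e] at this
        have h4 : x' ∣ ((c : ℤ) - c') * t' := by
          rw [hx', ht'] at h3
          have e : ((c : ℤ) - c') * (h * t') = h * (((c : ℤ) - c') * t') := by ring
          rw [e] at h3
          exact (mul_dvd_mul_iff_left (by exact_mod_cast hh0.ne')).mp h3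
        have h5 : x' ∣ (c : ℤ) - c' := hcop.dvd_of_dvd_mul_right h4
        have h6 : (q : ℤ) ∣ (c' : ℤ) - c := by
          rw [hq, Int.natAbs_dvd]
          have := (dvd_neg).mpr h5
          rwa [neg_sub] at this
        exact (Nat.modEq_iff_dvd.mpr h6)
    · rw [smul_eq_mul]
      exact Nat.mul_le_mul_right _ (mult_PER m h hh0)
  have hc1 : (S.card : ℝ) ≤ ((m / h : ℕ) : ℝ) * (((m / q : ℕ) : ℝ) + 1) := by
    have := hST.trans hTc
    exact_mod_cast this
  have hr1 : ((m / h : ℕ) : ℝ) ≤ (m : ℝ) / h := Nat.cast_div_le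
  have hr2 : ((m / q : ℕ) : ℝ) ≤ (m : ℝ) / q := Nat.cast_div_le
  have hh1 : (1 : ℝ) ≤ h := by exact_mod_cast hh0
  have hq1 : (0 : ℝ) < q := by exact_mod_cast hq0
  calc (S.card : ℝ) ≤ ((m / h : ℕ) : ℝ) * (((m / q : ℕ) : ℝ) + 1) := hc1
    _ ≤ ((m : ℝ) / h) * ((m : ℝ) / q + 1) := by
        apply mul_le_mul hr1 (by linarith) (by positivity) (by positivity)
    _ = (m : ℝ) ^ 2 / (h * q) + (m : ℝ) / h := by
        have : (0 : ℝ) < h := by linarith
        field_simp
    _ ≤ (m : ℝ) ^ 2 / |(x : ℝ)| + m := by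
        rw [hX]
        have : (m : ℝ) / h ≤ m := div_le_self (by positivity) hh1
        linarith

theorem hPer : StPer := by
  intro m x y t hm hxy hg
  by_cases hc : |(y : ℝ)| ≤ |(x : ℝ)|
  · have hx : x ≠ 0 := by
      rintro rfl
      apply hxy
      refine ⟨rfl, ?_⟩
      simpa using hc
    rw [max_eq_left hc]
    exact core_PER m x y t hx hg
  · push Not at hc
    have hy : y ≠ 0 := by
      rintro rfl
      have : (0 : ℝ) ≤ |(x : ℝ)| := abs_nonneg _
      simp at hc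
      linarith
    rw [max_eq_right hc.le]
    have hg' : Int.gcd y (Int.gcd x t) = 1 := by
      have h1 : ((Int.gcd y (Int.gcd x t) : ℕ) : ℤ) ∣ y := Int.gcd_dvd_left _ _
      have h2 : ((Int.gcd y (Int.gcd x t) : ℕ) : ℤ) ∣ (Int.gcd x t : ℤ) := Int.gcd_dvd_right _ _
      exact one_PER x y t hg _ (h2.trans (Int.gcd_dvd_left _ _)) h1
        (h2.trans (Int.gcd_dvd_right _ _))
    refine le_trans ?_ (core_PER m y x t hy hg')
    have : (((Icc 1 m) ×ˢ (Icc 1 m) ×ˢ (Icc 1 m)).filter (fun v : ℕ × ℕ × ℕ =>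
        (v.1 : ℤ) * x + v.2.1 * y = v.2.2 * t)).card ≤
        (((Icc 1 m) ×ˢ (Icc 1 m) ×ˢ (Icc 1 m)).filter (fun v : ℕ × ℕ × ℕ =>
        (v.1 : ℤ) * y + v.2.1 * x = v.2.2 * t)).card := by
      apply Finset.card_le_card_of_injOn (fun v => (v.2.1, v.1, v.2.2))
      · intro v hv
        obtain ⟨hv1, hv2⟩ := Finset.mem_filter.mp hv
        obtain ⟨ha, hbc⟩ := Finset.mem_product.mp hv1
        obtain ⟨hb, hc⟩ := Finset.mem_product.mp hbc
        exact Finset.mem_coe.mpr (Finset.mem_filter.mpr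
          ⟨Finset.mem_product.mpr ⟨hb, Finset.mem_product.mpr ⟨ha, hc⟩⟩, by
            show (v.2.1 : ℤ) * y + v.1 * x = v.2.2 * t
            linarith⟩)
      · intro v _ v' _ he
        simp only [Prod.mk.injEq] at he
        exact Prod.ext he.2.1 (Prod.ext he.1 he.2.2)
    exact_mod_cast this

end Pool.Agent.Helper30.HX
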