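import Pool.Agent.Helper30.HX.StA
import Pool.Agent.Helper48.BK.M_APZ

/-!
# Project HX, module PHI: the density of the model and `1/φ(q)`
-/

set_option autoImplicit false

namespace Pool.Agent.Helper30.HX

open Finset
open Pool.Agent.Helper48.BK

/-- `∏ (1 - 1/p)⁻¹ ≤ 1 + |S|` over a set of integers at least `2` -/
lemma prod_PHI (S : Finset ℕ) : (∀ p ∈ S, 2 ≤ p) →
    1 ≤ (1 + (S.card : ℝ)) * ∏ p ∈ S, (1 - 1 / (p : ℝ)) := by
  induction S using Finset.induction_on_max with
  | empty => simp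
  | insert a s ha ih =>
    intro h
    have hs : ∀ p ∈ s, 2 ≤ p := fun p hp => h p (Finset.mem_insert_of_mem hp)
    have h1 := ih hs
    have hna : a ∉ s := fun h' => lt_irrefl _ (ha a h')
    have ha2 : 2 ≤ a := h a (Finset.mem_insert_self a s)
    have hc : s.card + 2 ≤ a := by
      have h2 : s ⊆ Finset.Ico 2 a := fun p hp => Finset.mem_Ico.2 ⟨hs p hp, ha p hp⟩
      have h3 := Finset.card_le_card h2
      rw [Nat.card_Ico] at h3
      omega
    rw [Finset.prod_insert hna, Finset.card_insert_of_notMem hna]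
    have hP : 0 ≤ ∏ p ∈ s, (1 - 1 / (p : ℝ)) := Finset.prod_nonneg fun p hp => by
      have h4 : (2 : ℝ) ≤ p := by exact_mod_cast hs p hp
      rw [sub_nonneg, div_le_one (by linarith)]
      linarith
    have hcr : (s.card : ℝ) + 2 ≤ a := by exact_mod_cast hc
    have ha0 : (0 : ℝ) < a := by
      have : (0 : ℝ) ≤ s.card := Nat.cast_nonneg _
      linarith
    have h5 : 1 + (s.card : ℝ) ≤ (1 + ((s.card + 1 : ℕ) : ℝ)) * (1 - 1 / (a : ℝ)) := by
      push_cast
      have h6 : (1 + ((s.card : ℝ) + 1)) * (1 / (a : ℝ)) ≤ 1 := by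
        rw [mul_one_div, div_le_one ha0]
        linarith
      linarith
    calc (1 : ℝ) ≤ (1 + (s.card : ℝ)) * ∏ p ∈ s, (1 - 1 / (p : ℝ)) := h1
      _ ≤ ((1 + ((s.card + 1 : ℕ) : ℝ)) * (1 - 1 / (a : ℝ))) * ∏ p ∈ s, (1 - 1 / (p : ℝ)) :=
          mul_le_mul_of_nonneg_right h5 hP
      _ = _ := by ring

lemma one_sub_PHI (S : Finset ℕ) (a : ℕ → ℝ) (h0 : ∀ p ∈ S, 0 ≤ a p) (h1 : ∀ p ∈ S, a p ≤ 1) :
    1 - ∏ p ∈ S, (1 - a p) ≤ ∑ p ∈ S, a p := by
  induction S using Finset.induction_on with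
  | empty => simp
  | insert b s hb ih =>
    rw [Finset.prod_insert hb, Finset.sum_insert hb]
    have h2 := ih (fun p hp => h0 p (Finset.mem_insert_of_mem hp))
      (fun p hp => h1 p (Finset.mem_insert_of_mem hp))
    have hb0 := h0 b (Finset.mem_insert_self b s)
    have hP : ∏ p ∈ s, (1 - a p) ≤ 1 := Finset.prod_le_one
      (fun p hp => sub_nonneg.2 (h1 p (Finset.mem_insert_of_mem hp)))
      (fun p hp => by have := h0 p (Finset.mem_insert_of_mem hp); linarith)
    nlinarith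

lemma omega_PHI (q : ℕ) (hq : 1 ≤ q) : (q.primeFactors.card : ℝ) ≤ 2 * Real.log q := by
  have h1 : 2 ^ q.primeFactors.card ≤ q := by
    calc 2 ^ q.primeFactors.card ≤ ∏ p ∈ q.primeFactors, p :=
          Finset.pow_card_le_prod _ _ _ fun p hp => (Nat.prime_of_mem_primeFactors hp).two_le
      _ ≤ q := Nat.le_of_dvd hq (Nat.prod_primeFactors_dvd q)
  have h2 : ((2 : ℝ)) ^ q.primeFactors.card ≤ q := by exact_mod_cast h1
  have h3 := Real.log_le_log (by positivity) h2
  rw [Real.log_pow] at h3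
  have h4 := Real.log_two_gt_d9
  have h5 : (0 : ℝ) ≤ q.primeFactors.card := Nat.cast_nonneg _
  nlinarith

theorem hPhi : StPhi := by
  intro x z q hx hz hq hqx
  have hq0 : (0 : ℝ) < q := by exact_mod_cast hq
  have hz0 : (0 : ℝ) < z := by exact_mod_cast hz
  obtain ⟨W, hW⟩ : ∃ W : ℝ, W = ∏ p ∈ (Pz z).filter (fun p => ¬ p ∣ q), (1 - 1 / (p : ℝ)) :=
    ⟨_, rfl⟩
  obtain ⟨S, hS⟩ : ∃ S : ℝ, S = ∏ p ∈ q.primeFactors.filter (fun p => p ≤ z), (1 - 1 / (p : ℝ)) :=
    ⟨_, rfl⟩
  obtain ⟨T, hT⟩ : ∃ T : ℝ, T = ∏ p ∈ q.primeFactors.filter (fun p => ¬ p ≤ z), (1 - 1 / (p : ℝ)) :=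
    ⟨_, rfl⟩
  have hfac : ∀ p ∈ q.primeFactors, (0 : ℝ) < 1 - 1 / (p : ℝ) := by
    intro p hp
    have h1 : (1 : ℝ) < p := by exact_mod_cast (Nat.prime_of_mem_primeFactors hp).one_lt
    rw [sub_pos, div_lt_one (by linarith)]
    exact h1
  have hS0 : 0 < S := by
    rw [hS]
    exact Finset.prod_pos fun p hp => hfac p (Finset.mem_filter.1 hp).1
  have hT0 : 0 < T := by
    rw [hT]
    exact Finset.prod_pos fun p hp => hfac p (Finset.mem_filter.1 hp).1
  have hV : Vz z = S * W := by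
    have h2 : (Pz z).filter (fun p => p ∣ q) = q.primeFactors.filter (fun p => p ≤ z) := by
      ext p
      rw [Finset.mem_filter, mem_Pz_APZ, Finset.mem_filter, Nat.mem_primeFactors]
      constructor
      · rintro ⟨⟨h3, h4⟩, h5⟩
        exact ⟨⟨h4, h5, by omega⟩, h3⟩
      · rintro ⟨⟨h4, h5, _⟩, h3⟩
        exact ⟨⟨h3, h4⟩, h5⟩
    rw [hS, hW, ← h2, Vz, Finset.prod_filter_mul_prod_filter_not]
  have hφ : (Nat.totient q : ℝ) = q * (S * T) := by
    have h4 := Nat.totient_eq_mul_prod_factors q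
    have h5 : ((Nat.totient q : ℚ) : ℝ) = ((q * ∏ p ∈ q.primeFactors, (1 - (p : ℚ)⁻¹) : ℚ) : ℝ) := by
      rw [h4]
    push_cast at h5
    rw [h5, hS, hT, Finset.prod_filter_mul_prod_filter_not]
    congr 1
    exact Finset.prod_congr rfl fun p _ => by rw [one_div]
  have hVp := Vz_pos_APZ z
  have hW0 : W ≠ 0 := by
    intro h0
    rw [hV, h0, mul_zero] at hVp
    exact lt_irrefl _ hVp
  have hg : gz z q = 1 / (Nat.totient q : ℝ) * T := by
    unfold gz
    rw [← hW, hV, hφ]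
    field_simp
  have hω := omega_PHI q hq
  have hlog : Real.log q ≤ Real.log x := Real.log_le_log hq0 (by exact_mod_cast hqx)
  obtain ⟨w, hw⟩ : ∃ w : ℝ, w = (q.primeFactors.card : ℝ) := ⟨_, rfl⟩
  rw [← hw] at hω
  have hw0 : 0 ≤ w := by rw [hw]; exact Nat.cast_nonneg _
  have hT1 : 1 - T ≤ w / z := by
    rw [hT]
    refine (one_sub_PHI _ (fun p => 1 / (p : ℝ)) (fun p _ => by positivity) ?_).trans ?_
    · intro p hp
      have := hfac p (Finset.mem_filter.1 hp).1
      linarith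
    · calc ∑ p ∈ q.primeFactors.filter (fun p => ¬ p ≤ z), 1 / (p : ℝ)
          ≤ ∑ p ∈ q.primeFactors.filter (fun p => ¬ p ≤ z), 1 / (z : ℝ) := by
            refine Finset.sum_le_sum fun p hp => ?_
            have h6 := (Finset.mem_filter.1 hp).2
            have h7 : (z : ℝ) ≤ p := by exact_mod_cast (not_le.1 h6).le
            exact div_le_div_of_nonneg_left zero_le_one hz0 h7
        _ = ((q.primeFactors.filter (fun p => ¬ p ≤ z)).card : ℝ) * (1 / z) := by
            rw [Finset.sum_const, nsmul_eq_mul]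
        _ ≤ w * (1 / z) := by
            refine mul_le_mul_of_nonneg_right ?_ (by positivity)
            rw [hw]
            exact_mod_cast Finset.card_le_card (Finset.filter_subset _ _)
        _ = w / z := by ring
  have hT2 : T ≤ 1 := by
    rw [hT]
    refine Finset.prod_le_one (fun p hp => (hfac p (Finset.mem_filter.1 hp).1).le) fun p _ => ?_
    have : (0 : ℝ) ≤ 1 / (p : ℝ) := by positivity
    linarith
  have hφ1 : 1 / (Nat.totient q : ℝ) ≤ (1 + w) / q := by
    have h8 := prod_PHI q.primeFactors fun p hp => (Nat.prime_of_mem_primeFactors hp).two_le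
    rw [← hw, ← Finset.prod_filter_mul_prod_filter_not q.primeFactors (fun p => p ≤ z), ← hS,
      ← hT] at h8
    rw [hφ, div_le_div_iff₀ (by positivity) hq0]
    nlinarith
  have hφ0 : 0 ≤ 1 / (Nat.totient q : ℝ) := by positivity
  have heq : 1 / (Nat.totient q : ℝ) - gz z q = 1 / (Nat.totient q : ℝ) * (1 - T) := by
    rw [hg]; ring
  rw [heq, abs_of_nonneg (mul_nonneg hφ0 (by linarith))]
  calc 1 / (Nat.totient q : ℝ) * (1 - T) ≤ (1 + w) / q * (w / z) :=
        mul_le_mul hφ1 hT1 (by linarith) (by positivity)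
    _ = (1 + w) * w / (q * z) := by field_simp
    _ ≤ (1 + 2 * Real.log x) ^ 2 / (q * z) := by
        apply div_le_div_of_nonneg_right _ (by positivity)
        nlinarith

end Pool.Agent.Helper30.HX
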