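import Pool.Agent.Helper30.HX.StM

/-!
# Project HX: module PT (a solution near a given point)
-/

set_option autoImplicit false

namespace Pool.Agent.Helper30.HX

open Finset

theorem bezout_PT (a b c : ℕ) (d : ℤ) (h : Nat.gcd a (Nat.gcd b c) = 1) :
    ∃ x y t : ℤ, (a : ℤ) * x + b * y = c * t + d := by
  have h1 := Nat.gcd_eq_gcd_ab a (Nat.gcd b c)
  have h2 := Nat.gcd_eq_gcd_ab b c
  rw [h] at h1
  rw [h2] at h1
  refine ⟨d * Nat.gcdA a (Nat.gcd b c), d * (Nat.gcdA b c * Nat.gcdB a (Nat.gcd b c)),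
    -(d * (Nat.gcdB b c * Nat.gcdB a (Nat.gcd b c))), ?_⟩
  push_cast at h1
  linear_combination (-d) * h1

theorem fract_PT (s t u v : ℝ) :
    |-(Int.fract s * u) - Int.fract t * v| ≤ |u| + |v| := by
  have h1 := Int.fract_nonneg s
  have h2 := (Int.fract_lt_one s).le
  have h3 := Int.fract_nonneg t
  have h4 := (Int.fract_lt_one t).le
  calc |-(Int.fract s * u) - Int.fract t * v| ≤ |-(Int.fract s * u)| + |Int.fract t * v| :=
        abs_sub _ _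
    _ = Int.fract s * |u| + Int.fract t * |v| := by
        rw [abs_neg, abs_mul, abs_mul, abs_of_nonneg h1, abs_of_nonneg h3]
    _ ≤ 1 * |u| + 1 * |v| := by
        gcongr
    _ = |u| + |v| := by ring

theorem hPt : StPt := by
  intro a b c d u₁ u₂ u₃ v₁ v₂ v₃ P₁ P₂ hc hg hB
  obtain ⟨hu, hv, hdet, -⟩ := hB
  obtain ⟨x0, y0, t0, h0⟩ := bezout_PT a b c d hg
  have hD : ((u₁ : ℝ) * v₂ - u₂ * v₁) ≠ 0 := by
    have hc' : (c : ℤ) ≠ 0 := by exact_mod_cast (by omega : c ≠ 0)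
    have : (u₁ * v₂ - u₂ * v₁ : ℤ) ≠ 0 := by
      rcases hdet with h | h
      · rw [h]; exact hc'
      · rw [h]; exact neg_ne_zero.mpr hc'
    exact_mod_cast this
  set D : ℝ := (u₁ : ℝ) * v₂ - u₂ * v₁ with hDdef
  set s : ℝ := ((P₁ - x0) * v₂ - (P₂ - y0) * v₁) / D with hs
  set t : ℝ := ((P₂ - y0) * u₁ - (P₁ - x0) * u₂) / D with ht
  have e1 : P₁ - x0 = s * u₁ + t * v₁ := by
    rw [hs, ht]
    field_simp
    rw [hDdef]
    ring
  have e2 : P₂ - y0 = s * u₂ + t * v₂ := by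
    rw [hs, ht]
    field_simp
    rw [hDdef]
    ring
  refine ⟨x0 + ⌊s⌋ * u₁ + ⌊t⌋ * v₁, y0 + ⌊s⌋ * u₂ + ⌊t⌋ * v₂, t0 + ⌊s⌋ * u₃ + ⌊t⌋ * v₃, ?_, ?_, ?_⟩
  · linear_combination h0 + ⌊s⌋ * hu + ⌊t⌋ * hv
  · have h : (((x0 + ⌊s⌋ * u₁ + ⌊t⌋ * v₁ : ℤ) : ℝ)) - P₁ =
        -(Int.fract s * u₁) - Int.fract t * v₁ := by
      push_cast
      unfold Int.fract
      linear_combination -e1
    rw [h]
    exact fract_PT s t _ _
  · have h : (((y0 + ⌊s⌋ * u₂ + ⌊t⌋ * v₂ : ℤ) : ℝ)) - P₂ =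
        -(Int.fract s * u₂) - Int.fract t * v₂ := by
      push_cast
      unfold Int.fract
      linear_combination -e2
    rw [h]
    exact fract_PT s t _ _

end Pool.Agent.Helper30.HX
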