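import Pool.Agent.Helper30.HX.StM

/-!
# Project HX: the statement RES
-/

set_option autoImplicit false

namespace Pool.Agent.Helper30.HX

open Finset

private theorem cnt_RES (M S : ℕ) (hM : 1 ≤ M) (i₀ : ℤ) :
    |((((range S).filter (fun i : ℕ => (M : ℤ) ∣ (i : ℤ) - i₀)).card : ℕ) : ℝ) - (S : ℝ) / M| ≤ 1 := by
  have hM0 : (M : ℤ) ≠ 0 := by exact_mod_cast (by omega : M ≠ 0)
  obtain ⟨r, hr⟩ : ∃ r : ℕ, (r : ℤ) = i₀ % (M : ℤ) :=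
    ⟨(i₀ % (M : ℤ)).toNat, Int.toNat_of_nonneg (Int.emod_nonneg _ hM0)⟩
  have h1 : (range S).filter (fun i : ℕ => (M : ℤ) ∣ (i : ℤ) - i₀) =
      (range S).filter (fun i : ℕ => i ≡ r [MOD M]) := by
    refine filter_congr fun i _ => ?_
    have h2 : (M : ℤ) ∣ i₀ - (r : ℤ) := by
      rw [hr]
      exact Int.dvd_self_sub_emod
    rw [← Int.natCast_modEq_iff, Int.modEq_comm, Int.modEq_iff_dvd]
    constructor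
    · intro h
      have h3 := dvd_add h h2
      rwa [sub_add_sub_cancel] at h3
    · intro h
      have h3 := dvd_sub h h2
      have h4 : (i : ℤ) - r - (i₀ - r) = i - i₀ := by ring
      rwa [h4] at h3
  rw [h1, ← Nat.count_eq_card_filter_range, Nat.count_modEq_card S (by omega : 0 < M) r]
  have hMr : (0 : ℝ) < M := by exact_mod_cast (by omega : 0 < M)
  have h5 : ((S / M : ℕ) : ℝ) ≤ (S : ℝ) / M := Nat.cast_div_le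
  have h6 : (S : ℝ) / M < ((S / M : ℕ) : ℝ) + 1 := by
    rw [div_lt_iff₀ hMr]
    have h7 : S < (S / M + 1) * M := by
      have := Nat.lt_div_mul_add (a := S) (b := M) (by omega)
      nlinarith
    exact_mod_cast h7
  rw [abs_le]
  split_ifs
  · push_cast
    constructor <;> linarith
  · push_cast
    constructor <;> linarith

/-- the parameters in a residue class form one class -/
private theorem cls_RES (a b c M : ℕ) (d u₁ u₂ u₃ v₁ v₂ v₃ n₀ k₀ l₀ w₁ w₂ w₃ : ℤ) (hc : 1 ≤ c)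
    (hM : 1 ≤ M) (hg : Nat.gcd a (Nat.gcd b c) = 1) (hB : Bas a b c u₁ u₂ u₃ v₁ v₂ v₃)
    (hs : (a : ℤ) * n₀ + b * k₀ = c * l₀ + d) (hw : (M : ℤ) ∣ a * w₁ + b * w₂ - c * w₃ - d) :
    ∃ i₀ j₀ : ℤ, ∀ i j : ℤ, ((M : ℤ) ∣ n₀ + i * u₁ + j * v₁ - w₁ ∧
      (M : ℤ) ∣ k₀ + i * u₂ + j * v₂ - w₂ ∧ (M : ℤ) ∣ l₀ + i * u₃ + j * v₃ - w₃) ↔
      ((M : ℤ) ∣ i - i₀ ∧ (M : ℤ) ∣ j - j₀) := by
  obtain ⟨hu, hv, hdet, hspan⟩ := hB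
  have hM0 : (M : ℤ) ≠ 0 := by exact_mod_cast (by omega : M ≠ 0)
  have hc0 : (c : ℤ) ≠ 0 := by exact_mod_cast (by omega : c ≠ 0)
  obtain ⟨q₁, q₂, q₃, hq⟩ : ∃ q₁ q₂ q₃ : ℤ, q₁ * a + q₂ * b - q₃ * c = 1 := by
    have h1 := Nat.gcd_eq_gcd_ab b c
    have h2 := Nat.gcd_eq_gcd_ab a (Nat.gcd b c)
    rw [hg] at h2
    refine ⟨Nat.gcdA a (Nat.gcd b c), Nat.gcdB a (Nat.gcd b c) * Nat.gcdA b c,
      - (Nat.gcdB a (Nat.gcd b c) * Nat.gcdB b c), ?_⟩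
    rw [h1] at h2
    push_cast at h2
    linear_combination -h2
  obtain ⟨e, he⟩ := hw
  obtain ⟨i₀, j₀, h1, h2, h3⟩ := hspan (w₁ - n₀ - M * e * q₁) (w₂ - k₀ - M * e * q₂)
    (w₃ - l₀ - M * e * q₃) (by linear_combination he - hs - (M : ℤ) * e * hq)
  refine ⟨i₀, j₀, fun i j => ⟨?_, ?_⟩⟩
  · rintro ⟨⟨g₁, hg₁⟩, ⟨g₂, hg₂⟩, ⟨g₃, hg₃⟩⟩
    -- the quotient is in the lattice
    have e1 : (i - i₀) * u₁ + (j - j₀) * v₁ = M * (g₁ + e * q₁) := by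
      linear_combination hg₁ + h1
    have e2 : (i - i₀) * u₂ + (j - j₀) * v₂ = M * (g₂ + e * q₂) := by
      linear_combination hg₂ + h2
    have e3 : (i - i₀) * u₃ + (j - j₀) * v₃ = M * (g₃ + e * q₃) := by
      linear_combination hg₃ + h3
    obtain ⟨i₁, j₁, f1, f2, -⟩ := hspan (g₁ + e * q₁) (g₂ + e * q₂) (g₃ + e * q₃) (by
      have h4 : (M : ℤ) * ((a : ℤ) * (g₁ + e * q₁) + b * (g₂ + e * q₂)) =
          M * (c * (g₃ + e * q₃)) := by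
        linear_combination (i - i₀) * hu + (j - j₀) * hv - (a : ℤ) * e1 - b * e2 + c * e3
      exact mul_left_cancel₀ hM0 h4)
    have hdet0 : u₁ * v₂ - u₂ * v₁ ≠ 0 := by
      rcases hdet with h | h
      · rw [h]; exact hc0
      · rw [h]; exact neg_ne_zero.2 hc0
    rw [f1] at e1
    rw [f2] at e2
    have g1 : (u₁ * v₂ - u₂ * v₁) * ((i - i₀) - M * i₁) = 0 := by
      linear_combination v₂ * e1 - v₁ * e2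
    have g2 : (u₁ * v₂ - u₂ * v₁) * ((j - j₀) - M * j₁) = 0 := by
      linear_combination u₁ * e2 - u₂ * e1
    have g3 := (mul_eq_zero.1 g1).resolve_left hdet0
    have g4 := (mul_eq_zero.1 g2).resolve_left hdet0
    exact ⟨⟨i₁, by linarith⟩, ⟨j₁, by linarith⟩⟩
  · rintro ⟨⟨s, hs'⟩, ⟨t, ht'⟩⟩
    refine ⟨⟨s * u₁ + t * v₁ - e * q₁, ?_⟩, ⟨s * u₂ + t * v₂ - e * q₂, ?_⟩,
      ⟨s * u₃ + t * v₃ - e * q₃, ?_⟩⟩
    · linear_combination u₁ * hs' + v₁ * ht' - h1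
    · linear_combination u₂ * hs' + v₂ * ht' - h2
    · linear_combination u₃ * hs' + v₃ * ht' - h3

theorem hRes : StRes := by
  intro a b c M S₁ S₂ d u₁ u₂ u₃ v₁ v₂ v₃ n₀ k₀ l₀ w₁ w₂ w₃ hc hM hg hB hs hw
  obtain ⟨i₀, j₀, hij⟩ := cls_RES a b c M d u₁ u₂ u₃ v₁ v₂ v₃ n₀ k₀ l₀ w₁ w₂ w₃ hc hM hg hB hs hw
  have h1 : ((range S₁) ×ˢ (range S₂)).filter (fun t : ℕ × ℕ =>
      (M : ℤ) ∣ n₀ + t.1 * u₁ + t.2 * v₁ - w₁ ∧ (M : ℤ) ∣ k₀ + t.1 * u₂ + t.2 * v₂ - w₂ ∧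
      (M : ℤ) ∣ l₀ + t.1 * u₃ + t.2 * v₃ - w₃) =
      ((range S₁).filter (fun i : ℕ => (M : ℤ) ∣ (i : ℤ) - i₀)) ×ˢ
        ((range S₂).filter (fun j : ℕ => (M : ℤ) ∣ (j : ℤ) - j₀)) := by
    ext ⟨i, j⟩
    rw [mem_filter, mem_product, mem_product, mem_filter, mem_filter]
    have h2 := hij i j
    constructor
    · rintro ⟨⟨h3, h4⟩, h5⟩
      obtain ⟨h6, h7⟩ := h2.1 h5
      exact ⟨⟨h3, h6⟩, ⟨h4, h7⟩⟩
    · rintro ⟨⟨h3, h6⟩, ⟨h4, h7⟩⟩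
      exact ⟨⟨h3, h4⟩, h2.2 ⟨h6, h7⟩⟩
  rw [h1, card_product]
  have hM0 : (0 : ℝ) < M := by exact_mod_cast (by omega : 0 < M)
  have a1 := cnt_RES M S₁ hM i₀
  have a2 := cnt_RES M S₂ hM j₀
  set N₁ : ℝ := ((((range S₁).filter (fun i : ℕ => (M : ℤ) ∣ (i : ℤ) - i₀)).card : ℕ) : ℝ)
    with hN₁
  set N₂ : ℝ := ((((range S₂).filter (fun j : ℕ => (M : ℤ) ∣ (j : ℤ) - j₀)).card : ℕ) : ℝ)
    with hN₂
  have e0 : (((((range S₁).filter (fun i : ℕ => (M : ℤ) ∣ (i : ℤ) - i₀)).card *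
      ((range S₂).filter (fun j : ℕ => (M : ℤ) ∣ (j : ℤ) - j₀)).card : ℕ)) : ℝ) = N₁ * N₂ := by
    rw [Nat.cast_mul]
  rw [e0]
  have x0 : (0 : ℝ) ≤ (S₁ : ℝ) / M := by positivity
  have y0 : (0 : ℝ) ≤ (S₂ : ℝ) / M := by positivity
  have e1 : N₁ * N₂ - (S₁ : ℝ) * S₂ / (M : ℝ) ^ 2 =
      (N₁ - (S₁ : ℝ) / M) * (N₂ - (S₂ : ℝ) / M) + (N₁ - (S₁ : ℝ) / M) * ((S₂ : ℝ) / M) +
        ((S₁ : ℝ) / M) * (N₂ - (S₂ : ℝ) / M) := by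
    field_simp
    ring
  rw [e1]
  have b1 : |(N₁ - (S₁ : ℝ) / M) * (N₂ - (S₂ : ℝ) / M)| ≤ 1 := by
    rw [abs_mul]
    calc |N₁ - (S₁ : ℝ) / M| * |N₂ - (S₂ : ℝ) / M| ≤ 1 * 1 :=
          mul_le_mul a1 a2 (abs_nonneg _) zero_le_one
      _ = 1 := one_mul 1
  have b2 : |(N₁ - (S₁ : ℝ) / M) * ((S₂ : ℝ) / M)| ≤ (S₂ : ℝ) / M := by
    rw [abs_mul, abs_of_nonneg y0]
    calc |N₁ - (S₁ : ℝ) / M| * ((S₂ : ℝ) / M) ≤ 1 * ((S₂ : ℝ) / M) :=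
          mul_le_mul_of_nonneg_right a1 y0
      _ = (S₂ : ℝ) / M := one_mul _
  have b3 : |((S₁ : ℝ) / M) * (N₂ - (S₂ : ℝ) / M)| ≤ (S₁ : ℝ) / M := by
    rw [abs_mul, abs_of_nonneg x0]
    calc ((S₁ : ℝ) / M) * |N₂ - (S₂ : ℝ) / M| ≤ ((S₁ : ℝ) / M) * 1 :=
          mul_le_mul_of_nonneg_left a2 x0
      _ = (S₁ : ℝ) / M := mul_one _
  have b4 := abs_add_le ((N₁ - (S₁ : ℝ) / M) * (N₂ - (S₂ : ℝ) / M) +
    (N₁ - (S₁ : ℝ) / M) * ((S₂ : ℝ) / M)) (((S₁ : ℝ) / M) * (N₂ - (S₂ : ℝ) / M))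
  have b5 := abs_add_le ((N₁ - (S₁ : ℝ) / M) * (N₂ - (S₂ : ℝ) / M))
    ((N₁ - (S₁ : ℝ) / M) * ((S₂ : ℝ) / M))
  linarith

end Pool.Agent.Helper30.HX
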