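import Pool.Agent.Helper30.HX.StT
import Pool.Agent.Helper48.BK.M_Vz

/-! Project HX (MP_3923f3_nt), module SIZ -/

set_option autoImplicit false

namespace Pool.Agent.Helper30.HX

open Finset Filter
open Pool.Agent.Helper48.BK (th lz Vz Pz win AdN Admissible Solv Box)

theorem ev_log_SIZ (K : ℝ) : ∀ᶠ m : ℕ in atTop, K ≤ Real.log m :=
  (Real.tendsto_log_atTop.comp tendsto_natCast_atTop_atTop).eventually_ge_atTop K

theorem ev_pow_SIZ (n : ℕ) (K : ℝ) (hK : 0 < K) :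
    ∀ᶠ m : ℕ in atTop, K * Real.log m ^ n ≤ m := by
  have h1 : (fun x : ℝ => Real.log x ^ n) =o[atTop] (fun x : ℝ => x) := by
    exact Real.isLittleO_pow_log_id_atTop
  have h2 := h1.def (show (0 : ℝ) < 1 / K by positivity)
  have h3 : ∀ᶠ m : ℕ in atTop, ‖Real.log (m : ℝ) ^ n‖ ≤ 1 / K * ‖(m : ℝ)‖ :=
    tendsto_natCast_atTop_atTop.eventually h2
  filter_upwards [h3] with m hm
  rw [Real.norm_eq_abs, Real.norm_eq_abs, abs_of_nonneg (Nat.cast_nonneg m : (0 : ℝ) ≤ (m : ℝ))] at hm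
  have h4 : Real.log (m : ℝ) ^ n ≤ 1 / K * m := (le_abs_self _).trans hm
  calc K * Real.log (m : ℝ) ^ n ≤ K * (1 / K * m) := mul_le_mul_of_nonneg_left h4 hK.le
    _ = m := by field_simp

theorem ev_loglog_SIZ (K : ℝ) (hK : 0 < K) :
    ∀ᶠ m : ℕ in atTop, K * Real.log (Real.log m) ≤ Real.log m := by
  have h1 := Real.isLittleO_log_id_atTop.def (show (0 : ℝ) < 1 / K by positivity)
  have h2 : ∀ᶠ m : ℕ in atTop, ‖Real.log (Real.log (m : ℝ))‖ ≤ 1 / K * ‖id (Real.log (m : ℝ))‖ :=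
    (Real.tendsto_log_atTop.comp tendsto_natCast_atTop_atTop).eventually h1
  filter_upwards [h2, ev_log_SIZ 1] with m hm hm1
  rw [Real.norm_eq_abs, Real.norm_eq_abs, id, abs_of_nonneg (by linarith : 0 ≤ Real.log (m : ℝ))]
    at hm
  have h4 : Real.log (Real.log (m : ℝ)) ≤ 1 / K * Real.log m := (le_abs_self _).trans hm
  calc K * Real.log (Real.log (m : ℝ)) ≤ K * (1 / K * Real.log m) :=
        mul_le_mul_of_nonneg_left h4 hK.le
    _ = Real.log m := by field_simp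

theorem hSiz : StSiz := by
  intro A b C
  obtain ⟨c, hc, hV⟩ := Pool.Agent.Helper48.BK.hVz
  have hev := (ev_log_SIZ 3).and ((ev_log_SIZ (2 ^ (b + 2))).and
    ((ev_loglog_SIZ (((b : ℝ) + 1) / c) (by positivity)).and
    ((ev_pow_SIZ (2 * (C + A + 2)) 576 (by norm_num)).and
    ((ev_pow_SIZ (2 * (b + 1)) 1 (by norm_num)).and
    ((ev_pow_SIZ (2 * C) 4 (by norm_num)).and (eventually_ge_atTop 3))))))
  obtain ⟨m₀, hm₀⟩ := eventually_atTop.1 hev
  refine ⟨m₀, fun m lo H hm hP => ?_⟩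
  obtain ⟨hl3, hl2, hll, hp1, hp2, hp3, hm3⟩ := hm₀ m hm
  obtain ⟨hlo1, hlom, hmlo, hH1, hH2⟩ := hP
  set l := Real.log (m : ℝ) with hl
  have hm0 : (3 : ℝ) ≤ m := by exact_mod_cast hm3
  have hlo0 : (1 : ℝ) ≤ lo := by exact_mod_cast hlo1
  have hlomR : (lo : ℝ) ≤ m := by exact_mod_cast hlom
  have hH0 : (0 : ℝ) ≤ H := Nat.cast_nonneg H
  have hlC : 1 ≤ l ^ C := one_le_pow₀ (by linarith)
  have hlC2 : 1 ≤ (l ^ C) ^ 2 := one_le_pow₀ hlC
  -- `m ^ 3 ≤ H ^ 2`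
  have hmH : (m : ℝ) ^ 3 ≤ (H : ℝ) ^ 2 := by
    have h3 : (m : ℝ) ^ 3 * 1 ≤ (m : ℝ) ^ 3 * (l ^ C) ^ 2 :=
      mul_le_mul_of_nonneg_left hlC2 (by positivity)
    linarith
  have hmH' : (m : ℝ) ≤ H := by
    have h3 : (m : ℝ) ^ 2 ≤ (H : ℝ) ^ 2 := by nlinarith [sq_nonneg (m : ℝ)]
    exact (abs_le_of_sq_le_sq' h3 hH0).2 |>.trans le_rfl
  have hloH : (lo : ℝ) ≤ H := hlomR.trans hmH'
  -- `X`
  set X := XX lo H with hX
  have hXdef : X = 11 * H / lo + 1 := rfl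
  have hXlo : 11 * H ≤ lo * X := by
    rw [hXdef]
    exact (Nat.lt_mul_div_succ (11 * H) hlo1).le
  have hXloR : 11 * (H : ℝ) ≤ lo * X := by exact_mod_cast hXlo
  have hXup : (X : ℝ) ≤ 12 * H / lo := by
    rw [hXdef]
    push_cast
    have h3 : ((11 * H / lo : ℕ) : ℝ) ≤ (11 * H : ℕ) / (lo : ℝ) := Nat.cast_div_le
    push_cast at h3
    have h4 : (12 * (H : ℝ)) / lo = 11 * H / lo + H / lo := by ring
    have h5 : (1 : ℝ) ≤ H / lo := by rw [le_div_iff₀ (by linarith)]; linarith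
    rw [h4]
    linarith
  have hX0 : (0 : ℝ) ≤ X := Nat.cast_nonneg X
  have hX3 : 3 ≤ X := by
    have h3 : 2 ≤ 11 * H / lo := by
      rw [Nat.le_div_iff_mul_le hlo1]
      have : lo ≤ H := by exact_mod_cast hloH
      omega
    omega
  -- `m ≤ X ^ 2`
  have hmX : (m : ℝ) ≤ (X : ℝ) ^ 2 := by
    have h3 : 11 * (H : ℝ) ≤ m * X := hXloR.trans (mul_le_mul_of_nonneg_right hlomR hX0)
    have h4 : (H : ℝ) ≤ m * X := by linarith
    have h5 : (H : ℝ) ^ 2 ≤ (m * X) ^ 2 := pow_le_pow_left₀ hH0 h4 2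
    have h6 : (m : ℝ) ^ 3 ≤ (m * X) ^ 2 := hmH.trans h5
    have h7 : (m : ℝ) ^ 2 * m ≤ (m : ℝ) ^ 2 * (X : ℝ) ^ 2 := by nlinarith
    exact le_of_mul_le_mul_left h7 (by positivity)
  -- `X ≤ m`
  have hXm : (X : ℝ) ≤ m := by
    have h3 : (X : ℝ) * lo ≤ 12 * H := by
      rw [le_div_iff₀ (by linarith)] at hXup
      exact hXup
    have hlA : 0 ≤ l ^ (A + 2) := pow_nonneg (by linarith) _
    have h4 : (X : ℝ) * m ≤ 12 * H * l ^ (A + 2) := by
      calc (X : ℝ) * m ≤ X * (lo * l ^ (A + 2)) := mul_le_mul_of_nonneg_left hmlo hX0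
        _ = (X * lo) * l ^ (A + 2) := by ring
        _ ≤ 12 * H * l ^ (A + 2) := mul_le_mul_of_nonneg_right h3 hlA
    have h5 : ((X : ℝ) * m) ^ 2 ≤ (12 * H * l ^ (A + 2)) ^ 2 :=
      pow_le_pow_left₀ (by positivity) h4 2
    have h6 : (12 * (H : ℝ) * l ^ (A + 2)) ^ 2 ≤ (m : ℝ) ^ 3 * (576 * l ^ (2 * (C + A + 2))) := by
      have h7 : (12 * (H : ℝ) * l ^ (A + 2)) ^ 2 = 144 * (l ^ (A + 2)) ^ 2 * (H : ℝ) ^ 2 := by ring
      have h8 : (m : ℝ) ^ 3 * (576 * l ^ (2 * (C + A + 2))) =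
          144 * (l ^ (A + 2)) ^ 2 * (4 * (m : ℝ) ^ 3 * (l ^ C) ^ 2) := by
        rw [show 2 * (C + A + 2) = (A + 2) * 2 + C * 2 by ring, pow_add, pow_mul, pow_mul]
        ring
      rw [h7, h8]
      exact mul_le_mul_of_nonneg_left hH2 (by positivity)
    have h9 : ((X : ℝ) * m) ^ 2 ≤ (m : ℝ) ^ 3 * m :=
      h5.trans (h6.trans (mul_le_mul_of_nonneg_left hp1 (by positivity)))
    have h10 : (X : ℝ) ^ 2 ≤ (m : ℝ) ^ 2 := by
      have h11 : (m : ℝ) ^ 2 * (X : ℝ) ^ 2 ≤ (m : ℝ) ^ 2 * (m : ℝ) ^ 2 := by nlinarith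
      exact le_of_mul_le_mul_left h11 (by positivity)
    exact (abs_le_of_sq_le_sq' h10 (by linarith)).2
  have hXpos : (0 : ℝ) < X := by
    have : (3 : ℝ) ≤ X := by exact_mod_cast hX3
    linarith
  have hlX1 : l ≤ 2 * Real.log X := by
    have h3 := Real.log_le_log (by linarith : (0 : ℝ) < m) hmX
    rw [Real.log_pow] at h3
    exact_mod_cast h3
  have hlX2 : Real.log X ≤ l := Real.log_le_log hXpos hXm
  -- `z`
  set z := zz b m with hz
  have hzdef : z = ⌈l ^ b⌉₊ + 1 := rfl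
  have hlb : 0 < l ^ b := pow_pos (by linarith) _
  have hlb1 : 1 ≤ l ^ b := one_le_pow₀ (by linarith)
  have hz2 : 2 ≤ z := by
    have : 1 ≤ ⌈l ^ b⌉₊ := Nat.one_le_ceil_iff.2 hlb
    omega
  have hzl : l ^ b ≤ z := by
    rw [hzdef]
    push_cast
    linarith [Nat.le_ceil (l ^ b)]
  have hzu : (z : ℝ) ≤ l ^ (b + 1) := by
    rw [hzdef]
    push_cast
    have h3 := Nat.ceil_lt_add_one hlb.le
    have h4 : l ^ (b + 1) = l ^ b * l := pow_succ _ _
    have h5 : l ^ b * 3 ≤ l ^ b * l := mul_le_mul_of_nonneg_left hl3 hlb.le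
    rw [h4]
    linarith
  have hzX : (z : ℝ) ≤ Real.log X ^ (b + 2) := by
    have h3 : 0 ≤ Real.log X := by linarith
    have h4 : (2 : ℝ) ^ (b + 1) ≤ Real.log X := by
      have : (2 : ℝ) ^ (b + 2) = 2 * 2 ^ (b + 1) := by ring
      linarith
    calc (z : ℝ) ≤ l ^ (b + 1) := hzu
      _ ≤ (2 * Real.log X) ^ (b + 1) := pow_le_pow_left₀ (by linarith) hlX1 _
      _ = 2 ^ (b + 1) * Real.log X ^ (b + 1) := mul_pow _ _ _
      _ ≤ Real.log X * Real.log X ^ (b + 1) := mul_le_mul_of_nonneg_right h4 (by positivity)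
      _ = Real.log X ^ (b + 2) := by ring
  have hzm : z * m ≤ 4 * H := by
    have h3 : ((z : ℝ) * m) ^ 2 ≤ (H : ℝ) ^ 2 := by
      calc ((z : ℝ) * m) ^ 2 ≤ (l ^ (b + 1) * m) ^ 2 :=
            pow_le_pow_left₀ (by positivity) (mul_le_mul_of_nonneg_right hzu (by linarith)) 2
        _ = (m : ℝ) ^ 2 * (1 * l ^ (2 * (b + 1))) := by
            rw [show 2 * (b + 1) = (b + 1) * 2 by ring, pow_mul]
            ring
        _ ≤ (m : ℝ) ^ 2 * m := mul_le_mul_of_nonneg_left hp2 (by positivity)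
        _ = (m : ℝ) ^ 3 := by ring
        _ ≤ (H : ℝ) ^ 2 := hmH
    have h4 : (z : ℝ) * m ≤ H := (abs_le_of_sq_le_sq' h3 hH0).2
    have h5 : ((z * m : ℕ) : ℝ) ≤ ((4 * H : ℕ) : ℝ) := by
      push_cast
      linarith
    exact_mod_cast h5
  have hHm : H ≤ m ^ 2 := by
    have h3 : (H : ℝ) ^ 2 ≤ ((m : ℝ) ^ 2) ^ 2 := by
      calc (H : ℝ) ^ 2 ≤ 4 * (m : ℝ) ^ 3 * (l ^ C) ^ 2 := hH2
        _ = (m : ℝ) ^ 3 * (4 * l ^ (2 * C)) := by
            rw [show 2 * C = C * 2 by ring, pow_mul]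
            ring
        _ ≤ (m : ℝ) ^ 3 * m := mul_le_mul_of_nonneg_left hp3 (by positivity)
        _ = ((m : ℝ) ^ 2) ^ 2 := by ring
    have h4 : (H : ℝ) ≤ (m : ℝ) ^ 2 := (abs_le_of_sq_le_sq' h3 (by positivity)).2
    exact_mod_cast h4
  refine ⟨hX3, by exact_mod_cast hXm, hXlo, hXup, hlX1, hlX2, hz2, hzl, hzu, hzX, hzm, ?_, hHm,
    by linarith, ?_, ?_⟩
  · have : (1 : ℝ) ≤ H := by linarith
    exact_mod_cast this
  · intro x hx
    unfold th
    split_ifs with hp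
    · have h3 : (1 : ℝ) ≤ x := by exact_mod_cast hp.one_lt.le
      have h4 : (x : ℝ) ≤ X := by exact_mod_cast hx
      rw [abs_of_nonneg (Real.log_nonneg h3)]
      exact (Real.log_le_log (by linarith) h4).trans hlX2
    · rw [abs_zero]
      linarith
  · intro x _
    have h1z : (1 : ℝ) < z := by
      have : (2 : ℝ) ≤ z := by exact_mod_cast hz2
      linarith
    have hlz : 0 < Real.log z := Real.log_pos h1z
    have hV1 := hV z hz2
    have hV0 : 0 < Vz z := lt_of_lt_of_le (by positivity) hV1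
    have h3 : 1 / Vz z ≤ Real.log z / c := by
      rw [div_le_div_iff₀ hV0 hc, one_mul]
      rw [div_le_iff₀ hlz] at hV1
      linarith
    have h4 : Real.log z ≤ ((b : ℝ) + 1) * Real.log l := by
      have h5 := Real.log_le_log (by linarith : (0 : ℝ) < z) hzu
      rw [Real.log_pow] at h5
      push_cast at h5
      exact h5
    have h6 : Real.log z / c ≤ l := by
      have h7 : Real.log z / c ≤ ((b : ℝ) + 1) * Real.log l / c := by
        apply div_le_div_of_nonneg_right h4 hc.le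
      have h8 : ((b : ℝ) + 1) * Real.log l / c = ((b : ℝ) + 1) / c * Real.log l := by ring
      linarith
    unfold lz
    split_ifs
    · rw [abs_of_nonneg (by positivity)]
      linarith
    · rw [abs_zero]
      linarith

end Pool.Agent.Helper30.HX
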