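import Pool.Agent.Helper30.HX.StA

/-!
# Project HX: TAU, moments of the divisor function
-/

set_option autoImplicit false

namespace Pool.Agent.Helper30.HX

open Finset
open Pool.Agent.Helper48.BK (th lz Vz Pz win AdN)
open scoped Pointwise

lemma card_divisors_mul_TAU (d k : ℕ) :
    ((d * k).divisors.card : ℝ) ≤ (d.divisors.card : ℝ) * (k.divisors.card : ℝ) := by
  rw [Nat.divisors_mul]
  exact_mod_cast Finset.card_mul_le

lemma sum_multiples_TAU (F : ℕ → ℝ) (X d : ℕ) (hd : 1 ≤ d) :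
    ∑ h ∈ (Icc 1 X).filter (fun h => d ∣ h), F h = ∑ k ∈ Icc 1 (X / d), F (d * k) := by
  symm
  refine Finset.sum_nbij' (fun k => d * k) (fun h => h / d) ?_ ?_ ?_ ?_ ?_
  · intro k hk
    rw [mem_Icc] at hk
    rw [mem_filter, mem_Icc]
    refine ⟨⟨Nat.mul_pos hd hk.1, ?_⟩, Dvd.intro k rfl⟩
    calc d * k ≤ d * (X / d) := Nat.mul_le_mul_left d hk.2
      _ ≤ X := Nat.mul_div_le X d
  · intro h hh
    rw [mem_filter, mem_Icc] at hh
    rw [mem_Icc]
    obtain ⟨⟨h1, h2⟩, k, rfl⟩ := hh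
    rw [Nat.mul_div_cancel_left k hd]
    refine ⟨?_, ?_⟩
    · rcases Nat.eq_zero_or_pos k with h3 | h3
      · rw [h3, mul_zero] at h1
        omega
      · exact h3
    · rw [Nat.le_div_iff_mul_le hd, mul_comm]
      exact h2
  · intro k _
    exact Nat.mul_div_cancel_left k hd
  · intro h hh
    rw [mem_filter] at hh
    exact Nat.mul_div_cancel' hh.2
  · intro k _
    rfl

lemma sum_tau_TAU (F : ℕ → ℝ) (X : ℕ) :
    ∑ h ∈ Icc 1 X, (h.divisors.card : ℝ) * F h =
      ∑ d ∈ Icc 1 X, ∑ k ∈ Icc 1 (X / d), F (d * k) := by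
  have h1 : ∀ h ∈ Icc 1 X, (h.divisors.card : ℝ) * F h =
      ∑ d ∈ Icc 1 X, if d ∣ h then F h else 0 := by
    intro h hh
    rw [mem_Icc] at hh
    rw [← Finset.sum_filter, Finset.sum_const, nsmul_eq_mul]
    congr 2
    congr 1
    ext d
    rw [Nat.mem_divisors, mem_filter, mem_Icc]
    constructor
    · rintro ⟨h2, h3⟩
      exact ⟨⟨Nat.pos_of_dvd_of_pos h2 (by omega), (Nat.le_of_dvd (by omega) h2).trans hh.2⟩, h2⟩
    · rintro ⟨-, h2⟩
      exact ⟨h2, by omega⟩
  rw [Finset.sum_congr rfl h1, Finset.sum_comm]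
  apply Finset.sum_congr rfl
  intro d hd
  rw [mem_Icc] at hd
  rw [← sum_multiples_TAU F X d hd.1, Finset.sum_filter]

lemma harmonic_TAU (X : ℕ) : ∑ h ∈ Icc 1 X, 1 / (h : ℝ) ≤ 1 + Real.log X := by
  have h1 := harmonic_le_one_add_log X
  rw [harmonic_eq_sum_Icc] at h1
  push_cast at h1
  simpa [one_div] using h1

lemma one_le_TAU {X : ℕ} (hX : 1 ≤ X) : 1 ≤ 1 + Real.log X := by
  have : 0 ≤ Real.log X := Real.log_nonneg (by exact_mod_cast hX)
  linarith

lemma L_bound_TAU (j X : ℕ) (hX : 1 ≤ X) :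
    ∑ h ∈ Icc 1 X, (h.divisors.card : ℝ) ^ j / h ≤ (1 + Real.log X) ^ (2 ^ j) := by
  induction j with
  | zero => simpa using harmonic_TAU X
  | succ j ih =>
    have h1 : ∑ h ∈ Icc 1 X, (h.divisors.card : ℝ) ^ (j + 1) / h =
        ∑ d ∈ Icc 1 X, ∑ k ∈ Icc 1 (X / d),
          ((d * k).divisors.card : ℝ) ^ j / ((d * k : ℕ) : ℝ) := by
      rw [← sum_tau_TAU (fun h => (h.divisors.card : ℝ) ^ j / h) X]
      apply Finset.sum_congr rfl
      intro h _
      rw [pow_succ]
      ring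
    rw [h1]
    have h2 : ∀ d ∈ Icc 1 X, ∑ k ∈ Icc 1 (X / d),
        ((d * k).divisors.card : ℝ) ^ j / ((d * k : ℕ) : ℝ) ≤
        (d.divisors.card : ℝ) ^ j / d * ∑ k ∈ Icc 1 X, (k.divisors.card : ℝ) ^ j / k := by
      intro d hd
      rw [mem_Icc] at hd
      rw [Finset.mul_sum]
      refine le_trans (Finset.sum_le_sum (g := fun k : ℕ =>
        (d.divisors.card : ℝ) ^ j / d * ((k.divisors.card : ℝ) ^ j / k)) ?_) ?_
      · intro k hk
        rw [mem_Icc] at hk
        have h3 : ((d * k).divisors.card : ℝ) ^ j ≤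
            ((d.divisors.card : ℝ) * (k.divisors.card : ℝ)) ^ j :=
          pow_le_pow_left₀ (Nat.cast_nonneg _) (card_divisors_mul_TAU d k) j
        rw [mul_pow] at h3
        push_cast
        rw [div_mul_div_comm]
        exact div_le_div_of_nonneg_right h3 (by positivity)
      · apply Finset.sum_le_sum_of_subset_of_nonneg
        · intro k hk
          rw [mem_Icc] at hk ⊢
          exact ⟨hk.1, hk.2.trans (Nat.div_le_self X d)⟩
        · intro k _ _
          positivity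
    refine (Finset.sum_le_sum h2).trans ?_
    rw [← Finset.sum_mul, pow_succ, pow_mul, sq]
    have h0 : 0 ≤ ∑ k ∈ Icc 1 X, (k.divisors.card : ℝ) ^ j / k :=
      Finset.sum_nonneg fun k _ => by positivity
    exact mul_le_mul ih ih h0 (h0.trans ih)

theorem hTau : StTau := by
  intro j
  induction j with
  | zero =>
    intro X hX
    simp
  | succ j ih =>
    intro X hX
    have hL := L_bound_TAU j X hX
    have h1 : ∑ h ∈ Icc 1 X, (h.divisors.card : ℝ) ^ (j + 1) =
        ∑ d ∈ Icc 1 X, ∑ k ∈ Icc 1 (X / d), ((d * k).divisors.card : ℝ) ^ j := by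
      rw [← sum_tau_TAU (fun h => (h.divisors.card : ℝ) ^ j) X]
      apply Finset.sum_congr rfl
      intro h _
      rw [pow_succ]
      ring
    rw [h1]
    have hlog := one_le_TAU hX
    have h2 : ∀ d ∈ Icc 1 X, ∑ k ∈ Icc 1 (X / d), ((d * k).divisors.card : ℝ) ^ j ≤
        (X * (1 + Real.log X) ^ (2 ^ j - 1)) * ((d.divisors.card : ℝ) ^ j / d) := by
      intro d hd
      rw [mem_Icc] at hd
      have hXd : 1 ≤ X / d := (Nat.one_le_div_iff (by omega)).2 hd.2
      have hdpos : (0 : ℝ) < d := by exact_mod_cast hd.1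
      have h3 : ∑ k ∈ Icc 1 (X / d), ((d * k).divisors.card : ℝ) ^ j ≤
          (d.divisors.card : ℝ) ^ j * ∑ k ∈ Icc 1 (X / d), (k.divisors.card : ℝ) ^ j := by
        rw [Finset.mul_sum]
        apply Finset.sum_le_sum
        intro k _
        rw [← mul_pow]
        exact pow_le_pow_left₀ (Nat.cast_nonneg _) (card_divisors_mul_TAU d k) j
      have h4 := ih (X / d) hXd
      have h5 : ((X / d : ℕ) : ℝ) ≤ (X : ℝ) / d := Nat.cast_div_le
      have h6 : (1 + Real.log ((X / d : ℕ) : ℝ)) ≤ 1 + Real.log X := by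
        have : Real.log ((X / d : ℕ) : ℝ) ≤ Real.log X := by
          apply Real.log_le_log (by exact_mod_cast hXd)
          exact_mod_cast Nat.div_le_self X d
        linarith
      have h7 : (1 + Real.log ((X / d : ℕ) : ℝ)) ^ (2 ^ j - 1) ≤
          (1 + Real.log X) ^ (2 ^ j - 1) :=
        pow_le_pow_left₀ (by linarith [one_le_TAU hXd]) h6 _
      have h8 : ∑ k ∈ Icc 1 (X / d), (k.divisors.card : ℝ) ^ j ≤
          (X : ℝ) / d * (1 + Real.log X) ^ (2 ^ j - 1) := by
        refine h4.trans ?_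
        exact mul_le_mul h5 h7 (pow_nonneg (by linarith [one_le_TAU hXd]) _) (by positivity)
      calc ∑ k ∈ Icc 1 (X / d), ((d * k).divisors.card : ℝ) ^ j
          ≤ (d.divisors.card : ℝ) ^ j * ∑ k ∈ Icc 1 (X / d), (k.divisors.card : ℝ) ^ j := h3
        _ ≤ (d.divisors.card : ℝ) ^ j * ((X : ℝ) / d * (1 + Real.log X) ^ (2 ^ j - 1)) :=
            mul_le_mul_of_nonneg_left h8 (by positivity)
        _ = _ := by ring
    refine (Finset.sum_le_sum h2).trans ?_
    rw [← Finset.mul_sum]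
    have h9 : (2 : ℕ) ^ (j + 1) - 1 = (2 ^ j - 1) + 2 ^ j := by
      have : 1 ≤ 2 ^ j := Nat.one_le_two_pow
      rw [pow_succ]
      omega
    rw [h9, pow_add, ← mul_assoc]
    apply mul_le_mul_of_nonneg_left hL
    have : 0 ≤ (1 + Real.log X) ^ (2 ^ j - 1) := pow_nonneg (by linarith) _
    positivity

end Pool.Agent.Helper30.HX
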