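import Pool.Agent.Helper30.HX.StT

/-!
# Project HX: module TEL (telescoping)
-/

set_option autoImplicit false

namespace Pool.Agent.Helper30.HX

open Finset
open Pool.Agent.Helper48.BK (th lz Vz Pz win AdN)

/-- the window weight is additive in the function -/
theorem win_sub_TEL (f g : ℕ → ℝ) (al be H a x : ℕ) :
    win (fun n => g n - f n) al be H a x = win g al be H a x - win f al be H a x := by
  unfold win
  split_ifs <;> ring

/-- swap of the first two variables -/
theorem TF_swap_TEL (f g k : ℕ → ℝ) (H X : ℕ) (s₁ s₂ s₃ : ℤ) (a b c : ℕ) (d : ℤ) :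
    TF f g k H X s₁ s₂ s₃ a b c d = TF g f k H X s₂ s₁ s₃ b a c d := by
  unfold TF
  rw [sum_comm]
  refine sum_congr rfl fun y _ => sum_congr rfl fun x _ => sum_congr rfl fun w _ => ?_
  rw [add_comm (s₁ * _) (s₂ * _), mul_comm (win f 4 11 H a x)]

/-- swap of the last two variables -/
theorem TF_swap'_TEL (f g k : ℕ → ℝ) (H X : ℕ) (s₁ s₂ s₃ : ℤ) (a b c : ℕ) (d : ℤ) :
    TF f g k H X s₁ s₂ s₃ a b c d = TF f k g H X s₁ s₃ s₂ a c b d := by
  unfold TF
  refine sum_congr rfl fun x _ => ?_
  rw [sum_comm]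
  refine sum_congr rfl fun w _ => sum_congr rfl fun y _ => ?_
  rw [add_right_comm, mul_right_comm]

theorem hTel : StTel := by
  intro f g H X a b c
  rw [TF_swap_TEL (fun n => g n - f n) f g H X 1 1 (-1) b a c 0,
    TF_swap_TEL (fun n => g n - f n) f f H X (-1) 1 1 c a b 0,
    TF_swap'_TEL f (fun n => g n - f n) f H X 1 (-1) 1 a c b 0]
  unfold TF
  simp only [← sum_sub_distrib, ← sum_add_distrib]
  refine sum_congr rfl fun x _ => sum_congr rfl fun y _ => sum_congr rfl fun w _ => ?_
  rw [win_sub_TEL, win_sub_TEL, win_sub_TEL]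
  split_ifs <;> ring

end Pool.Agent.Helper30.HX
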