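import Pool.Agent.Helper30.HX.StA

/-!
# Project HX: module VAR (the second moment)
-/

set_option autoImplicit false

namespace Pool.Agent.Helper30.HX

open Finset
open Pool.Agent.Helper48.BK (th lz Vz Pz win AdN)

/-- one (coefficient, variable) pair of triples -/
private def Qr_VAR (H : ℕ) (s₁ s₂ s₃ : ℤ) (v p : ℕ × ℕ × ℕ) : Prop :=
  s₁ * (v.1 * p.1) + s₂ * (v.2.1 * p.2.1) + s₃ * (v.2.2 * p.2.2) = 0 ∧
  Nat.Coprime p.2.1 p.2.2 ∧ Wn H v.1 p.1 ∧ Wn H v.2.1 p.2.1 ∧ Wn H v.2.2 p.2.2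

open Classical in
private lemma win_VAR (f : ℕ → ℝ) (H a x : ℕ) :
    win f 4 11 H a x = if Wn H a x then f x else 0 := by
  have h : (4 * H < a * x ∧ a * x ≤ 11 * H) ↔ Wn H a x := by
    unfold Wn
    constructor
    · rintro ⟨h1, h2⟩
      exact ⟨by exact_mod_cast h1, by exact_mod_cast h2⟩
    · rintro ⟨h1, h2⟩
      exact ⟨by exact_mod_cast h1, by exact_mod_cast h2⟩
  unfold win
  by_cases hw : Wn H a x
  · rw [if_pos hw, if_pos (h.2 hw)]
  · rw [if_neg hw, if_neg (fun h' => hw (h.1 h'))]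

open Classical in
private lemma TC_VAR (f g k : ℕ → ℝ) (H X : ℕ) (s₁ s₂ s₃ : ℤ) (v : ℕ × ℕ × ℕ) :
    TC f g k H X s₁ s₂ s₃ v.1 v.2.1 v.2.2 =
      ∑ p ∈ (Ioc 0 X) ×ˢ (Ioc 0 X) ×ˢ (Ioc 0 X),
        if Qr_VAR H s₁ s₂ s₃ v p then f p.1 * g p.2.1 * k p.2.2 else 0 := by
  unfold TC
  rw [Finset.sum_product]
  refine Finset.sum_congr rfl fun x _ => ?_
  rw [Finset.sum_product]
  refine Finset.sum_congr rfl fun y _ => ?_
  refine Finset.sum_congr rfl fun w _ => ?_
  simp only [win_VAR, Qr_VAR]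
  by_cases h1 : s₁ * ((v.1 : ℤ) * x) + s₂ * (v.2.1 * y) + s₃ * (v.2.2 * w) = 0
  · by_cases h2 : Nat.Coprime y w
    · rw [if_pos ⟨h1, h2⟩]
      by_cases h3 : Wn H v.1 x
      · by_cases h4 : Wn H v.2.1 y
        · by_cases h5 : Wn H v.2.2 w
          · rw [if_pos h3, if_pos h4, if_pos h5, if_pos ⟨h1, h2, h3, h4, h5⟩]
          · rw [if_neg h5, mul_zero, if_neg (fun h => h5 h.2.2.2.2)]
        · rw [if_neg h4, mul_zero, zero_mul, if_neg (fun h => h4 h.2.2.2.1)]
      · rw [if_neg h3, zero_mul, zero_mul, if_neg (fun h => h3 h.2.2.1)]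
    · rw [if_neg (fun h => h2 h.2), if_neg (fun h => h2 h.2.1)]
  · rw [if_neg (fun h => h1 h.1), if_neg (fun h => h1 h.1)]

open Classical in
/-- number of the coefficient triples of a pair -/
private noncomputable def Nc_VAR (H lo m : ℕ) (s₁ s₂ s₃ : ℤ) (p p' : ℕ × ℕ × ℕ) : ℝ :=
  ((((Icc lo m) ×ˢ (Icc lo m) ×ˢ (Icc lo m)).filter (fun v : ℕ × ℕ × ℕ =>
    Nat.gcd v.1 (Nat.gcd v.2.1 v.2.2) = 1 ∧ Qr_VAR H s₁ s₂ s₃ v p ∧
      Qr_VAR H s₁ s₂ s₃ v p')).card : ℝ)

open Classical in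
private lemma expand_VAR (f g k : ℕ → ℝ) (X H lo m : ℕ) (s₁ s₂ s₃ : ℤ) :
    ∑ a ∈ Icc lo m, ∑ b ∈ Icc lo m, ∑ c ∈ Icc lo m,
      (if Nat.gcd a (Nat.gcd b c) = 1 then TC f g k H X s₁ s₂ s₃ a b c ^ 2 else 0) =
    ∑ r ∈ (Ioc 0 X) ×ˢ (Ioc 0 X), ∑ p' ∈ (Ioc 0 X) ×ˢ (Ioc 0 X) ×ˢ (Ioc 0 X), ∑ x ∈ Ioc 0 X,
      Nc_VAR H lo m s₁ s₂ s₃ (x, r) p' *
        ((f x * g r.1 * k r.2) * (f p'.1 * g p'.2.1 * k p'.2.2)) := by
  set I := Icc lo m with hI
  set U := Ioc 0 X with hU
  have e1 : ∑ a ∈ I, ∑ b ∈ I, ∑ c ∈ I,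
      (if Nat.gcd a (Nat.gcd b c) = 1 then TC f g k H X s₁ s₂ s₃ a b c ^ 2 else 0) =
      ∑ v ∈ I ×ˢ I ×ˢ I, (if Nat.gcd v.1 (Nat.gcd v.2.1 v.2.2) = 1 then
        TC f g k H X s₁ s₂ s₃ v.1 v.2.1 v.2.2 ^ 2 else 0) := by
    rw [Finset.sum_product]
    refine Finset.sum_congr rfl fun a _ => ?_
    rw [Finset.sum_product]
  have e2 : ∀ v : ℕ × ℕ × ℕ, (if Nat.gcd v.1 (Nat.gcd v.2.1 v.2.2) = 1 then
        TC f g k H X s₁ s₂ s₃ v.1 v.2.1 v.2.2 ^ 2 else 0) =
      ∑ p ∈ U ×ˢ U ×ˢ U, ∑ p' ∈ U ×ˢ U ×ˢ U,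
        if Nat.gcd v.1 (Nat.gcd v.2.1 v.2.2) = 1 ∧ Qr_VAR H s₁ s₂ s₃ v p ∧
          Qr_VAR H s₁ s₂ s₃ v p' then
          (f p.1 * g p.2.1 * k p.2.2) * (f p'.1 * g p'.2.1 * k p'.2.2) else 0 := by
    intro v
    by_cases hg : Nat.gcd v.1 (Nat.gcd v.2.1 v.2.2) = 1
    · rw [if_pos hg, TC_VAR, sq, Finset.sum_mul_sum]
      refine Finset.sum_congr rfl fun p _ => Finset.sum_congr rfl fun p' _ => ?_
      by_cases h1 : Qr_VAR H s₁ s₂ s₃ v p
      · by_cases h2 : Qr_VAR H s₁ s₂ s₃ v p'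
        · rw [if_pos h1, if_pos h2, if_pos ⟨hg, h1, h2⟩]
        · rw [if_neg h2, mul_zero, if_neg (fun h => h2 h.2.2)]
      · rw [if_neg h1, zero_mul, if_neg (fun h => h1 h.2.1)]
    · rw [if_neg hg]
      symm
      refine Finset.sum_eq_zero fun p _ => Finset.sum_eq_zero fun p' _ => ?_
      rw [if_neg (fun h => hg h.1)]
  rw [e1, Finset.sum_congr rfl fun v _ => e2 v, Finset.sum_comm]
  have e3 : ∀ p : ℕ × ℕ × ℕ, ∑ v ∈ I ×ˢ I ×ˢ I, ∑ p' ∈ U ×ˢ U ×ˢ U,
        (if Nat.gcd v.1 (Nat.gcd v.2.1 v.2.2) = 1 ∧ Qr_VAR H s₁ s₂ s₃ v p ∧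
          Qr_VAR H s₁ s₂ s₃ v p' then
          (f p.1 * g p.2.1 * k p.2.2) * (f p'.1 * g p'.2.1 * k p'.2.2) else 0) =
      ∑ p' ∈ U ×ˢ U ×ˢ U, Nc_VAR H lo m s₁ s₂ s₃ p p' *
        ((f p.1 * g p.2.1 * k p.2.2) * (f p'.1 * g p'.2.1 * k p'.2.2)) := by
    intro p
    rw [Finset.sum_comm]
    refine Finset.sum_congr rfl fun p' _ => ?_
    rw [← Finset.sum_filter, Finset.sum_const, nsmul_eq_mul]
    rfl
  rw [Finset.sum_congr rfl fun p _ => e3 p, Finset.sum_product, Finset.sum_comm]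
  refine Finset.sum_congr rfl fun r _ => ?_
  rw [Finset.sum_comm]

private lemma dlt_zero_VAR {y w y' w' : ℕ} (hy : 1 ≤ y) (h : Nat.Coprime y w)
    (h' : Nat.Coprime y' w') (hd : dlt y w y' w' = 0) : y = y' ∧ w = w' := by
  unfold dlt at hd
  have e : y * w' = w * y' := by
    have : (y : ℤ) * w' = w * y' := by linarith
    exact_mod_cast this
  have d1 : y ∣ y' := (Nat.Coprime.dvd_mul_left h).1 (Dvd.intro _ e)
  have d2 : y' ∣ y := by
    have : y' ∣ y * w' := by
      rw [e]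
      exact Dvd.intro_left _ rfl
    exact (Nat.Coprime.dvd_mul_right h').1 this
  have hyy : y = y' := Nat.dvd_antisymm d1 d2
  refine ⟨hyy, ?_⟩
  subst hyy
  have := Nat.eq_of_mul_eq_mul_left (by omega : 0 < y) (e.trans (Nat.mul_comm w y))
  exact this.symm

theorem hVar (ha : StPar) (hb : StInn) (hc : StOff) (hd : StDet) (he : StCnA) : StVar := by
  classical
  intro f g k X H lo m z F Q M R ρ Λ s₁ s₂ s₃ hs₁ hs₂ hs₃ hX hz hlo hlom hH hzm hmΛ hM hR hρ hF
    hXF hf hg hk hrgh haph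
  rw [expand_VAR]
  have hH0 : (0 : ℝ) < H := by exact_mod_cast hH
  have hm1 : (1 : ℝ) ≤ m := by exact_mod_cast hlo.trans hlom
  have hΛ0 : 0 ≤ Λ := by
    by_contra hneg
    push Not at hneg
    nlinarith
  have hBd : ∀ (e : ℤ) (x' t : ℕ), 0 ≤ Bd z F M R ρ Λ e x' t := by
    intro e x' t
    unfold Bd
    split_ifs <;> positivity
  have hSB : ∀ (r : ℕ × ℕ) (p' : ℕ × ℕ × ℕ), 0 ≤ ∑ e ∈ sdv (dlt r.1 r.2 p'.2.1 p'.2.2),
      ∑ t ∈ (dlt r.1 r.2 p'.2.1 p'.2.2 / e).natAbs.divisors, Bd z F M R ρ Λ e p'.1 t :=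
    fun r p' => Finset.sum_nonneg fun e _ => Finset.sum_nonneg fun t _ => hBd e _ t
  set C0 : ℝ := M ^ 6 * (m * (Λ + 1)) with hC0
  have hC00 : 0 ≤ C0 := by positivity
  -- bound for each pair
  have key : ∀ r ∈ (Ioc 0 X) ×ˢ (Ioc 0 X), ∀ p' ∈ (Ioc 0 X) ×ˢ (Ioc 0 X) ×ˢ (Ioc 0 X),
      ∑ x ∈ Ioc 0 X, Nc_VAR H lo m s₁ s₂ s₃ (x, r) p' *
        ((f x * g r.1 * k r.2) * (f p'.1 * g p'.2.1 * k p'.2.2)) ≤
      (if p'.2 = r then C0 else 0) + M ^ 5 * ∑ e ∈ sdv (dlt r.1 r.2 p'.2.1 p'.2.2),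
        ∑ t ∈ (dlt r.1 r.2 p'.2.1 p'.2.2 / e).natAbs.divisors, Bd z F M R ρ Λ e p'.1 t := by
    rintro ⟨y, w⟩ hr ⟨x', y', w'⟩ hp'
    obtain ⟨hy, hw⟩ := Finset.mem_product.1 hr
    obtain ⟨hx', hp''⟩ := Finset.mem_product.1 hp'
    obtain ⟨hy', hw'⟩ := Finset.mem_product.1 hp''
    simp only at hy hw hx' hy' hw'
    have hyI := Finset.mem_Ioc.1 hy
    have hwI := Finset.mem_Ioc.1 hw
    have hxI' := Finset.mem_Ioc.1 hx'
    have hyI' := Finset.mem_Ioc.1 hy'
    have hwI' := Finset.mem_Ioc.1 hw'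
    have hrhs : 0 ≤ (if (y', w') = (y, w) then C0 else 0) +
        M ^ 5 * ∑ e ∈ sdv (dlt y w y' w'),
        ∑ t ∈ (dlt y w y' w' / e).natAbs.divisors, Bd z F M R ρ Λ e x' t := by
      have := hSB (y, w) (x', y', w')
      have h2 : 0 ≤ (if (y', w') = (y, w) then C0 else 0) := by split_ifs <;> first | exact hC00 | exact le_rfl
      exact add_nonneg h2 (mul_nonneg (by positivity) this)
    by_cases hcop : Nat.Coprime y w ∧ Nat.Coprime y' w'
    swap
    · refine le_trans (le_of_eq (Finset.sum_eq_zero fun x _ => ?_)) hrhs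
      have : Nc_VAR H lo m s₁ s₂ s₃ (x, (y, w)) (x', y', w') = 0 := by
        unfold Nc_VAR
        rw [Finset.filter_eq_empty_iff.2, Finset.card_empty, Nat.cast_zero]
        rintro v _ ⟨_, h1, h2⟩
        exact hcop ⟨h1.2.1, h2.2.1⟩
      rw [this, zero_mul]
    obtain ⟨hc1, hc2⟩ := hcop
    by_cases hdlt : dlt y w y' w' = 0
    · -- the diagonal
      obtain ⟨rfl, rfl⟩ := dlt_zero_VAR hyI.1 hc1 hc2 hdlt
      rw [if_pos rfl]
      have hsum : ∑ x ∈ Ioc 0 X, Nc_VAR H lo m s₁ s₂ s₃ (x, (y, w)) (x', y, w) *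
          ((f x * g (y, w).1 * k (y, w).2) * (f (x', y, w).1 * g (x', y, w).2.1 * k (x', y, w).2.2)) ≤
          C0 := by
        rw [Finset.sum_eq_single x']
        · -- the term `x = x'`
          set N := Nc_VAR H lo m s₁ s₂ s₃ (x', (y, w)) (x', y, w) with hN
          have hN0 : 0 ≤ N := by
            rw [hN]
            unfold Nc_VAR
            exact Nat.cast_nonneg _
          have hNle : N ≤ m * (Λ + 1) := by
            by_cases hN1 : N = 0
            · rw [hN1]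
              positivity
            · -- some triple exists
              have hne : (((Icc lo m) ×ˢ (Icc lo m) ×ˢ (Icc lo m)).filter
                  (fun v : ℕ × ℕ × ℕ => Nat.gcd v.1 (Nat.gcd v.2.1 v.2.2) = 1 ∧
                    Qr_VAR H s₁ s₂ s₃ v (x', (y, w)) ∧
                    Qr_VAR H s₁ s₂ s₃ v (x', y, w))).Nonempty := by
                by_contra hemp
                rw [Finset.not_nonempty_iff_eq_empty] at hemp
                apply hN1
                rw [hN]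
                unfold Nc_VAR
                rw [hemp, Finset.card_empty, Nat.cast_zero]
              obtain ⟨v, hv⟩ := hne
              obtain ⟨hvI, _, hq, _⟩ := Finset.mem_filter.1 hv
              have hv3 := (Finset.mem_product.1 (Finset.mem_product.1 hvI).2).2
              have hv3' := (Finset.mem_Icc.1 hv3).2
              have hwn := hq.2.2.2.2.1
              have hmw : (m : ℝ) / w ≤ Λ := by
                have h1 : (4 * (H : ℤ)) < (m : ℤ) * w := by
                  refine lt_of_lt_of_le hwn ?_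
                  have : (v.2.2 : ℤ) ≤ m := by exact_mod_cast hv3'
                  exact mul_le_mul_of_nonneg_right this (by positivity)
                have h1' : 4 * (H : ℝ) < m * w := by exact_mod_cast h1
                have hw0 : (0 : ℝ) < w := by exact_mod_cast hwI.1
                rw [div_le_iff₀ hw0]
                by_contra hlt
                push Not at hlt
                have h2 : Λ * (m * w) < (m : ℝ) ^ 2 := by nlinarith
                have h3 : Λ * (4 * H) ≤ Λ * (m * w) := mul_le_mul_of_nonneg_left h1'.le hΛ0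
                have h4 : 0 ≤ Λ * H := mul_nonneg hΛ0 hH0.le
                linarith
              have hcn := he m x' y w s₁ s₂ s₃ hs₁ hs₂ hs₃ (by omega) (by omega) (by omega)
              have hg1 : Nat.gcd (Nat.gcd y w) x' = 1 := by
                rw [show Nat.gcd y w = 1 from hc1, Nat.gcd_one_left]
              rw [hg1, Nat.cast_one, one_mul] at hcn
              have hle : N ≤ ((((Icc 1 m) ×ˢ (Icc 1 m) ×ˢ (Icc 1 m)).filter
                  (fun v : ℕ × ℕ × ℕ => s₁ * (v.1 * x') + s₂ * (v.2.1 * y) +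
                    s₃ * (v.2.2 * w) = 0)).card : ℝ) := by
                rw [hN]
                unfold Nc_VAR
                apply Nat.cast_le.2
                apply Finset.card_le_card
                intro u hu
                obtain ⟨huI, _, hu1, _⟩ := Finset.mem_filter.1 hu
                rw [Finset.mem_filter]
                refine ⟨?_, hu1.1⟩
                have hsub : Icc lo m ⊆ Icc 1 m := Finset.Icc_subset_Icc hlo le_rfl
                exact Finset.product_subset_product hsub (Finset.product_subset_product hsub hsub) huI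
              refine hle.trans (hcn.trans ?_)
              apply mul_le_mul_of_nonneg_left _ (by positivity)
              linarith
          have hF6 : (f x' * g y * k w) * (f x' * g y * k w) ≤ M ^ 6 := by
            have b1 := hf x' hxI'.2
            have b2 := hg y hyI.2
            have b3 := hk w hwI.2
            have b : |f x' * g y * k w| ≤ M ^ 3 := by
              rw [abs_mul, abs_mul]
              calc _ ≤ M * M * M := by gcongr
                _ = M ^ 3 := by ring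
            calc (f x' * g y * k w) * (f x' * g y * k w) = |f x' * g y * k w| ^ 2 := by
                  rw [sq_abs]
                  ring
              _ ≤ (M ^ 3) ^ 2 := pow_le_pow_left₀ (abs_nonneg _) b 2
              _ = M ^ 6 := by ring
          calc N * ((f x' * g y * k w) * (f x' * g y * k w)) ≤ (m * (Λ + 1)) * M ^ 6 :=
                mul_le_mul hNle hF6 (mul_self_nonneg _) (by positivity)
            _ = C0 := by rw [hC0]; ring
        · intro x _ hxx
          have : Nc_VAR H lo m s₁ s₂ s₃ (x, (y, w)) (x', y, w) = 0 := by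
            unfold Nc_VAR
            rw [Finset.filter_eq_empty_iff.2, Finset.card_empty, Nat.cast_zero]
            rintro v hv ⟨_, h1, h2⟩
            apply hxx
            have g1 := h1.1
            have g2 := h2.1
            simp only at g1 g2
            have hv1 := (Finset.mem_Icc.1 (Finset.mem_product.1 hv).1).1
            have hv1' : (v.1 : ℤ) ≠ 0 := by
              have : 1 ≤ v.1 := hlo.trans hv1
              omega
            have hs0 : s₁ ≠ 0 := by
              rcases hs₁ with h | h <;> rw [h] <;> norm_num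
            have : s₁ * ((v.1 : ℤ) * x) = s₁ * ((v.1 : ℤ) * x') := by linarith
            have := mul_left_cancel₀ hv1' (mul_left_cancel₀ hs0 this)
            exact_mod_cast this
          rw [this, zero_mul]
        · intro hn
          exact absurd hx' hn
      refine hsum.trans ?_
      have := hSB (y, w) (x', y, w)
      have h5 : 0 ≤ M ^ 5 * ∑ e ∈ sdv (dlt y w y w),
        ∑ t ∈ (dlt y w y w / e).natAbs.divisors, Bd z F M R ρ Λ e x' t :=
        mul_nonneg (by positivity) this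
      linarith
    · -- off the diagonal
      have hcard : ∀ x, Nc_VAR H lo m s₁ s₂ s₃ (x, (y, w)) (x', y', w') =
          ∑ e ∈ sdv (dlt y w y' w'), if Cnd H lo m s₁ s₂ s₃ x y w x' y' w' e then (1 : ℝ) else 0 := by
        intro x
        have h1 := ha H lo m s₁ s₂ s₃ x y w x' y' w' hs₁ hs₂ hs₃ hlo hdlt
        rw [← Finset.sum_filter, Finset.sum_const, nsmul_eq_mul, mul_one, ← h1]
        unfold Nc_VAR
        congr 2
        apply Finset.filter_congr
        intro v _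
        unfold Trp Qr_VAR
        simp only
        constructor
        · rintro ⟨h1, ⟨h2, _, h3, h4, h5⟩, ⟨h6, _, h7, h8, h9⟩⟩
          exact ⟨h1, h2, h6, ⟨h3, h7⟩, ⟨h4, h8⟩, ⟨h5, h9⟩⟩
        · rintro ⟨h1, h2, h6, ⟨h3, h7⟩, ⟨h4, h8⟩, ⟨h5, h9⟩⟩
          exact ⟨h1, ⟨h2, hc1, h3, h4, h5⟩, ⟨h6, hc2, h7, h8, h9⟩⟩
      set G : ℝ := g y * k w * (f x' * g y' * k w') with hG
      have hGb : |G| ≤ M ^ 5 := by
        rw [hG, abs_mul, abs_mul, abs_mul, abs_mul]
        have b1 := hg y hyI.2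
        have b2 := hk w hwI.2
        have b3 := hf x' hxI'.2
        have b4 := hg y' hyI'.2
        have b5 := hk w' hwI'.2
        calc _ ≤ M * M * (M * M * M) := by gcongr
          _ = M ^ 5 := by ring
      have hin : ∑ x ∈ Ioc 0 X, Nc_VAR H lo m s₁ s₂ s₃ (x, (y, w)) (x', y', w') *
          ((f x * g (y, w).1 * k (y, w).2) *
            (f (x', y', w').1 * g (x', y', w').2.1 * k (x', y', w').2.2)) =
          G * ∑ e ∈ sdv (dlt y w y' w'),
            ∑ x ∈ (Ioc 0 X).filter (fun x => Cnd H lo m s₁ s₂ s₃ x y w x' y' w' e), f x := by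
        rw [Finset.mul_sum]
        have h1 : ∀ e, G * ∑ x ∈ (Ioc 0 X).filter (fun x => Cnd H lo m s₁ s₂ s₃ x y w x' y' w' e),
            f x = ∑ x ∈ Ioc 0 X, G * (if Cnd H lo m s₁ s₂ s₃ x y w x' y' w' e then (1 : ℝ) else 0) *
              f x := by
          intro e
          rw [Finset.sum_filter, Finset.mul_sum]
          refine Finset.sum_congr rfl fun x _ => ?_
          split_ifs <;> ring
        rw [Finset.sum_congr rfl fun e _ => h1 e, Finset.sum_comm]
        refine Finset.sum_congr rfl fun x _ => ?_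
        rw [hcard x, Finset.sum_mul]
        refine Finset.sum_congr rfl fun e _ => ?_
        rw [hG]
        ring
      rw [hin]
      have hne : ¬ (y', w') = (y, w) := by
        intro h
        have h1 := congrArg Prod.fst h
        have h2 := congrArg Prod.snd h
        simp only at h1 h2
        apply hdlt
        unfold dlt
        rw [h1, h2]
        ring
      rw [if_neg hne, zero_add]
      refine (le_abs_self _).trans ?_
      rw [abs_mul]
      refine mul_le_mul hGb ?_ (abs_nonneg _) (by positivity)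
      refine (Finset.abs_sum_le_sum_abs _ _).trans (Finset.sum_le_sum fun e he' => ?_)
      exact hb f X H lo m z F Q M R ρ Λ s₁ s₂ s₃ y w x' y' w' e hs₁ hs₂ hs₃ hlo hlom hH hzm hmΛ hM
        hR hρ hF hXF hyI.2 hwI.2 hyI'.2 hwI'.2 hc1 hc2 he' hf hrgh haph
  -- summation
  have s1 := Finset.sum_le_sum fun r hr => Finset.sum_le_sum fun p' hp' => key r hr p' hp'
  refine s1.trans ?_
  have s2 : ∑ r ∈ (Ioc 0 X) ×ˢ (Ioc 0 X), ∑ p' ∈ (Ioc 0 X) ×ˢ (Ioc 0 X) ×ˢ (Ioc 0 X),
      ((if p'.2 = r then C0 else 0) + M ^ 5 * ∑ e ∈ sdv (dlt r.1 r.2 p'.2.1 p'.2.2),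
        ∑ t ∈ (dlt r.1 r.2 p'.2.1 p'.2.2 / e).natAbs.divisors, Bd z F M R ρ Λ e p'.1 t) =
      (∑ r ∈ (Ioc 0 X) ×ˢ (Ioc 0 X), ∑ p' ∈ (Ioc 0 X) ×ˢ (Ioc 0 X) ×ˢ (Ioc 0 X),
        (if p'.2 = r then C0 else 0)) +
      M ^ 5 * ∑ r ∈ (Ioc 0 X) ×ˢ (Ioc 0 X), ∑ p' ∈ (Ioc 0 X) ×ˢ (Ioc 0 X) ×ˢ (Ioc 0 X),
        ∑ e ∈ sdv (dlt r.1 r.2 p'.2.1 p'.2.2),
        ∑ t ∈ (dlt r.1 r.2 p'.2.1 p'.2.2 / e).natAbs.divisors, Bd z F M R ρ Λ e p'.1 t := by
    rw [Finset.mul_sum, ← Finset.sum_add_distrib]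
    refine Finset.sum_congr rfl fun r _ => ?_
    rw [Finset.mul_sum, ← Finset.sum_add_distrib]
  rw [s2]
  refine add_le_add ?_ ?_
  · -- diagonal
    rw [Finset.sum_comm]
    calc _ ≤ ∑ p' ∈ (Ioc 0 X) ×ˢ (Ioc 0 X) ×ˢ (Ioc 0 X), C0 := by
          refine Finset.sum_le_sum fun p' _ => ?_
          rw [Finset.sum_ite_eq]
          split_ifs
          · exact le_rfl
          · exact hC00
      _ = M ^ 6 * X ^ 3 * (m * (Λ + 1)) := by
          rw [Finset.sum_const, nsmul_eq_mul, Finset.card_product, Finset.card_product,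
            Nat.card_Ioc, hC0]
          push_cast [Nat.sub_zero]
          ring
  · apply mul_le_mul_of_nonneg_left _ (by positivity)
    have hprod : ∑ r ∈ (Ioc 0 X) ×ˢ (Ioc 0 X), ∑ p' ∈ (Ioc 0 X) ×ˢ (Ioc 0 X) ×ˢ (Ioc 0 X),
        ∑ e ∈ sdv (dlt r.1 r.2 p'.2.1 p'.2.2),
        ∑ t ∈ (dlt r.1 r.2 p'.2.1 p'.2.2 / e).natAbs.divisors, Bd z F M R ρ Λ e p'.1 t =
        ∑ y ∈ Ioc 0 X, ∑ w ∈ Ioc 0 X, ∑ x' ∈ Ioc 0 X, ∑ y' ∈ Ioc 0 X, ∑ w' ∈ Ioc 0 X,
        ∑ e ∈ sdv (dlt y w y' w'), ∑ t ∈ (dlt y w y' w' / e).natAbs.divisors,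
          Bd z F M R ρ Λ e x' t := by
      rw [Finset.sum_product]
      refine Finset.sum_congr rfl fun y _ => Finset.sum_congr rfl fun w _ => ?_
      rw [Finset.sum_product]
      refine Finset.sum_congr rfl fun x' _ => ?_
      rw [Finset.sum_product]
    rw [hprod]
    refine (hc X z F M R ρ Λ hX hz hF hM hR hρ hΛ0).trans ?_
    have hdet := hd X (by omega)
    have hlog : 0 ≤ Real.log X := Real.log_natCast_nonneg X
    have hnn : 0 ≤ 2 * (X : ℝ) * (R + ρ * (Λ + 1) + M * (Λ / F + 1) +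
        3 * M * (Λ + 1) * Real.log X / z) := by positivity
    refine (mul_le_mul_of_nonneg_left hdet hnn).trans (le_of_eq ?_)
    ring

end Pool.Agent.Helper30.HX
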