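import Pool.Agent.Helper30.HX.StT

set_option autoImplicit false

namespace Pool.Agent.Helper30.HX

open Finset
open Pool.Agent.Helper48.BK (th lz Vz Pz win AdN Admissible Solv Box)

private lemma rgh_VB (z : ℕ) : Rgh z (fun n => th n - lz z n) := by
  intro x hx hf p hp hpx
  by_contra hle
  push Not at hle
  apply hf
  have h1 : th x = 0 := by
    unfold Pool.Agent.Helper48.BK.th
    split_ifs with hxp
    · exfalso
      rcases (Nat.dvd_prime hxp).mp hpx with h | h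
      · exact hp.one_lt.ne' h
      · omega
    · rfl
  have h2 : lz z x = 0 := by
    unfold Pool.Agent.Helper48.BK.lz
    split_ifs with hall
    · exfalso
      refine hall p ?_ hpx
      simp only [Pool.Agent.Helper48.BK.Pz, Finset.mem_filter, Finset.mem_range]
      exact ⟨by omega, hp⟩
    · rfl
  show th x - lz z x = 0
  rw [h1, h2, sub_zero]

/-- the first term -/
private lemma t1_VB (A C : ℕ) (ε l h μ lam x : ℝ) (hε : 0 < ε) (hC : 2 * A + 7 ≤ C)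
    (hl1 : 1 ≤ l) (hl2 : 2 * 221184 / ε ≤ l) (hh : 0 < h) (hμ : 0 < μ) (hlam : 0 < lam)
    (hK : μ ≤ lam * l ^ (A + 2)) (hH1 : μ ^ 3 * (l ^ C) ^ 2 ≤ h ^ 2) (hHm : h ≤ μ ^ 2)
    (hx0 : 0 ≤ x) (hx : x ≤ 12 * h / lam) :
    (2 * l) ^ 6 * x ^ 3 * (μ * (μ ^ 2 / h + 1)) ≤ ε / 2 * (h ^ 4 / (μ ^ 3 * l ^ A)) := by
  have hl0 : 0 < l := by linarith
  have hxK : x ≤ 12 * h * l ^ (A + 2) / μ := by
    refine hx.trans ?_
    rw [div_le_div_iff₀ hlam hμ]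
    calc 12 * h * μ ≤ 12 * h * (lam * l ^ (A + 2)) := by gcongr
      _ = 12 * h * l ^ (A + 2) * lam := by ring
  have hL1 : μ ^ 2 / h + 1 ≤ 2 * (μ ^ 2 / h) := by
    have : 1 ≤ μ ^ 2 / h := by rw [le_div_iff₀ hh]; linarith
    linarith
  have e1 : (2 * l) ^ 6 * x ^ 3 * (μ * (μ ^ 2 / h + 1)) ≤
      221184 * l ^ (3 * A + 12) * h ^ 2 := by
    calc (2 * l) ^ 6 * x ^ 3 * (μ * (μ ^ 2 / h + 1)) ≤
        (2 * l) ^ 6 * (12 * h * l ^ (A + 2) / μ) ^ 3 * (μ * (2 * (μ ^ 2 / h))) := by gcongr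
      _ = 221184 * l ^ (3 * A + 12) * h ^ 2 := by
          have hp : l ^ (3 * A + 12) = l ^ 6 * (l ^ (A + 2)) ^ 3 := by
            rw [← pow_mul, ← pow_add]; congr 1; ring
          rw [hp]
          field_simp
          ring
  refine e1.trans ?_
  have e2 : 221184 * 2 / ε * l ^ (4 * A + 12) ≤ l ^ (2 * C) := by
    have hl3 : 221184 * 2 / ε ≤ l ^ 2 := by nlinarith
    calc 221184 * 2 / ε * l ^ (4 * A + 12) ≤ l ^ 2 * l ^ (4 * A + 12) := by gcongr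
      _ = l ^ (4 * A + 14) := by rw [← pow_add]; congr 1; ring
      _ ≤ l ^ (2 * C) := pow_le_pow_right₀ hl1 (by omega)
  have e3 : 221184 * 2 / ε * l ^ (4 * A + 12) * μ ^ 3 ≤ h ^ 2 := by
    calc 221184 * 2 / ε * l ^ (4 * A + 12) * μ ^ 3 ≤ l ^ (2 * C) * μ ^ 3 := by gcongr
      _ = μ ^ 3 * (l ^ C) ^ 2 := by rw [← pow_mul, mul_comm C 2]; ring
      _ ≤ h ^ 2 := hH1
  have e4 : 221184 * l ^ (3 * A + 12) * h ^ 2 * (μ ^ 3 * l ^ A) =
      ε / 2 * (221184 * 2 / ε * l ^ (4 * A + 12) * μ ^ 3) * h ^ 2 := by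
    have hp : l ^ (4 * A + 12) = l ^ (3 * A + 12) * l ^ A := by
      rw [← pow_add]; congr 1; ring
    rw [hp]
    field_simp
  rw [← mul_div_assoc, le_div_iff₀ (by positivity), e4]
  calc ε / 2 * (221184 * 2 / ε * l ^ (4 * A + 12) * μ ^ 3) * h ^ 2 ≤
      ε / 2 * h ^ 2 * h ^ 2 := by gcongr
    _ = ε / 2 * h ^ 4 := by ring

/-- the second term -/
private lemma t2_VB (A C E : ℕ) (ε l h μ lam x lx z F : ℝ) (hE : E = 2 * C + 7 * A + 60)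
    (hε : 0 < ε)
    (hl1 : 1 ≤ l) (hl2 : 2 * ((32 * 8 * 12 ^ 5 * 3 ^ 15) * (192 * 2 ^ E + 34)) / ε ≤ l)
    (hh : 0 < h) (hμ : 0 < μ) (hlam : 0 < lam)
    (hK : μ ≤ lam * l ^ (A + 2)) (hH2 : h ^ 2 ≤ 4 * μ ^ 3 * (l ^ C) ^ 2) (hHm : h ≤ μ ^ 2)
    (hmu : 4 * l ^ (2 * C + 2 * (6 * A + 60)) ≤ μ)
    (hx0 : 0 ≤ x) (hx : x ≤ 12 * h / lam) (hlx : lx ≤ l) (hlx2 : l ≤ 2 * lx)
    (hz : l ^ (6 * A + 60) ≤ z) (hF : l ^ (6 * A + 60) ≤ F) :
    (2 * l) ^ 5 * (8 * x ^ 5 * (1 + 2 * lx) ^ 15 *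
      (4 * x / lx ^ E + (1 + 2 * lx) ^ 2 / z * (μ ^ 2 / h + 1) +
        2 * l * (μ ^ 2 / h / F + 1) + 3 * (2 * l) * (μ ^ 2 / h + 1) * lx / z)) ≤
    ε / 2 * (h ^ 4 / (μ ^ 3 * l ^ A)) := by
  have hl0 : 0 < l := by linarith
  have hlx0 : 0 < lx := by linarith
  set P := l ^ (6 * A + 60) with hP
  have hPp : 0 < P := by positivity
  have hzp : 0 < z := by linarith
  have hFp : 0 < F := by linarith
  have hxK : x ≤ 12 * h * l ^ (A + 2) / μ := by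
    refine hx.trans ?_
    rw [div_le_div_iff₀ hlam hμ]
    calc 12 * h * μ ≤ 12 * h * (lam * l ^ (A + 2)) := by gcongr
      _ = 12 * h * l ^ (A + 2) * lam := by ring
  have hL1 : μ ^ 2 / h + 1 ≤ 2 * (μ ^ 2 / h) := by
    have : 1 ≤ μ ^ 2 / h := by rw [le_div_iff₀ hh]; linarith
    linarith
  have hl3 : 1 + 2 * lx ≤ 3 * l := by linarith
  -- `h / μ^2 ≤ 1 / P`
  have hhm : h / μ ^ 2 ≤ 1 / P := by
    rw [div_le_div_iff₀ (by positivity) hPp]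
    have e : (h * P) ^ 2 ≤ (1 * μ ^ 2) ^ 2 := by
      calc (h * P) ^ 2 = h ^ 2 * P ^ 2 := by ring
        _ ≤ (4 * μ ^ 3 * (l ^ C) ^ 2) * P ^ 2 := by gcongr
        _ = μ ^ 3 * (4 * l ^ (2 * C + 2 * (6 * A + 60))) := by
            have hp : l ^ (2 * C + 2 * (6 * A + 60)) = (l ^ C) ^ 2 * P ^ 2 := by
              rw [hP, ← pow_mul, ← pow_mul, ← pow_add]; congr 1; ring
            rw [hp]; ring
        _ ≤ μ ^ 3 * μ := by gcongr
        _ = (1 * μ ^ 2) ^ 2 := by ring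
    exact (pow_le_pow_iff_left₀ (by positivity) (by positivity) (by norm_num)).mp e
  -- the bracket
  set Br := 4 * x / lx ^ E + (1 + 2 * lx) ^ 2 / z * (μ ^ 2 / h + 1) +
        2 * l * (μ ^ 2 / h / F + 1) + 3 * (2 * l) * (μ ^ 2 / h + 1) * lx / z with hBr
  have hBr0 : 0 ≤ Br := by positivity
  have b1 : h / μ ^ 2 * (4 * x / lx ^ E) ≤ 192 * 2 ^ E * (l ^ 2 / P) := by
    have hlE : l ^ E ≤ 2 ^ E * lx ^ E := by rw [← mul_pow]; gcongr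
    have hlEp : 0 < l ^ E := by positivity
    have s1 : 4 * x / lx ^ E ≤ 4 * x * 2 ^ E / l ^ E := by
      rw [div_le_div_iff₀ (by positivity) hlEp]
      calc 4 * x * l ^ E ≤ 4 * x * (2 ^ E * lx ^ E) := by gcongr
        _ = 4 * x * 2 ^ E * lx ^ E := by ring
    have s2 : h ^ 2 / μ ^ 3 ≤ 4 * l ^ (2 * C) := by
      rw [div_le_iff₀ (by positivity)]
      calc h ^ 2 ≤ 4 * μ ^ 3 * (l ^ C) ^ 2 := hH2
        _ = 4 * l ^ (2 * C) * μ ^ 3 := by rw [mul_comm 2 C, pow_mul]; ring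
    calc h / μ ^ 2 * (4 * x / lx ^ E) ≤
        h / μ ^ 2 * (4 * (12 * h * l ^ (A + 2) / μ) * 2 ^ E / l ^ E) := by
          refine mul_le_mul_of_nonneg_left (s1.trans ?_) (by positivity)
          gcongr
      _ = 48 * 2 ^ E * (l ^ (A + 2) / l ^ E) * (h ^ 2 / μ ^ 3) := by
          field_simp
          ring
      _ ≤ 48 * 2 ^ E * (l ^ (A + 2) / l ^ E) * (4 * l ^ (2 * C)) := by gcongr
      _ = 192 * 2 ^ E * (l ^ 2 / P) := by
          rw [hP, hE]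
          have : l ^ (2 * C + 7 * A + 60) = l ^ (2 * C) * l ^ A * l ^ (6 * A + 60) := by
            rw [← pow_add, ← pow_add]; congr 1; ring
          rw [this, pow_add l A 2]
          field_simp
          ring
  have b2 : h / μ ^ 2 * ((1 + 2 * lx) ^ 2 / z * (μ ^ 2 / h + 1)) ≤ 18 * (l ^ 2 / P) := by
    calc h / μ ^ 2 * ((1 + 2 * lx) ^ 2 / z * (μ ^ 2 / h + 1)) ≤
        h / μ ^ 2 * ((3 * l) ^ 2 / P * (2 * (μ ^ 2 / h))) := by gcongr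
      _ = 18 * (l ^ 2 / P) := by field_simp; ring
  have b3 : h / μ ^ 2 * (2 * l * (μ ^ 2 / h / F + 1)) ≤ 4 * (l ^ 2 / P) := by
    have s1 : h / μ ^ 2 * (2 * l * (μ ^ 2 / h / F + 1)) = 2 * l / F + 2 * l * (h / μ ^ 2) := by
      field_simp
    rw [s1]
    have s2 : 2 * l / F ≤ 2 * (l ^ 2 / P) := by
      calc 2 * l / F ≤ 2 * (l ^ 2) / P := by
            gcongr
            nlinarith
        _ = 2 * (l ^ 2 / P) := by ring
    have s3 : 2 * l * (h / μ ^ 2) ≤ 2 * (l ^ 2 / P) := by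
      calc 2 * l * (h / μ ^ 2) ≤ 2 * l ^ 2 * (1 / P) := by
            gcongr
            nlinarith
        _ = 2 * (l ^ 2 / P) := by ring
    linarith
  have b4 : h / μ ^ 2 * (3 * (2 * l) * (μ ^ 2 / h + 1) * lx / z) ≤ 12 * (l ^ 2 / P) := by
    calc h / μ ^ 2 * (3 * (2 * l) * (μ ^ 2 / h + 1) * lx / z) ≤
        h / μ ^ 2 * (3 * (2 * l) * (2 * (μ ^ 2 / h)) * l / P) := by gcongr
      _ = 12 * (l ^ 2 / P) := by field_simp; ring
  have b : h / μ ^ 2 * Br ≤ (192 * 2 ^ E + 34) * (l ^ 2 / P) := by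
    rw [hBr]
    calc _ = h / μ ^ 2 * (4 * x / lx ^ E) +
        h / μ ^ 2 * ((1 + 2 * lx) ^ 2 / z * (μ ^ 2 / h + 1)) +
        h / μ ^ 2 * (2 * l * (μ ^ 2 / h / F + 1)) +
        h / μ ^ 2 * (3 * (2 * l) * (μ ^ 2 / h + 1) * lx / z) := by ring
      _ ≤ 192 * 2 ^ E * (l ^ 2 / P) + 18 * (l ^ 2 / P) + 4 * (l ^ 2 / P) + 12 * (l ^ 2 / P) := by
          linarith
      _ = _ := by ring
  have e1 : (2 * l) ^ 5 * (8 * x ^ 5 * (1 + 2 * lx) ^ 15 * Br) ≤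
      (32 * 8 * 12 ^ 5 * 3 ^ 15) * l ^ 20 * (l ^ (A + 2)) ^ 5 * (h ^ 4 / μ ^ 3) *
        (h / μ ^ 2 * Br) := by
    calc (2 * l) ^ 5 * (8 * x ^ 5 * (1 + 2 * lx) ^ 15 * Br) ≤
        (2 * l) ^ 5 * (8 * (12 * h * l ^ (A + 2) / μ) ^ 5 * (3 * l) ^ 15 * Br) := by gcongr
      _ = _ := by
          field_simp
          try ring
  refine e1.trans ?_
  have e2 : (32 * 8 * 12 ^ 5 * 3 ^ 15) * l ^ 20 * (l ^ (A + 2)) ^ 5 * (h ^ 4 / μ ^ 3) *
        (h / μ ^ 2 * Br) ≤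
      (32 * 8 * 12 ^ 5 * 3 ^ 15) * l ^ 20 * (l ^ (A + 2)) ^ 5 * (h ^ 4 / μ ^ 3) *
        ((192 * 2 ^ E + 34) * (l ^ 2 / P)) := by gcongr
  refine e2.trans ?_
  set c23 : ℝ := (32 * 8 * 12 ^ 5 * 3 ^ 15) * (192 * 2 ^ E + 34) with hc23
  have hc0 : 0 < c23 := by positivity
  have e3 : (32 * 8 * 12 ^ 5 * 3 ^ 15) * l ^ 20 * (l ^ (A + 2)) ^ 5 * (h ^ 4 / μ ^ 3) *
        ((192 * 2 ^ E + 34) * (l ^ 2 / P)) = c23 * (l ^ (5 * A + 32) / P) * (h ^ 4 / μ ^ 3) := by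
    have hp : l ^ (5 * A + 32) = l ^ 20 * (l ^ (A + 2)) ^ 5 * l ^ 2 := by
      rw [← pow_mul, ← pow_add, ← pow_add]; congr 1; ring
    rw [hc23, hp]
    ring
  rw [e3]
  have e4 : c23 * (l ^ (5 * A + 32) / P) ≤ ε / 2 * (1 / l ^ A) := by
    have s1 : l ^ (5 * A + 32) / P = 1 / l ^ 28 * (1 / l ^ A) := by
      have hp : l ^ (6 * A + 60) = l ^ (5 * A + 32) * l ^ A * l ^ 28 := by
        rw [← pow_add, ← pow_add]; congr 1; ring
      rw [hP, hp]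
      field_simp
    rw [s1, ← mul_assoc]
    gcongr
    rw [mul_one_div, div_le_iff₀ (by positivity)]
    have s2 : l ≤ l ^ 28 := by
      calc l = l ^ 1 := by ring
        _ ≤ l ^ 28 := pow_le_pow_right₀ hl1 (by norm_num)
    have s3 : 2 * c23 / ε ≤ l ^ 28 := hl2.trans s2
    calc c23 = ε / 2 * (2 * c23 / ε) := by field_simp
      _ ≤ ε / 2 * l ^ 28 := by gcongr
  calc c23 * (l ^ (5 * A + 32) / P) * (h ^ 4 / μ ^ 3) ≤ ε / 2 * (1 / l ^ A) * (h ^ 4 / μ ^ 3) := by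
        gcongr
    _ = ε / 2 * (h ^ 4 / (μ ^ 3 * l ^ A)) := by field_simp

/-- the modulus bound -/
private lemma q_VB (A C b : ℕ) (l lx h μ lam x F Q : ℝ)
    (hl1 : 1 ≤ l) (hl2 : 1153 * 2 ^ (2 * C + b + 3 * A + 6 + 1) ≤ l)
    (hh : 0 < h) (hμ : 0 < μ) (hlam : 0 < lam)
    (hK : μ ≤ lam * l ^ (A + 2)) (hH2 : h ^ 2 ≤ 4 * μ ^ 3 * (l ^ C) ^ 2)
    (hx0 : 0 ≤ x) (hx : x ≤ 12 * h / lam) (hlx2 : l ≤ 2 * lx)
    (hF0 : 0 ≤ F) (hF : F ≤ 2 * l ^ b) (hQ : Q ≤ x ^ 2 * F / lam + 1) :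
    Q ≤ lx ^ (2 * C + b + 3 * A + 6 + 1) := by
  have hl0 : 0 < l := by linarith
  set n := 2 * C + b + 3 * A + 6 with hn
  have e1 : x ^ 2 * F / lam ≤ 1152 * l ^ n := by
    have s1 : 1 / lam ≤ l ^ (A + 2) / μ := by
      rw [div_le_div_iff₀ hlam hμ]; linarith
    calc x ^ 2 * F / lam ≤ (12 * h / lam) ^ 2 * (2 * l ^ b) / lam := by gcongr
      _ = 288 * l ^ b * h ^ 2 * (1 / lam) ^ 3 := by field_simp; ring
      _ ≤ 288 * l ^ b * (4 * μ ^ 3 * (l ^ C) ^ 2) * (l ^ (A + 2) / μ) ^ 3 := by gcongr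
      _ = 1152 * l ^ n := by
          have hp : l ^ n = l ^ b * (l ^ C) ^ 2 * (l ^ (A + 2)) ^ 3 := by
            rw [← pow_mul, ← pow_mul, ← pow_add, ← pow_add]; congr 1; rw [hn]; ring
          rw [hp]
          field_simp
          ring
  have h1 : 1 ≤ l ^ n := one_le_pow₀ hl1
  have e2 : Q ≤ 1153 * l ^ n := by linarith
  refine e2.trans ?_
  have e3 : 2 ^ (n + 1) * (1153 * l ^ n) ≤ 2 ^ (n + 1) * lx ^ (n + 1) := by
    calc 2 ^ (n + 1) * (1153 * l ^ n) = (1153 * 2 ^ (n + 1)) * l ^ n := by ring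
      _ ≤ l * l ^ n := by gcongr
      _ = l ^ (n + 1) := by ring
      _ ≤ (2 * lx) ^ (n + 1) := by gcongr
      _ = 2 ^ (n + 1) * lx ^ (n + 1) := by rw [mul_pow]
  exact le_of_mul_le_mul_left e3 (by positivity)

theorem hVB (ha : StVar) (hb : StAPE) (hc : StSiz) : StVB := by
  intro A C ε hε hC
  obtain ⟨m1, hm1⟩ := hc A (6 * A + 60) C
  obtain ⟨x0, hx0⟩ := hb (2 * C + 7 * A + 60) (2 * C + (6 * A + 60) + 3 * A + 6 + 1)
  set c23 : ℝ := (32 * 8 * 12 ^ 5 * 3 ^ 15) * (192 * 2 ^ (2 * C + 7 * A + 60) + 34) with hc23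
  have hlog : Filter.Tendsto (fun m : ℕ => Real.log (m : ℝ)) Filter.atTop Filter.atTop :=
    Real.tendsto_log_atTop.comp tendsto_natCast_atTop_atTop
  have ev1 := hlog.eventually_ge_atTop 1
  have ev2 := hlog.eventually_ge_atTop (2 * Real.log ((x0 : ℝ) + 1))
  have ev3 := hlog.eventually_ge_atTop
    (1153 * 2 ^ (2 * C + (6 * A + 60) + 3 * A + 6 + 1))
  have ev4 := hlog.eventually_ge_atTop (2 * 221184 / ε)
  have ev5 := hlog.eventually_ge_atTop (2 * c23 / ε)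
  have ev6 : ∀ᶠ m : ℕ in Filter.atTop,
      4 * Real.log (m : ℝ) ^ (2 * C + 2 * (6 * A + 60)) ≤ (m : ℝ) := by
    have h1 := (Real.isLittleO_pow_log_id_atTop (n := 2 * C + 2 * (6 * A + 60))).bound
      (show (0 : ℝ) < 1 / 4 by norm_num)
    have h2 := tendsto_natCast_atTop_atTop (R := ℝ) |>.eventually h1
    filter_upwards [h2, ev1] with m hm hm1
    simp only [id, Real.norm_eq_abs] at hm
    rw [abs_of_nonneg (by positivity), abs_of_nonneg (Nat.cast_nonneg m)] at hm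
    linarith
  have ev7 : ∀ᶠ m : ℕ in Filter.atTop, m1 ≤ m := Filter.eventually_ge_atTop m1
  have ev8 : ∀ᶠ m : ℕ in Filter.atTop, 1 ≤ m := Filter.eventually_ge_atTop 1
  have hall := ev1.and (ev2.and (ev3.and (ev4.and (ev5.and (ev6.and (ev7.and ev8))))))
  obtain ⟨m0, hm0⟩ := Filter.eventually_atTop.mp hall
  refine ⟨m0, ?_⟩
  intro m lo H hm hPar g hg k hk s₁ s₂ s₃ hs₁ hs₂ hs₃
  obtain ⟨v1, v2, v3, v4, v5, v6, v7, v8⟩ := hm0 m hm
  obtain ⟨z3, zm, z11, zX, zl1, zl2, z2, zb, zb1, zb2, zzm, zH1, zH2, zl, zth, zlz⟩ :=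
    hm1 m lo H v7 hPar
  obtain ⟨p1, p2, p3, p4, p5⟩ := hPar
  set X := XX lo H with hX
  set z := zz (6 * A + 60) m with hz
  set l := Real.log (m : ℝ) with hl
  have hl0 : 0 < l := by linarith
  set F := ⌈l ^ (6 * A + 60)⌉₊ with hF
  have hP1 : 1 ≤ l ^ (6 * A + 60) := one_le_pow₀ v1
  have hF1 : l ^ (6 * A + 60) ≤ (F : ℝ) := Nat.le_ceil _
  have hF2 : (F : ℝ) ≤ 2 * l ^ (6 * A + 60) := by
    have := (Nat.ceil_lt_add_one (by positivity : 0 ≤ l ^ (6 * A + 60))).le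
    linarith
  have hFp : 1 ≤ F := by
    have : (1 : ℝ) ≤ (F : ℝ) := hP1.trans hF1
    exact_mod_cast this
  set Q := X ^ 2 * F / lo + 1 with hQ
  have hloR : (0 : ℝ) < lo := by exact_mod_cast p1
  have hmR : (0 : ℝ) < m := by exact_mod_cast v8
  have hHR : (0 : ℝ) < H := by exact_mod_cast zH1
  have hHm : (H : ℝ) ≤ (m : ℝ) ^ 2 := by exact_mod_cast zH2
  have hQ1 : X ^ 2 * F ≤ lo * Q := by
    rw [hQ]
    have h1 := Nat.div_add_mod (X ^ 2 * F) lo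
    have h2 := Nat.mod_lt (X ^ 2 * F) p1
    calc X ^ 2 * F = lo * (X ^ 2 * F / lo) + (X ^ 2 * F) % lo := h1.symm
      _ ≤ lo * (X ^ 2 * F / lo) + lo := by omega
      _ = lo * (X ^ 2 * F / lo + 1) := by ring
  have hQ2 : (Q : ℝ) ≤ (X : ℝ) ^ 2 * F / lo + 1 := by
    rw [hQ]
    push_cast
    have : ((X ^ 2 * F / lo : ℕ) : ℝ) ≤ ((X ^ 2 * F : ℕ) : ℝ) / lo := Nat.cast_div_le
    push_cast at this
    linarith
  have hX0R : (0 : ℝ) ≤ X := Nat.cast_nonneg _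
  have hQ3 := q_VB A C (6 * A + 60) l (Real.log X) H m lo X F Q v1 v3 hHR hmR hloR p3
    (by simpa [mul_assoc] using p5) hX0R zX zl1 (Nat.cast_nonneg _) hF2 hQ2
  have hlX : 1 ≤ Real.log (X : ℝ) := by
    have : (1153 : ℝ) * 2 ^ (2 * C + (6 * A + 60) + 3 * A + 6 + 1) ≥ 2 := by
      have : (1 : ℝ) ≤ 2 ^ (2 * C + (6 * A + 60) + 3 * A + 6 + 1) := one_le_pow₀ (by norm_num)
      linarith
    linarith
  have hx0X : x0 ≤ X := by
    have h1 : Real.log ((x0 : ℝ) + 1) ≤ Real.log (X : ℝ) := by linarith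
    have hXp : (0 : ℝ) < X := by
      have : (3 : ℝ) ≤ X := by exact_mod_cast z3
      linarith
    have h2 := (Real.log_le_log_iff (by positivity) hXp).mp h1
    have h3 : (x0 : ℝ) ≤ X := by linarith
    exact_mod_cast h3
  have hzB : (z : ℝ) ≤ Real.log X ^ (2 * C + (6 * A + 60) + 3 * A + 6 + 1) :=
    zb2.trans (pow_le_pow_right₀ hlX (by omega))
  have hAPH := hx0 X z Q hx0X z2 hzB hQ3
  have hthlz : ∀ x ≤ X, |(fun n => th n - lz z n) x| ≤ 2 * l := by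
    intro x hx
    have h1 := zth x hx
    have h2 := zlz x hx
    calc |th x - lz z x| ≤ |th x| + |lz z x| := abs_sub _ _
      _ ≤ 2 * l := by linarith
  have hgb : ∀ g' ∈ ({th, lz z} : Set (ℕ → ℝ)), ∀ x ≤ X, |g' x| ≤ 2 * l := by
    intro g' hg' x hx
    rcases hg' with rfl | hg'
    · have := zth x hx
      linarith
    · rw [Set.mem_singleton_iff] at hg'
      subst hg'
      have := zlz x hx
      linarith
  have hvar := ha (fun n => th n - lz z n) g k X H lo m z F Q (2 * l)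
    (4 * X / Real.log X ^ (2 * C + 7 * A + 60)) ((1 + 2 * Real.log X) ^ 2 / z)
    ((m : ℝ) ^ 2 / H) s₁ s₂ s₃ hs₁ hs₂ hs₃ (by omega) (by omega) p1 p2 zH1 zzm
    (by rw [div_mul_cancel₀ _ hHR.ne']) (by positivity) (by positivity) (by positivity) hFp hQ1
    hthlz (hgb g hg) (hgb k hk) (rgh_VB z) hAPH
  refine hvar.trans ?_
  have t1 := t1_VB A C ε l H m lo X hε hC v1 v4 hHR hmR hloR p3 p4 hHm hX0R zX
  have t2 := t2_VB A C (2 * C + 7 * A + 60) ε l H m lo X (Real.log X) z F rfl hε v1 v5 hHR hmR hloR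
    p3 p5 hHm v6 hX0R zX zl2 zl1 zb hF1
  calc _ ≤ ε / 2 * ((H : ℝ) ^ 4 / ((m : ℝ) ^ 3 * l ^ A)) +
      ε / 2 * ((H : ℝ) ^ 4 / ((m : ℝ) ^ 3 * l ^ A)) := add_le_add t1 t2
    _ = _ := by ring

end Pool.Agent.Helper30.HX
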