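import Pool.Agent.Helper30.HX.Defs
import Pool.Agent.Helper48.BK.StD

/-!
# Project HX: statements, arithmetic (A), equidistribution (B), second moment (C), defect (D)
-/

set_option autoImplicit false

namespace Pool.Agent.Helper30.HX

open Finset
open Pool.Agent.Helper48.BK (th lz Vz Pz win AdN)

/-! ### A: divisor sums -/

/-- TAU. Moments of the divisor function.
Proof. Let `S_j(X) = ∑_{h ≤ X} τ(h)^j`, `L_j(X) = ∑_{h ≤ X} τ(h)^j / h`.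
(1) `L_j(X) ≤ (1 + log X)^{2^j}` by induction on `j`: `L_0` is the harmonic sum;
`L_{j+1}(X) = ∑_h τ(h)^j ∑_{d ∣ h} 1/h = ∑_{d k ≤ X} τ(dk)^j/(dk) ≤ L_j(X)^2`
(`τ(dk) ≤ τ(d) τ(k)`).
(2) `S_{j+1}(X) = ∑_{d ≤ X} ∑_{k ≤ X/d} τ(dk)^j ≤ ∑_{d ≤ X} τ(d)^j S_j(X/d)
≤ ∑_d τ(d)^j (X/d) (1 + log X)^{2^j - 1} ≤ X (1 + log X)^{2^j - 1 + 2^j}`. -/
def StTau : Prop := ∀ j X : ℕ, 1 ≤ X →
  ∑ h ∈ Icc 1 X, (h.divisors.card : ℝ) ^ j ≤ X * (1 + Real.log X) ^ (2 ^ j - 1)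

/-- DET. Divisors of 2x2 determinants.
Proof. Put `N = X^2`, `u = y w'`, `v = w y'`, both in `[1, N]`. The number of `(y, w')` with
`y w' = u` is at most `τ(u)`. Hence the sum is at most
`∑_{u,v ≤ N} τ(u) τ(v) τ(|u-v|)^2` (the terms with `u = v` vanish since `tau 0 = 0`) and
`a b c^2 ≤ (a^4 + b^4 + 2 c^4) / 4`; `∑_{u,v ≤ N} τ(u)^4 = N S_4(N)` and
`∑_{u ≠ v ≤ N} τ(|u-v|)^4 ≤ 2 N S_4(N)`, so the sum is at most `(3/2) N S_4(N)`, and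
`S_4(N) ≤ N (1 + log N)^15` by TAU. -/
def StDet : Prop := ∀ X : ℕ, 1 ≤ X →
  ∑ y ∈ Ioc 0 X, ∑ w ∈ Ioc 0 X, ∑ y' ∈ Ioc 0 X, ∑ w' ∈ Ioc 0 X, tau (dlt y w y' w') ^ 2 ≤
    4 * (X : ℝ) ^ 4 * (1 + 2 * Real.log X) ^ 15

/-- GS. Proof: `∑_{x ≤ X} gcd(h,x) ≤ ∑_{g ∣ h} g ⌊X/g⌋ ≤ X τ(h)`, so the sum is at most
`X^3 ∑_{z < h ≤ X} τ(h)/h^2 ≤ (X^3/z) ∑_{h ≤ X} τ(h)/h ≤ (X^3/z) (∑_{d ≤ X} 1/d)^2`. -/
def StGS : Prop := ∀ X z : ℕ, 1 ≤ X → 1 ≤ z →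
  ∑ h ∈ Ioc z X, (∑ x ∈ Ioc 0 X, (Nat.gcd h x : ℝ)) * ((X : ℝ) / h) ^ 2 ≤
    (X : ℝ) ^ 3 * (1 + Real.log X) ^ 2 / z

/-! ### B: equidistribution of `th - lz z` in progressions -/

/-- APG. The model in a reduced class modulo an arbitrary `q`.  Proof: copy
`Pool/Agent/Helper48/BK/M_APZ.lean` (hAPZ); there `q ≤ z` is used only to identify the density
with `1/φ(q)` (lemma `tot_APZ`), here the density is `gz z q` by definition, and in the coprime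
case `sieve_APZ` applies to the primes up to `z` not dividing `q` (a prime `p ∣ q` does not divide
`n ≡ u`). -/
def StAPG : Prop := ∀ A B : ℕ, ∃ x₀ : ℕ, ∀ x y z q u : ℕ, x₀ ≤ x → y ≤ x → 2 ≤ z →
  (z : ℝ) ≤ Real.log x ^ B → 1 ≤ q → Nat.Coprime u q →
  |∑ n ∈ (Ioc 0 y).filter (fun n => n ≡ u [MOD q]), lz z n - (y : ℝ) * gz z q| ≤
    x / Real.log x ^ A

/-- PHI. Proof. `q gz z q = ∏_{p ∣ q, p ≤ z} (1-1/p)^{-1}` and `q/φ(q) = ∏_{p ∣ q} (1-1/p)^{-1}`,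
so `gz z q = (1/φ(q)) ∏_{p ∣ q, p > z} (1 - 1/p)` and
`0 ≤ 1/φ(q) - gz z q ≤ (1/φ(q)) ∑_{p ∣ q, p > z} 1/p ≤ (1/φ(q)) ω(q)/z`.  Moreover
`q/φ(q) = ∏_{p ∣ q} p/(p-1) ≤ 1 + ω(q)` (the `i`-th prime factor is at least `i + 1`) and
`ω(q) ≤ log q / log 2 ≤ 2 log x`. -/
def StPhi : Prop := ∀ x z q : ℕ, 3 ≤ x → 1 ≤ z → 1 ≤ q → q ≤ x →
  |1 / (Nat.totient q : ℝ) - gz z q| ≤ (1 + 2 * Real.log x) ^ 2 / (q * z)

/-- APE. `th - lz z` in intervals and reduced classes.  Proof: Siegel-Walfisz (`StSW`) and APG at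
both end points with the same `A`, and PHI (note `q ≤ (log x)^B ≤ x` for large `x`). -/
def StAPE : Prop := ∀ A B : ℕ, ∃ x₀ : ℕ, ∀ x z Q : ℕ, x₀ ≤ x → 2 ≤ z →
  (z : ℝ) ≤ Real.log x ^ B → (Q : ℝ) ≤ Real.log x ^ B →
  APH (fun n => th n - lz z n) x Q (4 * x / Real.log x ^ A) ((1 + 2 * Real.log x) ^ 2 / z)

/-! ### C: second moment over primitive coefficient triples, `d = 0` -/

open Classical in
/-- PAR. Parametrisation of the primitive triples orthogonal to two vectors.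
Proof. `v ↦ e` where `(x,y,w) × (x',y',w') = e (s₁ v₁, s₂ v₂, s₃ v₃)`. Existence of `e`: put
`P = (s₁ v₁, s₂ v₂, s₃ v₃)`, `V = (x,y,w) × (x',y',w')`; from `P·(x,y,w) = P·(x',y',w') = 0` we get
`P × V = 0`, i.e. `P_i V_j = P_j V_i`; take `r` with `r·P = 1` (Bezout, `P` primitive) and
`e = r·V`: then `e P_j = ∑ r_i V_i P_j = ∑ r_i P_i V_j = V_j`. Since `V_1 = dlt ≠ 0`, `e ≠ 0`,
`e ∣ dlt`, and `P = V/e`. Conversely for `e` in the right hand set `P = V/e` is primitive,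
orthogonal to both vectors (`V·(x,y,w) = 0`), and `v = (s₁ P₁, s₂ P₂, s₃ P₃)` are naturals in
`[lo, m]`. The two maps are inverse to each other. -/
def StPar : Prop := ∀ (H lo m : ℕ) (s₁ s₂ s₃ : ℤ) (x y w x' y' w' : ℕ), Sg s₁ → Sg s₂ → Sg s₃ →
  1 ≤ lo → dlt y w y' w' ≠ 0 →
  (((Icc lo m) ×ˢ (Icc lo m) ×ˢ (Icc lo m)).filter
    (fun v : ℕ × ℕ × ℕ => Trp H s₁ s₂ s₃ x y w x' y' w' v)).card =
  ((sdv (dlt y w y' w')).filter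
    (fun e => Cnd H lo m s₁ s₂ s₃ x y w x' y' w' e)).card

/-- CLS. The condition `q ∣ (x,y,w) × (x',y',w')` is one residue class for `x`.
Proof. Take integers `u, v` with `u y' + v w' = 1` and `r ≡ (u y + v w) x' mod q`. If `q` divides
both forms then `x = x (u y' + v w') = u (x y') + v (x w') ≡ u y x' + v w x'`. Conversely if
`x ≡ (u y + v w) x'` then `x y' - y x' ≡ x' (u y y' + v w y' - y (u y' + v w'))
= x' v (w y' - y w') ≡ 0` and similarly `w x' - x w' ≡ x' u (w y' - y w') ≡ 0`. -/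
def StCls : Prop := ∀ y w x' y' w' q : ℕ, Nat.Coprime y' w' → 1 ≤ q →
  (q : ℤ) ∣ dlt y w y' w' → ∃ r : ℕ, ∀ x : ℕ,
  ((q : ℤ) ∣ (w : ℤ) * x' - x * w' ∧ (q : ℤ) ∣ (x : ℤ) * y' - y * x') ↔ x ≡ r [MOD q]

/-- CVX. An order convex predicate cuts out an interval; points of a class in a short interval.
Proof. First part: minimum and maximum of the set (if it is empty take `y₁ = y₂ = 0`). Second part:
if the class has `k ≥ 1` points in the interval then the extreme ones differ by at least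
`(k - 1) q`, so `(k - 1) q ≤ D`; and `y₂ - y₁ - 1 ≤ D` (apply the hypothesis to `y₁ + 1`, `y₂`). -/
def StCvx : Prop :=
  (∀ (X : ℕ) (P : ℕ → Prop), (∀ x₁ x₂ x₃ : ℕ, x₁ ≤ x₂ → x₂ ≤ x₃ → P x₁ → P x₃ → P x₂) →
    ∃ y₁ y₂ : ℕ, y₁ ≤ y₂ ∧ y₂ ≤ X ∧ ∀ x : ℕ, (x ∈ Ioc 0 X ∧ P x) ↔ x ∈ Ioc y₁ y₂) ∧
  (∀ (y₁ y₂ q r : ℕ) (D : ℝ), 1 ≤ q → 0 ≤ D → y₁ ≤ y₂ →
    (∀ x₁ ∈ Ioc y₁ y₂, ∀ x₂ ∈ Ioc y₁ y₂, x₁ ≤ x₂ → (x₂ : ℝ) - x₁ ≤ D) →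
    ((((Ioc y₁ y₂).filter (fun x => x ≡ r [MOD q])).card : ℕ) : ℝ) ≤ D / q + 1 ∧
    (y₂ : ℝ) - y₁ ≤ D + 1)

open Classical in
/-- INN. The inner sum.
Proof. Write `δ = dlt y w y' w'`, `β(x) = w x' - x w'`, `γ(x) = x y' - y x'` and suppose the set
on the left is nonempty. Then `s₁ δ / e ≥ lo`, so `lo |e| ≤ |δ| ≤ X^2` and `|e| F ≤ Q`
(from `X^2 F ≤ lo Q`); and `s₃ γ/e ≤ m`, `(s₃ γ/e) w' > 4 H`, so `m w' > 4 H`, hence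
`m / w' ≤ m^2/(4H) ≤ Λ`; similarly `m x > 4 H`, so `x > z` for all `x` of the set.
Moebius: for `x` with `e ∣ β(x), γ(x)` the indicator of `gcd(δ/e, β/e, γ/e) = 1` is
`∑_{t ∣ δ/e} μ(t) 1[t ∣ β/e] 1[t ∣ γ/e]`, and `e ∣ β, t ∣ β/e` together say `e t ∣ β`. So the left
side is at most `∑_{t ∣ δ/e} |∑_{x : e t ∣ β(x), e t ∣ γ(x), P(x)} f x|`, where `P(x)` is the
conjunction of the range and window conditions with the REAL quotients `δ/e, β(x)/e, γ(x)/e` in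
place of the integer ones (they agree). All these are linear inequalities in `x`, so `P` is order
convex, and CVX gives `P = Ioc y₁ y₂`. If `x₁ ≤ x₂` satisfy `P` then `s₂ β(x_i)/e ∈ [0, m]`, so
`(x₂ - x₁) w' = |β(x₁) - β(x₂)| ≤ m |e|`: `D = m |e| / w'`. By CLS with `q = |e| t` (which divides
`δ`) the divisibility conditions are one class `x ≡ r mod q`.
The number of `x` is at most `D/q + 1 = m/(w' t) + 1 ≤ Λ/t + 1`. This proves the bound for `t > F`.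
Let `t ≤ F`, so `q ≤ Q`. If `gcd(r, q) = 1` use `APH`:
`R + ρ (y₂ - y₁)/q ≤ R + ρ (D + 1)/q ≤ R + ρ (Λ + 1)`; this is at most the bound in both cases
only when no `p` exists, and in the case that some `p` exists use the count `M (Λ + 1)`.
If `gcd(r, q) > 1` and no `p` as in `Bd` exists: let `p` be a prime dividing `r` and `q`, so `p`
divides every `x` of the class. If `p ≤ z` then `f x = 0` for all `x` (`Rgh`, `x > z`).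
If `p > z`: for `x` in the class `p ∣ q ∣ x y' - y x'` gives `p ∣ y x'`, and `p ∣ w x'`, and
`y, w` coprime give `p ∣ x'`, contradiction, so there is no such `x`. The sum is `0`. -/
def StInn : Prop := ∀ (f : ℕ → ℝ) (X H lo m z F Q : ℕ) (M R ρ Λ : ℝ) (s₁ s₂ s₃ : ℤ)
  (y w x' y' w' : ℕ) (e : ℤ), Sg s₁ → Sg s₂ → Sg s₃ → 1 ≤ lo → lo ≤ m → 1 ≤ H →
  z * m ≤ 4 * H → (m : ℝ) ^ 2 ≤ Λ * H → 0 ≤ M → 0 ≤ R → 0 ≤ ρ → 1 ≤ F → X ^ 2 * F ≤ lo * Q →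
  y ≤ X → w ≤ X → y' ≤ X → w' ≤ X → Nat.Coprime y w → Nat.Coprime y' w' →
  e ∈ sdv (dlt y w y' w') → (∀ x ≤ X, |f x| ≤ M) → Rgh z f → APH f X Q R ρ →
  |∑ x ∈ (Ioc 0 X).filter (fun x => Cnd H lo m s₁ s₂ s₃ x y w x' y' w' e), f x| ≤
    ∑ t ∈ (dlt y w y' w' / e).natAbs.divisors, Bd z F M R ρ Λ e x' t

open Classical in
/-- OME. Proof: the set is contained in the union over the primes `p ∣ q`, `p > z`, of the
multiples of `p`, so it has at most `ω(q) X / z` elements, and `2^{ω(q)} ≤ q ≤ X^2` gives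
`ω(q) ≤ 2 log X / log 2 ≤ 3 log X`. -/
def StOme : Prop := ∀ X z q : ℕ, 2 ≤ X → 1 ≤ z → 1 ≤ q → q ≤ X ^ 2 →
  ((((Ioc 0 X).filter (fun x => ∃ p : ℕ, p.Prime ∧ z < p ∧ p ∣ q ∧ p ∣ x)).card : ℕ) : ℝ) ≤
    3 * Real.log X * X / z

/-- OFF. Proof. `Bd ≤ R + ρ (Λ+1) + M (Λ/F + 1) + M (Λ + 1) 1[∃ p ...]` and by OME with
`q = |e| t ∣ dlt`, `q ≤ X^2`, the sum over `x'` is at most
`X (R + ρ(Λ+1) + M(Λ/F+1) + 3 M (Λ+1) log X / z)`. The number of pairs `(e, t)` is at most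
`2 τ(dlt)^2` (`e` has `2 τ` values, `t ∣ dlt/e`). -/
def StOff : Prop := ∀ (X z F : ℕ) (M R ρ Λ : ℝ), 2 ≤ X → 1 ≤ z → 1 ≤ F → 0 ≤ M → 0 ≤ R →
  0 ≤ ρ → 0 ≤ Λ →
  ∑ y ∈ Ioc 0 X, ∑ w ∈ Ioc 0 X, ∑ x' ∈ Ioc 0 X, ∑ y' ∈ Ioc 0 X, ∑ w' ∈ Ioc 0 X,
    ∑ e ∈ sdv (dlt y w y' w'), ∑ t ∈ (dlt y w y' w' / e).natAbs.divisors,
      Bd z F M R ρ Λ e x' t ≤
  2 * X * (R + ρ * (Λ + 1) + M * (Λ / F + 1) + 3 * M * (Λ + 1) * Real.log X / z) *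
    ∑ y ∈ Ioc 0 X, ∑ w ∈ Ioc 0 X, ∑ y' ∈ Ioc 0 X, ∑ w' ∈ Ioc 0 X, tau (dlt y w y' w') ^ 2

/-- CNA. Number of coefficient triples orthogonal to a given vector.
Proof. Let `h = gcd(y, w)`, `h' = h / gcd(h, x)`. A solution has `h ∣ a x`, so `h' ∣ a`: at most
`m / h'` values of `a`. For given `a`, `(y/h) b ≡ const (mod w/h)` and `gcd(y/h, w/h) = 1`: `b` is
in at most one class modulo `w/h`, at most `m h / w + 1` values, and then `c` is determined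
(`w ≥ 1`). The product is `gcd(h,x) (m^2/w + m/h) ≤ gcd(h,x) m (m/w + 1)`. -/
def StCnA : Prop := ∀ (m x y w : ℕ) (s₁ s₂ s₃ : ℤ), Sg s₁ → Sg s₂ → Sg s₃ → 1 ≤ x → 1 ≤ y →
  1 ≤ w →
  (((((Icc 1 m) ×ˢ (Icc 1 m) ×ˢ (Icc 1 m)).filter (fun v : ℕ × ℕ × ℕ =>
    s₁ * (v.1 * x) + s₂ * (v.2.1 * y) + s₃ * (v.2.2 * w) = 0)).card : ℕ) : ℝ) ≤
    (Nat.gcd (Nat.gcd y w) x : ℝ) * (m * ((m : ℝ) / w + 1))

/-- VAR. The second moment.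
Proof. Expand the square as a sum over pairs `(x,y,w)`, `(x',y',w')` in `(0, X]^3`, with `y, w`
coprime and `y', w'` coprime, of
`f x g y k w f x' g y' k w'` times the number of triples `v ∈ [lo, m]^3` with `Trp`.
(1) Pairs with `dlt y w y' w' = 0`: `y w' = w y'` and coprimality give `y = y'`, `w = w'`, and then
`s₁ v₁ (x - x') = 0`, so `x = x'`. Such pairs contribute at most `M^6` times the number of
`(v, x, y, w)`; by CNA (with gcd `1`) and `m/w ≤ Λ` (window: `4 H < v₃ w ≤ m w`) this is at most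
`M^6 X^3 m (Λ + 1)`.
(2) Pairs with `dlt ≠ 0`: by PAR the number of `v` is the number of `e ∈ sdv dlt` with `Cnd`; the
contribution is, in absolute value, at most
`M^5 ∑_{y,w,x',y',w'} ∑_{e ∈ sdv dlt} |∑_{x : Cnd} f x|`, and INN, OFF, DET finish
(`2 X · 4 X^4 = 8 X^5`). -/
def StVar : Prop := ∀ (f g k : ℕ → ℝ) (X H lo m z F Q : ℕ) (M R ρ Λ : ℝ) (s₁ s₂ s₃ : ℤ),
  Sg s₁ → Sg s₂ → Sg s₃ → 2 ≤ X → 1 ≤ z → 1 ≤ lo → lo ≤ m → 1 ≤ H →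
  z * m ≤ 4 * H → (m : ℝ) ^ 2 ≤ Λ * H → 0 ≤ M → 0 ≤ R → 0 ≤ ρ → 1 ≤ F → X ^ 2 * F ≤ lo * Q →
  (∀ x ≤ X, |f x| ≤ M) → (∀ x ≤ X, |g x| ≤ M) → (∀ x ≤ X, |k x| ≤ M) →
  Rgh z f → APH f X Q R ρ →
  ∑ a ∈ Icc lo m, ∑ b ∈ Icc lo m, ∑ c ∈ Icc lo m,
    (if Nat.gcd a (Nat.gcd b c) = 1 then TC f g k H X s₁ s₂ s₃ a b c ^ 2 else 0) ≤
    M ^ 6 * X ^ 3 * (m * (Λ + 1)) +
    M ^ 5 * (8 * (X : ℝ) ^ 5 * (1 + 2 * Real.log X) ^ 15 *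
      (R + ρ * (Λ + 1) + M * (Λ / F + 1) + 3 * M * (Λ + 1) * Real.log X / z))

/-! ### D: the terms with a common factor -/

/-- DEF. Proof. The difference is the sum over `(x,y,w)` with `gcd(y,w) > 1`. A nonzero term has
`m y > 4 H ≥ z m` so `y > z`, similarly `w > z`, `g y ≠ 0`, `k w ≠ 0`, so every prime dividing
`gcd(y,w)` exceeds `z` and `h = gcd(y,w) > z`; also `m/w ≤ Λ`. The sum over the coefficients is at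
most `M^3 ∑_{x,y,w : gcd(y,w) > z} gcd(h,x) m (Λ + 1)` by CNA; the number of `(y,w)` with
`gcd = h` is at most `(X/h)^2`; apply GS. -/
def StDef : Prop := ∀ (f g k : ℕ → ℝ) (X H lo m z : ℕ) (M Λ : ℝ) (s₁ s₂ s₃ : ℤ),
  Sg s₁ → Sg s₂ → Sg s₃ → 1 ≤ X → 1 ≤ z → 1 ≤ lo → lo ≤ m → 1 ≤ H →
  z * m ≤ 4 * H → (m : ℝ) ^ 2 ≤ Λ * H → 0 ≤ M →
  (∀ x ≤ X, |f x| ≤ M) → (∀ x ≤ X, |g x| ≤ M) → (∀ x ≤ X, |k x| ≤ M) →
  Rgh z g → Rgh z k →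
  ∑ a ∈ Icc lo m, ∑ b ∈ Icc lo m, ∑ c ∈ Icc lo m,
    |TF f g k H X s₁ s₂ s₃ a b c 0 - TC f g k H X s₁ s₂ s₃ a b c| ≤
    M ^ 3 * ((m * (Λ + 1)) * ((X : ℝ) ^ 3 * (1 + Real.log X) ^ 2 / z))

end Pool.Agent.Helper30.HX
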