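import Pool.Agent.Helper30.HX.Defs
import Pool.Agent.Helper48.BK.StT

/-!
# Project HX: statements, main term (M) and exceptional lattices (E)

Here `d` is arbitrary (`|d| ≤ H`), the number of solutions is a power of `log m` and the
coefficient `c` is larger than the variables, so the lattice `{(x, y) : c ∣ a x + b y}` must not
have very short vectors.
-/

set_option autoImplicit false

namespace Pool.Agent.Helper30.HX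

open Finset
open Pool.Agent.Helper48.BK (th lz Vz Pz win AdN Cl kp)

/-- `(u₁,u₂,u₃)`, `(v₁,v₂,v₃)` is a basis of the lattice `a x + b y = c t` -/
def Bas (a b c : ℕ) (u₁ u₂ u₃ v₁ v₂ v₃ : ℤ) : Prop :=
  (a : ℤ) * u₁ + b * u₂ = c * u₃ ∧ (a : ℤ) * v₁ + b * v₂ = c * v₃ ∧
  (u₁ * v₂ - u₂ * v₁ = c ∨ u₁ * v₂ - u₂ * v₁ = -c) ∧
  ∀ x y t : ℤ, (a : ℤ) * x + b * y = c * t → ∃ i j : ℤ,
    x = i * u₁ + j * v₁ ∧ y = i * u₂ + j * v₂ ∧ t = i * u₃ + j * v₃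

/-- every nonzero `(x, y)` with `c ∣ a x + b y` has sup norm at least `lam` -/
def Lng (a b c : ℕ) (lam : ℝ) : Prop := ∀ x y : ℤ, ¬ (x = 0 ∧ y = 0) →
  (c : ℤ) ∣ a * x + b * y → lam ≤ max |(x : ℝ)| |(y : ℝ)|

/-- BAS. A reduced basis.
Proof. (1) Pigeonhole on `(x, y) ∈ [0, s]^2`, `s = ⌊√c⌋`, `(s+1)^2 > c`: there is a nonzero
`(x, y)` with `c ∣ a x + b y` and `max(|x|,|y|) ≤ s`. (2) Let `N` be the minimum of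
`max(|x|,|y|)` over the nonzero `(x, y)` with `c ∣ a x + b y`, attained at `(u₁, u₂)`,
`u₃ = (a u₁ + b u₂)/c`. So `1 ≤ N`, `N^2 ≤ c`, `lam ≤ N`. By minimality `gcd(u₁,u₂,u₃) = 1`.
(3) Bezout: `r₁ u₁ + r₂ u₂ + r₃ u₃ = 1` and `q₁ a + q₂ b + q₃ (-c) = 1`. With `A = (a, b, -c)` put
`v = A × r`, i.e. `v₁ = b r₃ + c r₂`, `v₂ = -c r₁ - a r₃`, `v₃ = a r₂ - b r₁`. Then
`a v₁ + b v₂ = c v₃` and `u × v = A (u·r) - r (u·A) = A`, so `u₁ v₂ - u₂ v₁ = -c`.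
(4) Basis: let `Y = (x, y, t)` with `A·Y = 0`; `i = r·Y`, `Z = Y - i u`, `r·Z = 0`. `u × Y` is
parallel to `A` (both orthogonal to `A`'s orthogonal plane vectors): for all indices
`(u × Y)_k A_l = (u × Y)_l A_k` because `A × (u × Y) = u (A·Y) - Y (A·u) = 0`; hence
`u × Y = j A` with `j = q·(u × Y)`. Then `Z = (u × Z) × r = (u × Y) × r = j A × r = j v`
(identity `(u × Z) × r = Z (u·r) - u (Z·r)`).
(5) Replace `v` by `v + k u`: still a basis, same determinant. Say `|u₁| = N` (the other case is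
symmetric): choose `k` with `|v₁| ≤ N/2`; then `|v₂| N = |v₂ u₁| ≤ c + |u₂ v₁| ≤ c + N^2/2`, so
`N |v₂| ≤ 3 c/2` and `N |v₁| ≤ N^2/2 ≤ c`. `v ≠ 0` since the determinant is nonzero. -/
def StBas : Prop := ∀ (a b c : ℕ) (lam : ℝ), 1 ≤ a → 1 ≤ b → 1 ≤ c →
  Nat.gcd a (Nat.gcd b c) = 1 → Lng a b c lam →
  ∃ u₁ u₂ u₃ v₁ v₂ v₃ : ℤ, Bas a b c u₁ u₂ u₃ v₁ v₂ v₃ ∧
    1 ≤ max |u₁| |u₂| ∧ 1 ≤ max |v₁| |v₂| ∧ (max |u₁| |u₂|) ^ 2 ≤ c ∧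
    max |u₁| |u₂| * max |v₁| |v₂| ≤ 2 * c ∧ lam ≤ ((max |u₁| |u₂| : ℤ) : ℝ)

/-- PT. A solution near a given point.
Proof. Some integral solution `(x₀, y₀, t₀)` of `a x + b y = c t + d` exists (`gcd(a,b,c) = 1`).
As `u₁ v₂ - u₂ v₁ ≠ 0` there are real `σ, τ` with `P₁ - x₀ = σ u₁ + τ v₁`,
`P₂ - y₀ = σ u₂ + τ v₂`; take `(x₀,y₀,t₀) + ⌊σ⌋ u + ⌊τ⌋ v`. -/
def StPt : Prop := ∀ (a b c : ℕ) (d u₁ u₂ u₃ v₁ v₂ v₃ : ℤ) (P₁ P₂ : ℝ), 1 ≤ c →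
  Nat.gcd a (Nat.gcd b c) = 1 → Bas a b c u₁ u₂ u₃ v₁ v₂ v₃ →
  ∃ n₀ k₀ l₀ : ℤ, (a : ℤ) * n₀ + b * k₀ = c * l₀ + d ∧
    |(n₀ : ℝ) - P₁| ≤ |(u₁ : ℝ)| + |(v₁ : ℝ)| ∧ |(k₀ : ℝ) - P₂| ≤ |(u₂ : ℝ)| + |(v₂ : ℝ)|

/-- RES. The parameters `(i, j)` giving a prescribed residue triple modulo `M` form one residue
class modulo `M`.
Proof. Existence: `y = w - (n₀,k₀,l₀)` has `M ∣ a y₁ + b y₂ - c y₃`. With
`q₁ a + q₂ b - q₃ c = 1` subtract `(a y₁ + b y₂ - c y₃) (q₁, q₂, q₃)` from `y`: the result is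
congruent to `y` modulo `M` and lies in the lattice, so it is `i₀ u + j₀ v`. Uniqueness modulo
`M`: if `M` divides the three coordinates of `i u + j v` then `(i u + j v)/M` lies in the lattice,
so it is `i' u + j' v`, and `u, v` are linearly independent (`u₁ v₂ - u₂ v₁ ≠ 0`), so `i = M i'`,
`j = M j'`. Finally the number of `i < S` in a class modulo `M` is `S/M + θ`, `|θ| ≤ 1`. -/
def StRes : Prop := ∀ (a b c M S₁ S₂ : ℕ) (d u₁ u₂ u₃ v₁ v₂ v₃ n₀ k₀ l₀ w₁ w₂ w₃ : ℤ), 1 ≤ c →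
  1 ≤ M → Nat.gcd a (Nat.gcd b c) = 1 → Bas a b c u₁ u₂ u₃ v₁ v₂ v₃ →
  (a : ℤ) * n₀ + b * k₀ = c * l₀ + d → (M : ℤ) ∣ a * w₁ + b * w₂ - c * w₃ - d →
  |(((((range S₁) ×ˢ (range S₂)).filter (fun t : ℕ × ℕ =>
      (M : ℤ) ∣ n₀ + t.1 * u₁ + t.2 * v₁ - w₁ ∧ (M : ℤ) ∣ k₀ + t.1 * u₂ + t.2 * v₂ - w₂ ∧
      (M : ℤ) ∣ l₀ + t.1 * u₃ + t.2 * v₃ - w₃)).card : ℕ) : ℝ) -
    (S₁ : ℝ) * S₂ / (M : ℝ) ^ 2| ≤ (S₁ : ℝ) / M + (S₂ : ℝ) / M + 1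

/-- CN7. Parameters in a class modulo `30` for which given primes divide the product of the
coordinates.  Proof: copy `Pool/Agent/Helper48/BK/M_Cnt7.lean`. Let `P = ∏_{p ∈ T} p`, prime to
`30`. The condition says that the residue triple modulo `P` lies in
`C = {u ∈ Cl a b c d P : ∀ p ∈ T, p ∣ u₁ u₂ u₃}` and `|C| = ∏ kp ≤ P^2`
(`Pool.Agent.Helper48.BK.hCls`); for each `u ∈ C` combine the classes modulo `30` and modulo `P`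
(Chinese remainder) and apply RES with `M = 30 P`. -/
def StCn7 : Prop := ∀ (a b c S₁ S₂ : ℕ) (d u₁ u₂ u₃ v₁ v₂ v₃ n₀ k₀ l₀ : ℤ) (w₁ w₂ w₃ : ℕ)
  (T : Finset ℕ), 1 ≤ c → AdN a b c d → Bas a b c u₁ u₂ u₃ v₁ v₂ v₃ →
  (a : ℤ) * n₀ + b * k₀ = c * l₀ + d → (30 : ℤ) ∣ a * w₁ + b * w₂ - c * w₃ - d →
  (∀ p ∈ T, p.Prime ∧ 7 ≤ p) →
  |(((((range S₁) ×ˢ (range S₂)).filter (fun t : ℕ × ℕ =>
      ((30 : ℤ) ∣ n₀ + t.1 * u₁ + t.2 * v₁ - w₁ ∧ (30 : ℤ) ∣ k₀ + t.1 * u₂ + t.2 * v₂ - w₂ ∧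
        (30 : ℤ) ∣ l₀ + t.1 * u₃ + t.2 * v₃ - w₃) ∧
      ∀ p ∈ T, (p : ℤ) ∣ (n₀ + t.1 * u₁ + t.2 * v₁) * (k₀ + t.1 * u₂ + t.2 * v₂) *
        (l₀ + t.1 * u₃ + t.2 * v₃))).card : ℕ) : ℝ) -
    (S₁ : ℝ) * S₂ / 900 * ∏ p ∈ T, ((kp a b c d p : ℝ) / (p : ℝ) ^ 2)| ≤
    ((∏ p ∈ T, p : ℕ) : ℝ) ^ 2 * ((S₁ : ℝ) + S₂ + 1)

/-- MT. Lower bound for the model.
Proof. Let `B'` be the exponent of the fundamental lemma `Pool.Agent.Helper18.TR.fl` for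
`κ = 3`, `ε = 1/2`; take `B = 3 B' + 30`. BAS gives the basis, `N = max(|u₁|,|u₂|)`,
`N' = max(|v₁|,|v₂|)`, `lam ≤ N`, `N^2 ≤ c ≤ m`, `N N' ≤ 2 m`. PT with `P₁ = 9H/(2a)`,
`P₂ = 9H/(2b)`. Put `S₁ = ⌊H/(16 m N)⌋`, `S₂ = ⌊H/(16 m N')⌋`. Sizes:
`H/(16 m N) ≥ z^B/16` (as `m^2 N^2 z^{2B} ≤ m^3 z^{2B} ≤ H^2`) and, as `N' ≤ 2m/lam`,
`H/(16 m N') ≥ H lam/(32 m^2) ≥ z^B/32`; so `S₁, S₂ ≥ z^{3B'+20}` and
`S₁ S₂ ≥ (1/4) H^2/(256 m^2 N N') ≥ H^2/(2048 m^3)`.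
For `i < S₁`, `j < S₂` put `n = n₀ + i u₁ + j v₁`, `k = k₀ + i u₂ + j v₂`,
`l = l₀ + i u₃ + j v₃`. Then `|n - P₁| ≤ N + N' + S₁ N + S₂ N' ≤ 4 H/(16 m) = H/(4m) < H/(2a)`
(`N ≤ H/(16 m)` since `S₁ ≥ 1`, same for `N'`), so `4 H < a n ≤ 5 H`, similarly
`4 H < b k ≤ 5 H`, and `c l = a n + b k - d ∈ (7 H, 11 H]`. So `(n, k, l)` is a solution in the
windows with positive coordinates at most `X`; distinct `(i, j)` give distinct `(n, k)`.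
Sieve exactly as in `Pool/Agent/Helper48/BK/M_MainT.lean`: a class modulo `30`
(`Pool.Agent.Helper48.BK.StC30`), the primes `7 ≤ p ≤ z`, `g(p) = kp/p^2`, CN7 with
`∏ p ≤ z^{B'}`, main term `N₁ = S₁ S₂/900`, error `z^{2B'} (S₁ + S₂ + 1)`, Euler product
`StEP`, `V(z)^{-3} ≤ z^3`; the total error `z^{3B'+3} (S₁ + S₂ + 1)` is at most `N₁/8`. Result:
`TF ≥ N₁/8 ≥ H^2/(2048 · 7200 m^3)`. -/
def StMT : Prop := ∃ c₀ : ℝ, 0 < c₀ ∧ ∃ B : ℕ, ∀ (H X m z a b c : ℕ) (d : ℤ) (lam : ℝ),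
  1 ≤ a → 1 ≤ b → 1 ≤ c → a ≤ m → b ≤ m → c ≤ m → AdN a b c d → |d| ≤ H → 2 ≤ z → 1 ≤ lam →
  Lng a b c lam → (m : ℝ) ^ 2 * (z : ℝ) ^ B ≤ H * lam →
  (m : ℝ) ^ 3 * ((z : ℝ) ^ B) ^ 2 ≤ (H : ℝ) ^ 2 →
  11 * H ≤ a * X → 11 * H ≤ b * X → 11 * H ≤ c * X →
  c₀ * (H : ℝ) ^ 2 / (m : ℝ) ^ 3 ≤ TF (lz z) (lz z) (lz z) H X 1 1 (-1) a b c d

/-! ### E: exceptional lattices -/

/-- PER. Number of coefficient triples with a given relation.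
Proof. By symmetry `|x| ≥ |y|`, `x ≠ 0`. For given `(b, c)` there is at most one `a`, and
`x ∣ c t - b y`. Let `h = gcd(t, x)`; then `h ∣ b y` and `gcd(h, y) = 1`, so `h ∣ b`: at most `m/h`
values; for given `b`, `c` is in at most one class modulo `|x|/h`: at most `m h/|x| + 1` values.
Total at most `m^2/|x| + m/h`. (For `|y| > |x|` exchange the roles of `a` and `b`.) -/
def StPer : Prop := ∀ (m : ℕ) (x y t : ℤ), 1 ≤ m → ¬ (x = 0 ∧ y = 0) →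
  Int.gcd x (Int.gcd y t) = 1 →
  (((((Icc 1 m) ×ˢ (Icc 1 m) ×ˢ (Icc 1 m)).filter (fun v : ℕ × ℕ × ℕ =>
    (v.1 : ℤ) * x + v.2.1 * y = v.2.2 * t)).card : ℕ) : ℝ) ≤
    (m : ℝ) ^ 2 / max |(x : ℝ)| |(y : ℝ)| + m

open Classical in
/-- EXC. Few lattices with short vectors.
Proof. If `¬ Lng v S` there is a nonzero `(x, y)` of sup norm `< S` with `c ∣ a x + b y`; let
`t = (a x + b y)/c` and divide `(x, y, t)` by its gcd. So `v` satisfies a relation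
`a x + b y = c t` with `gcd(x,y,t) = 1`, `(x,y) ≠ 0`, `|x|, |y| < S`,
`|t| ≤ 2 m S/lo =: T` (`T ≥ 2`). There are at most `2 T + 1 ≤ 5T/2` values of `t`, and `8 j` pairs
`(x, y)` of sup norm `j`; with PER the count is at most
`(5T/2) ∑_{1 ≤ j < S} 8 j (m^2/j + m) ≤ (5T/2) (8 S m^2 + 8 m S^2) ≤ (5T/2) 16 S m^2
= 80 m^3 S^2/lo`. -/
def StExc : Prop := ∀ (m lo : ℕ) (S : ℝ), 1 ≤ lo → lo ≤ m → 1 ≤ S → S ≤ m →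
  (((((Icc lo m) ×ˢ (Icc lo m) ×ˢ (Icc lo m)).filter (fun v : ℕ × ℕ × ℕ =>
    ¬ Lng v.1 v.2.1 v.2.2 S)).card : ℕ) : ℝ) ≤ 80 * (m : ℝ) ^ 3 * S ^ 2 / lo

end Pool.Agent.Helper30.HX
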