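import Pool.Agent.Helper30.HX.Defs
import Pool.Agent.Helper48.BK.StB

/-!
# Project HX: a positive proportion of all triples is admissible with `d = 0`
-/

set_option autoImplicit false

namespace Pool.Agent.Helper30.HX

open Finset
open Pool.Agent.Helper48.BK (Admissible Box)

/-- NV. A positive proportion of all triples is admissible with `d = 0`.
Proof. Consider the triples `(a, b, -c)` with `a, b` odd, `c` even, `1 ≤ a, b, c ≤ m`: if `a, b, c`
are pairwise coprime the triple is admissible with `d = 0` (the sum is even, `gcd(0, gcd(a,b)) =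
gcd(a,b) = 1`, the signs differ). There are at least `(m/2) (m/2) ((m-1)/2)` such triples in all
(`⌈m/2⌉` odd, `⌊m/2⌋` even numbers). If two of the three numbers have a common divisor `> 1` it is
odd (at least one of the two is odd), so they are both divisible by an odd `k ≥ 3`, `k ≤ m`. For
given odd `k` there are at most `(m/k + 1)/2` odd and at most `m/(2k)` even multiples of `k` up to
`m`, so at most `((m/k+1)/2)^2 (m/2)` triples for the pair `(a,b)` and at most
`((m/k+1)/2) (m/(2k)) (m+1)/2` for each of the other two pairs. Sum over the odd `k` in `[3, m]`: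
`∑ 1/k^2 ≤ 1/9 + 1/25 + ∑_{k ≥ 7 odd} 1/k^2 ≤ 1/9 + 1/25 + 1/12 ≤ 0.235` (for odd `k ≥ 7`,
`1/k^2 ≤ (1/2) (1/(k-1) - 1/(k+1))`, telescoping to `1/12`), so the number of bad triples is at
most `(m^3/8) 3 · 0.235 + O(m^2 log m)` and at least
`(m^3/8) (1 - 0.705) - O(m^2 log m) ≥ m^3/100` triples remain for large `m`. -/
def StNV : Prop := ∃ m₀ : ℕ, ∀ m : ℕ, m₀ ≤ m →
  (m : ℝ) ^ 3 / 100 ≤ ((({v ∈ Box m | Admissible v.1 v.2.1 v.2.2 0} :
    Set (ℤ × ℤ × ℤ)).ncard : ℕ) : ℝ)

end Pool.Agent.Helper30.HX
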