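import Pool.Agent.Helper30.HX.StA
import Pool.Agent.Helper30.HX.StM

/-!
# Project HX: statements, top level (T)
-/

set_option autoImplicit false

namespace Pool.Agent.Helper30.HX

open Finset
open Pool.Agent.Helper48.BK (th lz Vz Pz win AdN Admissible Solv Box)

/-- TEL. Telescoping: `ggg - fff = (g-f)gg + f(g-f)g + ff(g-f)`, then reorder the variables so that
`g - f` comes first (sums commute). -/
def StTel : Prop := ∀ (f g : ℕ → ℝ) (H X a b c : ℕ),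
  TF g g g H X 1 1 (-1) a b c 0 - TF f f f H X 1 1 (-1) a b c 0 =
    TF (fun n => g n - f n) g g H X 1 1 (-1) a b c 0 +
    TF (fun n => g n - f n) f g H X 1 1 (-1) b a c 0 +
    TF (fun n => g n - f n) f f H X (-1) 1 1 c a b 0

/-- the triple is admissible (`d = 0`) but the equation `a p + b q = c r` has no prime solution
with all products at most `11 H` -/
def BadT (H a b c : ℕ) : Prop := AdN a b c 0 ∧ ¬ ∃ p q r : ℕ, p.Prime ∧ q.Prime ∧ r.Prime ∧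
  a * p + b * q = c * r ∧ a * p ≤ 11 * H ∧ b * q ≤ 11 * H ∧ c * r ≤ 11 * H

/-- CHB. Chebyshev: combination of everything at one height, no asymptotics.
Proof. Let `v = (a,b,c)` be bad, `Lng a b c lam` true. Since there is no prime solution,
`TF th th th (1,1,-1) a b c 0 = 0` (a nonzero term would be a prime solution), so by MT-type
hypothesis `η ≤ TF lz lz lz = |TF th.. - TF lz..|`, and by TEL one of the three terms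
`TF E ..` (`E = th - lz z`) is at least `η/3` in absolute value, so either `|TC ..| ≥ η/6` or
`|TF .. - TC ..| ≥ η/6` for one of the three arrangements
`(E, th, th; 1,1,-1; a,b,c)`, `(E, lz, th; 1,1,-1; b,a,c)`, `(E, lz, lz; -1,1,1; c,a,b)`.
`AdN a b c 0` gives `gcd(a,b,c) = 1`, in any order. Hence the number of bad `v` is at most
`∑_i (36/η^2) ∑ TC_i^2 + ∑_i (6/η) ∑ |TF_i - TC_i|`; the sums over `(a,b,c) ∈ [lo,m]^3` may be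
reordered. The hypotheses `hV` and `hD` bound the inner sums for all arrangements. -/
def StChb : Prop := ∀ (H X lo m z : ℕ) (lam η V D : ℝ), 1 ≤ lo → 0 < η →
  (∀ a ∈ Icc lo m, ∀ b ∈ Icc lo m, ∀ c ∈ Icc lo m, AdN a b c 0 → Lng a b c lam →
    η ≤ TF (lz z) (lz z) (lz z) H X 1 1 (-1) a b c 0) →
  (∀ g ∈ ({th, lz z} : Set (ℕ → ℝ)), ∀ k ∈ ({th, lz z} : Set (ℕ → ℝ)), ∀ s₁ s₂ s₃ : ℤ,
    Sg s₁ → Sg s₂ → Sg s₃ →
    (∑ a ∈ Icc lo m, ∑ b ∈ Icc lo m, ∑ c ∈ Icc lo m,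
      (if Nat.gcd a (Nat.gcd b c) = 1 then
        TC (fun n => th n - lz z n) g k H X s₁ s₂ s₃ a b c ^ 2 else 0) ≤ V) ∧
    (∑ a ∈ Icc lo m, ∑ b ∈ Icc lo m, ∑ c ∈ Icc lo m,
      |TF (fun n => th n - lz z n) g k H X s₁ s₂ s₃ a b c 0 -
        TC (fun n => th n - lz z n) g k H X s₁ s₂ s₃ a b c| ≤ D)) →
  (((({v ∈ (Icc lo m) ×ˢ (Icc lo m) ×ˢ (Icc lo m) | BadT H v.1 v.2.1 v.2.2 ∧
    Lng v.1 v.2.1 v.2.2 lam} : Set (ℕ × ℕ × ℕ)).ncard : ℕ) : ℝ)) ≤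
    108 * V / η ^ 2 + 18 * D / η

/-! ### parameters -/

/-- the parameters at one height: `m ≤ lo (log m)^{A+2}`, `H` between `m^{3/2} (log m)^C` and
twice this -/
def Par (A C m lo H : ℕ) : Prop := 1 ≤ lo ∧ lo ≤ m ∧ (m : ℝ) ≤ lo * Real.log m ^ (A + 2) ∧
  (m : ℝ) ^ 3 * (Real.log m ^ C) ^ 2 ≤ (H : ℝ) ^ 2 ∧
  (H : ℝ) ^ 2 ≤ 4 * (m : ℝ) ^ 3 * (Real.log m ^ C) ^ 2

/-- the length of the variables -/
def XX (lo H : ℕ) : ℕ := 11 * H / lo + 1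

/-- the sifting level `(log m)^b` -/
noncomputable def zz (b m : ℕ) : ℕ := ⌈Real.log m ^ b⌉₊ + 1

/-- SIZ. Sizes. Proof: `log m → ∞`, powers of `log m` are `o(m^{1/4})`.
`X ≤ 12 H/lo ≤ 24 √m (log m)^{C+A+2} ≤ m`, `X ≥ 11 H/m ≥ √m`, so `log m ≤ 2 log X`;
`zz ≤ (log m)^b + 2 ≤ (log m)^{b+1} ≤ (2 log X)^{b+1} ≤ (log X)^{b+2}`;
`|th x| ≤ log x`; `|lz z x| ≤ 1/V(z) ≤ log z / c ≤ (b+1) log log m / c ≤ log m` by
`Pool.Agent.Helper48.BK.hVz`; `H^2 ≤ 4 m^3 (log m)^{2C} ≤ m^4`. -/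
def StSiz : Prop := ∀ A b C : ℕ, ∃ m₀ : ℕ, ∀ m lo H : ℕ, m₀ ≤ m → Par A C m lo H →
  3 ≤ XX lo H ∧ XX lo H ≤ m ∧ 11 * H ≤ lo * XX lo H ∧ (XX lo H : ℝ) ≤ 12 * H / lo ∧
  Real.log m ≤ 2 * Real.log (XX lo H) ∧ Real.log (XX lo H) ≤ Real.log m ∧
  2 ≤ zz b m ∧ Real.log m ^ b ≤ zz b m ∧ (zz b m : ℝ) ≤ Real.log m ^ (b + 1) ∧
  (zz b m : ℝ) ≤ Real.log (XX lo H) ^ (b + 2) ∧ zz b m * m ≤ 4 * H ∧ 1 ≤ H ∧ H ≤ m ^ 2 ∧
  1 ≤ Real.log m ∧ (∀ x ≤ XX lo H, |th x| ≤ Real.log m) ∧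
  (∀ x ≤ XX lo H, |lz (zz b m) x| ≤ Real.log m)

/-- VB. The second moments with the parameters, `z = (log m)^{6A+60}`.
Proof. Write `l = log m`, `K = l^{A+2}`, `X = XX lo H`, `z = zz (6A+60) m`. Apply VAR with
`M = 2 l`, `Λ = m^2/H ≥ 1`, `F = ⌈l^{6A+60}⌉`, `Q = ⌈X^2 F/lo⌉`, and `APH` from APE with the
exponents `E = 2C + 7A + 60` (for `A`) and `B'` large; note `X ≤ 12 H/lo ≤ 12 H K/m` and
`X^2/lo ≤ 144 H^2 K^3/m^3 ≤ 576 l^{2C} K^3`, so `Q ≤ l^{B'-1} ≤ (log X)^{B'}` for suitable `B'`.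
`Rgh z (th - lz z)`: for `x > z` prime its prime divisor is `x > z`; if `lz z x ≠ 0` no prime
`≤ z` divides `x`. First term of VAR: `≤ (2l)^6 (12HK/m)^3 2 m^3/H = const l^6 K^3 H^2
= const l^{3A+12} H^2 ≤ const l^{3A+12-2C} H^4/m^3`, fine since `2C ≥ 4A + 14`. Second term:
`≤ const l^{20} K^5 H^5 m^{-5} [...] = const l^{5A+30} (H^4/m^3) (H/m^2) [...]` where
`(H/m^2) [...] ≤ (H/m^2) R + 2 ρ + 2l/F + 2l H/m^2 + 12 l^2/z`,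
`(H/m^2) R ≤ (H/m^2) 4 · 12 (H K/m) 2^E/l^E ≤ 192 · 2^E l^{2C+A+2-E}`, `ρ ≤ 9 l^2/z`,
`H/m^2 ≤ 2 l^C/√m`. Each is at most a small multiple of `l^{-6A-30}` for large `m`. -/
def StVB : Prop := ∀ (A C : ℕ) (ε : ℝ), 0 < ε → 2 * A + 7 ≤ C → ∃ m₀ : ℕ, ∀ m lo H : ℕ,
  m₀ ≤ m → Par A C m lo H →
  ∀ g ∈ ({th, lz (zz (6 * A + 60) m)} : Set (ℕ → ℝ)),
  ∀ k ∈ ({th, lz (zz (6 * A + 60) m)} : Set (ℕ → ℝ)), ∀ s₁ s₂ s₃ : ℤ,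
    Sg s₁ → Sg s₂ → Sg s₃ →
    ∑ a ∈ Icc lo m, ∑ b ∈ Icc lo m, ∑ c ∈ Icc lo m,
      (if Nat.gcd a (Nat.gcd b c) = 1 then
        TC (fun n => th n - lz (zz (6 * A + 60) m) n) g k H (XX lo H) s₁ s₂ s₃ a b c ^ 2 else 0) ≤
    ε * ((H : ℝ) ^ 4 / ((m : ℝ) ^ 3 * Real.log m ^ A))

/-- DB. The defects with the parameters. Proof: DEF with `M = 2 l`, `Λ = m^2/H ≥ 1`:
`(2l)^3 · 2 (m^3/H) (12 H K/m)^3 (2l)^2/z ≤ const l^{3A+11-(6A+60)} H^2 ≤ ε H^2/l^A`. -/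
def StDB : Prop := ∀ (A C : ℕ) (ε : ℝ), 0 < ε → ∃ m₀ : ℕ, ∀ m lo H : ℕ,
  m₀ ≤ m → Par A C m lo H →
  ∀ g ∈ ({th, lz (zz (6 * A + 60) m)} : Set (ℕ → ℝ)),
  ∀ k ∈ ({th, lz (zz (6 * A + 60) m)} : Set (ℕ → ℝ)), ∀ s₁ s₂ s₃ : ℤ,
    Sg s₁ → Sg s₂ → Sg s₃ →
    ∑ a ∈ Icc lo m, ∑ b ∈ Icc lo m, ∑ c ∈ Icc lo m,
      |TF (fun n => th n - lz (zz (6 * A + 60) m) n) g k H (XX lo H) s₁ s₂ s₃ a b c 0 -
        TC (fun n => th n - lz (zz (6 * A + 60) m) n) g k H (XX lo H) s₁ s₂ s₃ a b c| ≤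
    ε * ((H : ℝ) ^ 2 / Real.log m ^ A)

/-- ONE. Few bad triples at one height.
Proof. Let `B, c₀` be from MT, `b = 6A+60`, `C = B (b+1) + 2A + 10`,
`lam = √m/(log m)^{A+3}`, `η = c₀ H^2/m^3`, `z = zz b m`, `X = XX lo H`. MT applies to all
`a, b, c ∈ [lo, m]` with `Lng a b c lam`: `m^2 z^B ≤ m^2 (log m)^{B(b+1)} ≤ H lam` because
`H ≥ m^{3/2} (log m)^C`, and `m^3 z^{2B} ≤ H^2`; `11 H ≤ lo X`. VB and DB with
`ε` such that `108 ε/c₀^2 ≤ 1/4`, `18 ε/c₀ ≤ 1/4`; CHB gives at most `(1/2) m^3/(log m)^A` bad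
triples with `Lng`; EXC gives at most
`80 m^3 lam^2/lo ≤ 80 m^3 (log m)^{A+2-2A-6} ≤ (1/2) m^3/(log m)^A` triples without. -/
def StOne : Prop := ∀ A : ℕ, ∃ C m₀ : ℕ, ∀ m lo H : ℕ, m₀ ≤ m → Par A C m lo H →
  ((({v ∈ (Icc lo m) ×ˢ (Icc lo m) ×ˢ (Icc lo m) | BadT H v.1 v.2.1 v.2.2} :
    Set (ℕ × ℕ × ℕ)).ncard : ℕ) : ℝ) ≤ (m : ℝ) ^ 3 / Real.log m ^ A

/-- the natural triple is exceptional: admissible with `d = 0`, but no prime solution of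
`a p + b q = c r` with `max (p,q,r) ≤ √m (log m)^C` -/
def ExT (C m a b c : ℕ) : Prop := AdN a b c 0 ∧ ¬ ∃ p q r : ℕ, p.Prime ∧ q.Prime ∧ r.Prime ∧
  a * p + b * q = c * r ∧ ((max p (max q r) : ℕ) : ℝ) ≤ √m * Real.log m ^ C

/-- NAT. Proof: ONE with `A + 1`, `lo = ⌈m/(log m)^{A+3}⌉`, `H = ⌈m^{3/2} (log m)^C⌉`
(`Par (A+1) C m lo H` holds for large `m`). A triple with an entry below `lo` is one of at most
`3 m^2 (lo - 1) ≤ 3 m^3/(log m)^{A+3}`. A triple in `[lo,m]^3` which is not `BadT` has a prime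
solution with `p, q, r ≤ 11 H/lo ≤ 22 m^{3/2} (log m)^C (log m)^{A+3}/m
≤ √m (log m)^{C+A+4}`. -/
def StNat : Prop := ∀ A : ℕ, ∃ C m₀ : ℕ, ∀ m : ℕ, m₀ ≤ m →
  ((({v ∈ (Icc 1 m) ×ˢ (Icc 1 m) ×ˢ (Icc 1 m) | ExT C m v.1 v.2.1 v.2.2} :
    Set (ℕ × ℕ × ℕ)).ncard : ℕ) : ℝ) ≤ (m : ℝ) ^ 3 / Real.log m ^ A

/-- INT. From naturals to integers. Proof: copy `Pool/Agent/Helper48/BK/M_Int.lean` with `d = 0`:
up to a permutation and a global sign the triple is `(x, y, -w)` with naturals, six maps. -/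
def StInt : Prop := ∀ A : ℕ, ∃ C m₀ : ℕ, ∀ m : ℕ, m₀ ≤ m →
  ((({v ∈ Box m | Admissible v.1 v.2.1 v.2.2 0 ∧
    ¬ Solv v.1 v.2.1 v.2.2 0 (√m * Real.log m ^ C)} : Set (ℤ × ℤ × ℤ)).ncard : ℕ) : ℝ) ≤
    (m : ℝ) ^ 3 / Real.log m ^ A

/-- LOW. Few triples have a very small prime solution.
Proof. Let `Y = √m/(log m)^{A+1}`. For fixed primes `p, q, r ≤ Y` count `(a, b, c) ∈ Box m` with
`a p + b q + c r = 0`. If `r ≠ q`: for each `a` (`2m+1` values), `b` lies in one class modulo `r`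
(at most `(2m+1)/r + 1` values) and `c` is determined. If `r = q ≠ p`: `r ∣ a`, at most
`(2m+1)/r + 1` values of `a`, `2m+1` of `b`, `c` determined. If `p = q = r`: at most `(2m+1)^2`.
Sum: `≤ Y^2 ∑_{r ≤ Y} (2m+1)((2m+1)/r + 1) + Y (2m+1)^2
≤ Y^2 (3m)^2 (1 + log m) + 3 m Y^3 + 9 m^2 Y ≤ m^3/(log m)^A` for large `m`. -/
def StLow : Prop := ∀ A : ℕ, ∃ m₀ : ℕ, ∀ m : ℕ, m₀ ≤ m →
  ((({v ∈ Box m | Solv v.1 v.2.1 v.2.2 0 (√m / Real.log m ^ (A + 1))} :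
    Set (ℤ × ℤ × ℤ)).ncard : ℕ) : ℝ) ≤ (m : ℝ) ^ 3 / Real.log m ^ A

end Pool.Agent.Helper30.HX
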