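import Pool.Agent.Helper48.BK.Top
import Pool.Agent.Helper30.HX.M_TAU
import Pool.Agent.Helper30.HX.M_DET
import Pool.Agent.Helper30.HX.M_GS
import Pool.Agent.Helper30.HX.M_APG
import Pool.Agent.Helper30.HX.M_PHI
import Pool.Agent.Helper30.HX.M_APE
import Pool.Agent.Helper30.HX.M_PAR
import Pool.Agent.Helper30.HX.M_CLS
import Pool.Agent.Helper30.HX.M_CVX
import Pool.Agent.Helper30.HX.M_INN
import Pool.Agent.Helper30.HX.M_OME
import Pool.Agent.Helper30.HX.M_OFF
import Pool.Agent.Helper30.HX.M_CNA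
import Pool.Agent.Helper30.HX.M_VAR
import Pool.Agent.Helper30.HX.M_DEF
import Pool.Agent.Helper30.HX.M_BAS
import Pool.Agent.Helper30.HX.M_PT
import Pool.Agent.Helper30.HX.M_RES
import Pool.Agent.Helper30.HX.M_CN7
import Pool.Agent.Helper30.HX.M_MT
import Pool.Agent.Helper30.HX.M_PER
import Pool.Agent.Helper30.HX.M_EXC
import Pool.Agent.Helper30.HX.M_TEL
import Pool.Agent.Helper30.HX.M_CHB
import Pool.Agent.Helper30.HX.M_SIZ
import Pool.Agent.Helper30.HX.M_VB
import Pool.Agent.Helper30.HX.M_DB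
import Pool.Agent.Helper30.HX.M_ONE
import Pool.Agent.Helper30.HX.M_NAT
import Pool.Agent.Helper30.HX.M_INT
import Pool.Agent.Helper30.HX.M_LOW
import Pool.Agent.Helper30.HX.M_NV

/-!
# Project HX: assembly
-/

set_option autoImplicit false

namespace Pool.Agent.Helper30.HX

open Pool.Agent.Helper48.BK (tSW tC30 hLoc hEP)

theorem tDet : StDet := hDet hTau
theorem tAPE : StAPE := hAPE hAPG hPhi tSW
theorem tInn : StInn := hInn hCls hCvx
theorem tOff : StOff := hOff hOme
theorem tVar : StVar := hVar hPar tInn tOff tDet hCnA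
theorem tDef : StDef := hDef hCnA hGS
theorem tCn7 : StCn7 := hCn7 hRes
theorem tMT : StMT := hMT hBas hPt tCn7 hLoc tC30 hEP
theorem tExc : StExc := hExc hPer
theorem tChb : StChb := hChb hTel
theorem tVB : StVB := hVB tVar tAPE hSiz
theorem tDB : StDB := hDB tDef hSiz
theorem tOne : StOne := hOne tMT tChb tExc hSiz tVB tDB
theorem tNat : StNat := hNat tOne
theorem tInt : StInt := hInt tNat

end Pool.Agent.Helper30.HX
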